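import Pool.Agent.Lib.MP_651af7_nt.Es.Cx

/-! The coefficients of the auxiliary section and their sizes. -/

namespace Pool.Agent.Lib.MP_651af7_nt.Es

open Finset Matrix Height NumberField Pool.Agent.Lib.MP_e97e2b_nt Pool.Agent.Lib.MP_651af7_nt.Iv
  Pool.Agent.Lib.MP_651af7_nt.Vj Pool.Agent.Lib.MP_651af7_nt.Vj.P1 Pool.Agent.Lib.MP_651af7_nt.Rt
  Pool.Agent.Lib.Common.Subspace
open Pool.Agent.Lib.MP_8865d3_nt.Fa (Small Adm wt)

variable {R R' : Type} [CommRing R] [CommRing R'] {m : ℕ} {T : Fin m → Type} [∀ i, Fintype (T i)]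
  {κ : Type} [Fintype κ] [DecidableEq κ] {e : Fin m → ℕ}

theorem map_GC (φ : R →+* R') (c : CX T κ e → ℤ) (f : ∀ i, T i → R) (A : Fin m → Matrix κ κ R)
    (β : IX κ e) : φ (GC c f A β) = GC c (fun i τ => φ (f i τ)) (fun i => (A i).map φ) β := by
  simp only [GC, map_sum, map_mul, map_prod, map_intCast, map_cx]

theorem GC_scale (c : CX T κ e → ℤ) {f f' : ∀ i, T i → R} (s : Fin m → R)
    (h : ∀ i τ, f' i τ = s i * f i τ) (A : Fin m → Matrix κ κ R) (β : IX κ e) :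
    GC c f' A β = (∏ i, s i) * GC c f A β := by
  simp only [GC, h, mul_sum, mul_assoc, prod_mul_distrib]
  exact sum_congr rfl fun τ _ => by ring

theorem GC_smul (c : CX T κ e → ℤ) (f : ∀ i, T i → R) (s : Fin m → R) (A : Fin m → Matrix κ κ R)
    (β : IX κ e) : GC c f (fun i => s i • A i) β = (∏ i, s i ^ e i) * GC c f A β := by
  simp only [GC, cx_smul, mul_sum, prod_mul_distrib]
  exact sum_congr rfl fun τ _ => by ring

/- Reindex the columns by `(∀ i, T i) × IX κ e` (`Equiv.arrowProdEquivProdArrow`). -/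
theorem GC_eq (c : CX T κ e → ℤ) (f : ∀ i, T i → R) (A : Fin m → Matrix κ κ R) (β : IX κ e) :
    GC c f A β = ∑ α : IX κ e, GA c f α * ∏ i, cx (α i) (β i) (A i) := by
  simp only [GC, GA, sum_mul]
  rw [sum_comm, ← Fintype.sum_prod_type']
  refine Fintype.sum_equiv (Equiv.arrowProdEquivProdArrow (Fin m) T fun i => Mo κ (e i)) _ _
    fun τ => ?_
  simp [prod_mul_distrib, mul_assoc]

/- `cx_mul`, `Finset.prod_univ_sum`, `Fintype.piFinset_univ`, `Finset.sum_comm`. -/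
theorem GC_mul (c : CX T κ e → ℤ) (f : ∀ i, T i → R) (A B : Fin m → Matrix κ κ R) (ν : IX κ e) :
    GC c f (fun i => A i * B i) ν = ∑ β : IX κ e, GC c f A β * ∏ i, cx (β i) (ν i) (B i) := by
  simp only [GC, cx_mul, sum_mul]
  rw [sum_comm]
  refine sum_congr rfl fun τ _ => ?_
  simp only [mul_sum, mul_assoc]
  rw [prod_univ_sum, Fintype.piFinset_univ, mul_sum]
  refine sum_congr rfl fun β _ => ?_
  simp only [prod_mul_distrib, mul_assoc]

variable {na : Prop} (S : SN R na)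

/- `SN.int_sum_le`, `cx_le` with `u = U = 1`, `E_pos_case`. -/
theorem locO (hna : na) (c : CX T κ e → ℤ) {f : ∀ i, T i → R} {F : Fin m → ℝ} (hF : ∀ i, 0 ≤ F i)
    (hf : ∀ i τ, S.N (f i τ) ≤ F i) {Z : Fin m → Matrix κ κ R} (hZ : ∀ i l j, S.N (Z i l j) ≤ 1)
    (ν : IX κ e) : S.N (GC c f Z ν) ≤ ∏ i, F i := by
  have h1 := S.int_sum_le univ c (f := fun τ => ∏ i, (f i (τ i).1 * cx (τ i).2 (ν i) (Z i)))
    (M := ∏ i, F i) (prod_nonneg fun i _ => hF i) fun τ _ _ => S.prod_le _ fun i _ => by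
      have h2 := cx_le S (τ i).2 (ν i) (A := Z i) (u := fun _ => 1) (U := fun _ => 1)
        (fun _ => zero_le_one) (fun _ => zero_le_one) fun l j => by simpa using hZ i l j
      rw [E_pos_case hna] at h2
      simpa using S.mul_le (hf i (τ i).1) h2
  rw [E_pos_case hna, one_mul] at h1
  exact h1

theorem gc_sum_le {ι : Type} (s : Finset ι) {f : ι → R} {M : ℝ} (hM : 0 ≤ M)
    (h : ∀ i ∈ s, S.N (f i) ≤ M) : S.N (∑ i ∈ s, f i) ≤ s.card * M := by
  rcases s.eq_empty_or_nonempty with rfl | hs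
  · simp [S.zero]
  · refine (S.sum_le_card s hM h).trans (mul_le_mul_of_nonneg_right (E_le_self ?_) hM)
    exact_mod_cast hs.card_pos

theorem gc_cx_le {n : ℕ} (α β : Mo κ n) {A : Matrix κ κ R} {u U : κ → ℝ}
    (hu : ∀ l, 0 ≤ u l) (hU : ∀ j, 0 ≤ U j) (h : ∀ l j, S.N (A l j) ≤ u l * U j) :
    S.N (cx α β A) ≤
      ((Fintype.card κ : ℝ) + 1) ^ n * ((∏ l, u l ^ α.1 l) * ∏ j, U j ^ β.1 j) := by
  have hk : (0 : ℝ) ≤ Fintype.card κ := by positivity
  refine (cx_le S α β hu hU h).trans (mul_le_mul_of_nonneg_right ?_ (mul_nonneg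
    (prod_nonneg fun l _ => pow_nonneg (hu l) _) (prod_nonneg fun l _ => pow_nonneg (hU l) _)))
  exact (E_mono (pow_le_pow_left₀ hk (by linarith) n)).trans
    (E_le_self (one_le_pow₀ (by linarith)))

/- `(∏ det ^ e) * GC c f Z ν = GC c f (det • Z) ν = GC c f (adjugate M * (M * Z)) ν` (`GC_smul`,
`Matrix.adjugate_mul`), `GC_mul`; only the `β` outside `Bad` remain; plain triangle inequality
(`E_le_self`; if `κ` is empty or a cardinality is zero use `E_le_self` only for numbers `≥ 1`, e.g. bound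
`card κ` by `card κ + 1`); `cx_le` with `u = B i`, `U = 1` for the adjugate and with
`u l = B i * exp (g l * w i)` for `M * Z`; `card_Mo_le` twice. -/
theorem locX {c : CX T κ e → ℤ} {Γ : ℝ} (hΓ : 1 ≤ Γ) (hc : ∀ τ, |(c τ : ℝ)| ≤ Γ)
    {f : ∀ i, T i → R} {F : Fin m → ℝ} (hF : ∀ i, 0 ≤ F i) (hf : ∀ i τ, S.N (f i τ) ≤ F i)
    {M Z : Fin m → Matrix κ κ R} {B w : Fin m → ℝ} {g : κ → ℝ} {U : Fin m → κ → ℝ} {L : ℝ}
    (hB : ∀ i, 1 ≤ B i) (hU : ∀ i j, 0 ≤ U i j) (hA : ∀ i l j, S.N ((M i).adjugate l j) ≤ B i)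
    (hZ : ∀ i l j, S.N ((M i * Z i) l j) ≤ B i * Real.exp (g l * w i) * U i j)
    (h0 : ∀ β ∈ Bad e w g L, GC c f (fun i => (M i).adjugate) β = 0) (ν : IX κ e) :
    S.N ((∏ i, (M i).det ^ e i) * GC c f Z ν) ≤
      Γ * (∏ i, ((Fintype.card (T i) : ℝ) * F i *
        (4 ^ Fintype.card κ * (Fintype.card κ + 1) ^ 2 * B i ^ 2) ^ e i)) * Real.exp L *
        ∏ i, ∏ j, U i j ^ (ν i).1 j := by
  classical
  set k : ℝ := (Fintype.card κ : ℝ) with hk
  have hk0 : 0 ≤ k := by rw [hk]; positivity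
  have hB0 : ∀ i, 0 ≤ B i := fun i => zero_le_one.trans (hB i)
  have e1 : (∏ i, (M i).det ^ e i) * GC c f Z ν =
      ∑ β : IX κ e, GC c f (fun i => (M i).adjugate) β * ∏ i, cx (β i) (ν i) (M i * Z i) := by
    rw [← GC_smul, ← GC_mul]
    congr 1
    funext i
    rw [← Matrix.mul_assoc, Matrix.adjugate_mul, Matrix.smul_mul, Matrix.one_mul]
  have hMo : ∀ i, (Fintype.card (Mo κ (e i)) : ℝ) ≤ (2 ^ Fintype.card κ) ^ e i := fun i => by
    exact_mod_cast card_Mo_le
  have e2 : ∀ β : IX κ e, S.N (GC c f (fun i => (M i).adjugate) β) ≤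
      (∏ i, ((Fintype.card (T i) : ℝ) * (2 ^ Fintype.card κ) ^ e i)) *
        (Γ * ∏ i, (F i * ((k + 1) * B i) ^ e i)) := by
    intro β
    have hp : 0 ≤ Γ * ∏ i, (F i * ((k + 1) * B i) ^ e i) :=
      mul_nonneg (by linarith) (prod_nonneg fun i _ => mul_nonneg (hF i)
        (pow_nonneg (mul_nonneg (by linarith) (hB0 i)) _))
    refine (gc_sum_le S univ hp fun τ _ => ?_).trans (mul_le_mul_of_nonneg_right ?_ hp)
    · refine S.mul_le ((S.intCast_le _).trans ((E_mono (hc τ)).trans (E_le_self hΓ)))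
        (S.prod_le _ fun i _ => S.mul_le (hf i _) ?_)
      have h2 := gc_cx_le S (τ i).2 (β i) (A := (M i).adjugate) (u := fun _ => B i)
        (U := fun _ => 1) (fun _ => hB0 i) (fun _ => zero_le_one) fun l j => by
          simpa using hA i l j
      rw [prod_pow_eq_pow_sum, sum_Mo] at h2
      simpa [mul_pow] using h2
    · rw [card_univ, Fintype.card_pi]
      push_cast
      refine prod_le_prod (fun i _ => by positivity) fun i _ => ?_
      rw [Fintype.card_prod]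
      push_cast
      exact mul_le_mul_of_nonneg_left (hMo i) (by positivity)
  have hUp : 0 ≤ ∏ i, ∏ j, U i j ^ (ν i).1 j :=
    prod_nonneg fun i _ => prod_nonneg fun j _ => pow_nonneg (hU i j) _
  have hBp : 0 ≤ ∏ i, ((k + 1) * B i) ^ e i :=
    prod_nonneg fun i _ => pow_nonneg (mul_nonneg (by linarith) (hB0 i)) _
  have e3 : ∀ β : IX κ e, β ∉ Bad e w g L → S.N (∏ i, cx (β i) (ν i) (M i * Z i)) ≤
      (∏ i, ((k + 1) * B i) ^ e i) * Real.exp L * ∏ i, ∏ j, U i j ^ (ν i).1 j := by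
    intro β hβ
    have hβ' : ∑ i, w i * ∑ l, g l * ((β i).1 l : ℝ) ≤ L := by
      simpa [Bad] using hβ
    have h3 : ∀ i, S.N (cx (β i) (ν i) (M i * Z i)) ≤ ((k + 1) * B i) ^ e i *
        Real.exp (w i * ∑ l, g l * ((β i).1 l : ℝ)) * ∏ j, U i j ^ (ν i).1 j := by
      intro i
      have h2 := gc_cx_le S (β i) (ν i) (A := M i * Z i)
        (u := fun l => B i * Real.exp (g l * w i)) (U := U i)
        (fun _ => mul_nonneg (hB0 i) (Real.exp_nonneg _)) (hU i) (hZ i)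
      refine h2.trans (le_of_eq ?_)
      simp only [mul_pow, prod_mul_distrib]
      rw [prod_pow_eq_pow_sum, sum_Mo, mul_sum, Real.exp_sum]
      have : ∀ l, Real.exp (g l * w i) ^ (β i).1 l =
          Real.exp (w i * (g l * ((β i).1 l : ℝ))) := fun l => by
        rw [← Real.exp_nat_mul]; congr 1; ring
      simp only [this]
      ring
    refine (S.prod_le _ fun i _ => h3 i).trans ?_
    rw [prod_mul_distrib, prod_mul_distrib, ← Real.exp_sum]
    exact mul_le_mul_of_nonneg_right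
      (mul_le_mul_of_nonneg_left (Real.exp_le_exp.2 hβ') hBp) hUp
  have hq : 0 ≤ (∏ i, ((Fintype.card (T i) : ℝ) * (2 ^ Fintype.card κ) ^ e i)) *
        (Γ * ∏ i, (F i * ((k + 1) * B i) ^ e i)) *
      ((∏ i, ((k + 1) * B i) ^ e i) * Real.exp L * ∏ i, ∏ j, U i j ^ (ν i).1 j) := by
    refine mul_nonneg (mul_nonneg (prod_nonneg fun i _ => by positivity)
      (mul_nonneg (by linarith) (prod_nonneg fun i _ => mul_nonneg (hF i)
        (pow_nonneg (mul_nonneg (by linarith) (hB0 i)) _)))) ?_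
    exact mul_nonneg (mul_nonneg hBp (Real.exp_nonneg _)) hUp
  rw [e1]
  refine (gc_sum_le S univ hq fun β _ => ?_).trans ?_
  · by_cases hβ : β ∈ Bad e w g L
    · rw [h0 β hβ, zero_mul, S.zero]
      exact hq
    · exact S.mul_le (e2 β) (e3 β hβ)
  · have hc' : ((univ : Finset (IX κ e)).card : ℝ) ≤ ∏ i, ((2 : ℝ) ^ Fintype.card κ) ^ e i := by
      rw [card_univ, Fintype.card_pi]
      push_cast
      exact prod_le_prod (fun i _ => by positivity) fun i _ => hMo i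
    refine (mul_le_mul_of_nonneg_right hc' hq).trans (le_of_eq ?_)
    have e4 : ∏ i, ((Fintype.card (T i) : ℝ) * F i *
        (4 ^ Fintype.card κ * (k + 1) ^ 2 * B i ^ 2) ^ e i) =
        (∏ i, ((2 : ℝ) ^ Fintype.card κ) ^ e i) *
          (∏ i, ((Fintype.card (T i) : ℝ) * (2 ^ Fintype.card κ) ^ e i)) *
          (∏ i, (F i * ((k + 1) * B i) ^ e i)) * ∏ i, ((k + 1) * B i) ^ e i := by
      rw [← prod_mul_distrib, ← prod_mul_distrib, ← prod_mul_distrib]
      refine prod_congr rfl fun i _ => ?_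
      have : (4 : ℝ) ^ Fintype.card κ * (k + 1) ^ 2 * B i ^ 2 =
          2 ^ Fintype.card κ * 2 ^ Fintype.card κ * ((k + 1) * B i) * ((k + 1) * B i) := by
        rw [← mul_pow]; norm_num; ring
      rw [this, mul_pow, mul_pow, mul_pow]
      ring
    rw [e4]
    ring

end Pool.Agent.Lib.MP_651af7_nt.Es
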