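import Pool.Agent.Lib.MP_651af7_nt.Es.Defs

/-! Vocabulary for the auxiliary construction. -/

namespace Pool.Agent.Lib.MP_651af7_nt.Es

open Finset Matrix Height NumberField Pool.Agent.Lib.MP_e97e2b_nt Pool.Agent.Lib.MP_651af7_nt.Iv
  Pool.Agent.Lib.MP_651af7_nt.Vj Pool.Agent.Lib.MP_651af7_nt.Vj.P1 Pool.Agent.Lib.MP_651af7_nt.Rt
  Pool.Agent.Lib.Common.Subspace
open Pool.Agent.Lib.MP_8865d3_nt.Fa (Small Adm wt)

section sections

variable {R : Type} [CommRing R] {m : ℕ} {T : Fin m → Type} [∀ i, Fintype (T i)]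
  {κ : Type} [Fintype κ] [DecidableEq κ]

/-- Exponent vectors of total degree `e`. -/
abbrev Mo (κ : Type) [Fintype κ] [DecidableEq κ] (e : ℕ) : Type :=
  {a : κ → ℕ // a ∈ piAntidiag (univ : Finset κ) e}

/-- One exponent vector for each block. -/
abbrev IX (κ : Type) [Fintype κ] [DecidableEq κ] (e : Fin m → ℕ) : Type := ∀ i, Mo κ (e i)

/-- The index set of the basic sections. -/
abbrev CX (T : Fin m → Type) (κ : Type) [Fintype κ] [DecidableEq κ] (e : Fin m → ℕ) : Type :=
  ∀ i, T i × Mo κ (e i)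

/-- A monomial. -/
def mo {e : ℕ} (α : Mo κ e) (z : κ → R) : R := ∏ l, z l ^ α.1 l

/-- The coefficient of the monomial `β` in the monomial `α` of the linear forms `A`. -/
noncomputable def cx {e : ℕ} (α β : Mo κ e) (A : Matrix κ κ R) : R :=
  MvPolynomial.coeff (Finsupp.equivFunOnFinite.symm β.1)
    (mo α fun l => ∑ j, MvPolynomial.C (A l j) * MvPolynomial.X j)

/-- The coefficient of the monomial `α` in the auxiliary section. -/
def GA {e : Fin m → ℕ} (c : CX T κ e → ℤ) (f : ∀ i, T i → R) (α : IX κ e) : R :=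
  ∑ t : ∀ i, T i, (c (fun i => (t i, α i)) : R) * ∏ i, f i (t i)

/-- The coefficient of the monomial `β` in the auxiliary section after the substitutions `A`. -/
noncomputable def GC {e : Fin m → ℕ} (c : CX T κ e → ℤ) (f : ∀ i, T i → R)
    (A : Fin m → Matrix κ κ R) (β : IX κ e) : R :=
  ∑ τ, (c τ : R) * ∏ i, (f i (τ i).1 * cx (τ i).2 (β i) (A i))

open Classical in
/-- The exponents of large weight. -/
noncomputable def Bad (e : Fin m → ℕ) (w : Fin m → ℝ) (g : κ → ℝ) (L : ℝ) : Finset (IX κ e) :=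
  univ.filter fun β => L < ∑ i, w i * ∑ l, g l * ((β i).1 l : ℝ)

/-- The basis that consists of the rows other than `j₀` and a unit vector, as columns. -/
def Zm (Y : Matrix κ κ R) (j₀ α : κ) : Matrix κ κ R := (Y.updateRow j₀ (Pi.single α 1))ᵀ

end sections

variable {K : Type} [Field K] [NumberField K] {S : Finset (FinitePlace K)}
  {κ : Type} [Fintype κ] [DecidableEq κ]

/-- The opposite of a ratio of two coordinates of the normal vector. -/
def rt (Y : Matrix κ κ K) (j₀ α β : κ) : K := -(nv Y j₀ β / nv Y j₀ α)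

/-- The data of one block at scale `w`. -/
structure Blk (M : Pl S → Matrix κ κ K) (j₀ : κ) (c : Pl S → κ → ℝ) (Γ s w : ℝ)
    (Y : Matrix κ κ K) : Prop where
  pen : Pen M j₀ (fun p j => c p j * w) Y
  sz : ∀ (p : Pl S) i l, i ≠ j₀ → av p (Y i l) ≤ Real.exp (Γ * w)
  tame : ∀ p, Tame (av p) (s * w) (M p)

variable {a b : ℤ}

/-- The coordinates of the point have moderate size at `v`. -/
def SmP (v : AbsoluteValue K ℝ) (c : ℝ) (P : Pt (a : K) (b : K)) : Prop :=
  v (xc P) ≤ Real.exp c ∧ v (yc P) ≤ Real.exp c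

/-- The pair lies on a curve of bounded degree and small height. -/
def SpecX (D : ℕ) (c : ℝ) (P : Pt (a : K) (b : K)) (t : K) : Prop :=
  ∃ g : MvPolynomial (Fin 2) ℚ, Small D c g ∧ MvPolynomial.aeval ![xc P, t] g = 0

/-- The values of the dual forms at the normal vector are zero or not too small. -/
def Dual (M : Pl S → Matrix κ κ K) (j₀ : κ) (c : ℝ) (Y : Matrix κ κ K) : Prop :=
  ∀ p j, (nv Y j₀ ᵥ* (M p).adjugate) j = 0 ∨
    Real.exp (-c) * (⨆ l, av p (nv Y j₀ l)) ≤ av p ((nv Y j₀ ᵥ* (M p).adjugate) j)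

end Pool.Agent.Lib.MP_651af7_nt.Es
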