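import Pool.Agent.Lib.MP_651af7_nt.Es.Defs
import Pool.Agent.Lib.MP_651af7_nt.Vj.PF

/-! Product formula tools for the places of `Pl S`. -/

namespace Pool.Agent.Lib.MP_651af7_nt.Es

open Finset Matrix Height NumberField Pool.Agent.Lib.MP_e97e2b_nt Pool.Agent.Lib.MP_651af7_nt.Iv
  Pool.Agent.Lib.MP_651af7_nt.Vj Pool.Agent.Lib.MP_651af7_nt.Rt Pool.Agent.Lib.Common.Subspace

variable {K : Type} [Field K] [NumberField K] {S : Finset (FinitePlace K)}

theorem gsum_le_S (S : Finset (FinitePlace K)) {f g : AbsoluteValue K ℝ → ℝ} (hf : FinS f)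
    (hg : FinS g) (c : Pl S → ℝ) (h1 : ∀ p : Pl S, f (av p) ≤ g (av p) + c p)
    (h2 : ∀ v : FinitePlace K, v ∉ S → f v.1 ≤ g v.1) :
    gsum f ≤ gsum g + ∑ p, mu p * c p := by
  classical
  have hc : (Function.support fun v : FinitePlace K =>
      if h : v ∈ S then c (Sum.inr ⟨v, h⟩) else 0) ⊆ S := fun v hv => by
    by_contra h
    exact hv (dif_neg h)
  have e1 : ∑ v : S, c (Sum.inr v) =
      ∑ᶠ v : FinitePlace K, if h : v ∈ S then c (Sum.inr ⟨v, h⟩) else 0 := by
    rw [finsum_eq_sum_of_support_subset _ hc, ← Finset.sum_coe_sort S]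
    exact sum_congr rfl fun v _ => by rw [dif_pos v.2]
  have hf' : (Function.support fun v : FinitePlace K => f v.1).Finite := hf
  have hg' : (Function.support fun v : FinitePlace K => g v.1).Finite := hg
  have hc' := (S.finite_toSet).subset hc
  have e2 : ∑ᶠ v : FinitePlace K, f v.1 ≤ ∑ᶠ v : FinitePlace K, g v.1 + ∑ v : S, c (Sum.inr v) := by
    rw [e1, ← finsum_add_distrib hg' hc']
    refine finsum_le_finsum' hf' ((hg'.union hc').subset (Function.support_add _ _)) fun v => ?_
    by_cases h : v ∈ S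
    · rw [dif_pos h]
      exact h1 (Sum.inr ⟨v, h⟩)
    · rw [dif_neg h, add_zero]
      exact h2 v h
  have e3 : ∑ w : InfinitePlace K, w.mult • f w.1 ≤
      ∑ w : InfinitePlace K, w.mult • g w.1 + ∑ w : InfinitePlace K, w.mult * c (Sum.inl w) := by
    rw [← sum_add_distrib]
    refine sum_le_sum fun w _ => ?_
    rw [nsmul_eq_mul, nsmul_eq_mul, ← mul_add]
    exact mul_le_mul_of_nonneg_left (h1 (Sum.inl w)) (Nat.cast_nonneg _)
  unfold gsum
  rw [sum_archAbsVal_eq, sum_archAbsVal_eq, sum_nonarchAbsVal_eq f, sum_nonarchAbsVal_eq g,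
    Fintype.sum_sum_type]
  simp only [mu, Sum.elim_inl, Sum.elim_inr, Nat.cast_one, one_mul]
  linarith

theorem sup_pos {ι : Type} [Finite ι] (v : AbsoluteValue K ℝ) {x : ι → K} (hx : x ≠ 0) :
    0 < ⨆ l, v (x l) := by
  obtain ⟨l, hl⟩ := Function.ne_iff.1 hx
  exact (v.pos hl).trans_le (le_ciSup (f := fun l => v (x l)) (Finite.bddAbove_range _) l)

theorem le_sup_av {ι : Type} [Finite ι] (v : AbsoluteValue K ℝ) (x : ι → K) (l : ι) :
    v (x l) ≤ ⨆ l, v (x l) := le_ciSup (f := fun l => v (x l)) (Finite.bddAbove_range _) l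

theorem gsum_sup {ι : Type} [Finite ι] {x : ι → K} (hx : x ≠ 0) :
    gsum (fun v : AbsoluteValue K ℝ => Real.log (⨆ l, v (x l))) = logHeight x := by
  rw [← pf_log_prod (fun v => ⨆ l, v (x l)) fun v => sup_pos v hx, logHeight_eq_log_mulHeight,
    Height.mulHeight_eq hx]

theorem finS_sup {ι : Type} [Finite ι] (x : ι → K) :
    FinS fun v : AbsoluteValue K ℝ => Real.log (⨆ l, v (x l)) := by
  refine (Set.finite_iUnion fun l => finS_max (x l)).union
    (Set.finite_iUnion fun l => finS_max (x l)⁻¹) |>.subset fun v hv => ?_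
  by_contra hc
  simp only [Set.mem_union, Set.mem_iUnion, Function.mem_support, not_or, not_exists,
    not_not] at hc
  have h1 : ∀ y : K, Real.log (max (v.1 y) 1) = 0 → v.1 y ≤ 1 := fun y hy => by
    by_contra h
    exact (Real.log_pos (lt_max_of_lt_left (not_le.1 h))).ne' hy
  have h2 : ∀ l, v.1 (x l) = 0 ∨ v.1 (x l) = 1 := fun l => by
    rcases (v.1.nonneg (x l)).eq_or_lt with h | h
    · exact Or.inl h.symm
    · have h3 := h1 _ (hc.2 l)
      rw [map_inv₀, inv_le_one₀ h] at h3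
      exact Or.inr (le_antisymm (h1 _ (hc.1 l)) h3)
  apply hv
  by_cases h0 : ∀ l, v.1 (x l) = 0
  · simp [h0]
  · push Not at h0
    obtain ⟨l, hl⟩ := h0
    have : Nonempty ι := ⟨l⟩
    have : ⨆ l, v.1 (x l) = 1 := le_antisymm (ciSup_le fun l => h1 _ (hc.1 l))
      (((h2 l).resolve_left hl).ge.trans (le_sup_av v.1 x l))
    simp [this]

theorem fin_le_oneA (v : FinitePlace K) {x : K} (hx : IsIntegral ℤ x) : v.1 x ≤ 1 := by
  have h := FinitePlace.norm_le_one (K := K) v.maximalIdeal (⟨x, hx⟩ : 𝓞 K)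
  rwa [FinitePlace.norm_embedding_eq] at h

theorem fin_naA (v : FinitePlace K) : IsNonarchimedean v.1 := FinitePlace.add_le v

/-- The product formula for an algebraic integer. -/
theorem pf_int (S : Finset (FinitePlace K)) {g : K} (hg : g ≠ 0) (hi : IsIntegral ℤ g) :
    0 ≤ ∑ p : Pl S, mu p * Real.log (av p g) := by
  have h := gsum_le_S S (finS_log g) pf_finS_zero (fun p => Real.log (av p g))
    (fun p => by simp) fun v _ => Real.log_nonpos (v.1.nonneg g) (fin_le_oneA v hi)
  rwa [gsum_log hg, pf_gsum_zero, zero_add] at h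

theorem mu_le_two (p : Pl S) : mu p ≤ 2 := by
  rcases p with w | v
  · simp only [mu, Sum.elim_inl, InfinitePlace.mult]
    split_ifs <;> omega
  · exact one_le_two

theorem av_det_le {F : Type*} [Field F] (v : AbsoluteValue F ℝ) {n : Type*} [Fintype n]
    [DecidableEq n] (A : Matrix n n F) (r c : n → ℝ) (h : ∀ i j, v (A i j) ≤ r i * c j) :
    v A.det ≤ (Fintype.card n).factorial * ((∏ i, r i) * ∏ j, c j) := by
  rw [Matrix.det_apply]
  refine (v.sum_le _ _).trans ?_
  have h1 : ∀ g : Equiv.Perm n,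
      v (Equiv.Perm.sign g • ∏ i, A (g i) i) ≤ (∏ i, r i) * ∏ j, c j := by
    intro g
    have h2 : v (Equiv.Perm.sign g • ∏ i, A (g i) i) = v (∏ i, A (g i) i) := by
      rcases Int.units_eq_one_or (Equiv.Perm.sign g) with h | h <;> simp [h]
    rw [h2, map_prod]
    refine (Finset.prod_le_prod (fun i _ => v.nonneg _) (fun i _ => h (g i) i)).trans ?_
    rw [Finset.prod_mul_distrib, Equiv.prod_comp g r]
  refine (Finset.sum_le_sum fun g _ => h1 g).trans ?_
  simp [Fintype.card_perm]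

theorem int_det {ι : Type} [Fintype ι] [DecidableEq ι] {Y : Matrix ι ι K} (h : ∀ i, IntV (Y i)) :
    IsIntegral ℤ Y.det := IsIntegral.det fun i j => h i j

/-- At a finite place a form with small coefficients is small at integral points. -/
theorem fin_dot_le {ι : Type} [Fintype ι] (v : FinitePlace K) {w y : ι → K} {B : ℝ} (hB : 0 ≤ B)
    (hw : ∀ l, v.1 (w l) ≤ B) (hy : IntV y) : v.1 (w ⬝ᵥ y) ≤ B := by
  refine Finset.sum_induction (fun l => w l * y l) (fun a => v.1 a ≤ B)
    (fun a b ha hb => (fin_naA v a b).trans (max_le ha hb)) (by simpa using hB) fun l _ => ?_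
  rw [map_mul]
  exact (mul_le_of_le_one_right (v.1.nonneg _) (fin_le_oneA v (hy l))).trans (hw l)

end Pool.Agent.Lib.MP_651af7_nt.Es
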