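import Pool.Agent.Lib.MP_651af7_nt.Es.Cx
import Pool.Agent.Lib.MP_651af7_nt.Rt.PF

/-! Large deviations and patterns. -/

namespace Pool.Agent.Lib.MP_651af7_nt.Es

open Finset Matrix Height NumberField Pool.Agent.Lib.MP_e97e2b_nt Pool.Agent.Lib.MP_651af7_nt.Iv
  Pool.Agent.Lib.MP_651af7_nt.Vj Pool.Agent.Lib.MP_651af7_nt.Vj.P1 Pool.Agent.Lib.MP_651af7_nt.Rt
  Pool.Agent.Lib.Common.Subspace
open Pool.Agent.Lib.MP_8865d3_nt.Fa (Small Adm wt)

variable {κ : Type} [Fintype κ] [DecidableEq κ]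

lemma cherB_hoeff {ι : Type} [Fintype ι] (z : ι → ℝ) {M : ℝ} (s : ℝ) (hM : 0 < M)
    (habs : ∀ β, |z β| ≤ M) (h0 : ∑ β, z β = 0) :
    ∑ β, Real.exp (s * z β) ≤ Fintype.card ι * Real.exp ((s * M) ^ 2 / 2) := by
  calc ∑ β, Real.exp (s * z β) ≤ ∑ β, (Real.cosh (s * M) + z β / M * Real.sinh (s * M)) := by
        refine Finset.sum_le_sum fun β _ => ?_
        have h1 := Real.exp_mul_le_cosh_add_mul_sinh (t := z β / M)
          (by rw [abs_div, abs_of_pos hM, div_le_one hM]; exact habs β) (s * M)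
        rwa [show z β / M * (s * M) = s * z β by field_simp] at h1
    _ = Fintype.card ι * Real.cosh (s * M) := by
        rw [Finset.sum_add_distrib, ← Finset.sum_mul, ← Finset.sum_div, h0]
        simp
    _ ≤ _ := mul_le_mul_of_nonneg_left (Real.cosh_le_exp_half_sq _) (Nat.cast_nonneg _)

lemma cherB_mean [Nonempty κ] (n : ℕ) (g : κ → ℝ) :
    ∑ β : Mo κ n, (∑ l, g l * (β.1 l : ℝ) - n * ((∑ l, g l) / Fintype.card κ)) = 0 := by
  have hc : (Fintype.card κ : ℝ) ≠ 0 := Nat.cast_ne_zero.2 Fintype.card_ne_zero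
  have h1 : ∀ l, ∑ β : Mo κ n, (β.1 l : ℝ) = n * Fintype.card (Mo κ n) / Fintype.card κ := by
    intro l
    rw [eq_div_iff hc, mul_comm, Fintype.card_coe, ← auxpoly_sum_coord n l,
      Finset.sum_coe_sort (piAntidiag (univ : Finset κ) n) fun x => (x l : ℝ)]
  rw [Finset.sum_sub_distrib, Finset.sum_comm]
  simp only [← Finset.mul_sum, h1, ← Finset.sum_mul, Finset.sum_const, Finset.card_univ,
    nsmul_eq_mul]
  ring

lemma cherB_abs [Nonempty κ] {n : ℕ} (β : Mo κ n) {g : κ → ℝ} {Γ : ℝ} (hg : ∀ l, |g l| ≤ Γ) :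
    |∑ l, g l * (β.1 l : ℝ) - n * ((∑ l, g l) / Fintype.card κ)| ≤ n * (2 * Γ) := by
  have hc : (0 : ℝ) < Fintype.card κ := Nat.cast_pos.2 Fintype.card_pos
  have a0 : ∑ l, (β.1 l : ℝ) = n := by exact_mod_cast sum_Mo β
  have a1 : |∑ l, g l * (β.1 l : ℝ)| ≤ Γ * n := by
    rw [← a0, Finset.mul_sum]
    refine (Finset.abs_sum_le_sum_abs _ _).trans (Finset.sum_le_sum fun j _ => ?_)
    rw [abs_mul, Nat.abs_cast]
    exact mul_le_mul_of_nonneg_right (hg j) (Nat.cast_nonneg _)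
  have a2 : |(∑ l, g l) / Fintype.card κ| ≤ Γ := by
    rw [abs_div, abs_of_pos hc, div_le_iff₀ hc]
    refine (Finset.abs_sum_le_sum_abs _ _).trans ((Finset.sum_le_sum fun j _ => hg j).trans ?_)
    rw [Finset.sum_const, Finset.card_univ, nsmul_eq_mul, mul_comm]
  refine (abs_sub _ _).trans ?_
  rw [abs_mul, Nat.abs_cast]
  have := mul_le_mul_of_nonneg_left a2 (Nat.cast_nonneg (α := ℝ) n)
  linarith

/- Put `z i β = w i * (∑ l, g l * β l - e i * (∑ l, g l) / card κ) / W`; then `|z| ≤ 2 Γ` (`sum_Mo`) and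
`∑ β, z i β = 0` (`auxpoly_sum_coord`).  By convexity `exp (s z) ≤ cosh (s M) + z / M * sinh (s M)` for
`|z| ≤ M = 2 Γ`, so `∑ β, exp (s z) ≤ card * exp (s ^ 2 M ^ 2 / 2)` (`Real.cosh_le_exp_half_sq`).  On `Bad`,
`η m < ∑ i, z i (β i)`; take `s = η / M ^ 2`; `Finset.prod_univ_sum`.  Compare `card_low` (`Rt/Cher`). -/
theorem card_bad [Nonempty κ] {m : ℕ} (e : Fin m → ℕ) (w : Fin m → ℝ) (g : κ → ℝ) {W Γ η : ℝ}
    (hW : 0 < W) (hΓ : 0 < Γ) (hη : 0 ≤ η) (hw : ∀ i, 0 ≤ w i) (h1 : ∀ i, e i * w i ≤ W)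
    (hg : ∀ l, |g l| ≤ Γ) :
    ((Bad e w g ((∑ l, g l) / Fintype.card κ * ∑ i, e i * w i + η * m * W)).card : ℝ) ≤
      Real.exp (-(η ^ 2 * m / (8 * Γ ^ 2))) * ∏ i, (Fintype.card (Mo κ (e i)) : ℝ) := by
  classical
  obtain ⟨μ, hμ⟩ : ∃ μ, μ = (∑ l, g l) / Fintype.card κ := ⟨_, rfl⟩
  obtain ⟨s, hs⟩ : ∃ s, s = η / (2 * Γ) ^ 2 := ⟨_, rfl⟩
  have hs0 : 0 ≤ s := by rw [hs]; positivity
  obtain ⟨z, hz⟩ : ∃ z : ∀ i, Mo κ (e i) → ℝ, ∀ i β,
      z i β = w i / W * (∑ l, g l * (β.1 l : ℝ) - e i * μ) := ⟨_, fun _ _ => rfl⟩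
  have hone : ∀ i, ∑ β, Real.exp (s * z i β) ≤
      Fintype.card (Mo κ (e i)) * Real.exp ((s * (2 * Γ)) ^ 2 / 2) := fun i => by
    refine cherB_hoeff (z i) s (by positivity) (fun β => ?_) ?_
    · have h2 : 0 ≤ w i / W := div_nonneg (hw i) hW.le
      rw [hz, abs_mul, abs_of_nonneg h2, hμ]
      refine (mul_le_mul_of_nonneg_left (cherB_abs β hg) h2).trans ?_
      rw [← mul_assoc]
      refine mul_le_of_le_one_left (by positivity) ?_
      rw [div_mul_eq_mul_div, div_le_one hW, mul_comm]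
      exact h1 i
    · simp only [hz, hμ]
      rw [← Finset.mul_sum, cherB_mean, mul_zero]
  rw [← hμ]
  have hlow : ∀ β ∈ Bad e w g (μ * ∑ i, e i * w i + η * m * W),
      Real.exp (s * (η * m)) ≤ ∏ i, Real.exp (s * z i (β i)) := by
    intro β hβ
    have hβ' := (Finset.mem_filter.1 hβ).2
    have hsum : ∑ i, z i (β i) =
        (∑ i, w i * ∑ l, g l * ((β i).1 l : ℝ) - μ * ∑ i, e i * w i) / W := by
      rw [Finset.mul_sum, ← Finset.sum_sub_distrib, Finset.sum_div]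
      refine Finset.sum_congr rfl fun i _ => ?_
      rw [hz]
      ring
    rw [← Real.exp_sum, ← Finset.mul_sum]
    refine Real.exp_le_exp.2 (mul_le_mul_of_nonneg_left ?_ hs0)
    rw [hsum, le_div_iff₀ hW]
    linarith
  have hA : ((Bad e w g (μ * ∑ i, e i * w i + η * m * W)).card : ℝ) * Real.exp (s * (η * m)) ≤
      ∑ β : IX κ e, ∏ i, Real.exp (s * z i (β i)) := by
    rw [← nsmul_eq_mul, ← Finset.sum_const]
    exact (Finset.sum_le_sum hlow).trans (Finset.sum_le_sum_of_subset_of_nonneg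
      (Finset.subset_univ _) fun β _ _ => Finset.prod_nonneg fun i _ => (Real.exp_pos _).le)
  have hB : ∑ β : IX κ e, ∏ i, Real.exp (s * z i (β i)) = ∏ i, ∑ β, Real.exp (s * z i β) := by
    rw [Finset.prod_univ_sum, Fintype.piFinset_univ]
  have hC := Finset.prod_le_prod (s := univ)
    (fun i _ => Finset.sum_nonneg fun β _ => (Real.exp_pos _).le) fun i _ => hone i
  rw [Finset.prod_mul_distrib, Finset.prod_const, Finset.card_univ, Fintype.card_fin,
    ← Real.exp_nat_mul] at hC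
  refine le_of_mul_le_mul_right ((hA.trans (hB.le.trans hC)).trans (le_of_eq ?_))
    (Real.exp_pos (s * (η * m)))
  rw [mul_right_comm, ← Real.exp_add, mul_comm]
  congr 2
  rw [hs]
  field_simp
  ring

variable {K : Type} [Field K] [NumberField K]

/- Round `b p j / q` up to the grid of mesh `σ = min 1 (δ / (2 * (∑ p, mu p) * card κ + 1))`. -/
theorem exists_patX (S : Finset (FinitePlace K)) (κ : Type) [Fintype κ] (Γ : ℝ) {δ : ℝ}
    (hδ : 0 < δ) : ∃ G : Finset (Pl S → κ → ℝ),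
      (∀ c ∈ G, (∀ p j, |c p j| ≤ |Γ| + 1) ∧ vol c ≤ -(δ / 2)) ∧
      ∀ (q : ℝ) (b : Pl S → κ → ℝ), 0 < q → (∀ p j, |b p j| ≤ Γ * q) → vol b ≤ -(δ * q) →
        ∃ c ∈ G, ∀ p j, b p j ≤ c p j * q := by
  classical
  obtain ⟨M, hM⟩ : ∃ M : ℝ, M = (∑ p : Pl S, (mu p : ℝ)) * Fintype.card κ := ⟨_, rfl⟩
  have hM0 : 0 ≤ M := hM ▸ mul_nonneg (Finset.sum_nonneg fun p _ => Nat.cast_nonneg _)
    (Nat.cast_nonneg _)
  obtain ⟨σ, hσ0, hσ1, hσM⟩ : ∃ σ : ℝ, 0 < σ ∧ σ ≤ 1 ∧ M * σ ≤ δ / 2 := by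
    refine ⟨min 1 (δ / (2 * M + 1)), lt_min one_pos (by positivity), min_le_left _ _, ?_⟩
    refine (mul_le_mul_of_nonneg_left (min_le_right _ _) hM0).trans ?_
    rw [← mul_div_assoc, div_le_div_iff₀ (by positivity) two_pos]
    linarith
  let V : Finset ℝ := (Finset.Icc ⌈-|Γ| / σ⌉ ⌈|Γ| / σ⌉).image fun k : ℤ => σ * k
  refine ⟨(Fintype.piFinset fun _ : Pl S => Fintype.piFinset fun _ : κ => V).filter
    fun c => (∀ p j, |c p j| ≤ |Γ| + 1) ∧ vol c ≤ -(δ / 2),
    fun c hc => (Finset.mem_filter.1 hc).2, fun q b hq hb hv => ?_⟩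
  have h1 : ∀ p j, -|Γ| ≤ b p j / q ∧ b p j / q ≤ |Γ| := fun p j => abs_le.1 (by
    rw [abs_div, abs_of_pos hq, div_le_iff₀ hq]
    exact (hb p j).trans (mul_le_mul_of_nonneg_right (le_abs_self Γ) hq.le))
  have h2 : ∀ p j, b p j / q ≤ σ * (⌈b p j / q / σ⌉ : ℤ) := fun p j => by
    have := Int.le_ceil (b p j / q / σ)
    rwa [div_le_iff₀ hσ0, mul_comm] at this
  have h3 : ∀ p j, σ * (⌈b p j / q / σ⌉ : ℤ) ≤ b p j / q + σ := fun p j => by
    have := mul_le_mul_of_nonneg_left (Int.ceil_lt_add_one (b p j / q / σ)).le hσ0.le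
    rwa [mul_add, mul_div_cancel₀ _ hσ0.ne', mul_one] at this
  refine ⟨fun p j => σ * (⌈b p j / q / σ⌉ : ℤ), Finset.mem_filter.2 ⟨?_, fun p j => ?_, ?_⟩,
    fun p j => (div_le_iff₀ hq).1 (h2 p j)⟩
  · exact Fintype.mem_piFinset.2 fun p => Fintype.mem_piFinset.2 fun j =>
      Finset.mem_image.2 ⟨_, Finset.mem_Icc.2
        ⟨Int.ceil_mono (div_le_div_of_nonneg_right (h1 p j).1 hσ0.le),
          Int.ceil_mono (div_le_div_of_nonneg_right (h1 p j).2 hσ0.le)⟩, rfl⟩
  · have h4 := h1 p j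
    have h5 := h2 p j
    have h6 := h3 p j
    rw [abs_le]
    constructor <;> linarith
  · have h4 : vol (fun p j => σ * (⌈b p j / q / σ⌉ : ℤ)) ≤ vol fun p j => b p j / q + σ :=
      Finset.sum_le_sum fun p _ => mul_le_mul_of_nonneg_left
        (Finset.sum_le_sum fun j _ => h3 p j) (Nat.cast_nonneg _)
    have h5 : (vol fun p j => b p j / q + σ) = vol b / q + M * σ := by
      rw [vol, vol, hM, Finset.sum_div, Finset.sum_mul, Finset.sum_mul, ← Finset.sum_add_distrib]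
      refine Finset.sum_congr rfl fun p _ => ?_
      rw [Finset.sum_add_distrib, ← Finset.sum_div, Finset.sum_const, Finset.card_univ,
        nsmul_eq_mul]
      ring
    have h6 : vol b / q ≤ -δ := by
      rw [div_le_iff₀ hq]
      linarith
    linarith

variable {S : Finset (FinitePlace K)}

theorem Pen.mono {M : Pl S → Matrix κ κ K} {j₀ : κ} {b b' : Pl S → κ → ℝ} {Y : Matrix κ κ K}
    (h : Pen M j₀ b Y) (hb : ∀ p j, b p j ≤ b' p j) : Pen M j₀ b' Y :=
  ⟨h.int, h.det, fun p i j hi => (h.bd p i j hi).trans (Real.exp_le_exp.2 (hb p j))⟩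

theorem Tame.mono {v : AbsoluteValue K ℝ} {c c' : ℝ} {M : Matrix κ κ K} (h : Tame v c M)
    (hc : c ≤ c') : Tame v c' M :=
  ⟨fun i j => (h.1 i j).trans (Real.exp_le_exp.2 hc),
    (Real.exp_le_exp.2 (neg_le_neg hc)).trans h.2⟩

omit [NumberField K] in
theorem cher_det_le {v : AbsoluteValue K ℝ} {B : ℝ} {A : Matrix κ κ K}
    (h : ∀ i j, v (A i j) ≤ B) : v A.det ≤ (Fintype.card κ).factorial * B ^ Fintype.card κ := by
  rw [Matrix.det_apply]
  refine (v.sum_le _ _).trans ?_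
  have h1 : ∀ g : Equiv.Perm κ,
      v (Equiv.Perm.sign g • ∏ i, A (g i) i) ≤ B ^ Fintype.card κ := by
    intro g
    have h2 : v (Equiv.Perm.sign g • ∏ i, A (g i) i) = v (∏ i, A (g i) i) := by
      rcases Int.units_eq_one_or (Equiv.Perm.sign g) with h | h <;> simp [h]
    rw [h2, map_prod]
    refine (Finset.prod_le_prod (fun i _ => v.nonneg _) (fun i _ => h (g i) i)).trans ?_
    rw [Finset.prod_const, Finset.card_univ]
  refine (Finset.sum_le_sum fun g _ => h1 g).trans ?_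
  simp [Fintype.card_perm]

/- An entry of the adjugate is a determinant with a unit row (`Matrix.adjugate_apply`); copy
`abv_det_le` (`Common/Subspace/Norm`) for `K`, or `Matrix.det_le`. -/
theorem adj_le {v : AbsoluteValue K ℝ} {c : ℝ} (hc : 0 ≤ c) {M : Matrix κ κ K}
    (h : ∀ i j, v (M i j) ≤ Real.exp c) (i j : κ) :
    v (M.adjugate i j) ≤ (Fintype.card κ).factorial * Real.exp (Fintype.card κ * c) := by
  rw [Matrix.adjugate_apply, Real.exp_nat_mul]
  refine cher_det_le fun a b => ?_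
  rw [Matrix.updateRow_apply]
  split_ifs with e
  · rw [Pi.single_apply]
    split_ifs
    · rw [map_one]
      exact Real.one_le_exp hc
    · rw [map_zero]
      exact (Real.exp_pos _).le
  · exact h a b

/- `det M • y = adjugate M *ᵥ (M *ᵥ y)`, `adj_le`; `w₀ = log (card κ * (card κ)! + 1)`. -/
theorem blk_of_pen (κ : Type) [Fintype κ] [DecidableEq κ] : ∃ w₀ : ℝ,
    ∀ (M : Pl S → Matrix κ κ K) (j₀ : κ) (c : Pl S → κ → ℝ) (Γ s w : ℝ) (Y : Matrix κ κ K),
      w₀ ≤ w → 0 ≤ s → s ≤ 1 → (∀ p j, |c p j| ≤ Γ) → Pen M j₀ (fun p j => c p j * w) Y →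
      (∀ p, Tame (av p) (s * w) (M p)) → Blk M j₀ c (Γ + Fintype.card κ + 2) s w Y := by
  have hN : (0 : ℝ) ≤ (Fintype.card κ : ℝ) * (Fintype.card κ).factorial := by positivity
  refine ⟨Real.log (Fintype.card κ * (Fintype.card κ).factorial + 1), ?_⟩
  intro M j₀ c Γ s w Y hw hs hs1 hc hP hT
  have hw0 : 0 ≤ w := (Real.log_nonneg (by linarith)).trans hw
  have hexp : (Fintype.card κ : ℝ) * (Fintype.card κ).factorial ≤ Real.exp w := by
    have h := Real.exp_le_exp.2 hw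
    rw [Real.exp_log (by linarith)] at h
    linarith
  refine ⟨hP, fun p i l hi => ?_, hT⟩
  have hsw : 0 ≤ s * w := mul_nonneg hs hw0
  have hsw1 : s * w ≤ w := mul_le_of_le_one_left hw0 hs1
  have e1 : (M p).det * Y i l = ∑ j, (M p).adjugate l j * (M p *ᵥ Y i) j := by
    have h : (M p).adjugate *ᵥ (M p *ᵥ Y i) = (M p).det • Y i := by
      rw [Matrix.mulVec_mulVec, Matrix.adjugate_mul, Matrix.smul_mulVec, Matrix.one_mulVec]
    have h2 := congrFun h l
    rw [Pi.smul_apply, smul_eq_mul] at h2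
    rw [← h2]
    rfl
  have e2 : av p (M p).det * av p (Y i l) ≤ Fintype.card κ * ((Fintype.card κ).factorial *
      Real.exp (Fintype.card κ * (s * w)) * Real.exp (Γ * w)) := by
    rw [← map_mul, e1]
    refine ((av p).sum_le _ _).trans ?_
    have h : ∀ j, av p ((M p).adjugate l j * (M p *ᵥ Y i) j) ≤ (Fintype.card κ).factorial *
        Real.exp (Fintype.card κ * (s * w)) * Real.exp (Γ * w) := by
      intro j
      rw [map_mul]
      refine mul_le_mul (adj_le hsw (hT p).1 l j) ((hP.bd p i j hi).trans ?_) ((av p).nonneg _)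
        (by positivity)
      exact Real.exp_le_exp.2 (mul_le_mul_of_nonneg_right ((le_abs_self _).trans (hc p j)) hw0)
    refine (Finset.sum_le_sum fun j _ => h j).trans ?_
    rw [Finset.sum_const, Finset.card_univ, nsmul_eq_mul]
  have e3 : Real.exp (-(s * w)) * av p (Y i l) ≤ Real.exp w *
      (Real.exp (Fintype.card κ * w) * Real.exp (Γ * w)) := by
    refine (mul_le_mul_of_nonneg_right (hT p).2 ((av p).nonneg _)).trans (e2.trans ?_)
    have h : Real.exp (Fintype.card κ * (s * w)) ≤ Real.exp (Fintype.card κ * w) :=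
      Real.exp_le_exp.2 (mul_le_mul_of_nonneg_left hsw1 (Nat.cast_nonneg _))
    calc (Fintype.card κ : ℝ) * ((Fintype.card κ).factorial *
          Real.exp (Fintype.card κ * (s * w)) * Real.exp (Γ * w))
        = (Fintype.card κ * (Fintype.card κ).factorial) *
          (Real.exp (Fintype.card κ * (s * w)) * Real.exp (Γ * w)) := by ring
      _ ≤ _ := mul_le_mul hexp (mul_le_mul_of_nonneg_right h (Real.exp_pos _).le)
          (by positivity) (Real.exp_pos _).le
  have e4 : av p (Y i l) = Real.exp (s * w) * (Real.exp (-(s * w)) * av p (Y i l)) := by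
    rw [← mul_assoc, ← Real.exp_add, add_neg_cancel, Real.exp_zero, one_mul]
  rw [e4]
  refine (mul_le_mul (Real.exp_le_exp.2 hsw1) e3
    (mul_nonneg (Real.exp_pos _).le ((av p).nonneg _)) (Real.exp_pos _).le).trans (le_of_eq ?_)
  rw [← Real.exp_add, ← Real.exp_add, ← Real.exp_add]
  congr 1
  ring

theorem cher_gsum_mono {f g : AbsoluteValue K ℝ → ℝ} (hf : FinS f) (hg : FinS g)
    (h1 : ∀ w : InfinitePlace K, f w.1 ≤ g w.1) (h2 : ∀ v : FinitePlace K, f v.1 ≤ g v.1) :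
    gsum f ≤ gsum g := by
  unfold gsum
  rw [sum_archAbsVal_eq, sum_archAbsVal_eq]
  refine add_le_add (sum_le_sum fun w _ => nsmul_le_nsmul_right (h1 w) _) ?_
  exact finsum_le_finsum' hf hg fun v => h2 ⟨v.1, v.2⟩

omit [NumberField K] in
theorem cher_log_le {I J : Type} [Fintype I] [Fintype J] {g : K} (hg : g ≠ 0) (α : I → K)
    (nα : I → ℕ) (β : J → K) (nβ : J → ℕ) (v : AbsoluteValue K ℝ) (t : ℝ)
    (h : v g * (∏ i, max 1 (v (α i)) ^ nα i) * Real.exp t ≤ ∏ j, max 1 (v (β j)) ^ nβ j) :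
    Real.log (v g) + (∑ i, nα i * Real.log (max (v (α i)) 1) + t) ≤
      ∑ j, nβ j * Real.log (max (v (β j)) 1) := by
  have hg0 : 0 < v g := v.pos hg
  have hA : 0 < ∏ i, max 1 (v (α i)) ^ nα i := prod_pos fun i _ => by positivity
  have h2 := Real.log_le_log (mul_pos (mul_pos hg0 hA) (Real.exp_pos t)) h
  rw [Real.log_mul (mul_pos hg0 hA).ne' (Real.exp_pos t).ne', Real.log_mul hg0.ne' hA.ne',
    Real.log_exp, Real.log_prod (fun i _ => by positivity),
    Real.log_prod (fun i _ => by positivity)] at h2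
  simp only [Real.log_pow, max_comm (1 : ℝ)] at h2
  linarith

/- As `pfS` (`Rt/PF`): `log (v g) + ∑ nα log max + G v ≤ ∑ nβ log max` at all normalised absolute values,
where `G v = ∑ p, if av p = v then gain p else 0`; an infinite place is `av (inl w)`. -/
theorem pfB {I J : Type} [Fintype I] [Fintype J] {g : K} (hg : g ≠ 0) (α : I → K) (nα : I → ℕ)
    (β : J → K) (nβ : J → ℕ) (gain : Pl S → ℝ)
    (h1 : ∀ v : FinitePlace K, v ∉ S →
      v.1 g * ∏ i, max 1 (v.1 (α i)) ^ nα i ≤ ∏ j, max 1 (v.1 (β j)) ^ nβ j)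
    (h2 : ∀ p, av p g * (∏ i, max 1 (av p (α i)) ^ nα i) * Real.exp (gain p) ≤
      ∏ j, max 1 (av p (β j)) ^ nβ j) :
    ∑ i, nα i * logHeight₁ (α i) + ∑ p, mu p * gain p ≤ ∑ j, nβ j * logHeight₁ (β j) := by
  classical
  have hfin : FinS fun w : AbsoluteValue K ℝ => ∑ p : Pl S, if av p = w then gain p else 0 :=
    finS_sum univ fun p _ => (pf_gsum_ite p (gain p)).1
  have hsum : gsum (fun w : AbsoluteValue K ℝ => ∑ p : Pl S, if av p = w then gain p else 0) =
      ∑ p, mu p * gain p := by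
    rw [gsum_sum univ fun p _ => (pf_gsum_ite p (gain p)).1]
    exact sum_congr rfl fun p _ => (pf_gsum_ite p (gain p)).2
  have hat : ∀ p : Pl S, (∑ q : Pl S, if av q = av p then gain q else 0) = gain p := by
    intro p
    rw [Finset.sum_eq_single p, if_pos rfl]
    · intro q _ hq
      exact if_neg fun e => hq (pf_av_inj e)
    · intro h
      exact absurd (mem_univ p) h
  have hα : ∀ i ∈ (univ : Finset I), FinS fun w : AbsoluteValue K ℝ =>
      (nα i : ℝ) * Real.log (max (w (α i)) 1) := fun i _ => (finS_max _).const_mul _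
  have hβ : ∀ j ∈ (univ : Finset J), FinS fun w : AbsoluteValue K ℝ =>
      (nβ j : ℝ) * Real.log (max (w (β j)) 1) := fun i _ => (finS_max _).const_mul _
  have key := cher_gsum_mono ((finS_log g).add ((finS_sum univ hα).add hfin)) (finS_sum univ hβ)
    (fun w => by
      have h := cher_log_le hg α nα β nβ (av (Sum.inl w : Pl S)) _ (h2 (Sum.inl w))
      rw [← hat (Sum.inl w)] at h
      exact h)
    (fun v => by
      by_cases hv : v ∈ S
      · have h := cher_log_le hg α nα β nβ (av (Sum.inr ⟨v, hv⟩ : Pl S)) _ (h2 (Sum.inr ⟨v, hv⟩))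
        rw [← hat (Sum.inr ⟨v, hv⟩)] at h
        exact h
      · have h0 : (∑ q : Pl S, if av q = v.1 then gain q else 0) = 0 := by
          refine Finset.sum_eq_zero fun q _ => if_neg fun e => ?_
          rcases q with w | u
          · exact pf_inf_ne w v e
          · have e2 : u.1 = v := Subtype.ext e
            exact hv (e2 ▸ u.2)
        rw [h0]
        refine cher_log_le hg α nα β nβ v.1 0 ?_
        rw [Real.exp_zero, mul_one]
        exact h1 v hv)
  rw [gsum_add (finS_log g) ((finS_sum univ hα).add hfin), gsum_add (finS_sum univ hα) hfin,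
    gsum_log hg, hsum, gsum_sum univ hα, gsum_sum univ hβ] at key
  simp only [gsum_const_mul (finS_max _), gsum_max, zero_add] at key
  exact key

/- `HeightOneSpectrum.adicAbv` of an integer is at most one (`FinitePlace.norm_le_one`,
`FinitePlace.maximalIdeal`, `norm_embedding_eq`). -/
theorem fin_le_one (v : FinitePlace K) {z : K} (hz : IsIntegral ℤ z) : v.1 z ≤ 1 := by
  have h := FinitePlace.norm_le_one K v.maximalIdeal (⟨z, hz⟩ : 𝓞 K)
  rw [FinitePlace.norm_embedding_eq] at h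
  exact h

theorem fin_na (v : FinitePlace K) : IsNonarchimedean v.1 := fun x y => FinitePlace.add_le v x y

end Pool.Agent.Lib.MP_651af7_nt.Es
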