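import Pool.Agent.Lib.MP_651af7_nt.Es.Defs

/-! Integral balanced representatives. -/

namespace Pool.Agent.Lib.MP_651af7_nt.Es

open Finset Matrix Height NumberField Pool.Agent.Lib.MP_e97e2b_nt Pool.Agent.Lib.MP_651af7_nt.Iv
  Pool.Agent.Lib.MP_651af7_nt.Vj Pool.Agent.Lib.MP_651af7_nt.Rt Pool.Agent.Lib.Common.Subspace

variable {K : Type} [Field K] [NumberField K]

open scoped nonZeroDivisors in
theorem anorm_mink (K : Type) [Field K] [NumberField K] : ∃ B : ℝ, 0 ≤ B ∧
    ∀ (I : (FractionalIdeal (𝓞 K)⁰ K)ˣ) (f : InfinitePlace K → ℝ), (∀ w, 0 ≤ f w) →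
      (FractionalIdeal.absNorm I.1 : ℝ) * B < ∏ w, f w ^ w.mult →
      ∃ a ∈ (I : FractionalIdeal (𝓞 K)⁰ K), a ≠ 0 ∧ ∀ w : InfinitePlace K, w a < f w := by
  classical
  refine ⟨(mixedEmbedding.minkowskiBound K 1).toReal, ENNReal.toReal_nonneg, fun I f hf h => ?_⟩
  have h0 : (0 : ℝ) ≤ (FractionalIdeal.absNorm I.1 : ℝ) := by
    exact_mod_cast FractionalIdeal.absNorm_nonneg I.1
  have h1 : mixedEmbedding.minkowskiBound K I =
      ENNReal.ofReal (FractionalIdeal.absNorm I.1) * mixedEmbedding.minkowskiBound K 1 := by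
    rw [mixedEmbedding.minkowskiBound, mixedEmbedding.minkowskiBound,
      mixedEmbedding.volume_fundamentalDomain_fractionalIdealLatticeBasis,
      mixedEmbedding.volume_fundamentalDomain_fractionalIdealLatticeBasis, Units.val_one,
      FractionalIdeal.absNorm_one, Rat.cast_one, ENNReal.ofReal_one, one_mul, mul_assoc]
  have h2 := mixedEmbedding.exists_ne_zero_mem_ideal_lt K I (f := fun w => NNReal.mk (f w) (hf w)) ?_
  · exact h2
  rw [mixedEmbedding.convexBodyLT_volume, h1,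
    ← ENNReal.ofReal_toReal (mixedEmbedding.minkowskiBound_lt_top K 1).ne,
    ← ENNReal.ofReal_mul h0]
  have h3 : (0 : ℝ) < ∏ w, f w ^ w.mult :=
    (mul_nonneg h0 ENNReal.toReal_nonneg).trans_lt h
  refine ((ENNReal.ofReal_lt_ofReal_iff h3).2 h).trans_le ?_
  have h4 : ENNReal.ofReal (∏ w, f w ^ w.mult) =
      ((∏ w : InfinitePlace K, (NNReal.mk (f w) (hf w)) ^ w.mult : NNReal) : ENNReal) := by
    rw [← ENNReal.ofReal_coe_nnreal]
    congr 1
    simp only [NNReal.coe_prod, NNReal.coe_pow]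
    rfl
  rw [h4]
  refine le_mul_of_one_le_left' ?_
  exact_mod_cast mixedEmbedding.one_le_convexBodyLTFactor K

open scoped nonZeroDivisors in
theorem anorm_int (K : Type) [Field K] [NumberField K] (ι : Type) [Fintype ι] :
    ∃ C : ℝ, 0 ≤ C ∧ ∀ x : ι → 𝓞 K, x ≠ 0 → ∃ c : K, c ≠ 0 ∧
    IntV (c • fun l => (x l : K)) ∧ ∀ (w : InfinitePlace K) (l : ι),
      w (c * x l) ≤ Real.exp (C + logHeight (fun l => (x l : K)) / Module.finrank ℚ K) := by
  classical
  obtain ⟨B, hB, H⟩ := anorm_mink K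
  refine ⟨Real.log (B + 1), Real.log_nonneg (by linarith), fun x hx => ?_⟩
  have hx' : (fun l => (x l : K)) ≠ 0 := by
    intro h0
    apply hx
    funext l
    have h1 : (x l : K) = 0 := congrFun h0 l
    exact RingOfIntegers.coe_eq_zero_iff.1 h1
  set J : Ideal (𝓞 K) := Ideal.span (Set.range x) with hJ
  have hJ0 : J ≠ ⊥ := by
    intro h0
    apply hx
    funext l
    exact (Ideal.span_eq_bot.1 h0) _ ⟨l, rfl⟩
  have hJ1 : (J : FractionalIdeal (𝓞 K)⁰ K) ≠ 0 := FractionalIdeal.coeIdeal_ne_zero.2 hJ0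
  have hN : (0 : ℝ) < Ideal.absNorm J := by
    exact_mod_cast Nat.pos_of_ne_zero (Ideal.absNorm_eq_zero_iff.not.2 hJ0)
  set M : InfinitePlace K → ℝ := fun w => ⨆ l, w (x l) with hM
  have hle : ∀ (w : InfinitePlace K) l, w (x l) ≤ M w := fun w l =>
    le_ciSup (f := fun l => w (x l : K)) (Finite.bddAbove_range _) l
  have hM0 : ∀ w, 0 < M w := by
    intro w
    obtain ⟨l, hl⟩ := Function.ne_iff.1 hx'
    exact (InfinitePlace.pos_iff.2 hl).trans_le (hle w l)
  set d : ℕ := Module.finrank ℚ K with hd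
  have hd0 : d ≠ 0 := Module.finrank_pos.ne'
  set T : ℝ := Real.exp (Real.log (B + 1) + logHeight (fun l => (x l : K)) / d) with hT
  have hT0 : 0 < T := Real.exp_pos _
  have hTd : T ^ d = (B + 1) ^ d * mulHeight fun l => (x l : K) := by
    rw [hT, Real.exp_add, Real.exp_log (by linarith), mul_pow, ← Real.exp_nat_mul,
      mul_div_cancel₀ _ (Nat.cast_ne_zero.2 hd0), logHeight_eq_log_mulHeight,
      Real.exp_log (mulHeight_pos _)]
  have hP : 0 < ∏ w : InfinitePlace K, M w ^ w.mult :=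
    Finset.prod_pos fun w _ => pow_pos (hM0 w) _
  have hH := NumberField.mulHeight_eq hx'
  have hF := NumberField.absNorm_mul_finprod_finitePlace_eq_one hx
  obtain ⟨a, ha, ha0, hw⟩ := H (Units.mk0 (J : FractionalIdeal (𝓞 K)⁰ K)⁻¹ (inv_ne_zero hJ1))
    (fun w => T / M w) (fun w => (div_pos hT0 (hM0 w)).le) (by
      simp only [Units.val_mk0, map_inv₀, FractionalIdeal.coeIdeal_absNorm, Rat.cast_inv,
        Rat.cast_natCast, div_pow, Finset.prod_div_distrib, Finset.prod_pow_eq_pow_sum,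
        InfinitePlace.sum_mult_eq]
      rw [← hd, hTd, hH, mul_comm (∏ w : InfinitePlace K, M w ^ w.mult), ← mul_assoc,
        mul_div_cancel_right₀ _ hP.ne', ← hJ] at *
      rw [eq_inv_of_mul_eq_one_right hF, mul_comm]
      refine mul_lt_mul_of_pos_right ?_ (inv_pos.2 hN)
      exact (lt_add_one B).trans_le (le_self_pow₀ (by linarith) hd0))
  refine ⟨a, ha0, fun l => ?_, fun w l => ?_⟩
  · rw [Units.val_mk0, FractionalIdeal.mem_inv_iff hJ1] at ha
    have h1 := ha (x l) (FractionalIdeal.mem_coeIdeal_of_mem _ (Ideal.subset_span ⟨l, rfl⟩))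
    obtain ⟨z, hz⟩ := (FractionalIdeal.mem_one_iff _).1 h1
    have h2 : (a • fun l => (x l : K)) l = algebraMap (𝓞 K) K z := hz.symm
    rw [h2]
    exact z.2
  · rw [map_mul]
    have h1 := (lt_div_iff₀ (hM0 w)).1 (hw w)
    exact (mul_le_mul_of_nonneg_left (hle w l) (apply_nonneg w a)).trans h1.le

/- Clear denominators (`logHeight_smul_eq_logHeight`), so `x` is integral, `J = span (range x)`.
`I = J⁻¹` as a unit of the fractional ideals; `mixedEmbedding.exists_ne_zero_mem_ideal_lt` with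
`f w = c₀ * exp (h / d) / max_l w (x l)`; `convexBodyLT_volume`, `one_le_convexBodyLTFactor`,
`volume_fundamentalDomain_fractionalIdealLatticeBasis`; `∏ f w ^ mult w = c₀ ^ d / absNorm J` by
`NumberField.mulHeight_eq`, `absNorm_mul_finprod_finitePlace_eq_one`, `InfinitePlace.sum_mult_eq`. -/
theorem normalize (ι : Type) [Fintype ι] : ∃ C : ℝ, 0 ≤ C ∧ ∀ x : ι → K, x ≠ 0 → ∃ c : K, c ≠ 0 ∧
    IntV (c • x) ∧ ∀ (w : InfinitePlace K) (l : ι),
      w (c * x l) ≤ Real.exp (C + logHeight x / Module.finrank ℚ K) := by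
  classical
  obtain ⟨C, hC, H⟩ := anorm_int K ι
  refine ⟨C, hC, fun x hx => ?_⟩
  have : Algebra.IsAlgebraic ℤ K := (IsFractionRing.comap_isAlgebraic_iff (K := ℚ)).2 inferInstance
  obtain ⟨r, hr, hi⟩ := Algebra.IsAlgebraic.exists_integral_multiples ℤ (univ.image x)
  have hr' : (r : K) ≠ 0 := Int.cast_ne_zero.2 hr
  let y : ι → 𝓞 K := fun l => ⟨r • x l, hi _ (mem_image_of_mem _ (mem_univ l))⟩
  have hy : (fun l => (y l : K)) = (r : K) • x := by
    funext l
    change r • x l = _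
    simp
  have hy0 : y ≠ 0 := by
    intro h0
    apply smul_ne_zero hr' hx
    rw [← hy, h0]
    funext l
    simp
  obtain ⟨c, hc, h1, h2⟩ := H y hy0
  rw [hy, smul_smul] at h1
  refine ⟨c * r, mul_ne_zero hc hr', h1, fun w l => ?_⟩
  have h3 := h2 w l
  rw [hy, logHeight_smul_eq_logHeight _ hr', congrFun hy l] at h3
  rw [mul_assoc]
  exact h3

end Pool.Agent.Lib.MP_651af7_nt.Es
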