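import Pool.Agent.Lib.MP_651af7_nt.Es.AApx

/-! The product formula for the penultimate minimum. -/

namespace Pool.Agent.Lib.MP_651af7_nt.Es

open Finset Matrix Height NumberField Pool.Agent.Lib.MP_e97e2b_nt Pool.Agent.Lib.MP_651af7_nt.Iv
  Pool.Agent.Lib.MP_651af7_nt.Vj Pool.Agent.Lib.MP_651af7_nt.Rt Pool.Agent.Lib.Common.Subspace

variable {K : Type} [Field K] [NumberField K]

theorem apen_minor {κ : Type} [Fintype κ] [DecidableEq κ] (v : AbsoluteValue K ℝ)
    (M Y : Matrix κ κ K) (j₀ : κ) (b : κ → ℝ)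
    (hb : ∀ i j, i ≠ j₀ → v ((M *ᵥ Y i) j) ≤ Real.exp (b j)) (j : κ) :
    v ((nv Y j₀ ᵥ* M.adjugate) j) ≤
      (Fintype.card κ).factorial * (Real.exp (-b j) * Real.exp (∑ l, b l)) := by
  have h1 : (nv Y j₀ ᵥ* M.adjugate) j = ((Y * Mᵀ).updateRow j₀ (Pi.single j 1)).det := by
    rw [← adjugate_apply, adjugate_mul_distrib, ← adjugate_transpose, mul_apply, vecMul,
      dotProduct]
    refine sum_congr rfl fun l _ => ?_
    rw [transpose_apply, nv, mul_comm]
  rw [h1]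
  refine (av_det_le v _ (fun i => if i = j₀ then Real.exp (-b j) else 1)
    (fun l => Real.exp (b l)) fun i l => ?_).trans (le_of_eq ?_)
  · rw [updateRow_apply]
    by_cases hi : i = j₀
    · rw [if_pos hi, if_pos hi]
      by_cases hl : l = j
      · subst hl
        rw [← Real.exp_add]
        simp
      · rw [Pi.single_eq_of_ne hl, map_zero]
        positivity
    · rw [if_neg hi, if_neg hi, one_mul]
      have : (Y * Mᵀ) i l = (M *ᵥ Y i) l := by
        simp [mul_apply, mulVec, dotProduct, mul_comm]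
      rw [this]
      exact hb i l hi
  · rw [prod_ite_eq', if_pos (mem_univ _), Real.exp_sum]

theorem apen_pick {κ : Type} [Fintype κ] [DecidableEq κ] [Nonempty κ] (v : AbsoluteValue K ℝ)
    (M : Matrix κ κ K) (hM : M.det ≠ 0) (b : κ → ℝ) (w y : κ → K) (hne : w ⬝ᵥ y ≠ 0)
    (hb : ∀ j, v ((M *ᵥ y) j) ≤ Real.exp (b j)) :
    ∃ j, (w ᵥ* M.adjugate) j ≠ 0 ∧ v M.det * v (w ⬝ᵥ y) ≤
      Fintype.card κ * (v ((w ᵥ* M.adjugate) j) * Real.exp (b j)) := by
  have h1 : M.det * (w ⬝ᵥ y) = ∑ j, (w ᵥ* M.adjugate) j * (M *ᵥ y) j := by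
    have : (w ᵥ* M.adjugate) ⬝ᵥ (M *ᵥ y) = M.det * (w ⬝ᵥ y) := by
      rw [← dotProduct_mulVec, mulVec_mulVec, adjugate_mul, smul_mulVec, one_mulVec,
        dotProduct_smul, smul_eq_mul]
    rw [← this, dotProduct]
  have hN : (0 : ℝ) < Fintype.card κ := by exact_mod_cast Fintype.card_pos
  have h2 : ∑ _j : κ, v M.det * v (w ⬝ᵥ y) / Fintype.card κ ≤
      ∑ j, v ((w ᵥ* M.adjugate) j) * Real.exp (b j) := by
    rw [sum_const, card_univ, nsmul_eq_mul, mul_div_cancel₀ _ hN.ne', ← map_mul, h1]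
    refine (v.sum_le _ _).trans (sum_le_sum fun j _ => ?_)
    rw [map_mul]
    exact mul_le_mul_of_nonneg_left (hb j) (v.nonneg _)
  obtain ⟨j, -, hj⟩ := exists_le_of_sum_le univ_nonempty h2
  rw [div_le_iff₀' hN] at hj
  refine ⟨j, fun h0 => ?_, hj⟩
  rw [h0] at hj
  have h3 : 0 < v M.det * v (w ⬝ᵥ y) := mul_pos (v.pos hM) (v.pos hne)
  simp only [map_zero, zero_mul, mul_zero] at hj
  linarith

theorem apen_loc {κ : Type} [Fintype κ] [DecidableEq κ] (v : AbsoluteValue K ℝ)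
    (M Y : Matrix κ κ K) (j₀ : κ) (b : κ → ℝ) {c : ℝ} (hc : 0 ≤ c) (hM : Tame v c M)
    (hb : ∀ i j, i ≠ j₀ → v ((M *ᵥ Y i) j) ≤ Real.exp (b j)) {w : κ → K}
    (hz : nv Y j₀ ≠ 0)
    (hw : ∀ j, (w ᵥ* M.adjugate) j = 0 ∨ Real.exp (-c) * (⨆ l, v (nv Y j₀ l)) ≤
      v ((nv Y j₀ ᵥ* M.adjugate) j)) {i : κ} (hi : i ≠ j₀) (hne : w ⬝ᵥ Y i ≠ 0) :
    Real.log (v (w ⬝ᵥ Y i)) + Real.log (⨆ l, v (nv Y j₀ l)) ≤ Real.log (⨆ l, v (w l)) +
      ((Real.log ((Fintype.card κ * (Fintype.card κ).factorial) ^ 2 : ℕ) + Fintype.card κ + 2) *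
        (1 + c) + ∑ l, b l) := by
  have : Nonempty κ := ⟨j₀⟩
  have hN : 0 < Fintype.card κ := Fintype.card_pos
  have hw0 : w ≠ 0 := fun h0 => hne (by rw [h0, zero_dotProduct])
  have hdet : M.det ≠ 0 := v.pos_iff.1 ((Real.exp_pos _).trans_le hM.2)
  obtain ⟨j, hj, h1⟩ := apen_pick v M hdet b w (Y i) hne fun j => hb i j hi
  have h2 := ((hw j).resolve_left hj).trans (apen_minor v M Y j₀ b hb j)
  have hW := sup_pos v hw0
  have hZ := sup_pos v hz
  have hg := v.pos hne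
  have h3 : v ((w ᵥ* M.adjugate) j) ≤ Fintype.card κ * ((⨆ l, v (w l)) *
      ((Fintype.card κ).factorial * Real.exp (Fintype.card κ * c))) := by
    rw [vecMul, dotProduct]
    refine (v.sum_le _ _).trans ?_
    rw [← nsmul_eq_mul, ← card_univ]
    refine sum_le_card_nsmul _ _ _ fun l _ => ?_
    rw [map_mul]
    exact mul_le_mul (le_sup_av v w l) (adj_leA v hc hM.1 l j) (v.nonneg _) hW.le
  have h4 : Real.exp (-c) * v (w ⬝ᵥ Y i) ≤ Fintype.card κ * (Fintype.card κ * ((⨆ l, v (w l)) *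
      ((Fintype.card κ).factorial * Real.exp (Fintype.card κ * c))) * Real.exp (b j)) := by
    refine (mul_le_mul_of_nonneg_right hM.2 hg.le).trans (h1.trans ?_)
    gcongr
  have h5 := mul_le_mul h4 h2 (by positivity) (by positivity)
  have h6 : Real.exp (b j) * Real.exp (-b j) = 1 := by
    rw [← Real.exp_add]
    simp
  have hA : (0 : ℝ) < ((Fintype.card κ * (Fintype.card κ).factorial) ^ 2 : ℕ) := by
    have := Nat.factorial_pos (Fintype.card κ)
    positivity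
  have h7 : Real.exp (-c) * Real.exp (-c) * (v (w ⬝ᵥ Y i) * ⨆ l, v (nv Y j₀ l)) ≤
      (⨆ l, v (w l)) * (((Fintype.card κ * (Fintype.card κ).factorial) ^ 2 : ℕ) *
        (Real.exp (Fintype.card κ * c) * Real.exp (∑ l, b l))) := by
    refine le_of_eq_of_le (by ring) (h5.trans (le_of_eq ?_))
    push_cast
    linear_combination ((Fintype.card κ : ℝ) ^ 2 * ((Fintype.card κ).factorial : ℝ) ^ 2 *
      (⨆ l, v (w l)) * Real.exp (Fintype.card κ * c) * Real.exp (∑ l, b l)) * h6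
  have h8 := Real.log_le_log (by positivity) h7
  rw [Real.log_mul (by positivity) (by positivity), Real.log_mul (by positivity) (by positivity),
    Real.log_mul hg.ne' hZ.ne', Real.log_mul hW.ne' (by positivity),
    Real.log_mul hA.ne' (by positivity), Real.log_mul (by positivity) (by positivity)] at h8
  simp only [Real.log_exp] at h8
  have h9 := Real.log_natCast_nonneg ((Fintype.card κ * (Fintype.card κ).factorial) ^ 2)
  have h10 := mul_nonneg h9 hc
  have h11 : (0 : ℝ) ≤ Fintype.card κ := Nat.cast_nonneg _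
  linarith

/- Port of `penult_minor`, `penult_pick` (`Common/Subspace/Penult`) and the last part of `penult`.  Let
`y = Y i`, `z = nv Y j₀` (integral, nonzero), suppose `g = w ⬝ᵥ y ≠ 0`.
`det M * g = (w ᵥ* adj M) ⬝ᵥ (M *ᵥ y)`; take `j` with the largest term; it is nonzero, so
`exp (-c) |z|_p ≤ |(z ᵥ* adj M) j|_p ≤ N! exp (- b p j + ∑ l, b p l)` (`av_det_le`), and
`|(w ᵥ* adj M) j|_p ≤ N |w|_p N! exp (N c)` (`adj_leA`).  Hence
`log |g|_p + log |z|_p ≤ log |w|_p + C₀ (1 + c) + ∑ l, b p l`; at the other finite places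
`|g|_v ≤ |w|_v` (`fin_dot_le`) and `|z|_v ≤ 1` (`fin_le_oneA`).  `gsum_le_S` with
`f v = log (v g) + log (⨆ l, v (z l))`, `g v = log (⨆ l, v (w l))`; `gsum_add`, `gsum_log`, `gsum_sup`. -/
theorem pen_pf (S : Finset (FinitePlace K)) (κ : Type) [Fintype κ] [DecidableEq κ] :
    ∃ C : ℝ, 0 ≤ C ∧ ∀ (M : Pl S → Matrix κ κ K) (j₀ : κ) (b : Pl S → κ → ℝ) (Y : Matrix κ κ K)
      (c : ℝ) (w : κ → K), 0 ≤ c → Pen M j₀ b Y → (∀ p, Tame (av p) c (M p)) →
      (∀ p j, (w ᵥ* (M p).adjugate) j = 0 ∨ Real.exp (-c) * (⨆ l, av p (nv Y j₀ l)) ≤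
        av p ((nv Y j₀ ᵥ* (M p).adjugate) j)) →
      vol b + C * (1 + c) + logHeight w < logHeight (nv Y j₀) → ∀ i, i ≠ j₀ → w ⬝ᵥ Y i = 0 := by
  have h9 := Real.log_natCast_nonneg ((Fintype.card κ * (Fintype.card κ).factorial) ^ 2)
  refine ⟨(∑ p : Pl S, (mu p : ℝ)) *
    (Real.log ((Fintype.card κ * (Fintype.card κ).factorial) ^ 2 : ℕ) + Fintype.card κ + 2),
    by positivity, fun M j₀ b Y c w hc hP hT hw hlt i hi => ?_⟩
  by_contra hne
  have : Nonempty κ := ⟨j₀⟩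
  have hw0 : w ≠ 0 := fun h0 => hne (by rw [h0, zero_dotProduct])
  have hz : nv Y j₀ ≠ 0 := fun h0 => by
    have h1 := congrFun (congrFun (mul_adjugate Y) j₀) j₀
    rw [mul_apply, Matrix.smul_apply, one_apply_eq, smul_eq_mul, mul_one] at h1
    refine hP.det (h1.symm.trans (sum_eq_zero fun l _ => ?_))
    rw [show Y.adjugate l j₀ = 0 from congrFun h0 l, mul_zero]
  have hzi : IntV (nv Y j₀) := fun l => by
    rw [nv, adjugate_apply]
    refine int_det fun i' l' => ?_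
    rw [updateRow_apply]
    split_ifs
    · rw [Pi.single_apply]
      split_ifs
      · exact isIntegral_one
      · exact isIntegral_zero
    · exact hP.int i' l'
  have h := gsum_le_S S ((finS_log (w ⬝ᵥ Y i)).add (finS_sup (nv Y j₀))) (finS_sup w) _
    (fun p => apen_loc (av p) (M p) Y j₀ (b p) hc (hT p) (hP.bd p) hz (hw p) hi hne) fun v _ => by
      have h1 : v.1 (w ⬝ᵥ Y i) ≤ ⨆ l, v.1 (w l) :=
        fin_dot_le v (sup_pos v.1 hw0).le (le_sup_av v.1 w) (hP.int i)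
      have h2 : ⨆ l, v.1 (nv Y j₀ l) ≤ 1 := ciSup_le fun l => fin_le_oneA v (hzi l)
      have h3 := Real.log_le_log (v.1.pos hne) h1
      have h4 := Real.log_nonpos (sup_pos v.1 hz).le h2
      linarith
  rw [gsum_add (finS_log _) (finS_sup _), gsum_log hne, gsum_sup hz, gsum_sup hw0] at h
  simp only [mul_add _ _ (∑ l, b _ l), sum_add_distrib, ← sum_mul] at h
  rw [vol, mul_assoc] at hlt
  linarith

end Pool.Agent.Lib.MP_651af7_nt.Es
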