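import Pool.Agent.Lib.MP_651af7_nt.Es.UMin

/-! Reduction to the penultimate minimum for points of a subspace. -/

namespace Pool.Agent.Lib.MP_651af7_nt.Es

open Finset Matrix Height NumberField Pool.Agent.Lib.MP_e97e2b_nt Pool.Agent.Lib.MP_651af7_nt.Iv
  Pool.Agent.Lib.MP_651af7_nt.Vj Pool.Agent.Lib.MP_651af7_nt.Rt Pool.Agent.Lib.Common.Subspace

variable {K : Type} [Field K] [NumberField K]

theorem URed_sum {n r : ℕ} {e : Fin r → Fin n} (he : Function.Injective e) (f : Fin n → ℝ) (c : ℝ)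
    (h : ∀ l, l ∉ Set.range e → f l = c) : ∑ l, f l = ∑ i, f (e i) + (n - r : ℝ) * c := by
  classical
  have hr : r ≤ n := by simpa using Fintype.card_le_of_injective e he
  rw [← sum_add_sum_compl (univ.image e) f, sum_image fun a _ b _ hab => he hab]
  congr 1
  rw [sum_congr rfl (g := fun _ => c) fun l hl => h l (by simpa using hl), sum_const, card_compl,
    card_image_of_injective _ he, card_univ, Fintype.card_fin, Fintype.card_fin, nsmul_eq_mul,
    Nat.cast_sub hr]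

theorem URed_det {F : Type*} [Field F] {n r : ℕ} (hr : r ≤ n) {X : Matrix (Fin n) (Fin n) F}
    (hX : X.det ≠ 0) (B : Matrix (Fin n) (Fin r) F) {T : Matrix (Fin r) (Fin r) F}
    (h : ∀ i, X (Fin.castLE hr i) = B *ᵥ T i) : T.det ≠ 0 := by
  have h1 := (linearIndependent_rows_of_det_ne_zero hX).comp (Fin.castLE hr)
    (Fin.castLE_injective hr)
  have h2 : LinearIndependent F T.row :=
    LinearIndependent.of_comp B.mulVecLin (by
      have h3 : (B.mulVecLin ∘ T.row) = (fun i => X i) ∘ Fin.castLE hr :=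
        funext fun i => (h i).symm
      rw [h3]
      exact h1)
  exact ((isUnit_iff_isUnit_det _).1 (linearIndependent_rows_iff_isUnit.1 h2)).ne_zero

theorem URed_half (S : Finset (FinitePlace K)) (o : InfinitePlace K) (m : ℕ) :
    av (Sum.inl o : Pl S) (((2 : K)⁻¹) ^ m) = Real.exp (-(m * Real.log 2)) := by
  have h : av (Sum.inl o : Pl S) (2 : K) = 2 := by
    have h1 : o (2 : K) = 2 := by simpa using InfinitePlace.map_natCast o 2
    exact h1
  rw [map_pow, map_inv₀, h, Real.exp_neg, Real.exp_nat_mul, Real.exp_log two_pos, inv_pow]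

/- Port of `reduce` (`Es/ARed`), `x = B *ᵥ t`, `O = inl o`.  Sides: `a p l = (N p *ᵥ x) l` for `l` in the range
of `e`, otherwise `a O l = (1 / 2) ^ m` and `a p l = 1` for `p ≠ O`; `ρ = m * log 2` with
`m = ⌈2 G₇ q⌉₊ + 1`, so `G₇ q < ρ ≤ (2 G₇ + 2) q`, where `G₇ = n G₆ + n G₁ + G₂`.  All sides are at most
`exp (|Γ| q)`, so `hlo` (constant `G₁`) is unchanged.  `vol (log A) = vol (log values) - mu O * ((n - r) ρ)`, so
`hup` gives `∑ log lam ≤ (n - r) ρ + G₂ q`.  If `(N O *ᵥ X i) l ≠ 0` for some `l` outside the range then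
`out_U` and `H.on` give `ρ - G₆ q ≤ log (lam i)`; `few_big` excludes this for `i < r`; `mem_U` gives
`X (Fin.castLE _ i) = B *ᵥ T i`, `T.det ≠ 0` because the rows of `X` are independent
(`Matrix.exists_vecMul_eq_zero_iff`).  `ht_mn` with `s p i = if p = O then log (lam i) else 0`,
`b p l = L + log (A p (e l))` replaces `vol_lower`: `δ q ≤ C (1 + η q) + mu O * ∑ i < r, log (lam i)`.
`exists_gap` on `Fin r` gives `j₀ < r`; the rest is unchanged (`vol β ≤ E (1 + η q)` from `hup`);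
`exists_funcU` with `j = j₀`, `X j₀ = B *ᵥ T j₀`, `Matrix.dotProduct_mulVec`. -/
theorem reduceU (n r : ℕ) {δ : ℝ} (hδ : 0 < δ) :
    ∃ (δ' : ℝ) (𝒯 : ∀ k : Fin n, Finset (Matrix (Fin n) (PS n k) ℤ)), 0 < δ' ∧
      ∀ (S : Finset (FinitePlace K)) (Γ : ℝ), ∃ Γ' η q₀ : ℝ, 0 < η ∧
      ∀ (q : ℝ) (N : Pl S → Matrix (Fin n) (Fin n) K) (B : Matrix (Fin n) (Fin r) K)
        (e : Fin r → Fin n) (t : Fin r → K), q₀ ≤ q → Function.Injective e →
        (∀ p, Tame (av p) (η * q) (N p)) → (∀ p i j, logHeight₁ (N p i j) ≤ Γ * q) → mn B ≠ 0 →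
        (∀ p l, l ∉ Set.range e → N p l ᵥ* B = 0) → IntV (B *ᵥ t) →
        (∀ p l, Real.exp (-(Γ * q)) ≤ av p ((N p *ᵥ (B *ᵥ t)) (e l)) ∧
          av p ((N p *ᵥ (B *ᵥ t)) (e l)) ≤ Real.exp (Γ * q)) →
        vol (fun p l => Real.log (av p ((N p *ᵥ (B *ᵥ t)) (e l)))) + δ * q ≤ logHeight (mn B) →
        ∃ (k : Fin n) (π : Pl S → Equiv.Perm (Fin n)) (top : PS n k)
          (Y : Matrix (PS n k) (PS n k) K) (b : Pl S → PS n k → ℝ),
          Pen (fun p => comp k ((N p).submatrix (π p) id)) top b Y ∧ (∀ p J, |b p J| ≤ Γ' * q) ∧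
          vol b ≤ -(δ' * q) ∧ ∀ w : PS n k → K, w ≠ 0 → (∀ I, I ≠ top → w ⬝ᵥ Y I = 0) →
            ∃ T ∈ 𝒯 k, (T.map (Int.cast : ℤ → K) *ᵥ w) ᵥ* B ≠ 0 ∧
              (T.map (Int.cast : ℤ → K) *ᵥ w) ⬝ᵥ (B *ᵥ t) = 0 := by
  classical
  have hT : ∀ k : Fin n, ∃ 𝒯 : Finset (Matrix (Fin n) (PS n k) ℤ), 0 < (k : ℕ) →
      ∀ w : PS n k → K, w ≠ 0 → ∀ X : Matrix (Fin n) (Fin n) K, X.det ≠ 0 → ∀ top : PS n k,
        (∀ I, I ≠ top → w ⬝ᵥ comp k X I = 0) → ∀ j ∈ top.1, ∃ T ∈ 𝒯,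
          (T.map (Int.cast : ℤ → K) *ᵥ w) ⬝ᵥ X j ≠ 0 ∧ ∀ g : Fin n → K, (∀ l ∈ top.1, g l = 0) →
            (T.map (Int.cast : ℤ → K) *ᵥ w) ⬝ᵥ (∑ l, g l • X l) = 0 := fun k => by
    by_cases hk : 0 < (k : ℕ)
    · obtain ⟨𝒯, h⟩ := exists_funcU K n k hk
      exact ⟨𝒯, fun _ => h⟩
    · exact ⟨∅, fun h => absurd h hk⟩
  choose 𝒯 h𝒯 using hT
  obtain ⟨δ₁, hδ₁⟩ : ∃ δ₁ : ℝ, δ₁ = δ / (4 * (n * n + 1)) := ⟨_, rfl⟩
  have hδ0 : 0 < δ₁ := by rw [hδ₁]; positivity
  have hδ2 : 4 * (n * n + 1) * δ₁ = δ := by rw [hδ₁]; field_simp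
  refine ⟨δ₁ / 2, 𝒯, by positivity, fun S Γ => ?_⟩
  obtain ⟨o⟩ : Nonempty (InfinitePlace K) := inferInstance
  obtain ⟨C, hC, hmin⟩ := exists_minimaK S n o
  obtain ⟨C₅, hC₅, hvl⟩ := ht_mn S n r
  obtain ⟨C₃, hC₃, hlow⟩ := low_bound S (Fin n)
  obtain ⟨C₆, hC₆, hout⟩ := out_U S n (Sum.inl o)
  choose c₀ c₁ hc₀ hc₁ hwb using fun k : Fin n => vol_wb S n k
  obtain ⟨s, hs⟩ : ∃ s : ℝ, s = ∑ p : Pl S, (mu p : ℝ) := ⟨_, rfl⟩
  have hs0 : 0 ≤ s := hs ▸ sum_nonneg fun _ _ => Nat.cast_nonneg _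
  obtain ⟨L, hL⟩ : ∃ L : ℝ, L = Real.log C := ⟨_, rfl⟩
  have hL0 : 0 ≤ L := hL ▸ Real.log_nonneg hC
  have hC0 : 0 < C := by linarith
  obtain ⟨E, hE⟩ : ∃ E : ℝ, E = C + C₅ + s * (n * L) := ⟨_, rfl⟩
  have hsL : 0 ≤ s * (n * L) := by positivity
  have hE0 : 0 < E := by linarith
  have hc₀' := sum_nonneg (s := univ) fun k _ => hc₀ k
  have hc₁' := sum_nonneg (s := univ) fun k _ => hc₁ k
  obtain ⟨E', hE'⟩ : ∃ E' : ℝ, E' = ∑ k, c₀ k + (∑ k, c₁ k + 1) * E := ⟨_, rfl⟩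
  have hE'0 : 0 < E' := by rw [hE']; positivity
  obtain ⟨G₁, hG₁⟩ : ∃ G : ℝ, G = 2 * C₃ + s * (L + |Γ|) := ⟨_, rfl⟩
  have hG₁0 : 0 ≤ G₁ := by rw [hG₁]; positivity
  obtain ⟨G₂, hG₂⟩ : ∃ G : ℝ, G = 2 * C + s * (n * |Γ|) := ⟨_, rfl⟩
  have hG₂0 : 0 ≤ G₂ := by rw [hG₂]; positivity
  obtain ⟨G₆, hG₆⟩ : ∃ G : ℝ, G = C₆ * (2 + 2 * |Γ| + L) + L := ⟨_, rfl⟩
  have hG₆0 : 0 ≤ G₆ := by rw [hG₆]; positivity
  obtain ⟨G₇, hG₇⟩ : ∃ G : ℝ, G = n * G₆ + n * G₁ + G₂ := ⟨_, rfl⟩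
  have hG₇0 : 0 ≤ G₇ := by rw [hG₇]; positivity
  obtain ⟨G₈, hG₈⟩ : ∃ G : ℝ, G = 2 * G₇ + 2 := ⟨_, rfl⟩
  have hG₈0 : 0 ≤ G₈ := by rw [hG₈]; positivity
  obtain ⟨G₉, hG₉⟩ : ∃ G : ℝ, G = n * G₈ + G₂ + (n + 1) * G₁ := ⟨_, rfl⟩
  have hG₉0 : 0 ≤ G₉ := by rw [hG₉]; positivity
  obtain ⟨G₄, hG₄⟩ : ∃ G : ℝ, G = L + (|Γ| + G₈) + G₉ := ⟨_, rfl⟩
  have hG₄0 : 0 ≤ G₄ := by rw [hG₄]; positivity
  obtain ⟨η, hη⟩ : ∃ η : ℝ, η = δ₁ / (4 * E' + δ₁) := ⟨_, rfl⟩
  have hη0 : 0 < η := by rw [hη]; positivity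
  have hη1 : η ≤ 1 := by rw [hη, div_le_one (by positivity)]; linarith
  have hη2 : E' * η ≤ δ₁ / 4 := by
    rw [hη, mul_div_assoc', div_le_div_iff₀ (by positivity) (by positivity)]
    linarith [mul_pos hδ0 hδ0]
  refine ⟨Real.log n.factorial + n * G₄ + δ₁, η, max 1 (4 * E' / δ₁), hη0,
    fun q N B e t hq he hN hNh hB hNB hx hb hv => ?_⟩
  have hr : r ≤ n := by simpa using Fintype.card_le_of_injective e he
  have hr' : (r : ℝ) ≤ n := by exact_mod_cast hr
  have hq1 : 1 ≤ q := (le_max_left _ _).trans hq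
  have hq0 : 0 ≤ q := zero_le_one.trans hq1
  have hq2 : 4 * E' ≤ q * δ₁ := (div_le_iff₀ hδ0).1 ((le_max_right _ _).trans hq)
  have hc : 0 ≤ η * q := by positivity
  have hc2 : 1 + η * q ≤ 2 * q := by
    linarith [mul_le_mul_of_nonneg_right hη1 hq0]
  have hE2 : E' * (1 + η * q) ≤ δ₁ / 2 * q := by
    linarith [mul_le_mul_of_nonneg_right hη2 hq0]
  set O : Pl S := Sum.inl o with hO
  obtain ⟨x, hxdef⟩ : ∃ x, x = B *ᵥ t := ⟨_, rfl⟩
  rw [← hxdef] at hx hb hv ⊢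
  have hx0 : ∀ p l, l ∉ Set.range e → (N p *ᵥ x) l = 0 := fun p l hl => by
    have h1 : (N p *ᵥ x) l = N p l ⬝ᵥ (B *ᵥ t) := by rw [hxdef]; rfl
    rw [h1, dotProduct_mulVec, hNB p l hl, zero_dotProduct]
  obtain ⟨m, hm⟩ : ∃ m : ℕ, m = ⌈2 * G₇ * q⌉₊ + 1 := ⟨_, rfl⟩
  obtain ⟨ρ, hρ⟩ : ∃ ρ : ℝ, ρ = m * Real.log 2 := ⟨_, rfl⟩
  have hG₇q : 0 ≤ G₇ * q := by positivity
  have hρ1 : G₇ * q < ρ := by
    have h1 : 2 * G₇ * q + 1 ≤ m := by
      rw [hm]
      push_cast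
      linarith [Nat.le_ceil (2 * G₇ * q)]
    have h2 : (1 / 2 : ℝ) ≤ Real.log 2 := by linarith [Real.log_two_gt_d9]
    have h3 : (m : ℝ) * (1 / 2) ≤ m * Real.log 2 :=
      mul_le_mul_of_nonneg_left h2 (Nat.cast_nonneg _)
    linarith
  have hρ0 : 0 ≤ ρ := by linarith
  have hρ2 : ρ ≤ G₈ * q := by
    have h1 : (m : ℝ) ≤ 2 * G₇ * q + 2 := by
      rw [hm]
      push_cast
      linarith [Nat.ceil_lt_add_one (show 0 ≤ 2 * G₇ * q by positivity)]
    have h2 : Real.log 2 ≤ 1 := by linarith [Real.log_two_lt_d9]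
    have h3 : (m : ℝ) * Real.log 2 ≤ m * 1 := mul_le_mul_of_nonneg_left h2 (Nat.cast_nonneg _)
    rw [hG₈]
    linarith
  obtain ⟨a, ha⟩ : ∃ a : Pl S → Fin n → K, a = fun p l =>
    if l ∈ Set.range e then (N p *ᵥ x) l else if p = O then ((2 : K)⁻¹) ^ m else 1 := ⟨_, rfl⟩
  set A : Pl S → Fin n → ℝ := fun p l => av p (a p l) with hAdef
  have hAin : ∀ p i, A p (e i) = av p ((N p *ᵥ x) (e i)) := fun p i => by
    simp only [hAdef, ha]
    rw [if_pos ⟨i, rfl⟩]
  have hAout : ∀ p l, l ∉ Set.range e → A p l = Real.exp (if p = O then -ρ else 0) :=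
    fun p l hl => by
      simp only [hAdef, ha]
      rw [if_neg hl]
      by_cases hp : p = O
      · subst hp
        rw [if_pos rfl, if_pos rfl, hρ]
        exact URed_half S o m
      · rw [if_neg hp, if_neg hp, map_one, Real.exp_zero]
  have hA : ∀ p l, 0 < A p l := fun p l => by
    by_cases hl : l ∈ Set.range e
    · obtain ⟨i, rfl⟩ := hl
      rw [hAin]
      exact (Real.exp_pos _).trans_le (hb p i).1
    · rw [hAout p l hl]
      exact Real.exp_pos _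
  have hΓ : Γ * q ≤ |Γ| * q := mul_le_mul_of_nonneg_right (le_abs_self Γ) hq0
  have hΓ0 : 0 ≤ |Γ| * q := by positivity
  have hAe : ∀ p i, |Real.log (A p (e i))| ≤ |Γ| * q := fun p i => by
    have h0 := hA p (e i)
    rw [hAin] at h0 ⊢
    exact abs_le.2 ⟨by linarith [(Real.le_log_iff_exp_le h0).2 (hb p i).1],
      by linarith [(Real.log_le_iff_le_exp h0).2 (hb p i).2]⟩
  have hAb : ∀ p l, -(|Γ| * q + ρ) ≤ Real.log (A p l) ∧ Real.log (A p l) ≤ |Γ| * q := fun p l => by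
    by_cases hl : l ∈ Set.range e
    · obtain ⟨i, rfl⟩ := hl
      exact ⟨by linarith [(abs_le.1 (hAe p i)).1], (abs_le.1 (hAe p i)).2⟩
    · rw [hAout p l hl, Real.log_exp]
      split_ifs
      · exact ⟨by linarith, by linarith⟩
      · exact ⟨by linarith, hΓ0⟩
  have hxA : ∀ p l, av p ((N p *ᵥ x) l) ≤ A p l := fun p l => by
    by_cases hl : l ∈ Set.range e
    · obtain ⟨i, rfl⟩ := hl
      exact (hAin p i).ge
    · rw [hx0 p l hl, map_zero]
      exact (hA p l).le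
  obtain ⟨X, lam, π₀, H, hup⟩ := hmin N a (η * q) hc hN
    (fun p l => (av p).pos_iff.1 (hA p l)) fun v l => by
      change A (Sum.inr v) l ≤ _
      by_cases hl : l ∈ Set.range e
      · obtain ⟨i, rfl⟩ := hl
        rw [hAin]
        exact fin_dot_le v.1 (Real.exp_pos _).le ((hN (Sum.inr v)).1 (e i)) hx
      · rw [hAout _ l hl, if_neg (by simp [hO])]
        exact Real.exp_le_exp.2 hc
  change Minima O N A C X lam π₀ at H
  change mu O * ∑ i, Real.log (lam i) + vol (fun p l => Real.log (A p l)) ≤ _ at hup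
  obtain ⟨V, hV⟩ : ∃ V : ℝ, V = vol (fun p i => Real.log (A p (e i))) := ⟨_, rfl⟩
  have hv' : V + δ * q ≤ logHeight (mn B) := by
    rw [hV]
    simpa only [hAin] using hv
  have hvA : vol (fun p l => Real.log (A p l)) = V - mu O * ((n - r : ℝ) * ρ) := by
    have h1 : ∀ p, ∑ l, Real.log (A p l) = ∑ i, Real.log (A p (e i)) +
        (n - r : ℝ) * (if p = O then -ρ else 0) := fun p =>
      URed_sum he _ _ fun l hl => by rw [hAout p l hl, Real.log_exp]
    simp only [hV, vol, h1, mul_add, sum_add_distrib, mul_ite, mul_zero, sum_ite_eq', mem_univ,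
      if_true]
    ring
  have hVlo : -(s * (n * (|Γ| * q))) ≤ V := by
    have h1 := ARed_abs_vol hAe
    rw [← hs, ← hV] at h1
    have h2 : s * (r * (|Γ| * q)) ≤ s * (n * (|Γ| * q)) :=
      mul_le_mul_of_nonneg_left (mul_le_mul_of_nonneg_right hr' hΓ0) hs0
    linarith
  have hm1 : (1 : ℝ) ≤ mu O := by exact_mod_cast one_le_mu O
  have hm2 : (mu O : ℝ) ≤ 2 := by exact_mod_cast mu_le_two O
  have hG₂q : 0 ≤ G₂ * q := by positivity
  have hsum : ∑ i, Real.log (lam i) ≤ (n - r : ℝ) * ρ + G₂ * q := by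
    have h5 : C * (1 + η * q) ≤ C * (2 * q) := mul_le_mul_of_nonneg_left hc2 hC0.le
    have h6 : mu O * (∑ i, Real.log (lam i) - (n - r : ℝ) * ρ) ≤ G₂ * q := by
      rw [hG₂, mul_sub]
      linarith
    by_contra hcon
    have h7 : 0 ≤ ∑ i, Real.log (lam i) - (n - r : ℝ) * ρ := by linarith
    linarith [le_mul_of_one_le_left h7 hm1]
  have hCA : ∀ p l, C * A p l ≤ Real.exp (L + |Γ| * q) := fun p l => by
    rw [Real.exp_add, hL, Real.exp_log hC0]
    exact mul_le_mul_of_nonneg_left ((Real.log_le_iff_le_exp (hA p l)).1 (hAb p l).2) hC0.le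
  have hon : ∀ i l, av O ((N O *ᵥ X i) l) ≤ C * A O l * lam i := fun i l => by
    have h6 := H.on i (π₀.symm l)
    rw [Equiv.apply_symm_apply] at h6
    exact h6.trans (mul_le_mul_of_nonneg_left (min_le_left _ _) (mul_pos hC0 (hA _ _)).le)
  have hlo : ∀ i, -(G₁ * q) ≤ Real.log (lam i) := fun i => by
    have h4 := hlow N (η * q) (X i) (fun p => L + |Γ| * q + if p = O then Real.log (lam i) else 0)
      hc hN (fun e => H.det (det_eq_zero_of_row_eq_zero i (congrFun e))) (H.int i) fun p l => by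
        by_cases hp : p = O
        · subst hp
          rw [if_pos rfl, Real.exp_add, Real.exp_log (H.pos i)]
          exact (hon i l).trans (mul_le_mul_of_nonneg_right (hCA _ l) (H.pos i).le)
        · rw [if_neg hp, add_zero]
          exact (H.off p hp i l).trans (hCA p l)
    simp only [mul_add (mu _ : ℝ) (L + |Γ| * q), sum_add_distrib, ← sum_mul, mul_ite, mul_zero,
      sum_ite_eq', mem_univ, if_true, ← hs] at h4
    have h7 : C₃ * (1 + η * q) ≤ C₃ * (2 * q) := mul_le_mul_of_nonneg_left hc2 hC₃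
    have h8 : s * (L + |Γ| * q) ≤ s * ((L + |Γ|) * q) :=
      mul_le_mul_of_nonneg_left (by linarith [le_mul_of_one_le_right hL0 hq1]) hs0
    have h9 := AMin_low O (D := G₁ * q) (t := Real.log (lam i)) (by rw [hG₁]; linarith)
    rwa [abs_of_nonneg (by positivity)] at h9
  have hmono : Monotone fun i => Real.log (lam i) := fun i j hij =>
    Real.log_le_log (H.pos i) (H.mono hij)
  have hzero : ∀ i : Fin n, (i : ℕ) < r → ∀ l, l ∉ Set.range e → (N O *ᵥ X i) l = 0 := by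
    intro i hi l hl
    by_contra hne
    have h1 := few_big hr hmono (ρ := ρ) (g₁ := G₁ * q) (g₂ := G₂ * q) (g₃ := G₆ * q)
      (by positivity) hG₂q (by positivity) hlo hsum (by rw [hG₇] at hρ1; linarith) i hi
    have h2 := hout N (η * q) (|Γ| * q) (L + |Γ| * q) (X i) l hc hΓ0 (by positivity) hN
      (fun j => (hNh O l j).trans hΓ) (H.int i)
      (fun p hp j => (H.off p hp i j).trans (hCA p j)) hne
    have h3 := h2.trans (hon i l)
    rw [hAout O l hl, if_pos rfl, ← Real.exp_log hC0, ← hL, ← Real.exp_log (H.pos i),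
      ← Real.exp_add, ← Real.exp_add, Real.exp_le_exp] at h3
    have h4 : L ≤ L * q := le_mul_of_one_le_right hL0 hq1
    have h5 : C₆ * (1 + η * q + |Γ| * q + (L + |Γ| * q)) ≤ C₆ * ((2 + 2 * |Γ| + L) * q) :=
      mul_le_mul_of_nonneg_left (by linarith) hC₆
    rw [hG₆] at h1
    linarith
  have hNO : (N O).det ≠ 0 := (av O).pos_iff.1 ((Real.exp_pos _).trans_le (hN O).2)
  choose T₀ hT₀ using fun i : Fin r =>
    mem_U hNO hB he (hNB O) (hzero (Fin.castLE hr i) i.2)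
  have hTd : (Matrix.of T₀).det ≠ 0 := URed_det hr H.det B hT₀
  have h1 := hvl N B e (η * q) (Matrix.of T₀)
    (fun p i => 0 + if p = O then Real.log (lam (Fin.castLE hr i)) else 0)
    (fun p l => L + Real.log (A p (e ((1 : Equiv.Perm (Fin r)) l)))) hc he hN hB hNB hTd
    (fun i => by
      have := H.int (Fin.castLE hr i)
      rwa [hT₀] at this)
    (fun p i l => by
      change av p ((N p *ᵥ (B *ᵥ T₀ i)) (e l)) ≤ _
      rw [← hT₀, zero_add, Equiv.Perm.one_apply, Real.exp_add, Real.exp_add, hL, Real.exp_log hC0,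
        Real.exp_log (hA _ _)]
      by_cases hp : p = O
      · subst hp
        rw [if_pos rfl, Real.exp_log (H.pos _), mul_comm]
        exact hon _ _
      · rw [if_neg hp, Real.exp_zero, one_mul]
        exact H.off p hp _ _)
  have hvs : vol (fun (p : Pl S) (i : Fin r) =>
      0 + if p = O then Real.log (lam (Fin.castLE hr i)) else 0) =
      mu O * ∑ i : Fin r, Real.log (lam (Fin.castLE hr i)) := by
    have := AMin_vol O (fun _ (_ : Fin r) => (0 : ℝ)) fun i => Real.log (lam (Fin.castLE hr i))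
    simp only [vol, sum_const_zero, mul_zero, zero_add] at this ⊢
    convert this
  rw [hvs, ARed_vol (fun p i => Real.log (A p (e i))) L fun _ => 1, ← hs, ← hV] at h1
  let π : Pl S → Equiv.Perm (Fin n) := fun p => if p = O then π₀ else 1
  let β : Pl S → Fin n → ℝ := fun p l =>
    L + Real.log (A p (π p l)) + if p = O then Real.log (lam l) else 0
  have hβO : ∀ l, Real.exp (β O l) = C * A O (π₀ l) * lam l := fun l => by
    simp only [β, π, if_true]
    rw [Real.exp_add, Real.exp_add, hL, Real.exp_log hC0, Real.exp_log (hA _ _),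
      Real.exp_log (H.pos l)]
  have hent : ∀ p i l, av p (((N p).submatrix (π p) id *ᵥ X i) l) ≤ Real.exp (β p l) := by
    intro p i l
    by_cases hp : p = O
    · subst hp
      rw [hβO]
      simp only [π, if_true]
      exact (H.on i l).trans (mul_le_mul_of_nonneg_left (min_le_right _ _)
        (mul_pos hC0 (hA _ _)).le)
    · simp only [β, π, if_neg hp, add_zero]
      rw [Real.exp_add, hL, Real.exp_log hC0, Real.exp_log (hA _ _)]
      exact H.off p hp i l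
  have hvβ : vol β = s * (n * L) + vol (fun p l => Real.log (A p l)) +
      mu O * ∑ l, Real.log (lam l) := by
    rw [hs, ← ARed_vol (fun p l => Real.log (A p l)) L π, ← AMin_vol]
  have hsL2 : s * (n * L) ≤ s * (n * L) * (1 + η * q) := le_mul_of_one_le_right hsL (by linarith)
  have hsL3 : s * (r * L) ≤ s * (n * L) :=
    mul_le_mul_of_nonneg_left (mul_le_mul_of_nonneg_right hr' hL0) hs0
  have hEE : E * (1 + η * q) ≤ E' * (1 + η * q) := by
    refine mul_le_mul_of_nonneg_right ?_ (by linarith)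
    rw [hE']
    linarith [mul_nonneg hc₁' hE0.le]
  have hE3 : E * (1 + η * q) = C * (1 + η * q) + C₅ * (1 + η * q) + s * (n * L) * (1 + η * q) := by
    rw [hE]; ring
  have hCq : 0 ≤ C * (1 + η * q) := by positivity
  have hC₅q : 0 ≤ C₅ * (1 + η * q) := by positivity
  have hδq : 0 < δ₁ * q := by positivity
  have hnq : 0 ≤ (n : ℝ) * (n * (δ₁ * q)) := by positivity
  have hrq : (r : ℝ) * (r * (δ₁ * q)) ≤ n * (n * (δ₁ * q)) :=
    mul_le_mul hr' (mul_le_mul_of_nonneg_right hr' hδq.le) (by positivity) (Nat.cast_nonneg _)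
  have hδ3 : δ * q = 4 * (n * (n * (δ₁ * q))) + 4 * (δ₁ * q) := by rw [← hδ2]; ring
  have h2 : 2 * (n * (n * (δ₁ * q))) <
      mu O * ∑ i : Fin r, Real.log (lam (Fin.castLE hr i)) := by linarith
  have h3 : 0 < ∑ i : Fin r, Real.log (lam (Fin.castLE hr i)) := by
    by_contra h
    linarith [mul_nonneg (Nat.cast_nonneg (α := ℝ) (mu O)) (neg_nonneg.2 (not_lt.1 h))]
  have hspan : ∀ i, 0 < Real.log (lam i) →
      ∃ g : Fin n → K, (∀ l, i ≤ l → g l = 0) ∧ x = ∑ l, g l • X l := fun i hi =>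
    H.span x hx (fun p _ l => hxA p l) i fun l => (hxA O l).trans_lt
      (lt_mul_of_one_lt_right (hA O l) ((Real.log_pos_iff (H.pos i).le).1 hi))
  obtain ⟨i₀, j₀, e1, e2, e3⟩ := exists_gap (fun i : Fin r => Real.log (lam (Fin.castLE hr i)))
    (δ₁ * q) hδq.le
    (fun i hi => by
      by_contra hpos
      obtain ⟨g, g1, g2⟩ := hspan _ (not_le.1 hpos)
      rw [sum_eq_zero fun l _ => by
        rw [g1 l (Fin.le_def.2 (by simp [hi])), zero_smul]] at g2
      have := hA O (e i)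
      rw [hAin] at this
      simp [g2] at this) (by linarith [mul_le_mul_of_nonneg_right hm2 h3.le])
  have hhi : ∀ i, |Real.log (lam i)| ≤ G₉ * q := fun i => by
    have h5 : (n - r : ℝ) * ρ ≤ n * (G₈ * q) :=
      mul_le_mul (by linarith [Nat.cast_nonneg (α := ℝ) r]) hρ2 hρ0 (Nat.cast_nonneg _)
    have h7 := single_le_sum (s := univ) (f := fun l => Real.log (lam l) + G₁ * q)
      (fun l _ => by linarith [hlo l]) (mem_univ i)
    simp only [sum_add_distrib, sum_const, card_univ, Fintype.card_fin, nsmul_eq_mul] at h7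
    have h8 : 0 ≤ G₁ * q := by positivity
    have h9 : 0 ≤ n * (G₈ * q) := by positivity
    have h10 : 0 ≤ n * (G₁ * q) := by positivity
    rw [hG₉]
    exact abs_le.2 ⟨by linarith [hlo i], by linarith⟩
  have hβb : ∀ p l, |β p l| ≤ G₄ * q := fun p l => by
    have h4 : |if p = O then Real.log (lam l) else 0| ≤ G₉ * q := by
      split_ifs
      · exact hhi l
      · rw [abs_zero]; positivity
    have h5 : |L| ≤ L * q := by
      rw [abs_of_nonneg hL0]
      exact le_mul_of_one_le_right hL0 hq1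
    have h6 : |Real.log (A p (π p l))| ≤ |Γ| * q + G₈ * q :=
      abs_le.2 ⟨by linarith [(hAb p (π p l)).1], by linarith [(hAb p (π p l)).2]⟩
    refine (abs_add_three _ _ _).trans ?_
    rw [hG₄]
    linarith
  obtain ⟨J₀, hJ₀⟩ : ∃ J : Fin n, J = Fin.castLE hr j₀ := ⟨_, rfl⟩
  have hJ : (J₀ : ℕ) = i₀ + 1 := by rw [hJ₀]; exact e1
  rw [← hJ₀] at e2 e3
  have hj := J₀.2
  let k : Fin n := ⟨n - J₀, by omega⟩
  let top : PS n k := ⟨Ici J₀, Fin.card_Ici J₀⟩
  refine ⟨k, π, top, comp k X, wb O top β (δ₁ * q), ?_, fun p J => ?_, ?_, fun w hw h => ?_⟩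
  · refine wedge_pen _ O X β _ J₀ top (fun l => mem_Ici) H.det H.int hent fun i l hi hl => ?_
    rw [Real.exp_sub, hβO, mul_div_assoc]
    simp only [π, if_true]
    refine (H.on i l).trans (mul_le_mul_of_nonneg_left ((min_le_left _ _).trans ?_)
      (mul_pos hC0 (hA _ _)).le)
    have h4 : lam i ≤ lam (Fin.castLE hr i₀) := H.mono (Fin.le_def.2 (by
      have := Fin.lt_def.1 hi
      simp only [Fin.val_castLE]
      omega))
    have h6 := Real.exp_le_exp.2 e3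
    rw [Real.exp_add, Real.exp_log (H.pos _), Real.exp_log (H.pos _)] at h6
    rw [le_div_iff₀ (Real.exp_pos _)]
    exact (mul_le_mul_of_nonneg_right h4 (Real.exp_pos _).le).trans (h6.trans (H.mono hl))
  · refine (abs_wb O top _ hβb p J).trans ?_
    have h4 : Real.log (k : ℕ).factorial ≤ Real.log n.factorial := Real.log_le_log
      (by exact_mod_cast (k : ℕ).factorial_pos) (by exact_mod_cast Nat.factorial_le k.2.le)
    have h5 : Real.log n.factorial ≤ Real.log n.factorial * q :=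
      le_mul_of_one_le_right (Real.log_natCast_nonneg _) hq1
    have h6 : ((k : ℕ) : ℝ) * (G₄ * q) ≤ n * (G₄ * q) :=
      mul_le_mul_of_nonneg_right (by exact_mod_cast k.2.le) (by positivity)
    rw [abs_of_pos hδq]
    linarith
  · rw [hwb k]
    have h4 : c₀ k ≤ (∑ k, c₀ k) * (1 + η * q) :=
      (single_le_sum (fun k _ => hc₀ k) (mem_univ k)).trans
        (le_mul_of_one_le_right hc₀' (by linarith))
    have h5 : c₁ k * vol β ≤ (∑ k, c₁ k + 1) * (E * (1 + η * q)) :=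
      (mul_le_mul_of_nonneg_left (show vol β ≤ E * (1 + η * q) by linarith) (hc₁ k)).trans
        (mul_le_mul_of_nonneg_right (by linarith [single_le_sum (fun k _ => hc₁ k) (mem_univ k)])
          (by positivity))
    have h6 : δ₁ * q ≤ mu O * (δ₁ * q) := le_mul_of_one_le_left hδq.le hm1
    rw [hE'] at hE2
    linarith
  · obtain ⟨T, t1, t2, t3⟩ := h𝒯 k (show 0 < n - J₀ by omega) w hw X H.det top h J₀
      (mem_Ici.2 le_rfl)
    obtain ⟨g, g1, g2⟩ := hspan J₀ e2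
    refine ⟨T, t1, fun h0 => t2 ?_, g2 ▸ t3 g fun l hl => g1 l (mem_Ici.1 hl)⟩
    rw [hJ₀, hT₀, dotProduct_mulVec, h0, zero_dotProduct]

end Pool.Agent.Lib.MP_651af7_nt.Es
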