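import Pool.Agent.Lib.MP_651af7_nt.Es.ARed

/-! Lattices in a subspace given by the columns of a matrix. -/

namespace Pool.Agent.Lib.MP_651af7_nt.Es

open Finset Matrix Height NumberField Pool.Agent.Lib.MP_e97e2b_nt Pool.Agent.Lib.MP_651af7_nt.Iv
  Pool.Agent.Lib.MP_651af7_nt.Vj Pool.Agent.Lib.MP_651af7_nt.Rt Pool.Agent.Lib.Common.Subspace

variable {K : Type} [Field K] [NumberField K]

/-- The maximal minors of a matrix. -/
def mn {R : Type*} [CommRing R] {n r : ℕ} (B : Matrix (Fin n) (Fin r) R) :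
    (Fin r → Fin n) → R := fun f => (B.submatrix f id).det

theorem mn_mul {R : Type*} [CommRing R] {n r : ℕ} (B : Matrix (Fin n) (Fin r) R)
    (T : Matrix (Fin r) (Fin r) R) : mn (B * T) = T.det • mn B := by
  funext f
  have h : (B * T).submatrix f id = B.submatrix f id * T := by
    ext i j
    simp [Matrix.mul_apply]
  simp only [mn, h, Matrix.det_mul, Pi.smul_apply, smul_eq_mul, mul_comm]

theorem mn_smul {R : Type*} [CommRing R] {n r : ℕ} (B : Matrix (Fin n) (Fin r) R) (c : R) :
    mn (c • B) = c ^ r • mn B := by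
  funext f
  have h : (c • B).submatrix f id = c • B.submatrix f id := rfl
  simp only [mn, h, Matrix.det_smul, Fintype.card_fin, Pi.smul_apply, smul_eq_mul]

theorem mn_map {R R' : Type*} [CommRing R] [CommRing R'] (φ : R →+* R') {n r : ℕ}
    (B : Matrix (Fin n) (Fin r) R) (f : Fin r → Fin n) : mn (B.map φ) f = φ (mn B f) := by
  simp only [mn]
  rw [RingHom.map_det]
  rfl

/- Two equal rows. -/
theorem mn_inj {R : Type*} [CommRing R] {n r : ℕ} {B : Matrix (Fin n) (Fin r) R}
    {f : Fin r → Fin n} (h : mn B f ≠ 0) : Function.Injective f := by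
  intro i j hij
  by_contra hne
  exact h (Matrix.det_zero_of_row_eq hne (by ext l; simp [hij]))

/- Let `G = (N * B).submatrix e id` and `A = N.adjugate.submatrix id e`.  The rows of `N * B` outside the
range of `e` vanish, so `N.det • B = N.adjugate * (N * B) = A * G` (`Finset.sum_image` or
`Function.Injective.sum_eq`/`Finset.sum_subset`), hence `N.det ^ r • mn B = G.det • mn A`. -/
theorem mn_adj {F : Type*} [Field F] {n r : ℕ} (N : Matrix (Fin n) (Fin n) F)
    (B : Matrix (Fin n) (Fin r) F) {e : Fin r → Fin n} (he : Function.Injective e)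
    (h : ∀ l, l ∉ Set.range e → N l ᵥ* B = 0) :
    N.det ^ r • mn B = ((N * B).submatrix e id).det • mn (N.adjugate.submatrix id e) := by
  have key : N.det • B = N.adjugate.submatrix id e * (N * B).submatrix e id := by
    have h1 : N.det • B = N.adjugate * (N * B) := by
      rw [← Matrix.mul_assoc, Matrix.adjugate_mul, Matrix.smul_mul, Matrix.one_mul]
    rw [h1]
    ext i j
    rw [Matrix.mul_apply, Matrix.mul_apply]
    simp only [Matrix.submatrix_apply, id]
    symm
    refine Fintype.sum_of_injective e he _ _ (fun l hl => ?_) (fun _ => rfl)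
    have h2 : (N * B) l j = (N l ᵥ* B) j := rfl
    rw [h2, h l hl]
    simp
  rw [← mn_smul, key, mn_mul]

/- `G = (N * B).submatrix e id` is invertible by `mn_adj`; take `t` with `G *ᵥ t = (N *ᵥ y) ∘ e`; then
`N *ᵥ (y - B *ᵥ t) = 0`. -/
theorem mem_U {F : Type*} [Field F] {n r : ℕ} {N : Matrix (Fin n) (Fin n) F} (hN : N.det ≠ 0)
    {B : Matrix (Fin n) (Fin r) F} (hB : mn B ≠ 0) {e : Fin r → Fin n}
    (he : Function.Injective e) (h : ∀ l, l ∉ Set.range e → N l ᵥ* B = 0) {y : Fin n → F}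
    (hy : ∀ l, l ∉ Set.range e → (N *ᵥ y) l = 0) : ∃ t, y = B *ᵥ t := by
  have hG : ((N * B).submatrix e id).det ≠ 0 := by
    intro h0
    have h1 := mn_adj N B he h
    rw [h0, zero_smul] at h1
    exact hB ((smul_eq_zero.mp h1).resolve_left (pow_ne_zero _ hN))
  have hU : IsUnit ((N * B).submatrix e id).det := isUnit_iff_ne_zero.mpr hG
  refine ⟨((N * B).submatrix e id)⁻¹ *ᵥ ((N *ᵥ y) ∘ e), ?_⟩
  set t := ((N * B).submatrix e id)⁻¹ *ᵥ ((N *ᵥ y) ∘ e) with ht
  have h1 : (N * B).submatrix e id *ᵥ t = (N *ᵥ y) ∘ e := by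
    rw [ht, Matrix.mulVec_mulVec, Matrix.mul_nonsing_inv _ hU, Matrix.one_mulVec]
  have h2 : N *ᵥ (y - B *ᵥ t) = 0 := by
    rw [Matrix.mulVec_sub, Matrix.mulVec_mulVec]
    funext l
    by_cases hl : l ∈ Set.range e
    · obtain ⟨i, rfl⟩ := hl
      have h3 := congrFun h1 i
      have h4 : ((N * B).submatrix e id *ᵥ t) i = ((N * B) *ᵥ t) (e i) := rfl
      rw [h4] at h3
      simp only [Pi.sub_apply, h3, Function.comp, sub_self, Pi.zero_apply]
    · have h3 : ((N * B) *ᵥ t) l = (N l ᵥ* B) ⬝ᵥ t := rfl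
      simp only [Pi.sub_apply, h3, hy l hl, h l hl, zero_dotProduct, sub_self, Pi.zero_apply]
  exact sub_eq_zero.mp (Matrix.eq_zero_of_mulVec_eq_zero hN h2)

theorem UMin_loc (n r : ℕ) : ∃ D : ℝ, 0 ≤ D ∧
    ∀ (v : AbsoluteValue K ℝ) (N : Matrix (Fin n) (Fin n) K) (B : Matrix (Fin n) (Fin r) K)
      (e : Fin r → Fin n) (c : ℝ) (T : Matrix (Fin r) (Fin r) K) (s b : Fin r → ℝ), 0 ≤ c →
      Function.Injective e → Tame v c N → (∀ l, l ∉ Set.range e → N l ᵥ* B = 0) →
      (∀ i l, v ((N *ᵥ (B *ᵥ T i)) (e l)) ≤ Real.exp (s i + b l)) → ∀ f,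
      v (T.det * mn B f) ≤ Real.exp (D * (1 + c) + ∑ i, s i + ∑ l, b l) := by
  refine ⟨(r.factorial * (r.factorial * n.factorial ^ r) : ℕ) + (n * r + r), by positivity,
    fun v N B e c T s b hc he hN hz hb f => ?_⟩
  have h1 := congrFun (mn_adj N B he hz) f
  simp only [Pi.smul_apply, smul_eq_mul] at h1
  have h2 : N.det ^ r * (T.det * mn B f) = ((N * B).submatrix e id * Tᵀ).det *
      mn (N.adjugate.submatrix id e) f := by
    rw [det_mul, det_transpose]
    linear_combination T.det * h1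
  have h3 : v ((N * B).submatrix e id * Tᵀ).det ≤
      r.factorial * Real.exp (∑ i, s i + ∑ l, b l) := by
    refine (av_det_le v _ (fun l => Real.exp (b l)) (fun i => Real.exp (s i)) fun l i => ?_).trans ?_
    · have e1 : ((N * B).submatrix e id * Tᵀ) l i = (N *ᵥ (B *ᵥ T i)) (e l) := by
        rw [mulVec_mulVec]
        simp only [mul_apply, mulVec, dotProduct, submatrix_apply, id, transpose_apply]
      rw [e1, ← Real.exp_add, add_comm]
      exact hb i l
    · rw [Fintype.card_fin, ← Real.exp_sum, ← Real.exp_sum, ← Real.exp_add, add_comm]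
  have h4 : v (mn (N.adjugate.submatrix id e) f) ≤
      r.factorial * (n.factorial * Real.exp (n * c)) ^ r := by
    refine (av_det_le v _ (fun _ => n.factorial * Real.exp (n * c)) (fun _ => 1)
      fun l i => ?_).trans ?_
    · have := adj_leA v hc hN.1 (f l) (e i)
      rw [Fintype.card_fin] at this
      simpa using this
    · simp
  have h5 : Real.exp (-c) ^ r * v (T.det * mn B f) ≤
      r.factorial * Real.exp (∑ i, s i + ∑ l, b l) *
        (r.factorial * (n.factorial * Real.exp (n * c)) ^ r) := by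
    refine (mul_le_mul_of_nonneg_right
      (pow_le_pow_left₀ (Real.exp_pos _).le hN.2 r) (v.nonneg _)).trans ?_
    rw [← map_pow, ← map_mul, h2, map_mul]
    exact mul_le_mul h3 h4 (v.nonneg _) (by positivity)
  set M : ℕ := r.factorial * (r.factorial * n.factorial ^ r) with hM
  have h6 : (M : ℝ) ≤ Real.exp (M * (1 + c)) := by
    have : (M : ℝ) ≤ M * (1 + c) := le_mul_of_one_le_right (Nat.cast_nonneg _) (by linarith)
    linarith [Real.add_one_le_exp (M * (1 + c))]
  have h7 : Real.exp (n * c) ^ r * Real.exp (r * c) ≤ Real.exp ((n * r + r) * (1 + c)) := by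
    rw [← Real.exp_nat_mul, ← Real.exp_add]
    refine Real.exp_le_exp.2 ?_
    have : (0 : ℝ) ≤ n * r + r := by positivity
    nlinarith
  have h8 : v (T.det * mn B f) = Real.exp (r * c) * (Real.exp (-c) ^ r * v (T.det * mn B f)) := by
    rw [← mul_assoc, ← Real.exp_nat_mul, ← Real.exp_add]
    simp
  rw [h8]
  refine (mul_le_mul_of_nonneg_left h5 (Real.exp_pos _).le).trans ?_
  have e2 : Real.exp (r * c) * (r.factorial * Real.exp (∑ i, s i + ∑ l, b l) *
      (r.factorial * (n.factorial * Real.exp (n * c)) ^ r)) =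
      (M : ℝ) * (Real.exp (n * c) ^ r * Real.exp (r * c)) * Real.exp (∑ i, s i + ∑ l, b l) := by
    rw [hM, mul_pow]
    push_cast
    ring
  rw [e2, add_assoc (_ * (1 + c)), Real.exp_add (_ * (1 + c)), add_mul (M : ℝ),
    Real.exp_add (M * (1 + c))]
  exact mul_le_mul_of_nonneg_right (mul_le_mul h6 h7 (by positivity) (Real.exp_pos _).le)
    (Real.exp_pos _).le



/- The vector `T.det • mn B = mn (B * Tᵀ)` is integral (`int_det`) and nonzero, so its height is at most
`∑ p, mu p * log (⨆ f, av p ..)` (`gsum_sup`, `gsum_le_S`, `fin_le_oneA`).  By `mn_adj`, `adj_leA`, `av_det_le`: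
`av p (T.det * mn B f) ≤ exp (C (1 + c)) * av p (G * Tᵀ).det` with `G = (N p * B).submatrix e id`, and
`(G * Tᵀ) l i = (N p *ᵥ (B *ᵥ T i)) (e l)`. -/
theorem ht_mn (S : Finset (FinitePlace K)) (n r : ℕ) : ∃ C : ℝ, 0 ≤ C ∧
    ∀ (N : Pl S → Matrix (Fin n) (Fin n) K) (B : Matrix (Fin n) (Fin r) K) (e : Fin r → Fin n)
      (c : ℝ) (T : Matrix (Fin r) (Fin r) K) (s b : Pl S → Fin r → ℝ), 0 ≤ c →
      Function.Injective e → (∀ p, Tame (av p) c (N p)) → mn B ≠ 0 →
      (∀ p l, l ∉ Set.range e → N p l ᵥ* B = 0) → T.det ≠ 0 → (∀ i, IntV (B *ᵥ T i)) →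
      (∀ p i l, av p ((N p *ᵥ (B *ᵥ T i)) (e l)) ≤ Real.exp (s p i + b p l)) →
      logHeight (mn B) ≤ C * (1 + c) + vol s + vol b := by
  obtain ⟨D, hD, H⟩ := UMin_loc (K := K) n r
  refine ⟨(∑ p : Pl S, (mu p : ℝ)) * D, by positivity,
    fun N B e c T s b hc he hN hB hz hT hI hb => ?_⟩
  have hx : T.det • mn B ≠ 0 := smul_ne_zero hT hB
  have : Nonempty (Fin r → Fin n) := ⟨e⟩
  have hint : ∀ f, IsIntegral ℤ ((T.det • mn B) f) := fun f => by
    rw [← det_transpose T, ← mn_mul]
    refine int_det fun i j => ?_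
    have := hI j (f i)
    simpa only [mul_apply, mulVec, dotProduct, submatrix_apply, id, transpose_apply] using this
  have h := gsum_le_S S (finS_sup (T.det • mn B)) pf_finS_zero
    (fun p => D * (1 + c) + ∑ i, s p i + ∑ l, b p l) (fun p => ?_) fun v _ => ?_
  · rw [gsum_sup hx, pf_gsum_zero, zero_add, logHeight_smul_eq_logHeight _ hT] at h
    refine h.trans (le_of_eq ?_)
    simp only [vol, mul_add, sum_add_distrib, sum_mul, mul_assoc]
  · rw [zero_add, Real.log_le_iff_le_exp (sup_pos _ hx)]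
    exact ciSup_le fun f => H (av p) (N p) B e c T (s p) (b p) hc he (hN p) (hz p) (hb p) f
  · exact Real.log_nonpos (sup_pos _ hx).le (ciSup_le fun f => fin_le_oneA v (hint f))

omit [NumberField K] in
theorem UMin_le_exp {n : ℕ} (v : AbsoluteValue K ℝ) (u : Fin n → K) (j : Fin n) :
    v (u j) ≤ Real.exp (∑ i, Real.log (max (v (u i)) 1)) := by
  refine (le_max_left _ 1).trans ?_
  rw [← Real.log_le_iff_le_exp (by positivity)]
  exact single_le_sum (f := fun i => Real.log (max (v (u i)) 1))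
    (fun i _ => pf_log_max_nonneg _) (mem_univ j)

/- Product formula for `z = u ⬝ᵥ y`, `u = N o l`: `gsum_le_S` with `f v = log (v z)`,
`g v = ∑ j, log (max (v (u j)) 1)` (`gsum_log`, `gsum_sum`, `gsum_max`); at `p ≠ o` the coordinates of `y` are at
most `exp (C (1 + c) + m)` (`inv_le`), at `o` take `c o = log (av o z)`, outside `S` use `fin_dot_le`;
`AMin_low`. -/
theorem out_U (S : Finset (FinitePlace K)) (n : ℕ) (o : Pl S) : ∃ C : ℝ, 0 ≤ C ∧
    ∀ (N : Pl S → Matrix (Fin n) (Fin n) K) (c h m : ℝ) (y : Fin n → K) (l : Fin n), 0 ≤ c →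
      0 ≤ h → 0 ≤ m → (∀ p, Tame (av p) c (N p)) → (∀ j, logHeight₁ (N o l j) ≤ h) → IntV y →
      (∀ p, p ≠ o → ∀ j, av p ((N p *ᵥ y) j) ≤ Real.exp m) → (N o *ᵥ y) l ≠ 0 →
      Real.exp (-(C * (1 + c + h + m))) ≤ av o ((N o *ᵥ y) l) := by
  classical
  obtain ⟨C₁, hC₁, hinv⟩ := inv_le (K := K) (Fin n)
  have hW : (0 : ℝ) ≤ ∑ p : Pl S, (mu p : ℝ) := sum_nonneg fun p _ => Nat.cast_nonneg _
  refine ⟨n + (∑ p : Pl S, (mu p : ℝ)) * (C₁ + 1 + n), by positivity,
    fun N c h m y l hc hh hm hN hu hy hb hz => ?_⟩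
  have hzpos : ∀ v : AbsoluteValue K ℝ, 0 < v ((N o *ᵥ y) l) := fun v => v.pos hz
  have hE : 0 ≤ C₁ * (1 + c) + m + n := by positivity
  have key := gsum_le_S S (finS_log ((N o *ᵥ y) l))
    (finS_sum univ fun j _ => finS_max (N o l j))
    (fun p => if p = o then Real.log (av o ((N o *ᵥ y) l)) else C₁ * (1 + c) + m + n)
    (fun p => by
      by_cases hp : p = o
      · subst hp
        rw [if_pos rfl]
        exact le_add_of_nonneg_left (sum_nonneg fun j _ => pf_log_max_nonneg _)
      · rw [if_neg hp, Real.log_le_iff_le_exp (hzpos _)]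
        have h1 := hinv (av p) c (N p) y m hc (hN p) (hb p hp)
        have h2 : av p ((N o *ᵥ y) l) ≤ n * (Real.exp (∑ j, Real.log (max (av p (N o l j)) 1)) *
            Real.exp (C₁ * (1 + c) + m)) := by
          have h0 : ∀ j ∈ (univ : Finset (Fin n)), av p (N o l j * y j) ≤
              Real.exp (∑ j, Real.log (max (av p (N o l j)) 1)) *
                Real.exp (C₁ * (1 + c) + m) := fun j _ => by
            rw [map_mul]
            exact mul_le_mul (UMin_le_exp (av p) (N o l) j) (h1 j) ((av p).nonneg _)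
              (Real.exp_pos _).le
          have h0' := sum_le_card_nsmul _ _ _ h0
          rw [card_univ, Fintype.card_fin, nsmul_eq_mul] at h0'
          exact ((av p).sum_le univ fun j => N o l j * y j).trans h0'
        have h3 : (n : ℝ) ≤ Real.exp n := by linarith [Real.add_one_le_exp (n : ℝ)]
        refine h2.trans ?_
        rw [← add_assoc, Real.exp_add _ (n : ℝ), ← Real.exp_add, mul_comm]
        exact mul_le_mul_of_nonneg_left h3 (Real.exp_pos _).le)
    (fun v _ => by
      rw [Real.log_le_iff_le_exp (hzpos _)]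
      exact fin_dot_le v (Real.exp_pos _).le (UMin_le_exp v.1 (N o l)) hy)
  rw [gsum_log hz, gsum_sum univ fun j _ => finS_max (N o l j)] at key
  simp only [gsum_max] at key
  have h4 : ∑ j, logHeight₁ (N o l j) ≤ n * h :=
    (sum_le_card_nsmul _ _ _ fun j _ => hu j).trans_eq
      (by rw [card_univ, Fintype.card_fin, nsmul_eq_mul])
  have h5 : ∑ p : Pl S, (mu p : ℝ) * (if p = o then Real.log (av o ((N o *ᵥ y) l))
      else C₁ * (1 + c) + m + n) ≤ (∑ p : Pl S, (mu p : ℝ)) * (C₁ * (1 + c) + m + n) +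
        mu o * Real.log (av o ((N o *ᵥ y) l)) := by
    have : ∀ p : Pl S, (mu p : ℝ) * (if p = o then Real.log (av o ((N o *ᵥ y) l))
        else C₁ * (1 + c) + m + n) ≤ mu p * (C₁ * (1 + c) + m + n) +
          if p = o then mu o * Real.log (av o ((N o *ᵥ y) l)) else 0 := by
      intro p
      by_cases hp : p = o
      · subst hp
        rw [if_pos rfl, if_pos rfl]
        exact le_add_of_nonneg_left (by positivity)
      · rw [if_neg hp, if_neg hp, add_zero]
    refine (sum_le_sum fun p _ => this p).trans_eq ?_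
    rw [sum_add_distrib, sum_ite_eq' univ o, if_pos (mem_univ _), sum_mul]
  have h6 := AMin_low o (D := n * h + (∑ p : Pl S, (mu p : ℝ)) * (C₁ * (1 + c) + m + n))
    (t := Real.log (av o ((N o *ᵥ y) l))) (by linarith)
  rw [abs_of_nonneg (by positivity)] at h6
  rw [← Real.le_log_iff_exp_le (hzpos _)]
  refine le_trans (neg_le_neg ?_) h6
  have hn : (0 : ℝ) ≤ n := Nat.cast_nonneg n
  have h7 : C₁ * (1 + c) + m + n ≤ (C₁ + 1 + n) * (1 + c + h + m) := by
    have a1 := mul_nonneg hC₁ hh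
    have a2 := mul_nonneg hC₁ hm
    have a3 := mul_nonneg hn hc
    have a4 := mul_nonneg hn hh
    have a5 := mul_nonneg hn hm
    nlinarith
  have h8 : n * h ≤ n * (1 + c + h + m) := mul_le_mul_of_nonneg_left (by linarith) hn
  have h9 := mul_le_mul_of_nonneg_left h7 hW
  rw [add_mul, mul_assoc]
  linarith

/- Otherwise the `n - i ≥ n - r + 1` indices `j ≥ i` have `ρ - g₃ ≤ l j`. -/
theorem few_big {n r : ℕ} (hr : r ≤ n) {l : Fin n → ℝ} (hl : Monotone l) {ρ g₁ g₂ g₃ : ℝ}
    (h₁ : 0 ≤ g₁) (h₂ : 0 ≤ g₂) (h₃ : 0 ≤ g₃) (hlo : ∀ i, -g₁ ≤ l i)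
    (hs : ∑ i, l i ≤ (n - r : ℝ) * ρ + g₂) (hρ : n * g₃ + n * g₁ + g₂ < ρ) (i : Fin n)
    (hi : (i : ℕ) < r) : l i < ρ - g₃ := by
  by_contra hc
  rw [not_lt] at hc
  have hn : (0 : ℝ) ≤ n := Nat.cast_nonneg n
  have hρ0 : 0 ≤ ρ := le_trans (by positivity) hρ.le
  have h1 : ∀ j : Fin n, (if i ≤ j then ρ else 0) - (g₃ + g₁) ≤ l j := by
    intro j
    by_cases hj : i ≤ j
    · rw [if_pos hj]
      linarith [hl hj]
    · rw [if_neg hj]
      linarith [hlo j]
  have h2 := sum_le_sum fun j (_ : j ∈ univ) => h1 j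
  rw [sum_sub_distrib, ← sum_filter, sum_const, sum_const, card_univ, Fintype.card_fin,
    nsmul_eq_mul, nsmul_eq_mul] at h2
  have h3 : (univ.filter fun j : Fin n => i ≤ j) = Ici i := by
    ext j
    simp
  rw [h3, Fin.card_Ici, Nat.cast_sub i.2.le] at h2
  have h4 : ((i : ℕ) : ℝ) + 1 ≤ r := by exact_mod_cast hi
  have h5 := mul_le_mul_of_nonneg_right h4 hρ0
  nlinarith

/-- The alternating form attached to `w`. -/
def uminOm {F : Type} [Field F] {n k : ℕ} (w : PS n k → F) (Z : Matrix (Fin k) (Fin n) F) : F :=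
  ∑ I : PS n k, w I * (Z.submatrix id (enum I)).det

theorem uminOm_update {F : Type} [Field F] {n k : ℕ} (w : PS n k → F)
    (Z : Matrix (Fin k) (Fin n) F) (z : Fin k) (y : Fin n → F) :
    uminOm w (Z.updateRow z y) = ∑ j, uminOm w (Z.updateRow z (Pi.single j 1)) * y j := by
  have hsub : ∀ (y : Fin n → F) (I : PS n k), (Z.updateRow z y).submatrix id (enum I) =
      (Z.submatrix id (enum I)).updateRow z (y ∘ enum I) := by
    intro y I
    ext a b
    by_cases ha : a = z <;> simp [updateRow_apply, ha]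
  have hadd : ∀ y y', uminOm w (Z.updateRow z (y + y')) =
      uminOm w (Z.updateRow z y) + uminOm w (Z.updateRow z y') := by
    intro y y'
    simp only [uminOm, hsub, ← sum_add_distrib]
    refine sum_congr rfl fun I _ => ?_
    have : (y + y') ∘ enum I = y ∘ enum I + y' ∘ enum I := rfl
    rw [this, det_updateRow_add, mul_add]
  have hsmul : ∀ (c : F) y, uminOm w (Z.updateRow z (c • y)) = c * uminOm w (Z.updateRow z y) := by
    intro c y
    simp only [uminOm, hsub, mul_sum]
    refine sum_congr rfl fun I _ => ?_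
    have : (c • y) ∘ enum I = c • (y ∘ enum I) := rfl
    rw [this, det_updateRow_smul]
    ring
  let Wl : (Fin n → F) →ₗ[F] F := ⟨⟨fun y => uminOm w (Z.updateRow z y), hadd⟩, hsmul⟩
  have h2 : y = ∑ j, y j • (Pi.single j 1 : Fin n → F) := by
    ext i
    simp [Finset.sum_apply, Pi.single_apply]
  have h3 : uminOm w (Z.updateRow z y) = Wl (∑ j, y j • (Pi.single j 1 : Fin n → F)) := by
    rw [← h2]; rfl
  rw [h3, map_sum]
  refine sum_congr rfl fun j _ => ?_
  rw [map_smul, smul_eq_mul, mul_comm]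
  rfl

theorem uminOm_mul {F : Type} [Field F] {n k : ℕ} (w : PS n k → F)
    (G : Matrix (Fin k) (Fin n) F) (X : Matrix (Fin n) (Fin n) F) (top : PS n k)
    (htop : ∀ I, I ≠ top → w ⬝ᵥ comp k X I = 0) :
    uminOm w (G * X) = (G.submatrix id (enum top)).det * (w ⬝ᵥ comp k X top) := by
  have h5 : ∀ I : PS n k, ((G * X).submatrix id (enum I)).det =
      ∑ J : PS n k, (G.submatrix id (enum J)).det * comp k X J I := by
    intro I
    have h6 : (G * X).submatrix id (enum I) = G * X.submatrix id (enum I) := by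
      ext a b
      simp [mul_apply]
    rw [h6, cauchy_binet]
    rfl
  simp only [uminOm, h5, mul_sum]
  rw [sum_comm, sum_eq_single top]
  · simp only [dotProduct, mul_sum]
    exact sum_congr rfl fun I _ => by ring
  · intro J _ hJ
    have := congrArg ((G.submatrix id (enum J)).det * ·) (htop J hJ)
    simp only [dotProduct, mul_sum, mul_zero] at this
    rw [← this]
    exact sum_congr rfl fun I _ => by ring
  · simp

theorem uminOm_units {F : Type} [Field F] {n k : ℕ} (w : PS n k → F)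
    (Z : Matrix (Fin k) (Fin n) F) (hZ : uminOm w Z ≠ 0) (z : Fin k) (s : Finset (Fin k)) :
    ∃ Z' : Matrix (Fin k) (Fin n) F, uminOm w Z' ≠ 0 ∧ Z' z = Z z ∧
      ∀ a ∈ s, a ≠ z → ∃ i, Z' a = Pi.single i 1 := by
  classical
  induction s using Finset.induction_on with
  | empty => exact ⟨Z, hZ, rfl, by simp⟩
  | insert a s _ ih =>
    obtain ⟨Z', h1, h2, h3⟩ := ih
    by_cases ha : a = z
    · exact ⟨Z', h1, h2, fun b hb hbz => h3 b ((mem_insert.mp hb).resolve_left (ha ▸ hbz)) hbz⟩
    rw [← updateRow_eq_self Z' a, uminOm_update] at h1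
    obtain ⟨i, -, hi⟩ := exists_ne_zero_of_sum_ne_zero h1
    refine ⟨Z'.updateRow a (Pi.single i 1), left_ne_zero_of_mul hi, ?_, fun b hb hbz => ?_⟩
    · rw [updateRow_ne (Ne.symm ha), h2]
    · by_cases hba : b = a
      · exact ⟨i, by rw [hba, updateRow_self]⟩
      · rw [updateRow_ne hba]
        exact h3 b ((mem_insert.mp hb).resolve_left hba) hbz

/- Strengthening of `exists_func` (`Es/AComp`, reuse its proof).  Let `𝒯` be the image of all maps
`f : Fin k → Fin n` under `T f j J = det (((1.submatrix f id).updateRow z0 (Pi.single j 1)).submatrix id (enum J))`.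
The form `ω Z = ∑ J, w J * det (Z.submatrix id (enum J))` is multilinear and alternating in the rows of `Z`.
Since `comp k X` is invertible (`det_comp_ne`) and `w ≠ 0`, `ω (X.submatrix (enum top) id) ≠ 0`; move the row
`X j` to the position `z0` (swap, sign) and expand the other rows in unit vectors (`MultilinearMap.map_sum`,
or replace them one at a time): some `ω ((1.submatrix f id).updateRow z0 (X j)) ≠ 0`. -/
theorem exists_funcU (F : Type) [Field F] (n k : ℕ) (hk : 0 < k) :
    ∃ 𝒯 : Finset (Matrix (Fin n) (PS n k) ℤ), ∀ w : PS n k → F, w ≠ 0 →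
      ∀ X : Matrix (Fin n) (Fin n) F, X.det ≠ 0 → ∀ top : PS n k,
        (∀ I, I ≠ top → w ⬝ᵥ comp k X I = 0) → ∀ j ∈ top.1, ∃ T ∈ 𝒯,
          (T.map (Int.cast : ℤ → F) *ᵥ w) ⬝ᵥ X j ≠ 0 ∧ ∀ g : Fin n → F, (∀ l ∈ top.1, g l = 0) →
            (T.map (Int.cast : ℤ → F) *ᵥ w) ⬝ᵥ (∑ l, g l • X l) = 0 := by
  classical
  let T : (Fin k → Fin n) × Fin k → Matrix (Fin n) (PS n k) ℤ := fun p => Matrix.of fun j J =>
    ((((1 : Matrix (Fin n) (Fin n) ℤ).submatrix p.1 id).updateRow p.2
      (Pi.single j 1)).submatrix id (enum J)).det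
  have hT : ∀ (w : PS n k → F) p y, ((T p).map (Int.cast : ℤ → F) *ᵥ w) ⬝ᵥ y =
      uminOm w (((1 : Matrix (Fin n) (Fin n) F).submatrix p.1 id).updateRow p.2 y) := by
    intro w p y
    rw [uminOm_update]
    refine sum_congr rfl fun j _ => ?_
    congr 1
    simp only [mulVec, dotProduct, map_apply, T, of_apply, uminOm]
    refine sum_congr rfl fun I _ => ?_
    rw [mul_comm]
    congr 1
    refine ((Int.castRingHom F).map_det _).trans (congrArg det ?_)
    ext a b
    by_cases ha : a = p.2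
    · simp [ha, Pi.single_apply]
    · simp [updateRow_apply, ha, one_apply]
  refine ⟨univ.image T, fun w hw X hX top htop j hj => ?_⟩
  have h0 : w ⬝ᵥ comp k X top ≠ 0 := fun h => by
    refine hw (eq_zero_of_mulVec_eq_zero (det_comp_ne k hX) (funext fun I => ?_))
    by_cases hI : I = top
    · rw [hI]; exact (dotProduct_comm _ _).trans h
    · exact (dotProduct_comm _ _).trans (htop I hI)
  obtain ⟨z, rfl⟩ := exists_enum_eq top hj
  obtain ⟨Z', h1, h2, h3⟩ := uminOm_units w (X.submatrix (enum top) id) h0 z univ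
  have h4 : ∀ a, ∃ i, a ≠ z → Z' a = Pi.single i 1 := fun a => by
    by_cases ha : a = z
    · exact ⟨enum top z, fun h => absurd ha h⟩
    · exact (h3 a (mem_univ a) ha).imp fun i hi _ => hi
  choose f hf using h4
  refine ⟨T (f, z), mem_image_of_mem T (mem_univ _), ?_, fun g hg => ?_⟩
  · rw [hT]
    convert h1 using 2
    ext a b
    by_cases ha : a = z
    · subst ha
      simp [h2]
    · simp [updateRow_apply, ha, hf a ha, one_apply, Pi.single_apply, eq_comm]
  · rw [hT]
    have hXq : IsUnit X.det := isUnit_iff_ne_zero.mpr hX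
    obtain ⟨Z, hZ⟩ : ∃ Z, Z = (1 : Matrix (Fin n) (Fin n) F).submatrix f id := ⟨_, rfl⟩
    have hG : Z.updateRow z (∑ l, g l • X l) = (Z * X⁻¹).updateRow z g * X := by
      ext a b
      by_cases ha : a = z
      · subst ha
        simp [mul_apply, Finset.sum_apply]
      · have h4 : ((Z * X⁻¹).updateRow z g * X) a b = (Z * X⁻¹ * X) a b := by
          simp only [mul_apply (M := (Z * X⁻¹).updateRow z g), mul_apply (M := Z * X⁻¹),
            updateRow_ne ha]
        rw [h4, Matrix.mul_assoc, nonsing_inv_mul _ hXq, Matrix.mul_one]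
        simp [updateRow_apply, ha]
    simp only [← hZ]
    rw [hG, uminOm_mul w _ X top htop, det_eq_zero_of_row_eq_zero z, zero_mul]
    intro b
    simpa using hg _ (enum_mem top b)

end Pool.Agent.Lib.MP_651af7_nt.Es
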