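import Pool.Agent.Lib.MP_651af7_nt.Es.BDefs
import Pool.Agent.Lib.MP_651af7_nt.Vj.Wd
import Pool.Agent.Lib.Common.Subspace.AuxPoly

/-! Symmetric powers of matrices. -/

namespace Pool.Agent.Lib.MP_651af7_nt.Es

open Finset Matrix Height NumberField Pool.Agent.Lib.MP_e97e2b_nt Pool.Agent.Lib.MP_651af7_nt.Iv
  Pool.Agent.Lib.MP_651af7_nt.Vj Pool.Agent.Lib.MP_651af7_nt.Vj.P1 Pool.Agent.Lib.MP_651af7_nt.Rt
  Pool.Agent.Lib.Common.Subspace
open Pool.Agent.Lib.MP_8865d3_nt.Fa (Small Adm wt)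

variable {R R' : Type} [CommRing R] [CommRing R'] {κ : Type} [Fintype κ] [DecidableEq κ] {n : ℕ}

theorem sum_Mo (α : Mo κ n) : ∑ l, α.1 l = n := (mem_piAntidiag.1 α.2).1

/- `auxpoly_card`, `Fintype.card_coe`. -/
theorem card_Mo_le : Fintype.card (Mo κ n) ≤ (2 ^ Fintype.card κ) ^ n := by
  rw [Fintype.card_coe]
  exact auxpoly_card n

theorem card_Mo_pos [Nonempty κ] : 0 < Fintype.card (Mo κ n) := by
  obtain ⟨k⟩ := ‹Nonempty κ›
  exact Fintype.card_pos_iff.2 ⟨⟨Pi.single k n, by simp⟩⟩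

private theorem cxa_prod {M T : Type} [CommMonoid M] [Fintype T] (φ : T → κ) (U : κ → M) :
    ∏ t, U (φ t) = ∏ j, U j ^ (univ.filter fun t => φ t = j).card := by
  rw [← Finset.prod_fiberwise univ φ]
  refine prod_congr rfl fun j _ => ?_
  rw [prod_congr rfl (g := fun _ => U j) fun t ht => by rw [(mem_filter.1 ht).2], prod_const]

private theorem cxa_sigma {M : Type} [CommMonoid M] (α : Mo κ n) (u : κ → M) :
    ∏ t : (Σ l, Fin (α.1 l)), u t.1 = ∏ l, u l ^ α.1 l := by
  simp [Fintype.prod_sigma]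

private theorem cxa_card (α : Mo κ n) : Fintype.card (Σ l, Fin (α.1 l)) = n := by
  simp [sum_Mo]

private theorem cxa_card_le (α : Mo κ n) (s : Finset ((Σ l, Fin (α.1 l)) → κ)) :
    (s.card : ℝ) ≤ (Fintype.card κ : ℝ) ^ n := by
  have := s.card_le_univ
  rw [Fintype.card_fun, cxa_card] at this
  exact_mod_cast this

/- Write `z l ^ α l` as a product over `Fin (α l)` (`Finset.prod_sigma'`, `Fintype.prod_sigma`), expand with
`Finset.prod_univ_sum`, `∏ t, X (φ t) = monomial (fibre cardinalities) 1` (`Finset.prod_comp` or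
`Finset.prod_fiberwise`), `coeff_monomial`. -/
theorem cx_eq (α β : Mo κ n) (A : Matrix κ κ R) : cx α β A =
    ∑ φ ∈ univ.filter (fun φ : (Σ l, Fin (α.1 l)) → κ =>
      ∀ j, (univ.filter fun t => φ t = j).card = β.1 j), ∏ t, A t.1 (φ t) := by
  rw [cx, mo, ← cxa_sigma α fun l => ∑ j, MvPolynomial.C (A l j) * MvPolynomial.X j,
    Finset.prod_univ_sum, Fintype.piFinset_univ, MvPolynomial.coeff_sum, sum_filter]
  refine sum_congr rfl fun φ _ => ?_
  have e : (∏ t, MvPolynomial.X (φ t) : MvPolynomial κ R) = MvPolynomial.monomial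
      (Finsupp.equivFunOnFinite.symm fun j => (univ.filter fun t => φ t = j).card) 1 := by
    rw [cxa_prod φ, MvPolynomial.monomial_eq, map_one, one_mul, Finsupp.prod_fintype _ _ (by simp)]
    rfl
  rw [prod_mul_distrib, ← map_prod, MvPolynomial.coeff_C_mul, e, MvPolynomial.coeff_monomial]
  simp only [EmbeddingLike.apply_eq_iff_eq, funext_iff, mul_ite, mul_one, mul_zero]

theorem map_cx (φ : R →+* R') (α β : Mo κ n) (A : Matrix κ κ R) :
    φ (cx α β A) = cx α β (A.map φ) := by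
  unfold cx mo
  rw [← MvPolynomial.coeff_map]
  simp only [map_prod, map_pow, map_sum, map_mul, MvPolynomial.map_C, MvPolynomial.map_X,
    Matrix.map_apply]

theorem cx_smul (α β : Mo κ n) (s : R) (A : Matrix κ κ R) :
    cx α β (s • A) = s ^ n * cx α β A := by
  have h : (mo α fun l => ∑ j, MvPolynomial.C ((s • A) l j) * MvPolynomial.X j :
      MvPolynomial κ R) =
      MvPolynomial.C (s ^ n) * mo α fun l => ∑ j, MvPolynomial.C (A l j) * MvPolynomial.X j := by
    unfold mo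
    have e : s ^ n = ∏ l, s ^ α.1 l := by rw [prod_pow_eq_pow_sum, (mem_piAntidiag.1 α.2).1]
    rw [e, map_prod, ← prod_mul_distrib]
    refine prod_congr rfl fun l _ => ?_
    rw [map_pow, ← mul_pow, mul_sum]
    simp only [Matrix.smul_apply, smul_eq_mul, map_mul, mul_assoc]
  unfold cx
  rw [h, MvPolynomial.coeff_C_mul]

theorem Cx_expand (α : Mo κ n) (A : Matrix κ κ R) :
    (mo α fun l => ∑ j, MvPolynomial.C (A l j) * MvPolynomial.X j : MvPolynomial κ R) =
      ∑ β : Mo κ n, MvPolynomial.monomial (Finsupp.equivFunOnFinite.symm β.1) (cx α β A) := by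
  have hom : (mo α fun l => ∑ j, MvPolynomial.C (A l j) * MvPolynomial.X j :
      MvPolynomial κ R).IsHomogeneous n := by
    have h := MvPolynomial.IsHomogeneous.prod (univ : Finset κ)
      (fun l => (∑ j, MvPolynomial.C (A l j) * MvPolynomial.X j : MvPolynomial κ R) ^ α.1 l)
      (fun l => 1 * α.1 l) fun l _ =>
        (MvPolynomial.IsHomogeneous.sum _ _ _ fun j _ =>
          MvPolynomial.isHomogeneous_C_mul_X _ _).pow _
    simp only [one_mul] at h
    rwa [(mem_piAntidiag.1 α.2).1] at h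
  ext d
  rw [MvPolynomial.coeff_sum]
  simp only [MvPolynomial.coeff_monomial]
  by_cases hd : ∑ l, d l = n
  · rw [sum_eq_single (⟨d, by simpa using hd⟩ : Mo κ n) ?_ (by simp)]
    · simp [cx]
    · intro β _ hβ
      exact if_neg fun e => hβ (Subtype.ext (funext fun l => DFunLike.congr_fun e l))
  · rw [hom.coeff_eq_zero (by rwa [Finsupp.degree_eq_sum]), sum_eq_zero]
    intro β _
    refine if_neg fun e => hd ?_
    rw [← e]
    exact (mem_piAntidiag.1 β.2).1

/- The polynomial in the definition of `cx` is homogeneous of degree `n`, so it is the sum of its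
monomials of degree `n`; evaluate at `z`.  Or group the expansion over all `φ` by fibre cardinalities. -/
theorem mo_mulVec (α : Mo κ n) (A : Matrix κ κ R) (z : κ → R) :
    mo α (A *ᵥ z) = ∑ β : Mo κ n, cx α β A * mo β z := by
  have h := congrArg (MvPolynomial.eval z) (Cx_expand α A)
  simpa [mo, MvPolynomial.eval_monomial, Finsupp.prod_fintype, Matrix.mulVec, dotProduct] using h

/- `mo_mulVec` in the polynomial ring for `A.map C` and `z l = ∑ j, C (B l j) * X j`; take coefficients. -/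
theorem cx_mul (α ν : Mo κ n) (A B : Matrix κ κ R) :
    cx α ν (A * B) = ∑ β : Mo κ n, cx α β A * cx β ν B := by
  have h := mo_mulVec α (A.map (MvPolynomial.C : R →+* MvPolynomial κ R))
    fun l => ∑ j, MvPolynomial.C (B l j) * MvPolynomial.X j
  have e : (A.map (MvPolynomial.C : R →+* MvPolynomial κ R)) *ᵥ
      (fun l => ∑ j, MvPolynomial.C (B l j) * MvPolynomial.X j) =
      fun l => ∑ j, MvPolynomial.C ((A * B) l j) * MvPolynomial.X j := by
    funext l
    simp only [Matrix.mulVec, dotProduct, Matrix.map_apply, Matrix.mul_apply, map_sum, map_mul,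
      mul_sum, sum_mul, mul_assoc]
    exact sum_comm
  rw [e] at h
  rw [cx, h, MvPolynomial.coeff_sum]
  refine sum_congr rfl fun β _ => ?_
  rw [← map_cx, MvPolynomial.coeff_C_mul]
  rfl

/- `cx_eq`; at most `card κ ^ n` terms (`SN.sum_le_card`, `E_mono`), each bounded by `SN.prod_le`. -/
theorem cx_le {na : Prop} (S : SN R na) (α β : Mo κ n) {A : Matrix κ κ R} {u U : κ → ℝ}
    (hu : ∀ l, 0 ≤ u l) (hU : ∀ j, 0 ≤ U j) (h : ∀ l j, S.N (A l j) ≤ u l * U j) :
    S.N (cx α β A) ≤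
      E na ((Fintype.card κ : ℝ) ^ n) * ((∏ l, u l ^ α.1 l) * ∏ j, U j ^ β.1 j) := by
  have h0 : 0 ≤ (∏ l, u l ^ α.1 l) * ∏ j, U j ^ β.1 j :=
    mul_nonneg (prod_nonneg fun l _ => pow_nonneg (hu l) _)
      (prod_nonneg fun l _ => pow_nonneg (hU l) _)
  rw [cx_eq]
  refine (S.sum_le_card _ h0 fun φ hφ => ?_).trans
    (mul_le_mul_of_nonneg_right (E_mono (cxa_card_le α _)) h0)
  refine (S.prod_le _ fun t _ => h t.1 (φ t)).trans (le_of_eq ?_)
  rw [prod_mul_distrib, cxa_sigma, cxa_prod φ U]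
  simp only [(mem_filter.1 hφ).2]

/- `cx_eq`, `il_sum`, `il_prod`. -/
theorem il_cx {σ : Type} (α β : Mo κ n) {A : Matrix κ κ (MvPolynomial σ ℚ)} {Λ : ℝ} (hΛ : 0 ≤ Λ)
    (h : ∀ l j, IL (A l j) Λ) : IL (cx α β A) ((Fintype.card κ * Λ) ^ n) := by
  rw [cx_eq]
  refine (il_sum _ fun φ _ => il_prod _ fun t _ => h t.1 (φ t)).mono ?_
  rw [prod_const, sum_const, card_univ, cxa_card, nsmul_eq_mul, mul_pow]
  exact mul_le_mul_of_nonneg_right (cxa_card_le α _) (pow_nonneg hΛ _)

/- `cx_eq`, `wd_sum`, `wd_prod`. -/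
theorem wd_cx {σ : Type} {w : σ → ℕ} (α β : Mo κ n) {A : Matrix κ κ (MvPolynomial σ ℚ)} {k : ℕ}
    (h : ∀ l j, WD w (A l j) k) : WD w (cx α β A) (k * n) := by
  rw [cx_eq]
  refine wd_sum _ fun φ _ => (wd_prod _ fun t _ => h t.1 (φ t)).mono ?_
  rw [sum_const, card_univ, cxa_card, smul_eq_mul, mul_comm]

end Pool.Agent.Lib.MP_651af7_nt.Es
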