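import Pool.Agent.Lib.MP_651af7_nt.Es.APF

/-! Approximation by integers; lower bounds for integral vectors. -/

namespace Pool.Agent.Lib.MP_651af7_nt.Es

open Finset Matrix Height NumberField Pool.Agent.Lib.MP_e97e2b_nt Pool.Agent.Lib.MP_651af7_nt.Iv
  Pool.Agent.Lib.MP_651af7_nt.Vj Pool.Agent.Lib.MP_651af7_nt.Rt Pool.Agent.Lib.Common.Subspace

variable {K : Type} [Field K] [NumberField K] {S : Finset (FinitePlace K)}

theorem AApx_round (K : Type) [Field K] [NumberField K] : ∃ c : ℝ, 0 ≤ c ∧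
    ∀ t : K, ∃ a : K, IsIntegral ℤ a ∧ ∀ w : InfinitePlace K, w (t - a) ≤ c := by
  classical
  refine ⟨∑ w : InfinitePlace K, ∑ k, w (integralBasis K k),
    sum_nonneg fun w _ => sum_nonneg fun k _ => apply_nonneg _ _, fun t => ?_⟩
  refine ⟨∑ k, (⌊(integralBasis K).repr t k⌋ : K) * integralBasis K k, ?_, fun w => ?_⟩
  · refine IsIntegral.sum _ fun k _ => IsIntegral.mul ?_ ?_
    · exact isIntegral_algebraMap (R := ℤ) (A := K)
    · rw [integralBasis_apply]
      exact (RingOfIntegers.basis K k).2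
  · have e : t - ∑ k, (⌊(integralBasis K).repr t k⌋ : K) * integralBasis K k =
        ∑ k, ((Int.fract ((integralBasis K).repr t k) : ℚ) : K) * integralBasis K k := by
      conv_lhs => enter [1]; rw [← (integralBasis K).sum_repr t]
      rw [← sum_sub_distrib]
      refine sum_congr rfl fun k _ => ?_
      rw [Rat.smul_def, Int.fract]
      push_cast
      ring
    rw [e]
    refine le_trans ?_ (single_le_sum (f := fun w : InfinitePlace K => ∑ k, w (integralBasis K k))
      (fun w _ => sum_nonneg fun k _ => apply_nonneg _ _) (mem_univ w))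
    refine (w.1.sum_le _ _).trans (sum_le_sum fun k _ => ?_)
    change w _ ≤ _
    rw [map_mul]
    refine mul_le_of_le_one_left (apply_nonneg _ _) ?_
    rw [InfinitePlace.map_ratCast, ← Rat.norm_cast_real, Real.norm_eq_abs,
      abs_of_nonneg (by exact_mod_cast Int.fract_nonneg _)]
    exact_mod_cast (Int.fract_lt_one _).le

theorem AApx_weak (o : InfinitePlace K) (t : K) :
    ∃ s : K, o (t - s) ≤ 1 ∧ ∀ w : InfinitePlace K, w ≠ o → w s ≤ 1 := by
  classical
  obtain ⟨s, hs⟩ := Metric.denseRange_iff.1 (InfinitePlace.denseRange_algebraMap_pi K)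
    (fun w => WithAbs.toAbs w.1 (if w = o then t else 0)) 1 one_pos
  rw [dist_pi_lt_iff one_pos] at hs
  have h : ∀ w : InfinitePlace K, w ((if w = o then t else 0) - s) < 1 := by
    intro w
    have := hs w
    rw [dist_eq_norm] at this
    exact this
  refine ⟨s, by simpa using (h o).le, fun w hw => ?_⟩
  have := (h w).le
  rw [if_neg hw, zero_sub] at this
  exact (w.1.map_neg s).ge.trans this

theorem AApx_pf {g : K} (hg : g ≠ 0) (hi : IsIntegral ℤ g) {C : ℝ} {m : Pl S → ℝ}
    (h : ∀ p : Pl S, av p g ≤ Real.exp (C + m p)) :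
    0 ≤ (∑ p : Pl S, (mu p : ℝ)) * C + ∑ p, mu p * m p := by
  refine (pf_int S hg hi).trans ?_
  rw [sum_mul, ← sum_add_distrib]
  refine sum_le_sum fun p _ => ?_
  rw [← mul_add]
  exact mul_le_mul_of_nonneg_left ((Real.log_le_iff_le_exp ((av p).pos hg)).2 (h p))
    (Nat.cast_nonneg _)

/- Either: weak approximation (`InfinitePlace.denseRange_algebraMap_pi`) gives `t'` with
`o (t - t') ≤ 1`, `w t' ≤ 1` for `w ≠ o`; write `t' = ∑ q k • ω k` in `integralBasis K` and round the
`q k : ℚ`.  Or: `z` in `mixedSpace K` equal to `t` at `o` and to `0` elsewhere, `ZSpan.fract`,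
`ZSpan.norm_fract_le` for `latticeBasis K`, `mem_span_latticeBasis`. -/
theorem exists_approx (K : Type) [Field K] [NumberField K] : ∃ c : ℝ, 1 ≤ c ∧
    ∀ (o : InfinitePlace K) (t : K), ∃ a : K, IsIntegral ℤ a ∧ o (t - a) ≤ c ∧
      ∀ w : InfinitePlace K, w ≠ o → w a ≤ c := by
  obtain ⟨c, hc, h⟩ := AApx_round K
  refine ⟨1 + c, by linarith, fun o t => ?_⟩
  obtain ⟨s, h1, h2⟩ := AApx_weak o t
  obtain ⟨a, ha, h3⟩ := h s
  refine ⟨a, ha, ?_, fun w hw => ?_⟩
  · have e : t - a = (t - s) + (s - a) := by ring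
    rw [e]
    exact (o.1.add_le _ _).trans (add_le_add h1 (h3 o))
  · have e : a = s - (s - a) := by ring
    rw [e]
    exact (w.1.sub_le_add _ _).trans (add_le_add (h2 w hw) (h3 w))

/- `adjugate_apply`, `av_det_le` with all `r i = exp c`, `c j = 1` (`1 ≤ exp c`). -/
theorem adj_leA {ι : Type} [Fintype ι] [DecidableEq ι] (v : AbsoluteValue K ℝ) {c : ℝ} (hc : 0 ≤ c)
    {M : Matrix ι ι K} (h : ∀ i j, v (M i j) ≤ Real.exp c) (i j : ι) :
    v (M.adjugate i j) ≤ (Fintype.card ι).factorial * Real.exp (Fintype.card ι * c) := by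
  rw [adjugate_apply]
  refine (av_det_le v _ (fun _ => Real.exp c) (fun _ => 1) fun k l => ?_).trans ?_
  · rw [mul_one, updateRow_apply]
    split_ifs
    · rw [Pi.single_apply]
      split_ifs
      · rw [map_one]
        exact Real.one_le_exp hc
      · rw [map_zero]
        exact (Real.exp_pos c).le
    · exact h k l
  · simp [Real.exp_nat_mul]

/- Cramer: `det M • y = adjugate M *ᵥ (M *ᵥ y)`. -/
theorem inv_le (ι : Type) [Fintype ι] [DecidableEq ι] : ∃ C : ℝ, 0 ≤ C ∧
    ∀ (v : AbsoluteValue K ℝ) (c : ℝ) (M : Matrix ι ι K) (y : ι → K) (m : ℝ), 0 ≤ c → Tame v c M →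
      (∀ l, v ((M *ᵥ y) l) ≤ Real.exp m) → ∀ j, v (y j) ≤ Real.exp (C * (1 + c) + m) := by
  refine ⟨Fintype.card ι * (Fintype.card ι).factorial + Fintype.card ι + 1, by positivity,
    fun v c M y m hc hM hy j => ?_⟩
  have e : M.det * y j = ∑ l, M.adjugate j l * (M *ᵥ y) l := by
    have := congrFun (mulVec_mulVec y M.adjugate M) j
    rw [adjugate_mul, smul_mulVec, one_mulVec, Pi.smul_apply, smul_eq_mul] at this
    exact this.symm
  have h1 : v M.det * v (y j) ≤ Fintype.card ι * ((Fintype.card ι).factorial *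
      Real.exp (Fintype.card ι * c) * Real.exp m) := by
    rw [← map_mul, e]
    refine (v.sum_le _ _).trans ((sum_le_card_nsmul _ _ _ fun l _ => ?_).trans_eq
      (by rw [nsmul_eq_mul, card_univ]))
    rw [map_mul]
    exact mul_le_mul (adj_leA v hc hM.1 j l) (hy l) (v.nonneg _) (by positivity)
  have h2 : Real.exp (-c) * v (y j) ≤ v M.det * v (y j) :=
    mul_le_mul_of_nonneg_right hM.2 (v.nonneg _)
  have h3 : ((Fintype.card ι : ℝ) * (Fintype.card ι).factorial) ≤
      Real.exp (Fintype.card ι * (Fintype.card ι).factorial) := by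
    linarith [Real.add_one_le_exp ((Fintype.card ι : ℝ) * (Fintype.card ι).factorial)]
  have h4 : Real.exp (-c) * v (y j) ≤ Real.exp (Fintype.card ι * (Fintype.card ι).factorial +
      (Fintype.card ι * c + m)) := by
    rw [Real.exp_add, Real.exp_add]
    refine (h2.trans h1).trans ?_
    rw [mul_assoc, ← mul_assoc]
    exact mul_le_mul_of_nonneg_right h3 (by positivity)
  rw [Real.exp_neg, inv_mul_le_iff₀ (Real.exp_pos c), ← Real.exp_add] at h4
  refine h4.trans (Real.exp_le_exp.2 ?_)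
  have h5 : (0 : ℝ) ≤ Fintype.card ι * (Fintype.card ι).factorial * c := by positivity
  have h6 : (0 : ℝ) ≤ Fintype.card ι := by positivity
  nlinarith

/- A nonzero coordinate, `pf_int`, `inv_le`. -/
theorem low_bound (S : Finset (FinitePlace K)) (ι : Type) [Fintype ι] [DecidableEq ι] :
    ∃ C : ℝ, 0 ≤ C ∧ ∀ (N : Pl S → Matrix ι ι K) (c : ℝ) (y : ι → K) (m : Pl S → ℝ), 0 ≤ c →
      (∀ p, Tame (av p) c (N p)) → y ≠ 0 → IntV y →
      (∀ p l, av p ((N p *ᵥ y) l) ≤ Real.exp (m p)) → 0 ≤ C * (1 + c) + ∑ p, mu p * m p := by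
  obtain ⟨C, hC, h⟩ := inv_le (K := K) ι
  refine ⟨(∑ p : Pl S, (mu p : ℝ)) * C, by positivity, fun N c y m hc hN hy hi hb => ?_⟩
  obtain ⟨j, hj⟩ := Function.ne_iff.1 hy
  rw [mul_assoc]
  exact AApx_pf hj (hi j) fun p => h (av p) c (N p) y (m p) hc (hN p) (hb p) j

/- `det (X * (N p)ᵀ) = det X * det (N p)`, `av_det_le`, `pf_int` for `det X` (`int_det`); compare
`sum_lower` in `Common/Subspace/Main`. -/
theorem vol_lower (S : Finset (FinitePlace K)) (ι : Type) [Fintype ι] [DecidableEq ι] :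
    ∃ C : ℝ, 0 ≤ C ∧ ∀ (N : Pl S → Matrix ι ι K) (c : ℝ) (X : Matrix ι ι K) (b : Pl S → ι → ℝ),
      0 ≤ c → (∀ p, Real.exp (-c) ≤ av p (N p).det) → X.det ≠ 0 → (∀ i, IntV (X i)) →
      (∀ p i l, av p ((N p *ᵥ X i) l) ≤ Real.exp (b p l)) → 0 ≤ C * (1 + c) + vol b := by
  refine ⟨(∑ p : Pl S, (mu p : ℝ)) * (Fintype.card ι).factorial, by positivity,
    fun N c X b hc hN hX hi hb => ?_⟩
  rw [mul_assoc]
  refine AApx_pf (m := fun p => ∑ j, b p j) hX (int_det hi) fun p => ?_
  have h1 := av_det_le (av p) (X * (N p)ᵀ) (fun _ => 1) (fun l => Real.exp (b p l)) fun i l => by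
    rw [one_mul]
    refine le_of_eq_of_le ?_ (hb p i l)
    congr 1
    simp only [mul_apply, transpose_apply, mulVec, dotProduct]
    exact sum_congr rfl fun k _ => mul_comm _ _
  rw [det_mul, det_transpose, map_mul, prod_const_one, one_mul, ← Real.exp_sum] at h1
  have h2 : av p X.det * Real.exp (-c) ≤ av p X.det * av p (N p).det :=
    mul_le_mul_of_nonneg_left (hN p) ((av p).nonneg _)
  have h3 : ((Fintype.card ι).factorial : ℝ) ≤ Real.exp (Fintype.card ι).factorial := by
    linarith [Real.add_one_le_exp ((Fintype.card ι).factorial : ℝ)]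
  have h4 : av p X.det * Real.exp (-c) ≤ Real.exp ((Fintype.card ι).factorial + ∑ j, b p j) := by
    rw [Real.exp_add]
    exact (h2.trans h1).trans (mul_le_mul_of_nonneg_right h3 (Real.exp_pos _).le)
  rw [Real.exp_neg, mul_inv_le_iff₀ (Real.exp_pos c), ← Real.exp_add] at h4
  refine h4.trans (Real.exp_le_exp.2 ?_)
  have h5 : (1 : ℝ) ≤ (Fintype.card ι).factorial := by
    exact_mod_cast Nat.factorial_pos _
  nlinarith

end Pool.Agent.Lib.MP_651af7_nt.Es
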