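import Pool.Agent.Lib.MP_651af7_nt.Es.Defs

/-! Elimination: the image of a hypersurface is not dense. -/

namespace Pool.Agent.Lib.MP_651af7_nt.Es

open Finset Matrix Height NumberField Pool.Agent.Lib.MP_e97e2b_nt Pool.Agent.Lib.MP_651af7_nt.Iv
  Pool.Agent.Lib.MP_651af7_nt.Vj Pool.Agent.Lib.MP_651af7_nt.Rt Pool.Agent.Lib.Common.Subspace

variable {K : Type} [Field K] [NumberField K]

omit [NumberField K] in
/-- The coordinate ring of the curve. -/
theorem ADesc_curve (a b : K) : ∃ (D : Type) (_ : CommRing D) (_ : IsDomain D) (_ : Algebra K D)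
    (φ : PK K →ₐ[K] D), Algebra.trdeg K D = 1 ∧ ∀ x y : K, y ^ 2 = x ^ 3 + a * x + b →
      ∃ ψ : D →ₐ[K] K, ∀ f, ψ (φ f) = MvPolynomial.eval ![x, y] f := by
  let W : WeierstrassCurve.Affine K := ⟨0, 0, 0, a, b⟩
  refine ⟨W.CoordinateRing, inferInstance, inferInstance, inferInstance,
    MvPolynomial.aeval ![AdjoinRoot.of W.polynomial Polynomial.X, AdjoinRoot.root W.polynomial],
    ?_, fun x y h => ?_⟩
  · have : Module.Finite (Polynomial K) W.CoordinateRing :=
      Module.Finite.of_basis (WeierstrassCurve.Affine.CoordinateRing.basis W)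
    rw [← trdeg_add_eq K (Polynomial K) (A := W.CoordinateRing), Polynomial.trdeg_of_isDomain,
      trdeg_eq_zero, add_zero]
  · have h0 : W.polynomial.eval₂ (Polynomial.aeval x : Polynomial K →ₐ[K] K) y = 0 := by
      simp [W, WeierstrassCurve.Affine.polynomial, Polynomial.eval₂_pow, h]
    refine ⟨AdjoinRoot.liftAlgHom W.polynomial (Polynomial.aeval x) y h0, fun f => ?_⟩
    rw [MvPolynomial.comp_aeval_apply, MvPolynomial.aeval_eq_eval]
    congr 2
    funext i
    fin_cases i <;> simp

/-- The points where one fixed coordinate of the normal vector does not vanish. -/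
theorem ADesc_one {D : Type} [CommRing D] [IsDomain D] [Algebra K D]
    (h : Algebra.trdeg K D = 1) {ι : Type} [Fintype ι] (A B : D) (w : ι → D) (l₀ : ι) :
    ∃ Θ : MvPolynomial (Option ι) K, Θ ≠ 0 ∧ ∀ (ψ : D →ₐ[K] K) (X : ι → K), ψ B ≠ 0 →
      ψ (w l₀) ≠ 0 → (fun l => ψ (w l)) ⬝ᵥ X = 0 →
      MvPolynomial.eval (fun o => o.elim (ψ A / ψ B) X) Θ = 0 := by
  classical
  rcases eq_or_ne (B * w l₀) 0 with hs | hs
  · refine ⟨1, one_ne_zero, fun ψ X h1 h2 _ => absurd ?_ (mul_ne_zero h1 h2)⟩
    rw [← map_mul, hs, map_zero]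
  have hle := powers_le_nonZeroDivisors_of_noZeroDivisors hs
  let L := Localization.Away (B * w l₀)
  have : IsDomain L := IsLocalization.isDomain_localization hle
  have : FaithfulSMul D L :=
    (faithfulSMul_iff_algebraMap_injective D L).2 (IsLocalization.injective L hle)
  have : Algebra.IsAlgebraic D L := IsLocalization.isAlgebraic L (Submonoid.powers (B * w l₀))
  have hL : Algebra.trdeg K L = 1 := by
    rw [← trdeg_add_eq K D (A := L), h, trdeg_eq_zero, add_zero]
  have hM : Algebra.trdeg K (MvPolynomial {l // l ≠ l₀} L) = (Fintype.card ι : Cardinal) := by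
    rw [← trdeg_add_eq K L (A := MvPolynomial {l // l ≠ l₀} L), hL,
      MvPolynomial.trdeg_of_isDomain, Cardinal.mk_fintype, Cardinal.lift_natCast]
    have h1 : Fintype.card {l // l ≠ l₀} = Fintype.card ι - 1 := by
      simp [Fintype.card_subtype_compl]
    have h2 : 0 < Fintype.card ι := Fintype.card_pos_iff.2 ⟨l₀⟩
    have h3 : 1 + Fintype.card {l // l ≠ l₀} = Fintype.card ι := by omega
    exact_mod_cast h3
  let t : L := IsLocalization.Away.invSelf (B * w l₀)
  have ht : algebraMap D L (B * w l₀) * t = 1 := IsLocalization.Away.mul_invSelf _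
  let fam : Option ι → MvPolynomial {l // l ≠ l₀} L := fun o => o.elim
    (MvPolynomial.C (algebraMap D L (A * w l₀) * t)) fun l =>
      if hl : l = l₀ then
        -∑ k : {l // l ≠ l₀}, MvPolynomial.C (algebraMap D L (w k * B) * t) * MvPolynomial.X k
      else MvPolynomial.X ⟨l, hl⟩
  have hdep : ¬ AlgebraicIndependent K fam := fun hi => by
    have h1 := hi.cardinalMk_le_trdeg
    rw [hM, Cardinal.mk_fintype, Fintype.card_option, Nat.cast_le] at h1
    omega
  rw [algebraicIndependent_iff] at hdep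
  push Not at hdep
  obtain ⟨Θ, hΘ, hΘ0⟩ := hdep
  refine ⟨Θ, hΘ0, fun ψ X h1 h2 h3 => ?_⟩
  have hu : ∀ y : Submonoid.powers (B * w l₀), IsUnit (ψ y) := by
    rintro ⟨_, k, rfl⟩
    rw [map_pow, map_mul]
    exact (pow_ne_zero _ (mul_ne_zero h1 h2)).isUnit
  let ψ' : L →ₐ[K] K := IsLocalization.liftAlgHom (M := Submonoid.powers (B * w l₀)) hu
  have e1 : ∀ z : D, ψ' (algebraMap D L z) = ψ z := fun z => IsLocalization.lift_eq hu z
  have e2 : ψ' t = (ψ B * ψ (w l₀))⁻¹ := by
    have := congrArg ψ' ht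
    rw [map_mul, e1, map_one, map_mul] at this
    exact eq_inv_of_mul_eq_one_right this
  let χ : MvPolynomial {l // l ≠ l₀} L →ₐ[K] K := MvPolynomial.aevalTower ψ' fun l => X l
  have e3 := congrArg χ hΘ
  rw [map_zero, MvPolynomial.comp_aeval_apply, MvPolynomial.aeval_eq_eval] at e3
  rw [← e3]
  congr 2
  funext o
  rcases o with _ | l
  · simp only [fam, χ, Option.elim, MvPolynomial.aevalTower_C, map_mul, e1, e2]
    field_simp
  · by_cases hl : l = l₀
    · subst hl
      simp only [fam, χ, Option.elim, dif_pos, map_neg, map_sum, map_mul,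
        MvPolynomial.aevalTower_C, MvPolynomial.aevalTower_X, e1, e2]
      rw [dotProduct, Fintype.sum_eq_add_sum_subtype_ne _ l] at h3
      refine mul_left_cancel₀ h2 ?_
      rw [eq_neg_of_add_eq_zero_left h3, mul_neg, mul_sum]
      congr 1
      refine sum_congr rfl fun k _ => ?_
      field_simp
    · simp only [fam, χ, Option.elim, dif_neg hl, MvPolynomial.aevalTower_X]

/- For each `l₀` treat the points with `w l₀ ≠ 0` and multiply the results.  In the algebra of
functions on the set of such `(x, y, X)` the `(D + 1) ^ (N + 1)` monomials `u ^ i ∏ X l ^ j l`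
(`i, j l ≤ D`, `u = A / B`), multiplied by the unit `(B * w l₀) ^ D`, lie in the span of the
`x ^ i y ^ f ∏_{l ≠ l₀} X l ^ j l` with `i ≤ c D`, `f ≤ 1`, `j l ≤ 2 D`, so they are dependent
for large `D`.  (Or: let `W` be the Weierstrass curve over `R₀ = MvPolynomial {l // l ≠ l₀} K`; its
`CoordinateRing` is a domain whose fraction field has transcendence degree `≤ N` over `K`
(`Algebra.IsAlgebraic.trdeg_le_cardinalMk`), so `u` and the `X l` are algebraically dependent in
`Localization.Away (B * w l₀)`, and every point gives a map from this ring to `K`.) -/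
theorem descend (a b : K) {ι : Type} [Fintype ι] (A B : PK K) (w : ι → PK K) :
    ∃ Θ : MvPolynomial (Option ι) K, Θ ≠ 0 ∧ ∀ (x y : K) (X : ι → K), y ^ 2 = x ^ 3 + a * x + b →
      MvPolynomial.eval ![x, y] B ≠ 0 → (fun l => MvPolynomial.eval ![x, y] (w l)) ≠ 0 →
      (fun l => MvPolynomial.eval ![x, y] (w l)) ⬝ᵥ X = 0 →
      MvPolynomial.eval (fun o => o.elim
        (MvPolynomial.eval ![x, y] A / MvPolynomial.eval ![x, y] B) X) Θ = 0 := by
  obtain ⟨D, _, _, _, φ, hD, hψ⟩ := ADesc_curve a b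
  choose Θ hΘ0 hΘ using ADesc_one hD (φ A) (φ B) fun l => φ (w l)
  refine ⟨∏ l, Θ l, prod_ne_zero_iff.2 fun l _ => hΘ0 l, fun x y X h hB hw hX => ?_⟩
  obtain ⟨ψ, e⟩ := hψ x y h
  obtain ⟨l, hl⟩ := Function.ne_iff.1 hw
  rw [map_prod]
  refine prod_eq_zero (mem_univ l) ?_
  have := hΘ l ψ X (by rwa [e]) (by rwa [e]) (by simpa only [e] using hX)
  rwa [e, e] at this

end Pool.Agent.Lib.MP_651af7_nt.Es
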