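import Pool.Agent.Lib.MP_651af7_nt.Es.AMB
import Pool.Agent.Lib.MP_651af7_nt.Vj.Hts
import Pool.Agent.Lib.MP_8865d3_nt.FaHt

/-! Small solutions from the function field of the curve. -/

namespace Pool.Agent.Lib.MP_651af7_nt.Es

open Finset Matrix Height NumberField Pool.Agent.Lib.MP_e97e2b_nt Pool.Agent.Lib.MP_651af7_nt.Iv
  Pool.Agent.Lib.MP_651af7_nt.Vj Pool.Agent.Lib.MP_651af7_nt.Rt Pool.Agent.Lib.Common.Subspace

variable {K : Type} [Field K] [NumberField K]

/- Induction on `g` (`MvPolynomial.induction_on`). -/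
theorem exists_red_xy (a b : K) (g : PK K) : ∃ g₁ g₂ : Polynomial K, ∀ x y : K,
    y ^ 2 = x ^ 3 + a * x + b → MvPolynomial.eval ![x, y] g = g₁.eval x + g₂.eval x * y := by
  induction g using MvPolynomial.induction_on with
  | C c => exact ⟨Polynomial.C c, 0, fun x y _ => by simp⟩
  | add p q hp hq =>
    obtain ⟨p₁, p₂, hp⟩ := hp
    obtain ⟨q₁, q₂, hq⟩ := hq
    refine ⟨p₁ + q₁, p₂ + q₂, fun x y h => ?_⟩
    rw [map_add, hp x y h, hq x y h, Polynomial.eval_add, Polynomial.eval_add]
    ring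
  | mul_X p i hp =>
    obtain ⟨p₁, p₂, hp⟩ := hp
    fin_cases i
    · refine ⟨p₁ * Polynomial.X, p₂ * Polynomial.X, fun x y h => ?_⟩
      rw [map_mul, hp x y h]
      simp
      ring
    · refine ⟨p₂ * (Polynomial.X ^ 3 + Polynomial.C a * Polynomial.X + Polynomial.C b), p₁,
        fun x y h => ?_⟩
      rw [map_mul, hp x y h]
      simp
      linear_combination (Polynomial.eval x p₂) * h

theorem AFF_ht_elim {ι : Type} [Fintype ι] (y : K) {z : ι → K} (hz : z ≠ 0) :
    logHeight (Sum.elim (fun l => y * z l) z) ≤ logHeight₁ y + logHeight z := by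
  have h1 : (![y, 1] : Fin 2 → K) ≠ 0 := fun h => by simpa using congrFun h 1
  rw [logHeight₁_eq_logHeight, ← logHeight_fun_mul_eq h1 hz]
  have h2 := logHeight_comp_le (Sum.elim (fun l : ι => ((0 : Fin 2), l)) fun l => (1, l))
    (fun a : Fin 2 × ι => (![y, 1] : Fin 2 → K) a.1 * z a.2)
  convert h2 using 2
  ext s
  rcases s with l | l <;> simp

theorem AFF_ht_lin (K : Type) [Field K] [NumberField K] (ι : Type) [Fintype ι] :
    ∃ C : ℝ, ∀ (y : K) (v : ι ⊕ ι → K), v ≠ 0 →
      logHeight (fun l => v (Sum.inl l) + y * v (Sum.inr l)) ≤ logHeight₁ y + logHeight v + C := by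
  classical
  let A : ι × (ι ⊕ ι) → K := fun q => Sum.elim (Pi.single q.1 1) (Pi.single q.1 1) q.2
  refine ⟨totalWeight K * Real.log (Nat.card (ι ⊕ ι)) + logHeight A, fun y v hv => ?_⟩
  have h1 : (![y, 1] : Fin 2 → K) ≠ 0 := fun h => by simpa using congrFun h 1
  have h2 := logHeight_comp_le
    (Sum.elim (fun l : ι => ((1 : Fin 2), (Sum.inl l : ι ⊕ ι))) fun l : ι => (0, Sum.inr l))
    (fun a : Fin 2 × (ι ⊕ ι) => (![y, 1] : Fin 2 → K) a.1 * v a.2)
  rw [logHeight_fun_mul_eq h1 hv, ← logHeight₁_eq_logHeight] at h2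
  have h3 := logHeight_linearMap_apply_le A ((fun a : Fin 2 × (ι ⊕ ι) =>
    (![y, 1] : Fin 2 → K) a.1 * v a.2) ∘
    (Sum.elim (fun l : ι => ((1 : Fin 2), (Sum.inl l : ι ⊕ ι))) fun l : ι => (0, Sum.inr l)))
  have h4 : (fun l => v (Sum.inl l) + y * v (Sum.inr l)) = fun j => ∑ i, A (j, i) *
      ((fun a : Fin 2 × (ι ⊕ ι) => (![y, 1] : Fin 2 → K) a.1 * v a.2) ∘
      (Sum.elim (fun l : ι => ((1 : Fin 2), (Sum.inl l : ι ⊕ ι))) fun l : ι => (0, Sum.inr l))) i := by
    ext j
    simp [A, Fintype.sum_sum_type, Pi.single_apply]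
  rw [h4]
  linarith

theorem AFF_ev_aeval {a b : ℤ} (R : Pt (a : K) (b : K)) (p : Polynomial K) :
    ev R (Polynomial.aeval (MvPolynomial.X 0 : PK K) p) = p.eval (xc R) := by
  unfold ev
  induction p using Polynomial.induction_on' with
  | add p q hp hq => simp only [map_add, hp, hq, Polynomial.eval_add]
  | monomial n c => simp [Polynomial.aeval_monomial]

/- On the curve write `c l = c' l + c'' l * y` with `c', c''` polynomials in `x`.  Apply
`exists_minbasis` on `ι ⊕ ι` to the vectors `(c', c'' * f)` and `(c'', c')`, `f = x ^ 3 + a x + b`, and to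
`(y₀ z, z)`, whose height is `logHeight₁ y₀ + logHeight z` (`logHeight_fun_mul_eq`, `logHeight_comp_le`).
The linear map `(α, β) ↦ α + y₀ β` sends it to `2 y₀ z ≠ 0` (put the roots of `f` and of `Δ` into `Z`), so
some `u = (α, β)` of small height has `w = α + y β` with `w (R) ≠ 0`; `w (R)` is a fixed linear image of
`![1, y₀] ⊗ u (x₀)` (`logHeight_linearMap_apply_le`).  `height_y_le` (`Vj/Hts`), `Fa.onE_pt`,
`Polynomial.aeval (X 0)` turns a polynomial in `x` into an element of `PK K`. -/
theorem exists_ffbasis (a b : ℤ) {ι : Type} [Fintype ι] (Cs : Finset (ι → PK K)) :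
    ∃ (Ws : Finset (ι → PK K)) (Z : Finset K) (C : ℝ),
      ∀ (R : Pt (a : K) (b : K)) (z : ι → K), R ≠ 0 → xc R ∉ Z → z ≠ 0 →
        (∀ c ∈ Cs, evV R c ⬝ᵥ z = 0) →
        ∃ w ∈ Ws, evV R w ≠ 0 ∧ (∀ c ∈ Cs, evV R c ⬝ᵥ evV R w = 0) ∧
          logHeight (evV R w) ≤ logHeight z + 4 * ht R + C := by
  classical
  choose c₁ c₂ hc using fun g : PK K => exists_red_xy (a : K) (b : K) g
  let f : Polynomial K :=
    Polynomial.X ^ 3 + Polynomial.C (a : K) * Polynomial.X + Polynomial.C (b : K)
  have hf : f ≠ 0 := by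
    have : f.Monic := by
      unfold f
      monicity!
    exact this.ne_zero
  let F₁ : (ι → PK K) → (ι ⊕ ι → Polynomial K) := fun c =>
    Sum.elim (fun l => c₁ (c l)) fun l => c₂ (c l) * f
  let F₂ : (ι → PK K) → (ι ⊕ ι → Polynomial K) := fun c =>
    Sum.elim (fun l => c₂ (c l)) fun l => c₁ (c l)
  obtain ⟨U, Δ, C, hΔ, hU, hs⟩ := exists_minbasis (Cs.image F₁ ∪ Cs.image F₂)
  obtain ⟨C', hC'⟩ := AFF_ht_lin K ι
  let G : (ι ⊕ ι → Polynomial K) → (ι → PK K) := fun u l =>
    Polynomial.aeval (MvPolynomial.X 0 : PK K) (u (Sum.inl l)) +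
      MvPolynomial.X 1 * Polynomial.aeval (MvPolynomial.X 0 : PK K) (u (Sum.inr l))
  refine ⟨U.image G, (f * Δ).roots.toFinset, C + C' + 2 * (totalWeight K * Real.log 3 +
    logHeight₁ (a : K) + logHeight₁ (b : K)), fun R z hR hZ hz hcz => ?_⟩
  have hE : yc R ^ 2 = xc R ^ 3 + (a : K) * xc R + (b : K) :=
    MP_8865d3_nt.Fa.onE_pt hR
  have hfe : f.eval (xc R) = yc R ^ 2 := by simp [f, hE]
  rw [Multiset.mem_toFinset, Polynomial.mem_roots (mul_ne_zero hf hΔ), Polynomial.IsRoot,
    Polynomial.eval_mul, mul_eq_zero, not_or, hfe] at hZ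
  have hy : yc R ≠ 0 := fun h => hZ.1 (by simp [h])
  have hev : ∀ (c : ι → PK K) l, evV R c l =
      (c₁ (c l)).eval (xc R) + (c₂ (c l)).eval (xc R) * yc R := fun c l => hc (c l) _ _ hE
  have hG : ∀ u, evV R (G u) = fun l =>
      (u (Sum.inl l)).eval (xc R) + yc R * (u (Sum.inr l)).eval (xc R) := fun u => by
    ext l
    have e1 := AFF_ev_aeval R (u (Sum.inl l))
    have e2 := AFF_ev_aeval R (u (Sum.inr l))
    unfold ev at e1 e2
    simp only [evV, ev, G, map_add, map_mul, e1, e2]
    simp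
  have hsp := hs (xc R) (Sum.elim (fun l => yc R * z l) z) hZ.2 (by
    intro c' hc'
    rcases Finset.mem_union.1 hc' with h | h <;> obtain ⟨c, hcs, rfl⟩ := Finset.mem_image.1 h <;>
      have h0 := hcz c hcs <;> simp only [dotProduct, hev] at h0
    · simp only [F₁, dotProduct, Fintype.sum_sum_type, Sum.elim_inl, Sum.elim_inr,
        Polynomial.eval_mul, hfe, ← Finset.sum_add_distrib]
      rw [← mul_zero (yc R), ← h0, Finset.mul_sum]
      exact Finset.sum_congr rfl fun l _ => by ring
    · simp only [F₂, dotProduct, Fintype.sum_sum_type, Sum.elim_inl, Sum.elim_inr,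
        ← Finset.sum_add_distrib]
      rw [← h0]
      exact Finset.sum_congr rfl fun l _ => by ring)
  by_contra hcon
  push Not at hcon
  have key : ∀ v ∈ Submodule.span K {v | ∃ u ∈ U, v = (fun l => (u l).eval (xc R)) ∧
      logHeight v ≤ logHeight (Sum.elim (fun l => yc R * z l) z) + C},
      ∀ l, v (Sum.inl l) + yc R * v (Sum.inr l) = 0 := by
    intro v hv
    induction hv using Submodule.span_induction with
    | zero => simp
    | add v w _ _ hv hw =>
      intro l
      simp only [Pi.add_apply]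
      linear_combination hv l + hw l
    | smul t v _ hv =>
      intro l
      simp only [Pi.smul_apply, smul_eq_mul]
      linear_combination t * hv l
    | mem v hv =>
      obtain ⟨u, hu, rfl, hh⟩ := hv
      by_contra hne
      have hne' : evV R (G u) ≠ 0 := fun h => hne fun l => by
        rw [hG] at h
        exact congrFun h l
      have hv0 : (fun l => (u l).eval (xc R)) ≠ 0 := fun h => hne fun l => by
        rw [h]
        simp
      have h1 := hcon (G u) (Finset.mem_image_of_mem G hu) hne' fun c hcs => by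
        have e1 := congrArg (Polynomial.eval (xc R)) (hU u hu (F₁ c)
          (Finset.mem_union_left _ (Finset.mem_image_of_mem _ hcs)))
        have e2 := congrArg (Polynomial.eval (xc R)) (hU u hu (F₂ c)
          (Finset.mem_union_right _ (Finset.mem_image_of_mem _ hcs)))
        simp only [F₁, F₂, dotProduct, Fintype.sum_sum_type, Sum.elim_inl, Sum.elim_inr,
          Polynomial.eval_add, Polynomial.eval_finsetSum, Polynomial.eval_mul, hfe,
          Polynomial.eval_zero, ← Finset.sum_add_distrib] at e1 e2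
        have e3 := congrArg₂ (fun s t => s + yc R * t) e1 e2
        simp only [Finset.mul_sum, ← Finset.sum_add_distrib, mul_zero, add_zero] at e3
        rw [← e3, hG]
        simp only [dotProduct, hev]
        exact Finset.sum_congr rfl fun l _ => by ring
      have h2 := hC' (yc R) _ hv0
      have h3 := AFF_ht_elim (yc R) hz
      have h4 := height_y_le hE
      rw [hG] at h1
      unfold ht at h1
      linarith
  apply hz
  ext l
  have h5 := key _ hsp l
  simp only [Sum.elim_inl, Sum.elim_inr] at h5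
  have h6 : (2 * yc R) * z l = 0 := by linear_combination h5
  simpa [hy] using h6

end Pool.Agent.Lib.MP_651af7_nt.Es
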