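import Pool.Agent.Lib.MP_651af7_nt.Es.AComp
import Pool.Agent.Lib.MP_651af7_nt.Es.APF

/-! Passage to an exterior power. -/

namespace Pool.Agent.Lib.MP_651af7_nt.Es

open Finset Matrix Height NumberField Pool.Agent.Lib.MP_e97e2b_nt Pool.Agent.Lib.MP_651af7_nt.Iv
  Pool.Agent.Lib.MP_651af7_nt.Vj Pool.Agent.Lib.MP_651af7_nt.Rt Pool.Agent.Lib.Common.Subspace

variable {K : Type} [Field K] [NumberField K] {S : Finset (FinitePlace K)}

open Classical in
/-- The box in the exterior power. -/
noncomputable def wb {n k : ℕ} (o : Pl S) (top : PS n k) (β : Pl S → Fin n → ℝ) (g : ℝ) (p : Pl S)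
    (J : PS n k) : ℝ :=
  Real.log k.factorial + ∑ a, β p (enum J a) - if p = o ∧ J = top then g else 0

/- Pointwise port of `wedge_step` (`Common/Subspace/Wedge`): `comp_mulVec'`, `av_det_le`, `det_comp_ne`,
`int_det` for the minors. -/
theorem wedge_pen {n k : ℕ} (N : Pl S → Matrix (Fin n) (Fin n) K) (o : Pl S)
    (X : Matrix (Fin n) (Fin n) K) (β : Pl S → Fin n → ℝ) (g : ℝ) (j₀ : Fin n) (top : PS n k)
    (htop : ∀ l, l ∈ top.1 ↔ j₀ ≤ l) (hX : X.det ≠ 0) (hint : ∀ i, IntV (X i))
    (hent : ∀ p i l, av p ((N p *ᵥ X i) l) ≤ Real.exp (β p l))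
    (hgap : ∀ i l, i < j₀ → j₀ ≤ l → av o ((N o *ᵥ X i) l) ≤ Real.exp (β o l - g)) :
    Pen (fun p => comp k (N p)) top (wb o top β g) (comp k X) := by
  classical
  refine ⟨fun I J => IsIntegral.det fun a b => hint _ _, det_comp_ne k hX, fun p I J hI => ?_⟩
  rw [comp_mulVec']
  have hfac : (0 : ℝ) < k.factorial := by exact_mod_cast k.factorial_pos
  by_cases h : p = o ∧ J = top
  · obtain ⟨rfl, rfl⟩ := h
    have : ∃ l ∈ I.1, l ∉ J.1 := by
      by_contra hcon
      push Not at hcon
      exact hI (Subtype.ext (Finset.eq_of_subset_of_card_le hcon (by rw [I.2, J.2])))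
    obtain ⟨l, hl, hl'⟩ := this
    obtain ⟨a₀, rfl⟩ := exists_enum_eq I hl
    have hlt : enum I a₀ < j₀ := not_le.1 fun e => hl' ((htop _).2 e)
    refine (av_det_le (av p) _ (fun a => if a = a₀ then Real.exp (-g) else 1)
      (fun a => Real.exp (β p (enum J a))) ?_).trans (le_of_eq ?_)
    · intro a a'
      by_cases ha : a = a₀
      · subst ha
        have hm : j₀ ≤ enum J a' := (htop _).1 (enum_mem J a')
        simp only [if_true, of_apply, ← Real.exp_add]
        refine (hgap _ _ hlt hm).trans (le_of_eq ?_)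
        congr 1
        ring
      · simp only [if_neg ha, one_mul, of_apply]
        exact hent _ _ _
    · simp only [wb, and_self, if_true, Finset.prod_ite_eq', mem_univ, Fintype.card_fin,
        ← Real.exp_sum]
      rw [Real.exp_sub, Real.exp_add, Real.exp_log hfac, Real.exp_neg]
      field_simp
  · refine (av_det_le (av p) _ (fun _ => 1)
      (fun a => Real.exp (β p (enum J a))) ?_).trans (le_of_eq ?_)
    · intro a a'
      simp only [one_mul, of_apply]
      exact hent _ _ _
    · simp only [wb, if_neg h, Finset.prod_const_one, Fintype.card_fin, ← Real.exp_sum,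
        sub_zero, one_mul]
      rw [Real.exp_add, Real.exp_log hfac]

/- `sum_sum_enum`. -/
theorem vol_wb (S : Finset (FinitePlace K)) (n k : ℕ) : ∃ c₀ c₁ : ℝ, 0 ≤ c₀ ∧ 0 ≤ c₁ ∧
    ∀ (o : Pl S) (top : PS n k) (β : Pl S → Fin n → ℝ) (g : ℝ),
      vol (wb o top β g) = c₀ + c₁ * vol β - mu o * g := by
  classical
  obtain ⟨c, hc⟩ := sum_sum_enum n k
  have hl : 0 ≤ Real.log k.factorial := Real.log_natCast_nonneg _
  refine ⟨(∑ p : Pl S, (mu p : ℝ)) * (Fintype.card (PS n k) * Real.log k.factorial), c,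
    by positivity, Nat.cast_nonneg c, fun o top β g => ?_⟩
  have h1 : ∀ p : Pl S, ∑ J, wb o top β g p J = Fintype.card (PS n k) * Real.log k.factorial +
      c * ∑ l, β p l - if p = o then g else 0 := by
    intro p
    simp only [wb, Finset.sum_sub_distrib, Finset.sum_add_distrib, hc, Finset.sum_const,
      card_univ, nsmul_eq_mul]
    congr 1
    by_cases h : p = o
    · rw [Finset.sum_eq_single top] <;> simp +contextual [h]
    · simp [h]
  have h2 : ∑ p : Pl S, (mu p : ℝ) * (if p = o then g else 0) = mu o * g := by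
    rw [Finset.sum_eq_single o] <;> simp +contextual
  simp only [vol, h1, mul_sub, mul_add, Finset.sum_sub_distrib, Finset.sum_add_distrib, h2]
  rw [Finset.sum_mul, Finset.mul_sum]
  congr 2
  exact sum_congr rfl fun p _ => by ring

theorem abs_wb {n k : ℕ} (o : Pl S) (top : PS n k) {β : Pl S → Fin n → ℝ} (g : ℝ) {B : ℝ}
    (h : ∀ p l, |β p l| ≤ B) (p : Pl S) (J : PS n k) :
    |wb o top β g p J| ≤ Real.log k.factorial + k * B + |g| := by
  have hl : 0 ≤ Real.log k.factorial := Real.log_natCast_nonneg _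
  have h1 : |∑ a, β p (enum J a)| ≤ k * B := by
    refine (Finset.abs_sum_le_sum_abs _ _).trans ((Finset.sum_le_sum fun a _ => h p _).trans ?_)
    simp
  unfold wb
  refine (abs_sub _ _).trans (add_le_add ((abs_add_le _ _).trans ?_) ?_)
  · rw [abs_of_nonneg hl]
    linarith
  · split_ifs
    · exact le_rfl
    · simp

end Pool.Agent.Lib.MP_651af7_nt.Es
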