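import Pool.Agent.Lib.MP_651af7_nt.Es.AMin
import Pool.Agent.Lib.MP_651af7_nt.Es.AWedge
import Pool.Agent.Lib.Common.Subspace.Main

/-! Reduction to the penultimate minimum. -/

namespace Pool.Agent.Lib.MP_651af7_nt.Es

open Finset Matrix Height NumberField Pool.Agent.Lib.MP_e97e2b_nt Pool.Agent.Lib.MP_651af7_nt.Iv
  Pool.Agent.Lib.MP_651af7_nt.Vj Pool.Agent.Lib.MP_651af7_nt.Rt Pool.Agent.Lib.Common.Subspace

variable {K : Type} [Field K] [NumberField K]

theorem ARed_det {n : ℕ} (v : AbsoluteValue K ℝ) (M : Matrix (Fin n) (Fin n) K)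
    (σ : Equiv.Perm (Fin n)) : v (M.submatrix σ id).det = v M.det := by
  rw [det_permute]
  rcases Int.units_eq_one_or (Equiv.Perm.sign σ) with h | h <;> simp [h]

theorem ARed_abs_vol {S : Finset (FinitePlace K)} {n : ℕ} {b : Pl S → Fin n → ℝ} {B : ℝ}
    (h : ∀ p l, |b p l| ≤ B) : -((∑ p : Pl S, (mu p : ℝ)) * (n * B)) ≤ vol b := by
  rw [sum_mul, ← sum_neg_distrib]
  refine sum_le_sum fun p _ => ?_
  rw [← mul_neg]
  refine mul_le_mul_of_nonneg_left ?_ (Nat.cast_nonneg _)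
  have := sum_le_sum (s := univ) fun l _ => (abs_le.1 (h p l)).1
  simpa using this

theorem ARed_vol {S : Finset (FinitePlace K)} {n : ℕ} (b : Pl S → Fin n → ℝ) (L : ℝ)
    (π : Pl S → Equiv.Perm (Fin n)) :
    vol (fun p l => L + b p (π p l)) = (∑ p : Pl S, (mu p : ℝ)) * (n * L) + vol b := by
  rw [vol, vol, sum_mul, ← sum_add_distrib]
  refine sum_congr rfl fun p _ => ?_
  rw [sum_add_distrib, Equiv.sum_comp (π p) (b p), sum_const, card_univ, Fintype.card_fin,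
    nsmul_eq_mul, mul_add]

theorem reduce (n : ℕ) {δ : ℝ} (hδ : 0 < δ) :
    ∃ (δ' : ℝ) (𝒯 : ∀ k : Fin n, Finset (Matrix (Fin n) (PS n k) ℤ)), 0 < δ' ∧
      ∀ (S : Finset (FinitePlace K)) (Γ : ℝ), ∃ Γ' η q₀ : ℝ, 0 < η ∧
      ∀ (q : ℝ) (N : Pl S → Matrix (Fin n) (Fin n) K) (x : Fin n → K), q₀ ≤ q →
        (∀ p, Tame (av p) (η * q) (N p)) → IntV x →
        (∀ p l, Real.exp (-(Γ * q)) ≤ av p ((N p *ᵥ x) l) ∧ av p ((N p *ᵥ x) l) ≤ Real.exp (Γ * q)) →
        vol (fun p l => Real.log (av p ((N p *ᵥ x) l))) ≤ -(δ * q) →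
        ∃ (k : Fin n) (π : Pl S → Equiv.Perm (Fin n)) (top : PS n k)
          (Y : Matrix (PS n k) (PS n k) K) (b : Pl S → PS n k → ℝ),
          Pen (fun p => comp k ((N p).submatrix (π p) id)) top b Y ∧ (∀ p J, |b p J| ≤ Γ' * q) ∧
          vol b ≤ -(δ' * q) ∧ ∀ w : PS n k → K, w ≠ 0 → (∀ I, I ≠ top → w ⬝ᵥ Y I = 0) →
            ∃ T ∈ 𝒯 k, T.map (Int.cast : ℤ → K) *ᵥ w ≠ 0 ∧
              (T.map (Int.cast : ℤ → K) *ᵥ w) ⬝ᵥ x = 0 := by
  classical
  have hT : ∀ k : Fin n, ∃ 𝒯 : Finset (Matrix (Fin n) (PS n k) ℤ), 0 < (k : ℕ) →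
      ∀ w : PS n k → K, w ≠ 0 → ∃ T ∈ 𝒯, T.map (Int.cast : ℤ → K) *ᵥ w ≠ 0 ∧
        ∀ X : Matrix (Fin n) (Fin n) K, X.det ≠ 0 → ∀ top : PS n k,
          (∀ I, I ≠ top → w ⬝ᵥ comp k X I = 0) → ∀ g : Fin n → K, (∀ l ∈ top.1, g l = 0) →
            (T.map (Int.cast : ℤ → K) *ᵥ w) ⬝ᵥ (∑ l, g l • X l) = 0 := fun k => by
    by_cases hk : 0 < (k : ℕ)
    · obtain ⟨𝒯, h⟩ := exists_func K n k hk
      exact ⟨𝒯, fun _ => h⟩
    · exact ⟨∅, fun h => absurd h hk⟩
  choose 𝒯 h𝒯 using hT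
  obtain ⟨δ₁, hδ₁⟩ : ∃ δ₁ : ℝ, δ₁ = δ / (4 * (n * n + 1)) := ⟨_, rfl⟩
  have hδ0 : 0 < δ₁ := by rw [hδ₁]; positivity
  have hδ2 : 4 * (n * n + 1) * δ₁ = δ := by rw [hδ₁]; field_simp
  refine ⟨δ₁ / 2, 𝒯, by positivity, fun S Γ => ?_⟩
  obtain ⟨o⟩ : Nonempty (InfinitePlace K) := inferInstance
  obtain ⟨C, hC, hmin⟩ := exists_minimaK S n o
  obtain ⟨C₅, hC₅, hvl⟩ := vol_lower S (Fin n)
  obtain ⟨C₃, hC₃, hlow⟩ := low_bound S (Fin n)
  choose c₀ c₁ hc₀ hc₁ hwb using fun k : Fin n => vol_wb S n k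
  obtain ⟨s, hs⟩ : ∃ s : ℝ, s = ∑ p : Pl S, (mu p : ℝ) := ⟨_, rfl⟩
  have hs0 : 0 ≤ s := hs ▸ sum_nonneg fun _ _ => Nat.cast_nonneg _
  obtain ⟨L, hL⟩ : ∃ L : ℝ, L = Real.log C := ⟨_, rfl⟩
  have hL0 : 0 ≤ L := hL ▸ Real.log_nonneg hC
  have hC0 : 0 < C := by linarith
  obtain ⟨E, hE⟩ : ∃ E : ℝ, E = C + C₅ + s * (n * L) := ⟨_, rfl⟩
  have hsL : 0 ≤ s * (n * L) := by positivity
  have hE0 : 0 < E := by linarith
  have hc₀' := sum_nonneg (s := univ) fun k _ => hc₀ k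
  have hc₁' := sum_nonneg (s := univ) fun k _ => hc₁ k
  obtain ⟨E', hE'⟩ : ∃ E' : ℝ, E' = ∑ k, c₀ k + (∑ k, c₁ k + 1) * E := ⟨_, rfl⟩
  have hE'0 : 0 < E' := by rw [hE']; positivity
  obtain ⟨G₁, hG₁⟩ : ∃ G : ℝ, G = 2 * C₃ + s * (L + |Γ|) := ⟨_, rfl⟩
  have hG₁0 : 0 ≤ G₁ := by rw [hG₁]; positivity
  obtain ⟨G₂, hG₂⟩ : ∃ G : ℝ, G = 2 * C + s * (n * |Γ|) := ⟨_, rfl⟩
  have hG₂0 : 0 ≤ G₂ := by rw [hG₂]; positivity
  obtain ⟨G₄, hG₄⟩ : ∃ G : ℝ, G = L + |Γ| + (G₂ + (n + 1) * G₁) := ⟨_, rfl⟩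
  have hG₄0 : 0 ≤ G₄ := by rw [hG₄]; positivity
  obtain ⟨η, hη⟩ : ∃ η : ℝ, η = δ₁ / (4 * E' + δ₁) := ⟨_, rfl⟩
  have hη0 : 0 < η := by rw [hη]; positivity
  have hη1 : η ≤ 1 := by rw [hη, div_le_one (by positivity)]; linarith
  have hη2 : E' * η ≤ δ₁ / 4 := by
    rw [hη, mul_div_assoc', div_le_div_iff₀ (by positivity) (by positivity)]
    linarith [mul_pos hδ0 hδ0]
  refine ⟨Real.log n.factorial + n * G₄ + δ₁, η, max 1 (4 * E' / δ₁), hη0,
    fun q N x hq hN hx hb hv => ?_⟩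
  have hq1 : 1 ≤ q := (le_max_left _ _).trans hq
  have hq2 : 4 * E' ≤ q * δ₁ := (div_le_iff₀ hδ0).1 ((le_max_right _ _).trans hq)
  have hc : 0 ≤ η * q := by positivity
  have hc2 : 1 + η * q ≤ 2 * q := by
    linarith [mul_le_mul_of_nonneg_right hη1 (zero_le_one.trans hq1)]
  have hE2 : E' * (1 + η * q) ≤ δ₁ / 2 * q := by
    linarith [mul_le_mul_of_nonneg_right hη2 (zero_le_one.trans hq1)]
  set O : Pl S := Sum.inl o with hO
  set A : Pl S → Fin n → ℝ := fun p l => av p ((N p *ᵥ x) l) with hAdef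
  have hA : ∀ p l, 0 < A p l := fun p l => (Real.exp_pos _).trans_le (hb p l).1
  have hΓ : Γ * q ≤ |Γ| * q := mul_le_mul_of_nonneg_right (le_abs_self Γ) (by linarith)
  have hAb : ∀ p l, |Real.log (A p l)| ≤ |Γ| * q := fun p l => abs_le.2
    ⟨by linarith [(Real.le_log_iff_exp_le (hA p l)).2 (hb p l).1],
      by linarith [(Real.log_le_iff_le_exp (hA p l)).2 (hb p l).2]⟩
  obtain ⟨X, lam, π₀, H, hup⟩ := hmin N (fun p => N p *ᵥ x) (η * q) hc hN
    (fun p l => (av p).pos_iff.1 (hA p l))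
    fun v l => fin_dot_le v.1 (Real.exp_pos _).le ((hN (Sum.inr v)).1 l) hx
  let π : Pl S → Equiv.Perm (Fin n) := fun p => if p = O then π₀ else 1
  let β : Pl S → Fin n → ℝ := fun p l =>
    L + Real.log (A p (π p l)) + if p = O then Real.log (lam l) else 0
  have hβO : ∀ l, Real.exp (β O l) = C * A O (π₀ l) * lam l := fun l => by
    simp only [β, π, if_true]
    rw [Real.exp_add, Real.exp_add, hL, Real.exp_log hC0, Real.exp_log (hA _ _),
      Real.exp_log (H.pos l)]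
  have hent : ∀ p i l, av p (((N p).submatrix (π p) id *ᵥ X i) l) ≤ Real.exp (β p l) := by
    intro p i l
    by_cases hp : p = O
    · subst hp
      rw [hβO]
      simp only [π, if_true]
      exact (H.on i l).trans (mul_le_mul_of_nonneg_left (min_le_right _ _)
        (mul_pos hC0 (hA _ _)).le)
    · simp only [β, π, if_neg hp, add_zero]
      rw [Real.exp_add, hL, Real.exp_log hC0, Real.exp_log (hA _ _)]
      exact H.off p hp i l
  have hvβ : vol β = s * (n * L) + vol (fun p l => Real.log (A p l)) +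
      mu O * ∑ l, Real.log (lam l) := by
    rw [hs, ← ARed_vol (fun p l => Real.log (A p l)) L π, ← AMin_vol]
  have h1 := hvl (fun p => (N p).submatrix (π p) id) (η * q) X β hc
    (fun p => by rw [ARed_det]; exact (hN p).2) H.det H.int hent
  have hm1 : (1 : ℝ) ≤ mu O := by exact_mod_cast one_le_mu O
  have hm2 : (mu O : ℝ) ≤ 2 := by exact_mod_cast mu_le_two O
  have hsL2 : s * (n * L) ≤ s * (n * L) * (1 + η * q) := le_mul_of_one_le_right hsL (by linarith)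
  have hEE : E * (1 + η * q) ≤ E' * (1 + η * q) := by
    refine mul_le_mul_of_nonneg_right ?_ (by linarith)
    rw [hE']
    linarith [mul_nonneg hc₁' hE0.le]
  have hE3 : E * (1 + η * q) = C * (1 + η * q) + C₅ * (1 + η * q) + s * (n * L) * (1 + η * q) := by
    rw [hE]; ring
  have hCq : 0 ≤ C * (1 + η * q) := by positivity
  have hC₅q : 0 ≤ C₅ * (1 + η * q) := by positivity
  have hδq : 0 < δ₁ * q := by positivity
  have hnq : 0 ≤ (n : ℝ) * (n * (δ₁ * q)) := by positivity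
  have hδ3 : δ * q = 4 * (n * (n * (δ₁ * q))) + 4 * (δ₁ * q) := by rw [← hδ2]; ring
  have h2 : 2 * (n * (n * (δ₁ * q))) < mu O * ∑ l, Real.log (lam l) := by linarith
  have h3 : 0 < ∑ l, Real.log (lam l) := by
    by_contra h
    linarith [mul_nonneg (Nat.cast_nonneg (α := ℝ) (mu O)) (neg_nonneg.2 (not_lt.1 h))]
  have hspan : ∀ i, 0 < Real.log (lam i) →
      ∃ g : Fin n → K, (∀ l, i ≤ l → g l = 0) ∧ x = ∑ l, g l • X l := fun i hi =>
    H.span x hx (fun _ _ _ => le_rfl) i fun l =>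
      lt_mul_of_one_lt_right (hA O l) ((Real.log_pos_iff (H.pos i).le).1 hi)
  obtain ⟨i₀, j₀, e1, e2, e3⟩ := exists_gap (fun i => Real.log (lam i)) (δ₁ * q) hδq.le
    (fun i hi => by
      by_contra hpos
      obtain ⟨g, g1, g2⟩ := hspan i (not_le.1 hpos)
      rw [sum_eq_zero fun l _ => by rw [g1 l (Fin.le_def.2 (by omega)), zero_smul]] at g2
      have := hA O i
      simp [hAdef, g2] at this) (by linarith [mul_le_mul_of_nonneg_right hm2 h3.le])
  have hlo : ∀ i, -(G₁ * q) ≤ Real.log (lam i) := fun i => by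
    have h4 := hlow N (η * q) (X i) (fun p => L + |Γ| * q + if p = O then Real.log (lam i) else 0)
      hc hN (fun e => H.det (det_eq_zero_of_row_eq_zero i (congrFun e))) (H.int i) fun p l => by
        have h5 : C * A p l ≤ Real.exp (L + |Γ| * q) := by
          rw [Real.exp_add, hL, Real.exp_log hC0]
          exact mul_le_mul_of_nonneg_left
            ((Real.log_le_iff_le_exp (hA p l)).1 (abs_le.1 (hAb p l)).2) hC0.le
        by_cases hp : p = O
        · subst hp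
          have h6 := H.on i (π₀.symm l)
          rw [Equiv.apply_symm_apply] at h6
          rw [if_pos rfl, Real.exp_add, Real.exp_log (H.pos i)]
          exact h6.trans (mul_le_mul h5 (min_le_left _ _) (lt_min (H.pos _) (H.pos _)).le
            (Real.exp_pos _).le)
        · rw [if_neg hp, add_zero]
          exact (H.off p hp i l).trans h5
    simp only [mul_add (mu _ : ℝ) (L + |Γ| * q), sum_add_distrib, ← sum_mul, mul_ite, mul_zero,
      sum_ite_eq', mem_univ, if_true, ← hs] at h4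
    have h7 : C₃ * (1 + η * q) ≤ C₃ * (2 * q) := mul_le_mul_of_nonneg_left hc2 hC₃
    have h8 : s * (L + |Γ| * q) ≤ s * ((L + |Γ|) * q) :=
      mul_le_mul_of_nonneg_left (by linarith [le_mul_of_one_le_right hL0 hq1]) hs0
    have h9 := AMin_low O (D := G₁ * q) (t := Real.log (lam i)) (by rw [hG₁]; linarith)
    rwa [abs_of_nonneg (by positivity)] at h9
  have hhi : ∀ i, |Real.log (lam i)| ≤ (G₂ + (n + 1) * G₁) * q := fun i => by
    have h4 := ARed_abs_vol hAb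
    rw [← hs] at h4
    have h5 : C * (1 + η * q) ≤ C * (2 * q) := mul_le_mul_of_nonneg_left hc2 hC0.le
    have h6 : ∑ l, Real.log (lam l) ≤ G₂ * q := by
      rw [hG₂]
      linarith [le_mul_of_one_le_left h3.le hm1]
    have h7 := single_le_sum (s := univ) (f := fun l => Real.log (lam l) + G₁ * q)
      (fun l _ => by linarith [hlo l]) (mem_univ i)
    simp only [sum_add_distrib, sum_const, card_univ, Fintype.card_fin, nsmul_eq_mul] at h7
    have h8 : 0 ≤ G₁ * q := by positivity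
    have h9 : 0 ≤ G₂ * q := by positivity
    have h10 : 0 ≤ n * (G₁ * q) := by positivity
    exact abs_le.2 ⟨by linarith [hlo i], by linarith⟩
  have hβb : ∀ p l, |β p l| ≤ G₄ * q := fun p l => by
    have h4 : |if p = O then Real.log (lam l) else 0| ≤ (G₂ + (n + 1) * G₁) * q := by
      split_ifs
      · exact hhi l
      · rw [abs_zero]; positivity
    have h5 : |L| ≤ L * q := by
      rw [abs_of_nonneg hL0]
      exact le_mul_of_one_le_right hL0 hq1
    refine (abs_add_three _ _ _).trans ?_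
    rw [hG₄]
    linarith [hAb p (π p l)]
  have hj := j₀.2
  let k : Fin n := ⟨n - j₀, by omega⟩
  let top : PS n k := ⟨Ici j₀, Fin.card_Ici j₀⟩
  refine ⟨k, π, top, comp k X, wb O top β (δ₁ * q), ?_, fun p J => ?_, ?_, fun w hw h => ?_⟩
  · refine wedge_pen _ O X β _ j₀ top (fun l => mem_Ici) H.det H.int hent fun i l hi hl => ?_
    rw [Real.exp_sub, hβO, mul_div_assoc]
    simp only [π, if_true]
    refine (H.on i l).trans (mul_le_mul_of_nonneg_left ((min_le_left _ _).trans ?_)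
      (mul_pos hC0 (hA _ _)).le)
    have h4 : lam i ≤ lam i₀ := H.mono (Fin.le_def.2 (by have := Fin.lt_def.1 hi; omega))
    have h6 := Real.exp_le_exp.2 e3
    rw [Real.exp_add, Real.exp_log (H.pos _), Real.exp_log (H.pos _)] at h6
    rw [le_div_iff₀ (Real.exp_pos _)]
    exact (mul_le_mul_of_nonneg_right h4 (Real.exp_pos _).le).trans (h6.trans (H.mono hl))
  · refine (abs_wb O top _ hβb p J).trans ?_
    have h4 : Real.log (k : ℕ).factorial ≤ Real.log n.factorial := Real.log_le_log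
      (by exact_mod_cast (k : ℕ).factorial_pos) (by exact_mod_cast Nat.factorial_le k.2.le)
    have h5 : Real.log n.factorial ≤ Real.log n.factorial * q :=
      le_mul_of_one_le_right (Real.log_natCast_nonneg _) hq1
    have h6 : ((k : ℕ) : ℝ) * (G₄ * q) ≤ n * (G₄ * q) :=
      mul_le_mul_of_nonneg_right (by exact_mod_cast k.2.le) (by positivity)
    rw [abs_of_pos hδq]
    linarith
  · rw [hwb k]
    have h4 : c₀ k ≤ (∑ k, c₀ k) * (1 + η * q) :=
      (single_le_sum (fun k _ => hc₀ k) (mem_univ k)).trans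
        (le_mul_of_one_le_right hc₀' (by linarith))
    have h5 : c₁ k * vol β ≤ (∑ k, c₁ k + 1) * (E * (1 + η * q)) :=
      (mul_le_mul_of_nonneg_left (show vol β ≤ E * (1 + η * q) by linarith) (hc₁ k)).trans
        (mul_le_mul_of_nonneg_right (by linarith [single_le_sum (fun k _ => hc₁ k) (mem_univ k)])
          (by positivity))
    have h6 : δ₁ * q ≤ mu O * (δ₁ * q) := le_mul_of_one_le_left hδq.le hm1
    rw [hE'] at hE2
    linarith
  · obtain ⟨T, t1, t2, t3⟩ := h𝒯 k (show 0 < n - j₀ by omega) w hw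
    obtain ⟨g, g1, g2⟩ := hspan j₀ e2
    exact ⟨T, t1, t2, g2 ▸ t3 X H.det top h g fun l hl => g1 l (mem_Ici.1 hl)⟩

end Pool.Agent.Lib.MP_651af7_nt.Es
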