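import Pool.Agent.Lib.MP_651af7_nt.Es.ANorm
import Pool.Agent.Lib.MP_651af7_nt.Es.ARed
import Pool.Agent.Lib.MP_651af7_nt.Es.APen
import Pool.Agent.Lib.MP_651af7_nt.Es.AFF
import Pool.Agent.Lib.MP_651af7_nt.Es.ADesc

/-! Part A: geometry of numbers over `K`, bases over function fields, elimination. -/
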