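import Pool.Agent.Lib.MP_651af7_nt.Es.APF

/-! Covering a ball by cells. -/

namespace Pool.Agent.Lib.MP_651af7_nt.Es

open Finset Matrix Height NumberField Pool.Agent.Lib.MP_e97e2b_nt Pool.Agent.Lib.MP_651af7_nt.Iv
  Pool.Agent.Lib.MP_651af7_nt.Vj Pool.Agent.Lib.MP_651af7_nt.Rt Pool.Agent.Lib.Common.Subspace

variable {K : Type} [Field K] [NumberField K] {S : Finset (FinitePlace K)}

theorem acell_real {R s : ℝ} (hs : 0 < s) (hR : 0 ≤ R) :
    ∃ (n : ℕ) (g : ℝ → Fin n), (n : ℝ) ≤ 2 * R / s + 1 ∧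
      ∀ x y, |x| ≤ R → |y| ≤ R → g x = g y → |x - y| ≤ s := by
  refine ⟨⌊2 * R / s⌋₊ + 1, fun x => ⟨min ⌊(x + R) / s⌋₊ ⌊2 * R / s⌋₊,
    Nat.lt_succ_of_le (min_le_right _ _)⟩, ?_, fun x y hx hy h => ?_⟩
  · rw [Nat.cast_add, Nat.cast_one]
    exact add_le_add_left (Nat.floor_le (by positivity)) 1
  · have h1 : ∀ x : ℝ, |x| ≤ R → min ⌊(x + R) / s⌋₊ ⌊2 * R / s⌋₊ = ⌊(x + R) / s⌋₊ := by
      intro x hx
      refine min_eq_left (Nat.floor_mono (div_le_div_of_nonneg_right ?_ hs.le))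
      linarith [(abs_le.1 hx).2]
    have h2 : ⌊(x + R) / s⌋₊ = ⌊(y + R) / s⌋₊ := by
      rw [← h1 x hx, ← h1 y hy]
      exact congrArg Fin.val h
    have h3 : ∀ x : ℝ, |x| ≤ R → (⌊(x + R) / s⌋₊ : ℝ) * s ≤ x + R := by
      intro x hx
      rw [← le_div_iff₀ hs]
      exact Nat.floor_le (div_nonneg (by linarith [(abs_le.1 hx).1]) hs.le)
    have h4 : ∀ x : ℝ, x + R < ((⌊(x + R) / s⌋₊ : ℝ) + 1) * s := by
      intro x
      rw [← div_lt_iff₀ hs]
      exact Nat.lt_floor_add_one _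
    have h5 := h3 x hx
    have h6 := h3 y hy
    have h7 := h4 x
    have h8 := h4 y
    rw [h2] at h5 h7
    rw [abs_le]
    constructor <;> linarith

/- Real place: `σ = InfinitePlace.embedding_of_isReal`, cell `⌊(σ z + R) / r⌋₊`, at most
`2 R / r + 1 ≤ 3 R / r` cells.  Complex place: `σ = w.embedding`, cells of side `r / 2` for the real and
the imaginary part (`Complex.norm_le_abs_re_add_abs_im`), at most `(5 R / r) ^ 2` cells.  Define `f` by
cases on `w z ≤ R`, or use `Fin.ofNat` / `min`. -/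
theorem cell_inf (w : InfinitePlace K) {R r : ℝ} (hr : 0 < r) (h : r ≤ R) :
    ∃ (τ : Type) (_ : Fintype τ) (f : K → τ), (Fintype.card τ : ℝ) ≤ (5 * R / r) ^ w.mult ∧
      ∀ z z', w z ≤ R → w z' ≤ R → f z = f z' → w (z - z') ≤ r := by
  have hR : 0 ≤ R := hr.le.trans h
  have h1 : 1 ≤ R / r := (one_le_div hr).2 h
  have e5 : 5 * R / r = 5 * (R / r) := mul_div_assoc _ _ _
  by_cases hw : w.IsReal
  · obtain ⟨n, g, hn, hg⟩ := acell_real hr hR
    refine ⟨Fin n, inferInstance, fun z => g (InfinitePlace.embedding_of_isReal hw z), ?_,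
      fun z z' hz hz' e => ?_⟩
    · rw [Fintype.card_fin, InfinitePlace.mult, if_pos hw, pow_one, e5]
      rw [mul_div_assoc] at hn
      linarith
    · rw [← InfinitePlace.norm_embedding_of_isReal hw] at hz hz' ⊢
      rw [map_sub]
      exact hg _ _ hz hz' e
  · obtain ⟨n, g, hn, hg⟩ := acell_real (half_pos hr) hR
    refine ⟨Fin n × Fin n, inferInstance, fun z => (g (w.embedding z).re, g (w.embedding z).im),
      ?_, fun z z' hz hz' e => ?_⟩
    · rw [Fintype.card_prod, Fintype.card_fin, InfinitePlace.mult, if_neg hw, Nat.cast_mul, ← sq,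
        e5]
      refine pow_le_pow_left₀ (Nat.cast_nonneg n) ?_ 2
      have e4 : 2 * R / (r / 2) = 4 * (R / r) := by
        field_simp
        ring
      rw [e4] at hn
      linarith
    · rw [← InfinitePlace.norm_embedding_eq] at hz hz' ⊢
      rw [map_sub]
      have h2 := hg _ _ ((Complex.abs_re_le_norm _).trans hz) ((Complex.abs_re_le_norm _).trans hz')
        (congrArg Prod.fst e)
      have h3 := hg _ _ ((Complex.abs_im_le_norm _).trans hz) ((Complex.abs_im_le_norm _).trans hz')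
        (congrArg Prod.snd e)
      refine (Complex.norm_le_abs_re_add_abs_im _).trans ?_
      rw [Complex.sub_re, Complex.sub_im]
      linarith

/- `𝔭 = v.maximalIdeal`, `q = absNorm 𝔭 > 1`, `v z = q ^ (log of the valuation)` (`FinitePlace.norm_embedding`,
`adicAbv_def`).  Take `a : ℤ` with `q ^ a ≤ R < q ^ (a + 1)` (`exists_mem_Ico_zpow`), `u : K` with `v u = q ^ (-a)`
(power of `valuation_exists_uniformizer`), `e : ℕ` least with `q ^ a ≤ r * q ^ e` (so `q ^ e ≤ q R / r`).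
If `v z ≤ R` then `v (u z) ≤ 1` (values are powers of `q`), pick `t z : 𝓞 K` with `v (u z - t z) ≤ q ^ (-e)`
(`exists_valuation_sub_lt_of_integer`), `f z` = class of `t z` in `𝓞 K ⧸ 𝔭 ^ e`, which has `q ^ e` elements
(`Ideal.absNorm_apply`, `Submodule.cardQuot_apply`, `map_pow`); `intValuation_le_pow_iff_mem`. -/
theorem cell_fin (v : FinitePlace K) : ∃ c : ℝ, 1 ≤ c ∧ ∀ R r : ℝ, 0 < r → r ≤ R →
    ∃ (τ : Type) (_ : Fintype τ) (f : K → τ), (Fintype.card τ : ℝ) ≤ c * R / r ∧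
      ∀ z z', v.1 z ≤ R → v.1 z' ≤ R → f z = f z' → v.1 (z - z') ≤ r := by
  classical
  set 𝔭 := v.maximalIdeal with h𝔭
  set q : ℝ := (Ideal.absNorm 𝔭.asIdeal : ℝ) with hq
  have hq1 : 1 < q := by
    rw [hq]
    exact_mod_cast HeightOneSpectrum.one_lt_absNorm 𝔭
  have hq0 : 0 < q := zero_lt_one.trans hq1
  have hv : ∀ z : K, v.1 z =
      WithZeroMulInt.toNNReal (HeightOneSpectrum.absNorm_ne_zero 𝔭) (𝔭.valuation K z) := by
    intro z
    rw [← FinitePlace.norm_embedding', FinitePlace.norm_embedding_eq]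
    rfl
  have hexp : ∀ n : ℤ, ((WithZeroMulInt.toNNReal (HeightOneSpectrum.absNorm_ne_zero 𝔭)
      (WithZero.exp n) : NNReal) : ℝ) = q ^ n := by
    intro n
    rw [WithZeroMulInt.toNNReal_neg_apply _ WithZero.exp_ne_zero]
    simp [hq, WithZero.exp]
  have hmono := WithZeroMulInt.toNNReal_strictMono (HeightOneSpectrum.one_lt_absNorm_nnreal 𝔭)
  have hle : ∀ (z : K) (n : ℤ), 𝔭.valuation K z ≤ WithZero.exp n → v.1 z ≤ q ^ n := by
    intro z n h
    rw [hv, ← hexp, NNReal.coe_le_coe]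
    exact hmono.monotone h
  have hlt : ∀ (z : K) (n : ℤ), v.1 z < q ^ (n + 1) → 𝔭.valuation K z ≤ WithZero.exp n := by
    intro z n h
    rw [hv, ← hexp, NNReal.coe_lt_coe] at h
    have h1 := hmono.lt_iff_lt.1 h
    by_cases h0 : 𝔭.valuation K z = 0
    · rw [h0]
      exact zero_le
    · rw [← WithZero.exp_log h0, WithZero.exp_lt_exp] at h1
      rw [← WithZero.exp_log h0, WithZero.exp_le_exp]
      omega
  refine ⟨q, hq1.le, fun R r hr h => ?_⟩
  obtain ⟨a, ha1, ha2⟩ := exists_mem_Ico_zpow (hr.trans_le h) hq1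
  obtain ⟨b, hb1, hb2⟩ := exists_mem_Ico_zpow hr hq1
  have hba : b ≤ a := by
    have := (zpow_lt_zpow_iff_right₀ hq1).1 ((hb1.trans h).trans_lt ha2)
    omega
  obtain ⟨e, he⟩ := Int.eq_ofNat_of_zero_le (sub_nonneg.2 hba)
  obtain ⟨u, hu⟩ := 𝔭.valuation_surjective K (WithZero.exp (-a))
  have h1 : ∀ z : K, v.1 z ≤ R → ∃ t : 𝓞 K,
      𝔭.valuation K (algebraMap (𝓞 K) K t - u * z) ≤ WithZero.exp (-(e : ℤ)) := by
    intro z hz
    have h2 : 𝔭.valuation K (u * z) ≤ 1 := by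
      rw [map_mul, hu, ← WithZero.exp_zero, ← neg_add_cancel a, WithZero.exp_add]
      exact mul_le_mul_right (hlt z a (hz.trans_lt ha2)) _
    obtain ⟨t, ht⟩ := 𝔭.exists_valuation_sub_lt_of_integer h2
      (Units.mk0 (WithZero.exp (-(e : ℤ))) WithZero.exp_ne_zero)
    exact ⟨t, ht.le⟩
  choose! t ht using h1
  have hcard : Nat.card (𝓞 K ⧸ 𝔭.asIdeal ^ e) = Ideal.absNorm 𝔭.asIdeal ^ e := by
    rw [← map_pow, Ideal.absNorm_apply, Submodule.cardQuot_apply]
  have hfin : Finite (𝓞 K ⧸ 𝔭.asIdeal ^ e) := by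
    refine Nat.finite_of_card_ne_zero ?_
    rw [hcard]
    exact pow_ne_zero _ (zero_lt_one.trans (HeightOneSpectrum.one_lt_absNorm 𝔭)).ne'
  refine ⟨𝓞 K ⧸ 𝔭.asIdeal ^ e, Fintype.ofFinite _, fun z => Ideal.Quotient.mk _ (t z), ?_,
    fun z z' hz hz' hf => ?_⟩
  · rw [← @Nat.card_eq_fintype_card _ (Fintype.ofFinite _), hcard, Nat.cast_pow, ← hq, ← zpow_natCast, ← he,
      le_div_iff₀ hr]
    calc q ^ (a - b) * r ≤ q ^ (a - b) * q ^ (b + 1) :=
          mul_le_mul_of_nonneg_left hb2.le (zpow_pos hq0 _).le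
      _ = q * q ^ a := by
          rw [← zpow_add₀ hq0.ne', ← zpow_one_add₀ hq0.ne']
          exact congrArg _ (by ring)
      _ ≤ q * R := mul_le_mul_of_nonneg_left ha1 hq0.le
  · have h2 := (𝔭.intValuation_le_pow_iff_mem _ e).2 (Ideal.Quotient.eq.1 hf)
    rw [← 𝔭.valuation_of_algebraMap (K := K)] at h2
    change 𝔭.valuation K (algebraMap (𝓞 K) K (t z - t z')) ≤ _ at h2
    rw [map_sub] at h2
    have h3 : 𝔭.valuation K (u * (z - z')) ≤ WithZero.exp (-(e : ℤ)) := by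
      have e1 : u * (z - z') = (algebraMap (𝓞 K) K (t z) - algebraMap (𝓞 K) K (t z')) -
          (algebraMap (𝓞 K) K (t z) - u * z) + (algebraMap (𝓞 K) K (t z') - u * z') := by ring
      rw [e1]
      exact Valuation.map_add_le _ (Valuation.map_sub_le _ h2 (ht z hz)) (ht z' hz')
    refine (hle _ b ?_).trans hb1
    rw [map_mul, hu] at h3
    have h4 := mul_le_mul_right h3 (WithZero.exp a)
    rw [← mul_assoc, ← WithZero.exp_add, ← WithZero.exp_add, add_neg_cancel, WithZero.exp_zero,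
      one_mul] at h4
    have e2 : a + -(e : ℤ) = b := by omega
    rwa [e2] at h4

theorem cell (S : Finset (FinitePlace K)) : ∃ c : ℝ, 1 ≤ c ∧ ∀ (p : Pl S) (R r : ℝ), 0 < r → r ≤ R →
    ∃ (τ : Type) (_ : Fintype τ) (f : K → τ), (Fintype.card τ : ℝ) ≤ (c * R / r) ^ mu p ∧
      ∀ z z', av p z ≤ R → av p z' ≤ R → f z = f z' → av p (z - z') ≤ r := by
  choose c hc1 hc using fun v : S => cell_fin v.1
  have h0 : 0 ≤ ∑ v, c v := sum_nonneg fun v _ => zero_le_one.trans (hc1 v)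
  refine ⟨5 + ∑ v, c v, by linarith, ?_⟩
  rintro (w | v) R r hr h
  · obtain ⟨τ, i, f, h1, h2⟩ := cell_inf w hr h
    refine ⟨τ, i, f, h1.trans ?_, h2⟩
    have hR : 0 ≤ R := hr.le.trans h
    exact pow_le_pow_left₀ (by positivity) (div_le_div_of_nonneg_right
      (mul_le_mul_of_nonneg_right (by linarith) hR) hr.le) _
  · obtain ⟨τ, i, f, h1, h2⟩ := hc v R r hr h
    refine ⟨τ, i, f, h1.trans ?_, h2⟩
    have hR : 0 ≤ R := hr.le.trans h
    have h3 : c v ≤ ∑ v, c v :=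
      single_le_sum (fun v _ => zero_le_one.trans (hc1 v)) (mem_univ v)
    change _ ≤ _ ^ 1
    rw [pow_one]
    exact div_le_div_of_nonneg_right (mul_le_mul_of_nonneg_right (by linarith) hR) hr.le

end Pool.Agent.Lib.MP_651af7_nt.Es
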