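import Pool.Agent.Lib.MP_651af7_nt.Es.Defs

/-! Compound matrices over rings and fields. -/

namespace Pool.Agent.Lib.MP_651af7_nt.Es

open Finset Matrix Height NumberField Pool.Agent.Lib.MP_e97e2b_nt Pool.Agent.Lib.MP_651af7_nt.Iv
  Pool.Agent.Lib.MP_651af7_nt.Vj Pool.Agent.Lib.MP_651af7_nt.Rt Pool.Agent.Lib.Common.Subspace

theorem comp_map {R R' : Type*} [CommRing R] [CommRing R'] (f : R →+* R') {n : ℕ} (k : ℕ)
    (A : Matrix (Fin n) (Fin n) R) : comp k (A.map f) = (comp k A).map f := by
  ext I J
  exact ((f.map_det _).trans rfl).symm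

/- As `det_comp_ne_zero` (`Common/Subspace/Compound`). -/
theorem det_comp_ne {F : Type*} [Field F] {n : ℕ} (k : ℕ) {A : Matrix (Fin n) (Fin n) F}
    (hA : A.det ≠ 0) : (comp k A).det ≠ 0 := by
  intro h
  have h1 : comp k A * comp k A.adjugate = A.det ^ k • (1 : Matrix (PS n k) (PS n k) F) := by
    rw [← comp_mul, mul_adjugate, compound_smul, compound_one]
  have h2 := congrArg det h1
  rw [det_mul, h, zero_mul, det_smul, det_one, mul_one] at h2
  exact pow_ne_zero _ (pow_ne_zero _ hA) h2.symm

/- As `comp_mulVec`. -/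
theorem comp_mulVec' {R : Type*} [CommRing R] {n : ℕ} (k : ℕ) (L X : Matrix (Fin n) (Fin n) R)
    (I J : PS n k) : (comp k L *ᵥ comp k X I) J =
      (Matrix.of fun a b : Fin k => (L *ᵥ X (enum I a)) (enum J b)).det := by
  have h1 : (comp k L *ᵥ comp k X I) J = (comp k X * (comp k L)ᵀ) I J := by
    simp only [mulVec, dotProduct, mul_apply, transpose_apply]
    exact sum_congr rfl fun K _ => mul_comm _ _
  rw [h1, ← Common.Subspace.comp_transpose, ← Common.Subspace.comp_mul]
  simp only [Common.Subspace.comp, of_apply]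
  refine congrArg det ?_
  ext a b
  simp only [submatrix_apply, mul_apply, transpose_apply, of_apply, mulVec, dotProduct]
  exact sum_congr rfl fun K _ => mul_comm _ _

/- Port of `exists_functional`: for `J₀ : PS n k` let `Z` be the rows `enum J₀` of the identity matrix
over `ℤ` and `T J₀ j J = det ((Z.updateRow z0 (Pi.single j 1)).submatrix id (enum J))`; `𝒯` is the image
of `univ` under `T`; for `w` take `J₀` with `w J₀ ≠ 0`. -/
theorem exists_func (F : Type) [Field F] (n k : ℕ) (hk : 0 < k) :
    ∃ 𝒯 : Finset (Matrix (Fin n) (PS n k) ℤ), ∀ w : PS n k → F, w ≠ 0 → ∃ T ∈ 𝒯,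
      T.map (Int.cast : ℤ → F) *ᵥ w ≠ 0 ∧ ∀ X : Matrix (Fin n) (Fin n) F, X.det ≠ 0 →
        ∀ top : PS n k, (∀ I, I ≠ top → w ⬝ᵥ comp k X I = 0) → ∀ g : Fin n → F,
          (∀ l ∈ top.1, g l = 0) → (T.map (Int.cast : ℤ → F) *ᵥ w) ⬝ᵥ (∑ l, g l • X l) = 0 := by
  classical
  let z0 : Fin k := ⟨0, hk⟩
  let T : PS n k → Matrix (Fin n) (PS n k) ℤ := fun K => Matrix.of fun j J =>
    ((((1 : Matrix (Fin n) (Fin n) ℤ).submatrix (enum K) id).updateRow z0
      (Pi.single j 1)).submatrix id (enum J)).det
  refine ⟨univ.image T, fun w hw => ?_⟩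
  obtain ⟨K, hK⟩ := Function.ne_iff.mp hw
  let Z : Matrix (Fin k) (Fin n) F := (1 : Matrix (Fin n) (Fin n) F).submatrix (enum K) id
  let W : (Fin n → F) → F := fun y =>
    ∑ I : PS n k, w I * ((Z.updateRow z0 y).submatrix id (enum I)).det
  have hsub : ∀ (y : Fin n → F) (I : PS n k), (Z.updateRow z0 y).submatrix id (enum I) =
      (Z.submatrix id (enum I)).updateRow z0 (y ∘ enum I) := by
    intro y I
    ext a b
    by_cases ha : a = z0 <;> simp [updateRow_apply, ha]
  have hadd : ∀ y y', W (y + y') = W y + W y' := by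
    intro y y'
    simp only [W, hsub, ← sum_add_distrib]
    refine sum_congr rfl fun I _ => ?_
    have : (y + y') ∘ enum I = y ∘ enum I + y' ∘ enum I := rfl
    rw [this, det_updateRow_add, mul_add]
  have hsmul : ∀ (c : F) y, W (c • y) = c * W y := by
    intro c y
    simp only [W, hsub, mul_sum]
    refine sum_congr rfl fun I _ => ?_
    have : (c • y) ∘ enum I = c • (y ∘ enum I) := rfl
    rw [this, det_updateRow_smul]
    ring
  let Wl : (Fin n → F) →ₗ[F] F := ⟨⟨W, hadd⟩, hsmul⟩
  have hT : (T K).map (Int.cast : ℤ → F) *ᵥ w = fun j => W (Pi.single j 1) := by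
    funext j
    simp only [mulVec, dotProduct, map_apply, T, of_apply, W]
    refine sum_congr rfl fun I _ => ?_
    rw [mul_comm]
    congr 1
    refine ((Int.castRingHom F).map_det _).trans (congrArg det ?_)
    ext a b
    by_cases ha : a = z0
    · simp [ha, Pi.single_apply]
    · simp [updateRow_apply, ha, Z, one_apply]
  refine ⟨T K, mem_image_of_mem T (mem_univ K), ?_, ?_⟩
  · rw [hT]
    intro h0
    have h1 := congrFun h0 (enum K z0)
    have h2 : Z.updateRow z0 (Pi.single (enum K z0) 1) = Z := by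
      ext a b
      by_cases ha : a = z0
      · subst ha
        simp [Z, one_apply, Pi.single_apply, eq_comm]
      · simp [updateRow_apply, ha]
    have h3 : ∀ I, (Z.submatrix id (enum I)).det = (1 : Matrix (PS n k) (PS n k) F) K I := by
      intro I
      rw [← compound_one]
      rfl
    simp only [W, h2, h3, Pi.zero_apply, one_apply, mul_ite, mul_one, mul_zero, sum_ite_eq,
      mem_univ, if_true] at h1
    exact hK h1
  · intro X hX top htop g hg
    rw [hT]
    obtain ⟨y, hy0⟩ : ∃ y, y = ∑ l, g l • X l := ⟨_, rfl⟩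
    have hy : ∀ j, y j = ∑ l, g l * X l j := fun j => by
      rw [hy0, Finset.sum_apply]
      rfl
    rw [← hy0]
    have h1 : (fun j => W (Pi.single j 1)) ⬝ᵥ y = W y := by
      have h2 : y = ∑ j, y j • (Pi.single j 1 : Fin n → F) := by
        ext i
        simp [Finset.sum_apply, Pi.single_apply]
      have h3 : W y = Wl (∑ j, y j • (Pi.single j 1 : Fin n → F)) := by rw [← h2]; rfl
      rw [h3, map_sum]
      refine sum_congr rfl fun j _ => ?_
      rw [map_smul, smul_eq_mul, mul_comm]
      rfl
    rw [h1]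
    have hXq : IsUnit X.det := isUnit_iff_ne_zero.mpr hX
    let G : Matrix (Fin k) (Fin n) F := (Z * X⁻¹).updateRow z0 g
    have hG : Z.updateRow z0 y = G * X := by
      ext a b
      by_cases ha : a = z0
      · subst ha
        simp only [updateRow_self, mul_apply, G]
        exact hy b
      · have h4 : (G * X) a b = (Z * X⁻¹ * X) a b := by
          simp only [mul_apply (M := G), mul_apply (M := Z * X⁻¹), G, updateRow_ne ha]
        rw [h4, Matrix.mul_assoc, nonsing_inv_mul _ hXq, Matrix.mul_one]
        simp [updateRow_apply, ha]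
    have h5 : ∀ I : PS n k, ((Z.updateRow z0 y).submatrix id (enum I)).det =
        ∑ J : PS n k, (G.submatrix id (enum J)).det * comp k X J I := by
      intro I
      have h6 : (Z.updateRow z0 y).submatrix id (enum I) = G * X.submatrix id (enum I) := by
        rw [hG]
        ext a b
        simp [mul_apply]
      rw [h6, cauchy_binet]
      rfl
    have h7 : W y = ∑ J : PS n k, (G.submatrix id (enum J)).det * (w ⬝ᵥ comp k X J) := by
      simp only [W, h5, dotProduct, mul_sum]
      rw [sum_comm]
      refine sum_congr rfl fun J _ => sum_congr rfl fun I _ => ?_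
      ring
    rw [h7]
    refine sum_eq_zero fun J _ => ?_
    by_cases hJ : J = top
    · subst hJ
      rw [det_eq_zero_of_row_eq_zero z0, zero_mul]
      intro b
      simp only [submatrix_apply, id_eq, G, updateRow_self]
      exact hg _ (enum_mem J b)
    · rw [htop J hJ, mul_zero]

end Pool.Agent.Lib.MP_651af7_nt.Es
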