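import Pool.Agent.Lib.MP_651af7_nt.Es.Defs

/-! Flags over a valued field (port of the first half of `Common/Subspace/Minima`). -/

namespace Pool.Agent.Lib.MP_651af7_nt.Es

open Finset Matrix Height NumberField Pool.Agent.Lib.MP_e97e2b_nt Pool.Agent.Lib.MP_651af7_nt.Iv
  Pool.Agent.Lib.MP_651af7_nt.Vj Pool.Agent.Lib.MP_651af7_nt.Rt Pool.Agent.Lib.Common.Subspace

variable {F : Type} [Field F] {n : ℕ}

/-- The span of the first `k` vectors of a family. -/
def spV (x : Fin n → Fin n → F) (k : ℕ) : Submodule F (Fin n → F) :=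
  Submodule.span F (x '' {l | (l : ℕ) < k})

theorem spV_mem (x : Fin n → Fin n → F) {k : ℕ} {l : Fin n} (h : (l : ℕ) < k) : x l ∈ spV x k :=
  Submodule.subset_span ⟨l, h, rfl⟩

theorem spV_mono (x : Fin n → Fin n → F) {k m : ℕ} (h : k ≤ m) : spV x k ≤ spV x m :=
  Submodule.span_mono (Set.image_mono fun _ hl => lt_of_lt_of_le hl h)

theorem spV_le {x : Fin n → Fin n → F} {k : ℕ} {W : Submodule F (Fin n → F)}
    (h : ∀ l : Fin n, (l : ℕ) < k → x l ∈ W) : spV x k ≤ W := by
  refine Submodule.span_le.2 ?_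
  rintro _ ⟨l, hl, rfl⟩
  exact h l hl

theorem spV_iff {x : Fin n → Fin n → F} {k : ℕ} {u : Fin n → F} :
    u ∈ spV x k ↔ ∃ g : Fin n → F, (∀ l : Fin n, k ≤ l → g l = 0) ∧ u = ∑ l, g l • x l := by
  constructor
  · intro h
    induction h using Submodule.span_induction with
    | mem _ h =>
      obtain ⟨l, hl, rfl⟩ := h
      refine ⟨Pi.single l 1, fun m hm => Pi.single_eq_of_ne ?_ _, by simp [Pi.single_apply]⟩
      rintro rfl
      exact absurd hl (not_lt.2 hm)
    | zero => exact ⟨0, by simp⟩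
    | add a b _ _ ha hb =>
      obtain ⟨g, hg, rfl⟩ := ha
      obtain ⟨g', hg', rfl⟩ := hb
      exact ⟨g + g', fun l hl => by simp [hg l hl, hg' l hl], by
        simp [add_smul, Finset.sum_add_distrib]⟩
    | smul c a _ ha =>
      obtain ⟨g, hg, rfl⟩ := ha
      exact ⟨c • g, fun l hl => by simp [hg l hl], by simp [Finset.smul_sum, smul_smul]⟩
  · rintro ⟨g, hg, rfl⟩
    refine Submodule.sum_mem _ fun l _ => ?_
    by_cases hl : (l : ℕ) < k
    · exact Submodule.smul_mem _ _ (spV_mem x hl)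
    · rw [hg l (not_lt.1 hl), zero_smul]; exact zero_mem _

theorem spV_congr {x X : Fin n → Fin n → F} (h : ∀ i : Fin n, X i - x i ∈ spV x i) (k : ℕ) :
    spV X k = spV x k := by
  refine le_antisymm (spV_le fun l hl => ?_) ?_
  · have := add_mem (spV_mono x hl.le (h l)) (spV_mem x hl)
    simpa using this
  · induction k using Nat.strong_induction_on with
    | _ k ih =>
      refine spV_le fun l hl => ?_
      have := sub_mem (spV_mem X hl) (spV_mono X hl.le (ih l hl (h l)))
      simpa using this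

theorem spV_indep {x : Fin n → Fin n → F} (h : ∀ i : Fin n, x i ∉ spV x i) :
    LinearIndependent F x := by
  classical
  rw [Fintype.linearIndependent_iff]
  intro g hg
  by_contra hcon
  push Not at hcon
  obtain ⟨i, hi, hmax⟩ := Finset.exists_max_image (univ.filter fun l => g l ≠ 0) id
    (by obtain ⟨l, hl⟩ := hcon; exact ⟨l, by simpa using hl⟩)
  have hi' : g i ≠ 0 := by simpa using hi
  apply h i
  rw [← Finset.add_sum_erase _ _ (mem_univ i), add_eq_zero_iff_eq_neg] at hg
  rw [← Submodule.smul_mem_iff _ hi', hg]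
  refine neg_mem (Submodule.sum_mem _ fun l hl => ?_)
  by_cases hl' : g l = 0
  · rw [hl', zero_smul]; exact zero_mem _
  · exact Submodule.smul_mem _ _ (spV_mem x
      (show l < i from lt_of_le_of_ne (hmax l (by simpa using hl')) (Finset.ne_of_mem_erase hl)))

/-- The flag property of a permutation. -/
def Flag (v : AbsoluteValue F ℝ) (x : Fin n → Fin n → F) (π : Equiv.Perm (Fin n)) : Prop :=
  ∀ (k : ℕ) (u : Fin n → F), u ∈ spV x k → ∀ i : Fin n,
    v (u i) ≤ 2 ^ n * ∑ j ∈ univ.filter (fun j : Fin n => (j : ℕ) < k), v (u (π j))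

lemma AFlag_relation (v : AbsoluteValue F ℝ) {n : ℕ} (u : Fin n → Fin (n + 1) → F) :
    ∃ j₀ : Fin (n + 1), ∀ g : Fin n → F,
      v (∑ l, g l * u l j₀) ≤ ∑ j : Fin n, v (∑ l, g l * u l (j₀.succAbove j)) := by
  have h1 := LinearMap.ker_ne_bot_of_finrank_lt (f := (Matrix.of u).mulVecLin) (by simp)
  obtain ⟨a, ha, ha0⟩ := (Submodule.ne_bot_iff _).1 h1
  obtain ⟨j₀, -, hj₀⟩ := Finset.exists_max_image univ (fun j => v (a j)) univ_nonempty
  have hpos : 0 < v (a j₀) := by
    obtain ⟨j, hj⟩ := Function.ne_iff.1 ha0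
    exact (v.pos hj).trans_le (hj₀ j (mem_univ _))
  refine ⟨j₀, fun g => ?_⟩
  have h2 : ∑ j, a j * ∑ l, g l * u l j = 0 := by
    have h3 : ∀ l, ∑ j, u l j * a j = 0 := fun l => congrFun ha l
    simp only [Finset.mul_sum]
    rw [Finset.sum_comm]
    refine Finset.sum_eq_zero fun l _ => ?_
    calc ∑ j, a j * (g l * u l j) = g l * ∑ j, u l j * a j := by
          rw [Finset.mul_sum]; exact Finset.sum_congr rfl fun j _ => by ring
      _ = 0 := by rw [h3, mul_zero]
  rw [Fin.sum_univ_succAbove _ j₀, add_eq_zero_iff_eq_neg] at h2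
  refine le_of_mul_le_mul_left ?_ hpos
  rw [← v.map_mul, h2, v.map_neg, Finset.mul_sum]
  refine (v.sum_le _ _).trans (Finset.sum_le_sum fun j _ => ?_)
  rw [v.map_mul]
  exact mul_le_mul_of_nonneg_right (hj₀ _ (mem_univ _)) (v.nonneg _)

lemma AFlag_aux (v : AbsoluteValue F ℝ) (n : ℕ) (u : Fin n → Fin n → F) :
    ∃ π : Equiv.Perm (Fin n), ∀ (k : Fin n) (g : Fin n → F), (∀ l : Fin n, k ≤ l → g l = 0) →
      v (∑ l, g l * u l (π k)) ≤
        ∑ j : Fin n, if j < k then v (∑ l, g l * u l (π j)) else 0 := by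
  induction n with
  | zero => exact ⟨1, fun k => k.elim0⟩
  | succ n ih =>
    obtain ⟨j₀, hj₀⟩ := AFlag_relation v fun l : Fin n => u l.castSucc
    obtain ⟨π', hπ'⟩ := ih fun l j => u l.castSucc (j₀.succAbove j)
    set π : Equiv.Perm (Fin (n + 1)) :=
      (finSuccEquivLast.trans π'.optionCongr).trans (finSuccEquiv' j₀).symm with hπ
    have e1 : π (Fin.last n) = j₀ := by simp [hπ]
    have e2 : ∀ j : Fin n, π j.castSucc = j₀.succAbove (π' j) := by intro j; simp [hπ]
    refine ⟨π, fun k g hg => ?_⟩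
    have hl : g (Fin.last n) = 0 := hg _ (Fin.le_last _)
    simp only [Fin.sum_univ_castSucc, hl, zero_mul, add_zero, e2, (Fin.le_last k).not_gt, if_false]
    induction k using Fin.lastCases with
    | last =>
      simp only [e1, Fin.castSucc_lt_last, if_true]
      refine (hj₀ fun l => g l.castSucc).trans (le_of_eq ?_)
      exact (Equiv.sum_comp π' fun j => v (∑ l : Fin n, g l.castSucc * u l.castSucc (j₀.succAbove j))).symm
    | cast k =>
      simp only [e2, Fin.castSucc_lt_castSucc_iff]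
      exact hπ' k (fun l => g l.castSucc) fun l hl => hg _ (Fin.castSucc_le_castSucc_iff.2 hl)

/-- A permutation adapted to a flag. -/
theorem AFlag_perm (v : AbsoluteValue F ℝ) (n : ℕ) (u : Fin n → Fin n → F) :
    ∃ π : Equiv.Perm (Fin n), ∀ (k : ℕ) (g : Fin n → F), (∀ l : Fin n, k ≤ l → g l = 0) →
      ∀ i : Fin n, v (∑ l, g l * u l (π i)) ≤
        2 ^ n * ∑ j ∈ univ.filter (fun j : Fin n => (j : ℕ) < k), v (∑ l, g l * u l (π j)) := by
  obtain ⟨π, hπ⟩ := AFlag_aux v n u
  refine ⟨π, fun k g hg i => ?_⟩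
  set y : Fin n → ℝ := fun j => v (∑ l, g l * u l (π j)) with hy
  have hy0 : ∀ j, 0 ≤ y j := fun j => v.nonneg _
  set S : ℕ → ℝ := fun m => ∑ j ∈ univ.filter (fun j : Fin n => (j : ℕ) < m), y j with hS
  have hS0 : ∀ m, 0 ≤ S m := fun m => Finset.sum_nonneg fun j _ => hy0 j
  have h1 : ∀ j : Fin n, k ≤ j → y j ≤ S j := by
    intro j hj
    refine (hπ j g fun l hl => hg l (hj.trans hl)).trans (le_of_eq ?_)
    simp only [hS, Finset.sum_filter, Fin.lt_def, hy]
  have h2 : ∀ m, k ≤ m → S (m + 1) ≤ 2 * S m := by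
    intro m hm
    by_cases hmn : m < n
    · have e : univ.filter (fun j : Fin n => (j : ℕ) < m + 1) =
          insert ⟨m, hmn⟩ (univ.filter fun j : Fin n => (j : ℕ) < m) := by
        ext j; simp [Fin.ext_iff]; omega
      have := h1 ⟨m, hmn⟩ hm
      simp only [hS] at this ⊢
      rw [e, Finset.sum_insert (by simp)]
      linarith
    · have e : univ.filter (fun j : Fin n => (j : ℕ) < m + 1) =
          univ.filter fun j : Fin n => (j : ℕ) < m := by
        ext j; have := j.2; simp; omega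
      have := hS0 m
      simp only [hS] at this ⊢
      rw [e]; linarith
  have h3 : ∀ d, S (k + d) ≤ 2 ^ d * S k := by
    intro d
    induction d with
    | zero => simp
    | succ d ih =>
      have := h2 (k + d) (by omega)
      rw [← add_assoc, pow_succ]; linarith
  change y i ≤ 2 ^ n * S k
  by_cases hi : (i : ℕ) < k
  · calc y i ≤ S k := Finset.single_le_sum (fun j _ => hy0 j) (by simpa using hi)
      _ ≤ _ := le_mul_of_one_le_left (hS0 k) (one_le_pow₀ one_le_two)
  · push Not at hi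
    obtain ⟨d, hd⟩ := Nat.exists_eq_add_of_le hi
    calc y i ≤ S i := h1 i hi
      _ ≤ 2 ^ d * S k := by rw [hd]; exact h3 d
      _ ≤ _ := by
        have := hS0 k
        gcongr
        · exact one_le_two
        · have := i.2; omega

/- `minima_relation`, `minima_flag_aux`, `exists_perm_flag`, `minima_exists_flag` with `v` in place of
the usual absolute value. -/
theorem exists_flag (v : AbsoluteValue F ℝ) (x : Fin n → Fin n → F) : ∃ π, Flag v x π := by
  obtain ⟨π, hπ⟩ := AFlag_perm v n x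
  refine ⟨π, fun k u hv i => ?_⟩
  obtain ⟨g, hg, rfl⟩ := spV_iff.1 hv
  have := hπ k g hg (π.symm i)
  simpa [Finset.sum_apply] using this

theorem Flag.bound {v : AbsoluteValue F ℝ} {x : Fin n → Fin n → F} {π : Equiv.Perm (Fin n)}
    (h : Flag v x π) {k : ℕ} {u : Fin n → F} (hu : u ∈ spV x k) {B : ℝ} (hB0 : 0 ≤ B)
    (hB : ∀ j : Fin n, (j : ℕ) < k → v (u (π j)) ≤ B) (i : Fin n) : v (u i) ≤ 2 ^ n * (n * B) := by
  refine (h k u hu i).trans (mul_le_mul_of_nonneg_left ?_ (by positivity))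
  refine (Finset.sum_le_card_nsmul _ _ B fun j hj => hB j (by simpa using hj)).trans ?_
  rw [nsmul_eq_mul]
  gcongr
  exact (Finset.card_le_univ _).trans (by simp)

theorem Flag.surj {v : AbsoluteValue F ℝ} {x : Fin n → Fin n → F} {π : Equiv.Perm (Fin n)}
    (h : Flag v x π) (hx : LinearIndependent F x) (k : ℕ) (b : Fin n → F) :
    ∃ u ∈ spV x k, ∀ j : Fin n, (j : ℕ) < k → u (π j) = b j := by
  set M : Matrix (Fin n) (Fin n) F :=
    Matrix.of fun j l => if (j : ℕ) < k then x l (π j) else if j = l then 1 else 0 with hM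
  have e1 : ∀ (g : Fin n → F) (j : Fin n), (j : ℕ) < k → (M *ᵥ g) j = (∑ l, g l • x l) (π j) := by
    intro g j hj
    simp [hM, Matrix.mulVec, dotProduct, hj, Finset.sum_apply, mul_comm]
  have e2 : ∀ (g : Fin n → F) (j : Fin n), k ≤ j → (M *ᵥ g) j = g j := by
    intro g j hj
    simp [hM, Matrix.mulVec, dotProduct, hj.not_gt]
  have hinj : Function.Injective M.mulVecLin := by
    rw [injective_iff_map_eq_zero]
    intro g hg
    have hg' : M *ᵥ g = 0 := hg
    have h1 : ∀ l : Fin n, k ≤ l → g l = 0 := fun l hl => by rw [← e2 g l hl, hg']; rfl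
    have h2 : ∑ l, g l • x l = 0 := by
      ext i
      have := h.bound (spV_iff.2 ⟨g, h1, rfl⟩) le_rfl
        (fun j hj => by rw [← e1 g j hj, hg']; simp) i
      simpa using this
    exact funext (Fintype.linearIndependent_iff.1 hx g h2)
  obtain ⟨g, hg⟩ := LinearMap.injective_iff_surjective.1 hinj fun j => if (j : ℕ) < k then b j else 0
  have hg' : M *ᵥ g = fun j : Fin n => if (j : ℕ) < k then b j else 0 := hg
  refine ⟨∑ l, g l • x l, spV_iff.2 ⟨g, fun l hl => ?_, rfl⟩, fun j hj => ?_⟩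
  · rw [← e2 g l hl, hg']; simp [hl.not_gt]
  · rw [← e1 g j hj, hg']; simp [hj]

end Pool.Agent.Lib.MP_651af7_nt.Es
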