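import Pool.Agent.Lib.MP_651af7_nt.Es.AFlag

/-! Successive minima and the lemma of Evertse over a valued field. -/

namespace Pool.Agent.Lib.MP_651af7_nt.Es

open Finset Matrix Height NumberField Pool.Agent.Lib.MP_e97e2b_nt Pool.Agent.Lib.MP_651af7_nt.Iv
  Pool.Agent.Lib.MP_651af7_nt.Vj Pool.Agent.Lib.MP_651af7_nt.Rt Pool.Agent.Lib.Common.Subspace

variable {F : Type} [Field F] {n : ℕ}

/- Port of `minima_greedy` (`Common/Subspace/Minima`); `ν` replaces the norm, the sets
`ν '' {u ∈ G, u ∉ W}` are bounded below by `δ`. -/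
theorem greedy (G : Set (Fin n → F)) (ν : (Fin n → F) → ℝ) {δ : ℝ} (hδ : 0 < δ)
    (h1 : ∀ u ∈ G, u ≠ 0 → δ ≤ ν u)
    (h2 : ∀ W : Submodule F (Fin n → F), W ≠ ⊤ → ∃ u ∈ G, u ∉ W) :
    ∃ (x : Fin n → Fin n → F) (lam : Fin n → ℝ), (∀ i, x i ∈ G) ∧ (∀ i : Fin n, x i ∉ spV x i) ∧
      (∀ i, 0 < lam i) ∧ Monotone lam ∧ (∀ i, ν (x i) ≤ 2 * lam i) ∧
      ∀ u ∈ G, ∀ i : Fin n, u ∉ spV x i → lam i ≤ ν u := by
  set L : Submodule F (Fin n → F) → ℝ := fun W => sInf (ν '' {u | u ∈ G ∧ u ∉ W}) with hL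
  have hlow : ∀ W : Submodule F (Fin n → F), ∀ r ∈ ν '' {u | u ∈ G ∧ u ∉ W}, δ ≤ r := by
    rintro W _ ⟨u, hu, rfl⟩
    exact h1 u hu.1 (by rintro rfl; exact hu.2 (zero_mem _))
  have hbdd : ∀ W : Submodule F (Fin n → F), BddBelow (ν '' {u | u ∈ G ∧ u ∉ W}) :=
    fun W => ⟨δ, hlow W⟩
  have hne : ∀ W : Submodule F (Fin n → F), W ≠ ⊤ → (ν '' {u | u ∈ G ∧ u ∉ W}).Nonempty :=
    fun W hW => (h2 W hW).elim fun u hu => ⟨_, u, hu, rfl⟩
  have hLpos : ∀ W, W ≠ ⊤ → 0 < L W := fun W hW => hδ.trans_le (le_csInf (hne W hW) (hlow W))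
  have h3 : ∀ W : Submodule F (Fin n → F), ∃ u, W ≠ ⊤ → u ∈ G ∧ u ∉ W ∧ ν u ≤ 2 * L W := by
    intro W
    by_cases hW : W = ⊤
    · exact ⟨0, fun h => absurd hW h⟩
    · obtain ⟨_, ⟨u, hu, rfl⟩, hlt⟩ := exists_lt_of_csInf_lt (hne W hW)
        (show L W < 2 * L W by linarith [hLpos W hW])
      exact ⟨u, fun _ => ⟨hu.1, hu.2, hlt.le⟩⟩
  choose nxt hnxt using h3
  obtain ⟨W, hW0, hW⟩ : ∃ W : ℕ → Submodule F (Fin n → F), W 0 = ⊥ ∧
      ∀ k, W (k + 1) = W k ⊔ Submodule.span F {nxt (W k)} :=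
    ⟨fun k => Nat.rec ⊥ (fun _ U => U ⊔ Submodule.span F {nxt U}) k, rfl, fun _ => rfl⟩
  have hrank : ∀ k : ℕ, Module.finrank F ↥(W k) ≤ k := by
    intro k
    induction k with
    | zero => rw [hW0, finrank_bot]
    | succ k ih =>
      rw [hW]
      refine (Submodule.finrank_add_le_finrank_add_finrank _ _).trans (add_le_add ih ?_)
      simpa using finrank_span_le_card (R := F) ({nxt (W k)} : Set (Fin n → F))
  have htop : ∀ i : Fin n, W i ≠ ⊤ := by
    intro i hi
    have := hrank i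
    rw [hi, finrank_top, Module.finrank_fin_fun] at this
    exact absurd i.2 (not_lt.2 this)
  set x : Fin n → Fin n → F := fun i => nxt (W i) with hx
  have hV : ∀ k, k ≤ n → spV x k = W k := by
    intro k
    induction k with
    | zero => intro _; simp [spV, hW0]
    | succ k ih =>
      intro hk
      rw [hW, ← ih (by omega)]
      have e : nxt (spV x k) = x ⟨k, hk⟩ := by rw [ih (by omega)]
      rw [e]
      refine le_antisymm (spV_le fun l hl => ?_) (sup_le (spV_mono x (by omega)) ?_)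
      · rcases Nat.lt_succ_iff_lt_or_eq.1 hl with h | h
        · exact Submodule.mem_sup_left (spV_mem x h)
        · have : l = ⟨k, hk⟩ := Fin.ext h
          rw [this]
          exact Submodule.mem_sup_right (Submodule.mem_span_singleton_self _)
      · rw [Submodule.span_singleton_le_iff_mem]
        exact spV_mem x (Nat.lt_succ_self k)
  refine ⟨x, fun i => L (W i), fun i => (hnxt _ (htop i)).1, fun i => ?_, fun i => hLpos _ (htop i),
    fun i j hij => ?_, fun i => (hnxt _ (htop i)).2.2, fun u hu i hi => ?_⟩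
  · rw [hV i i.2.le]
    exact (hnxt _ (htop i)).2.1
  · refine csInf_le_csInf (hbdd _) (hne _ (htop j)) (Set.image_mono fun u hu => ⟨hu.1, fun h => ?_⟩)
    rw [← hV i i.2.le] at h
    exact hu.2 (hV j j.2.le ▸ spV_mono x hij h)
  · rw [hV i i.2.le] at hi
    exact csInf_le (hbdd _) ⟨u, ⟨hu, hi⟩, rfl⟩

/-- A family of boxes, with a set of multipliers that approximates every scalar. -/
structure Boxes (v : AbsoluteValue F ℝ) (G : ℝ → Set (Fin n → F)) (R : Set F) (c : ℝ) : Prop where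
  zero : 0 ∈ G 0
  mono : ∀ t t', t ≤ t' → G t ⊆ G t'
  add : ∀ t t', ∀ u ∈ G t, ∀ u' ∈ G t', u + u' ∈ G (t + t')
  smul : ∀ a ∈ R, ∀ t, ∀ u ∈ G t, a • u ∈ G (c * t)
  apx : ∀ t : F, ∃ a ∈ R, v (t - a) ≤ c

theorem AGre_sum {v : AbsoluteValue F ℝ} {G : ℝ → Set (Fin n → F)} {R : Set F} {c : ℝ}
    (h : Boxes v G R c) {ι : Type} (s : Finset ι) {u : ι → Fin n → F} {t : ℝ}
    (hu : ∀ i, u i ∈ G t) : ∑ i ∈ s, u i ∈ G (s.card * t) := by
  classical
  induction s using Finset.induction_on with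
  | empty => simpa using h.zero
  | insert a s ha ih =>
    rw [Finset.sum_insert ha, Finset.card_insert_of_notMem ha, Nat.cast_succ, add_mul, one_mul,
      add_comm (_ * t)]
    exact h.add _ _ _ (hu a) _ ih

theorem AGre_step {c : ℝ} (hc : 1 ≤ c) {v : AbsoluteValue F ℝ} {G : ℝ → Set (Fin n → F)}
    {R : Set F} {x : Fin n → Fin n → F} {lam : Fin n → ℝ} {π : Equiv.Perm (Fin n)}
    (hB : Boxes v G R c) (hS : ∀ i, x i ∈ G 1) (hx : LinearIndependent F x)
    (hpos : ∀ i, 0 < lam i) (hmono : Monotone lam) (hn : ∀ i l, v (x i l) ≤ 2 * lam i)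
    (hπ : Flag v x π) (k : ℕ) (hk : k ≤ n) :
    ∃ X : Fin n → Fin n → F, (∀ i, X i ∈ G ((2 + 2 ^ n * (n * 2)) * (1 + n * c) ^ k)) ∧
      (∀ i : Fin n, X i - x i ∈ spV x i) ∧ ∀ i : Fin n, (i : ℕ) < k → ∀ l, v (X i (π l)) ≤
        (2 + 2 ^ n * (n * 2)) * (1 + n * c) ^ k * min (lam i) (lam l) := by
  have hc' : 0 < c := one_pos.trans_le hc
  have h00 : (1 : ℝ) ≤ 2 + 2 ^ n * (n * 2) := by
    have : (0 : ℝ) ≤ 2 ^ n * (n * 2) := by positivity
    linarith
  induction k with
  | zero => exact ⟨x, fun i => hB.mono _ _ (by simpa using h00) (hS i), by simp, by simp⟩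
  | succ k ih =>
    obtain ⟨X, h1, h2, h3⟩ := ih (by omega)
    set c₀ : ℝ := 2 + 2 ^ n * (n * 2) with hc₀
    have hc0 : 0 < c₀ := by positivity
    set C : ℝ := c₀ * (1 + n * c) ^ k with hC
    have hC1 : c₀ ≤ C := le_mul_of_one_le_right hc0.le
      (one_le_pow₀ (le_add_of_nonneg_right (by positivity)))
    have hC2 : c₀ * (1 + n * c) ^ (k + 1) = C + n * (c * C) := by rw [hC]; ring
    have hC0 : 0 < C := hc0.trans_le hC1
    have hC3 : 0 ≤ n * (c * C) := by positivity
    set κ : Fin n := ⟨k, hk⟩ with hκ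
    obtain ⟨u, hu, hub⟩ := hπ.surj hx k fun j => -x κ (π j)
    have huc := hπ.bound hu (B := 2 * lam κ) (by linarith [hpos κ])
      (fun j hj => by rw [hub j hj, v.map_neg]; exact hn _ _)
    obtain ⟨t, ht, htv⟩ := spV_iff.1 (spV_congr h2 k ▸ hu)
    choose a ha hat using hB.apx
    obtain ⟨b, hb⟩ : ∃ b : Fin n → F, ∀ l, b l = if (l : ℕ) < k then a (t l) else 0 :=
      ⟨_, fun _ => rfl⟩
    set X' : Fin n → F := x κ + ∑ l, b l • X l with hX'
    rw [hC2]
    refine ⟨Function.update X κ X', fun i => ?_, fun i => ?_, fun i hi l => ?_⟩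
    · rcases eq_or_ne i κ with rfl | hi
      · rw [Function.update_self]
        have e := AGre_sum hB univ (u := fun l => b l • X l) (t := c * C) fun l => by
          rw [hb]
          split_ifs
          · exact hB.smul _ (ha _) _ _ (h1 l)
          · rw [zero_smul]
            exact hB.mono _ _ (by positivity) hB.zero
        rw [card_univ, Fintype.card_fin] at e
        exact hB.add _ _ _ (hB.mono _ _ (h00.trans hC1) (hS _)) _ e
      · rw [Function.update_of_ne hi]
        exact hB.mono _ _ (by linarith) (h1 i)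
    · rcases eq_or_ne i κ with rfl | hi
      · rw [Function.update_self, hX', add_sub_cancel_left, ← spV_congr h2]
        exact spV_iff.2 ⟨b, fun l hl => by rw [hb, if_neg (not_lt.2 hl)], rfl⟩
      · rw [Function.update_of_ne hi]; exact h2 i
    · have hmin : 0 < min (lam i) (lam l) := lt_min (hpos i) (hpos l)
      rcases eq_or_ne i κ with rfl | hi'
      · rw [Function.update_self]
        have e : X' (π l) = (x κ (π l) + u (π l)) + ∑ m, (b m - t m) * X m (π l) := by
          simp only [hX', htv, Pi.add_apply, Finset.sum_apply, Pi.smul_apply,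
            smul_eq_mul, sub_mul, Finset.sum_sub_distrib]
          ring
        have e1 : v (x κ (π l) + u (π l)) ≤ c₀ * min (lam κ) (lam l) := by
          by_cases hl : (l : ℕ) < k
          · rw [hub l hl, add_neg_cancel, map_zero]; positivity
          · rw [min_eq_left (hmono (show κ ≤ l from not_lt.1 hl))]
            refine (v.add_le _ _).trans ((add_le_add (hn _ _) (huc _)).trans (le_of_eq ?_))
            rw [hc₀]; ring
        have e2 : v (∑ m, (b m - t m) * X m (π l)) ≤ n * (c * C * min (lam κ) (lam l)) := by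
          refine (v.sum_le _ _).trans ?_
          refine (Finset.sum_le_card_nsmul _ _ (c * C * min (lam κ) (lam l)) fun m _ => ?_).trans
            (by simp)
          by_cases hm : (m : ℕ) < k
          · rw [map_mul, v.map_sub, hb, if_pos hm, mul_assoc]
            have h5 : v (X m (π l)) ≤ C * min (lam κ) (lam l) :=
              (h3 m hm l).trans (mul_le_mul_of_nonneg_left
                (min_le_min_right _ (hmono (show m ≤ κ from hm.le))) hC0.le)
            exact mul_le_mul (hat _) h5 (v.nonneg _) hc'.le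
          · rw [ht m (not_lt.1 hm), hb, if_neg hm, sub_zero, zero_mul, map_zero]
            positivity
        rw [e]
        refine (v.add_le _ _).trans ((add_le_add e1 e2).trans ?_)
        nlinarith
      · rw [Function.update_of_ne hi']
        have hik : (i : ℕ) < k := by
          have : (i : ℕ) ≠ k := fun h => hi' (Fin.ext h)
          omega
        exact (h3 i hik l).trans (mul_le_mul_of_nonneg_right (by linarith) hmin.le)

/- Port of `minima_evertse`: induction on `k ≤ n` with the constant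
`C k = (2 + 2 ^ n * (n * 2)) * (1 + n * c) ^ k`, the invariant being `X i ∈ G (C k)` for all `i`,
`X i - x i ∈ spV x i`, and the bound for `i < k`.  `round (t l)` is replaced by `a l ∈ R` with
`v (t l - a l) ≤ c`, and the new vector is `x κ + ∑ l ∈ filter (l < k), a l • X l`. -/
theorem evertse (n : ℕ) {c : ℝ} (hc : 1 ≤ c) : ∃ C : ℝ, 1 ≤ C ∧
    ∀ (v : AbsoluteValue F ℝ) (G : ℝ → Set (Fin n → F)) (R : Set F) (x : Fin n → Fin n → F)
      (lam : Fin n → ℝ) (π : Equiv.Perm (Fin n)), Boxes v G R c → (∀ i, x i ∈ G 1) →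
      LinearIndependent F x → (∀ i, 0 < lam i) → Monotone lam → (∀ i l, v (x i l) ≤ 2 * lam i) →
      Flag v x π → ∃ X : Fin n → Fin n → F, (∀ i, X i ∈ G C) ∧
        (∀ i : Fin n, X i - x i ∈ spV x i) ∧ ∀ i l, v (X i (π l)) ≤ C * min (lam i) (lam l) := by
  refine ⟨(2 + 2 ^ n * (n * 2)) * (1 + n * c) ^ n, one_le_mul_of_one_le_of_one_le ?_
    (one_le_pow₀ (le_add_of_nonneg_right (mul_nonneg n.cast_nonneg (zero_le_one.trans hc)))), ?_⟩
  · have : (0 : ℝ) ≤ 2 ^ n * (n * 2) := by positivity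
    linarith
  · intro v G R x lam π hB hS hx hpos hmono hn hπ
    obtain ⟨X, h1, h2, h3⟩ := AGre_step hc hB hS hx hpos hmono hn hπ n le_rfl
    exact ⟨X, h1, h2, fun i l => h3 i i.2 l⟩

/- End of the product bound in `exists_minima`: take `k` with `u ∉ spV x k`, `u ∈ spV x (k + 1)`
(`Flag.surj` gives `spV x n = ⊤`), `Flag.bound`. -/
theorem flag_small {v : AbsoluteValue F ℝ} {x : Fin n → Fin n → F} {lam : Fin n → ℝ}
    {π : Equiv.Perm (Fin n)} (hπ : Flag v x π) (hx : LinearIndependent F x) (hpos : ∀ i, 0 < lam i)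
    (hmono : Monotone lam) {u : Fin n → F} (hu : u ≠ 0)
    (h : ∀ l, v (u (π l)) ≤ lam l / (2 ^ n * n + 1)) :
    ∃ k : Fin n, u ∉ spV x k ∧ ∀ l, v (u l) < lam k := by
  have hv0 : u ∉ spV x 0 := fun h => hu (by simpa [spV] using h)
  have hvn : u ∈ spV x n := by
    obtain ⟨w, hw, hwb⟩ := hπ.surj hx n fun j => u (π j)
    have : w = u := by
      ext j
      simpa using hwb (π.symm j) (π.symm j).2
    exact this ▸ hw
  obtain ⟨k, hk, hk1, hk2⟩ : ∃ k < n, u ∉ spV x k ∧ u ∈ spV x (k + 1) := by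
    by_contra hcon2
    push Not at hcon2
    have : ∀ k ≤ n, u ∉ spV x k := by
      intro k
      induction k with
      | zero => exact fun _ => hv0
      | succ k ih => exact fun hk => hcon2 k hk (ih (by omega))
    exact this n le_rfl hvn
  refine ⟨⟨k, hk⟩, hk1, fun l => ?_⟩
  have hl := hpos ⟨k, hk⟩
  have hc : (0 : ℝ) < 2 ^ n * n + 1 := by positivity
  refine (hπ.bound hk2 (B := lam ⟨k, hk⟩ / (2 ^ n * n + 1)) (by positivity)
    (fun j hj => (h j).trans (div_le_div_of_nonneg_right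
      (hmono (show j ≤ ⟨k, hk⟩ from Nat.lt_succ_iff.1 hj)) hc.le)) l).trans_lt ?_
  rw [← mul_assoc, ← mul_div_assoc, div_lt_iff₀ hc]
  linarith

end Pool.Agent.Lib.MP_651af7_nt.Es
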