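import Pool.Agent.Lib.MP_651af7_nt.Es.Defs

/-! Kernels of polynomial matrices: left inverses and specialisation. -/

namespace Pool.Agent.Lib.MP_651af7_nt.Es

open Finset Matrix Height NumberField Pool.Agent.Lib.MP_e97e2b_nt Pool.Agent.Lib.MP_651af7_nt.Iv
  Pool.Agent.Lib.MP_651af7_nt.Vj Pool.Agent.Lib.MP_651af7_nt.Rt Pool.Agent.Lib.Common.Subspace

variable {R : Type} [CommRing R] [IsDomain R] {ι : Type} [Fintype ι]

/-- The common kernel of finitely many row vectors. -/
def kerM (Cs : Finset (ι → R)) : Submodule R (ι → R) where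
  carrier := {u | ∀ c ∈ Cs, c ⬝ᵥ u = 0}
  zero_mem' := fun c _ => dotProduct_zero c
  add_mem' := fun hu hv c hc => by rw [dotProduct_add, hu c hc, hv c hc, add_zero]
  smul_mem' := fun a u hu c hc => by rw [dotProduct_smul, hu c hc, smul_zero]

/-- The dot product with a fixed row as a linear map. -/
def AMBb_dot {S : Type} [CommRing S] (c : ι → S) : (ι → S) →ₗ[S] S where
  toFun z := c ⬝ᵥ z
  map_add' := dotProduct_add c
  map_smul' a z := dotProduct_smul a c z

theorem AMBb_lin {S : Type} [CommRing S] [DecidableEq ι] (L : (ι → S) →ₗ[S] S) (z : ι → S) :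
    (fun l => L (Pi.single l 1)) ⬝ᵥ z = L z := by
  conv_rhs => rw [← Finset.univ_sum_single z]
  rw [map_sum, dotProduct]
  refine Finset.sum_congr rfl fun l _ => ?_
  have : (Pi.single l (z l) : ι → S) = z l • (Pi.single l 1 : ι → S) := by
    rw [← Pi.single_smul, smul_eq_mul, mul_one]
  rw [this, map_smul, smul_eq_mul, mul_comm]

/- `kerM Cs` is the kernel of the linear map `G : (ι → R) → (Cs → R)`.  The range of `G` is a submodule
of a free module over a principal ideal domain, so free, so projective, so `G.rangeRestrict` has a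
linear section `s` (`Module.projective_lifting_property`), and `z ↦ z - s (G z)` is a retraction onto
the kernel.  Compose with the coordinates of the basis `u` (`LinearIndependent.repr`, `Basis.mk`);
`V i l` is the value at `Pi.single l 1`. -/
theorem exists_left_inv [IsPrincipalIdealRing R] (Cs : Finset (ι → R)) {r : ℕ}
    (u : Fin r → ι → R) (hu : LinearIndependent R u)
    (hs : Submodule.span R (Set.range u) = kerM Cs) :
    ∃ V : Fin r → ι → R, ∀ i k, V i ⬝ᵥ u k = if i = k then 1 else 0 := by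
  classical
  let G : (ι → R) →ₗ[R] (Cs → R) := LinearMap.pi fun c => AMBb_dot c.1
  have hG : ∀ z, G z = 0 ↔ z ∈ Submodule.span R (Set.range u) := by
    intro z
    rw [hs]
    exact ⟨fun h c hc => congrFun h ⟨c, hc⟩, fun h => funext fun c => h c.1 c.2⟩
  obtain ⟨s, hsec⟩ := Module.projective_lifting_property G.rangeRestrict LinearMap.id
    G.surjective_rangeRestrict
  have hp : ∀ z, (LinearMap.id - s ∘ₗ G.rangeRestrict : (ι → R) →ₗ[R] (ι → R)) z ∈
      Submodule.span R (Set.range u) := by
    intro z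
    rw [← hG]
    have h1 := congrArg Subtype.val (LinearMap.congr_fun hsec (G.rangeRestrict z))
    simp only [LinearMap.sub_apply, LinearMap.id_apply, LinearMap.comp_apply, map_sub]
    exact sub_eq_zero.2 h1.symm
  let L : (ι → R) →ₗ[R] (Fin r →₀ R) := hu.repr ∘ₗ LinearMap.codRestrict _ _ hp
  refine ⟨fun i l => (Finsupp.lapply i ∘ₗ L) (Pi.single l 1), fun i k => ?_⟩
  rw [AMBb_lin]
  have hk : G.rangeRestrict (u k) = 0 :=
    Subtype.ext ((hG _).2 (Submodule.subset_span ⟨k, rfl⟩))
  have h2 : L (u k) = Finsupp.single k 1 := by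
    refine hu.repr_eq_single k _ ?_
    simp [hk]
  rw [LinearMap.comp_apply, h2, Finsupp.lapply_apply, Finsupp.single_apply]
  simp only [eq_comm]

/- Pass to `Q = FractionRing R`: a vector over `Q` killed by the `c` has an integral multiple
(`IsLocalization.exist_integer_multiples_of_finite`), so it is killed by `f`; then
`mem_span_of_iInf_ker_le_ker` (or duality for the dot product) writes `f` as a `Q`-combination of the
`c`; clear denominators. -/
theorem exists_mul_mem_span (Cs : Finset (ι → R)) (f : ι → R) (h : ∀ u ∈ kerM Cs, f ⬝ᵥ u = 0) :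
    ∃ (Δ : R) (g : (ι → R) → R), Δ ≠ 0 ∧ Δ • f = ∑ c ∈ Cs, g c • c := by
  classical
  let Q := FractionRing R
  have hinj : Function.Injective (algebraMap R Q) := IsFractionRing.injective R Q
  have hdot : ∀ c w : ι → R, (fun l => algebraMap R Q (c l)) ⬝ᵥ (fun l => algebraMap R Q (w l))
      = algebraMap R Q (c ⬝ᵥ w) := by
    intro c w
    simp [dotProduct]
  have hK : AMBb_dot (fun l => algebraMap R Q (f l)) ∈ Submodule.span Q
      (Set.range fun c : Cs => AMBb_dot fun l => algebraMap R Q (c.1 l)) := by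
    refine mem_span_of_iInf_ker_le_ker fun z hz => ?_
    rw [Submodule.mem_iInf] at hz
    obtain ⟨b, hb⟩ := IsLocalization.exist_integer_multiples_of_finite (nonZeroDivisors R) z
    choose w hw using hb
    have hb0 : algebraMap R Q b ≠ 0 :=
      (map_ne_zero_iff _ hinj).2 (nonZeroDivisors.coe_ne_zero b)
    have hw' : (fun l => algebraMap R Q (w l)) = algebraMap R Q b • z := by
      funext l
      rw [hw, Pi.smul_apply, Algebra.smul_def, smul_eq_mul]
    have h1 : w ∈ kerM Cs := by
      intro c hc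
      apply hinj
      have h2 : (fun l => algebraMap R Q (c l)) ⬝ᵥ z = 0 := hz ⟨c, hc⟩
      rw [← hdot, hw', dotProduct_smul, h2, smul_zero, map_zero]
    have h3 := hdot f w
    rw [h w h1, map_zero, hw', dotProduct_smul, smul_eq_mul] at h3
    exact (mul_eq_zero.1 h3).resolve_left hb0
  obtain ⟨a, ha⟩ := (Submodule.mem_span_range_iff_exists_fun Q).1 hK
  obtain ⟨b, hb⟩ := IsLocalization.exist_integer_multiples_of_finite (nonZeroDivisors R) a
  choose g hg using hb
  refine ⟨b, fun c => if hc : c ∈ Cs then g ⟨c, hc⟩ else 0, nonZeroDivisors.coe_ne_zero b, ?_⟩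
  rw [← Finset.sum_coe_sort]
  funext l
  apply hinj
  have h4 := LinearMap.congr_fun ha (Pi.single l 1)
  simp only [LinearMap.coe_sum, Finset.sum_apply, LinearMap.smul_apply, AMBb_dot, LinearMap.coe_mk,
    AddHom.coe_mk, dotProduct_single, mul_one, smul_eq_mul] at h4
  simp only [Pi.smul_apply, smul_eq_mul, Finset.sum_apply, map_mul, map_sum, Finset.coe_mem,
    dif_pos, ← h4, Finset.mul_sum]
  refine Finset.sum_congr rfl fun c _ => ?_
  rw [hg, Algebra.smul_def, mul_assoc]

/- Apply `exists_mul_mem_span` to the rows `f j = Pi.single j 1 - ∑ k, u k j • V k`, take the product of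
the `Δ j`, map by `φ`. -/
theorem exists_spec (Cs : Finset (ι → R)) {r : ℕ} (u V : Fin r → ι → R)
    (hs : Submodule.span R (Set.range u) = kerM Cs)
    (hV : ∀ i k, V i ⬝ᵥ u k = if i = k then 1 else 0) :
    ∃ Δ : R, Δ ≠ 0 ∧ ∀ (F : Type) [Field F] (φ : R →+* F) (z : ι → F), φ Δ ≠ 0 →
      (∀ c ∈ Cs, (fun l => φ (c l)) ⬝ᵥ z = 0) →
      z = ∑ k, ((fun l => φ (V k l)) ⬝ᵥ z) • fun l => φ (u k l) := by
  classical
  have key : ∀ j : ι, ∃ (Δ : R) (g : (ι → R) → R), Δ ≠ 0 ∧
      Δ • ((Pi.single j 1 : ι → R) - ∑ k, u k j • V k) = ∑ c ∈ Cs, g c • c := by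
    intro j
    refine exists_mul_mem_span Cs _ fun w hw => ?_
    rw [← hs] at hw
    obtain ⟨a, rfl⟩ := (Submodule.mem_span_range_iff_exists_fun R).1 hw
    rw [dotProduct_sum]
    refine Finset.sum_eq_zero fun i _ => ?_
    rw [dotProduct_smul, sub_dotProduct, single_dotProduct, one_mul, sum_dotProduct]
    simp only [smul_dotProduct, hV, smul_eq_mul, mul_ite, mul_one, mul_zero, Finset.sum_ite_eq',
      Finset.mem_univ, if_true, sub_self]
  choose Δ g hΔ hg using key
  refine ⟨∏ j, Δ j, Finset.prod_ne_zero_iff.2 fun j _ => hΔ j, fun F _ φ z hφ hz => ?_⟩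
  funext j
  have hj : φ (Δ j) ≠ 0 := by
    rw [map_prod] at hφ
    exact Finset.prod_ne_zero_iff.1 hφ j (Finset.mem_univ j)
  have h1 : (fun l => φ ((Δ j • ((Pi.single j 1 : ι → R) - ∑ k, u k j • V k)) l)) ⬝ᵥ z = 0 := by
    rw [hg j]
    have : (fun l => φ ((∑ c ∈ Cs, g j c • c) l)) = ∑ c ∈ Cs, φ (g j c) • fun l => φ (c l) := by
      funext l
      simp
    rw [this, sum_dotProduct]
    exact Finset.sum_eq_zero fun c hc => by rw [smul_dotProduct, hz c hc, smul_zero]
  have h2 : (fun l => φ ((Δ j • ((Pi.single j 1 : ι → R) - ∑ k, u k j • V k)) l)) =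
      φ (Δ j) • ((Pi.single j 1 : ι → F) - ∑ k, φ (u k j) • fun l => φ (V k l)) := by
    funext l
    by_cases hl : l = j
    · subst hl
      simp
    · simp [hl]
  rw [h2, smul_dotProduct, smul_eq_mul, sub_dotProduct, single_dotProduct, one_mul,
    sum_dotProduct] at h1
  rw [sub_eq_zero.1 ((mul_eq_zero.1 h1).resolve_left hj), Finset.sum_apply]
  refine Finset.sum_congr rfl fun k _ => ?_
  rw [smul_dotProduct, Pi.smul_apply, smul_eq_mul, smul_eq_mul, mul_comm]

end Pool.Agent.Lib.MP_651af7_nt.Es
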