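import Pool.Agent.Lib.MP_651af7_nt.Es.AMBa
import Pool.Agent.Lib.MP_651af7_nt.Es.AMBb

/-! Minimal bases and heights. -/

namespace Pool.Agent.Lib.MP_651af7_nt.Es

open Finset Matrix Height NumberField Pool.Agent.Lib.MP_e97e2b_nt Pool.Agent.Lib.MP_651af7_nt.Iv
  Pool.Agent.Lib.MP_651af7_nt.Vj Pool.Agent.Lib.MP_651af7_nt.Rt Pool.Agent.Lib.Common.Subspace

open Polynomial

variable {K : Type} [Field K] [NumberField K] {ι : Type} [Fintype ι]

/- `logHeight_eval_le'` or induction: the vector is the image of `![x₀, 1]` under the monomials of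
degree `M`; or `logHeight_comp_le` + `logHeight_fun_prod_eq`. -/
theorem ht_pows (M : ℕ) : ∃ C : ℝ, ∀ x₀ : K,
    logHeight (fun a : Fin (M + 1) => x₀ ^ (a : ℕ)) ≤ M * logHeight₁ x₀ + C := by
  obtain ⟨C, hC⟩ := logHeight_eval_le' (K := K) (N := M)
    (p := fun a : Fin (M + 1) => (MvPolynomial.X 0 ^ (a : ℕ) * MvPolynomial.X 1 ^ (M - a) :
      MvPolynomial (Fin 2) K)) fun a => by
    have h := (MvPolynomial.isHomogeneous_X_pow (R := K) (0 : Fin 2) a).mul
      (MvPolynomial.isHomogeneous_X_pow (1 : Fin 2) (M - a))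
    rwa [Nat.add_sub_cancel' (Nat.lt_succ_iff.1 a.2)] at h
  refine ⟨C, fun x₀ => ?_⟩
  have h := hC ![x₀, 1]
  simp only [map_mul, map_pow, MvPolynomial.eval_X, Matrix.cons_val_zero, Matrix.cons_val_one,
    one_pow, mul_one] at h
  rw [logHeight₁_eq_logHeight]
  linarith

/- The vector is a fixed linear image of `(a, l) ↦ x₀ ^ a * z l` (`eval_eq_sum_range'`,
`logHeight_linearMap_apply_le`, `logHeight_fun_mul_eq`, `ht_pows`; for `z = 0` the left side is `0`). -/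
theorem ht_poly_lin {κ : Type} [Fintype κ] (P : κ → ι → K[X]) (M : ℕ)
    (h : ∀ j l, (P j l).natDegree ≤ M) : ∃ C : ℝ, ∀ (x₀ : K) (z : ι → K),
      logHeight (fun j => (fun l => (P j l).eval x₀) ⬝ᵥ z) ≤
        M * logHeight₁ x₀ + logHeight z + C := by
  obtain ⟨C, hC⟩ := ht_pows (K := K) M
  let A : κ × (Fin (M + 1) × ι) → K := fun q => (P q.1 q.2.2).coeff q.2.1
  refine ⟨totalWeight K * Real.log (Nat.card (Fin (M + 1) × ι)) + logHeight A + C,
    fun x₀ z => ?_⟩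
  have h0 := hC x₀
  rcases eq_or_ne z 0 with rfl | hz
  · have h1 := logHeight_nonneg fun a : Fin (M + 1) => x₀ ^ (a : ℕ)
    have h2 := logHeight_nonneg A
    have h3 : 0 ≤ (totalWeight K : ℝ) * Real.log (Nat.card (Fin (M + 1) × ι)) :=
      mul_nonneg (Nat.cast_nonneg _) (Real.log_natCast_nonneg _)
    have h4 : logHeight (fun _ : κ => (0 : K)) = 0 := logHeight_zero
    simp only [dotProduct_zero, logHeight_zero, h4]
    linarith
  · have h1 := logHeight_linearMap_apply_le A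
      fun a : Fin (M + 1) × ι => x₀ ^ (a.1 : ℕ) * z a.2
    have h2 := logHeight_fun_mul_eq (x := fun a : Fin (M + 1) => x₀ ^ (a : ℕ))
      (fun e => by simpa using congrFun e 0) hz
    have h3 : (fun j => (fun l => (P j l).eval x₀) ⬝ᵥ z) =
        fun j => ∑ a : Fin (M + 1) × ι, A (j, a) * (x₀ ^ (a.1 : ℕ) * z a.2) := by
      funext j
      rw [Fintype.sum_prod_type_right, dotProduct]
      refine sum_congr rfl fun l _ => ?_
      rw [eval_eq_sum_range' (Nat.lt_succ_of_le (h j l)), sum_mul, ← Fin.sum_univ_eq_sum_range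
        (fun a => (P j l).coeff a * x₀ ^ a * z l)]
      exact sum_congr rfl fun a _ => mul_assoc _ _ _
    rw [h3]
    linarith

/- `exists_reduced` for `kerM Cs`, `exists_left_inv`, `exists_inf_inv`, `exists_spec` with
`φ = evalRingHom x₀`; `U` is the image of `u`.  Let `t k = V k (x₀) ⬝ᵥ z`, so `z = ∑ k, t k • u k (x₀)` and
`W k (x₀) ⬝ᵥ z = x₀ ^ (M + e k) * t k`.  If `t k ≠ 0`, the vector `![W k (x₀) ⬝ᵥ z, V k (x₀) ⬝ᵥ z]` has
height `(M + e k) * logHeight₁ x₀` (`logHeight₁_div_eq_logHeight`, `logHeight₁_pow`), so `ht_poly_lin`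
gives `e k * h x₀ ≤ h z + C`, and `ht_poly_lin` with `ι = Unit`, `z = 1` gives
`h (u k (x₀)) ≤ e k * h x₀ + C`. -/
theorem exists_minbasis {ι : Type} [Fintype ι] (Cs : Finset (ι → Polynomial K)) :
    ∃ (U : Finset (ι → Polynomial K)) (Δ : Polynomial K) (C : ℝ), Δ ≠ 0 ∧
      (∀ u ∈ U, ∀ c ∈ Cs, c ⬝ᵥ u = 0) ∧ ∀ (x₀ : K) (z : ι → K), Δ.eval x₀ ≠ 0 →
        (∀ c ∈ Cs, (fun l => (c l).eval x₀) ⬝ᵥ z = 0) →
        z ∈ Submodule.span K {v | ∃ u ∈ U, v = (fun l => (u l).eval x₀) ∧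
          logHeight v ≤ logHeight z + C} := by
  classical
  obtain ⟨r, u, e, h1, h2, h3, h4⟩ := exists_reduced (kerM Cs)
  obtain ⟨V, hV⟩ := exists_left_inv Cs u h1 h2
  obtain ⟨M, W, h5, h6, h7⟩ := exists_inf_inv u V e h3 h4 hV
  obtain ⟨Δ, hΔ, h8⟩ := exists_spec Cs u V h2 hV
  choose C1 hC1 using fun k => ht_poly_lin (K := K) ![W k, V k] M fun j l => by
    fin_cases j
    · exact h6 k l
    · exact h5 k l
  choose C2 hC2 using fun k =>
    ht_poly_lin (K := K) (fun j (_ : Unit) => u k j) (e k) fun j _ => h3 k j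
  obtain ⟨C, hC⟩ := Finite.exists_le fun k => C1 k + C2 k
  refine ⟨univ.image u, Δ, C, hΔ, fun w hw => ?_, fun x₀ z hx hz => ?_⟩
  · obtain ⟨k, _, rfl⟩ := mem_image.1 hw
    exact (h2 ▸ Submodule.subset_span ⟨k, rfl⟩ : u k ∈ kerM Cs)
  have h9 : z = ∑ k, ((fun l => (V k l).eval x₀) ⬝ᵥ z) • fun l => (u k l).eval x₀ :=
    h8 K (evalRingHom x₀) z hx hz
  have h10 : ∀ k, (fun l => (W k l).eval x₀) ⬝ᵥ z =
      x₀ ^ (M + e k) * ((fun l => (V k l).eval x₀) ⬝ᵥ z) := by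
    intro k
    have h11 : ∀ i, ((fun l => (W k l).eval x₀) ⬝ᵥ fun l => (u i l).eval x₀) =
        if k = i then x₀ ^ (M + e k) else 0 := fun i => by
      have h12 := congrArg (eval x₀) (h7 k i)
      rw [dotProduct, eval_finsetSum] at h12
      simp only [eval_mul] at h12
      rw [dotProduct, h12]
      split_ifs <;> simp
    conv_lhs => rw [h9]
    rw [dotProduct_sum]
    simp only [dotProduct_smul, h11, smul_eq_mul, mul_ite, mul_zero, sum_ite_eq, mem_univ, if_true]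
    exact mul_comm _ _
  rw [h9]
  refine Submodule.sum_mem _ fun k _ => ?_
  rcases eq_or_ne ((fun l => (V k l).eval x₀) ⬝ᵥ z) 0 with h0 | h0
  · rw [h0, zero_smul]
    exact zero_mem _
  refine Submodule.smul_mem _ _ (Submodule.subset_span
    ⟨u k, mem_image_of_mem u (mem_univ k), rfl, ?_⟩)
  rw [← h9]
  have a1 := hC1 k x₀ z
  have a2 := hC2 k x₀ 1
  have a3 : (fun j => (fun l => ((![W k, V k] : Fin 2 → ι → K[X]) j l).eval x₀) ⬝ᵥ z) =
      ![x₀ ^ (M + e k) * ((fun l => (V k l).eval x₀) ⬝ᵥ z), (fun l => (V k l).eval x₀) ⬝ᵥ z] := by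
    funext j
    fin_cases j
    · exact h10 k
    · rfl
  rw [a3, ← logHeight₁_div_eq_logHeight, mul_div_cancel_right₀ _ h0, logHeight₁_pow] at a1
  have a4 : (fun j => (fun _ : Unit => (u k j).eval x₀) ⬝ᵥ (1 : Unit → K)) =
      fun l => (u k l).eval x₀ := by
    funext j
    simp [dotProduct]
  rw [a4, logHeight_one] at a2
  have a5 := hC k
  push_cast at a1
  linarith

end Pool.Agent.Lib.MP_651af7_nt.Es
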