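import Pool.Agent.Lib.MP_651af7_nt.Es.Defs

/-! Reduced bases of modules of polynomial vectors. -/

namespace Pool.Agent.Lib.MP_651af7_nt.Es

open Finset Matrix Height NumberField Pool.Agent.Lib.MP_e97e2b_nt Pool.Agent.Lib.MP_651af7_nt.Iv
  Pool.Agent.Lib.MP_651af7_nt.Vj Pool.Agent.Lib.MP_651af7_nt.Rt Pool.Agent.Lib.Common.Subspace

open Polynomial

variable {F : Type} [Field F] {ι : Type} [Fintype ι]

theorem AMBa_step {r : ℕ} {u : Fin r → ι → F[X]} {e : Fin r → ℕ} (h1 : LinearIndependent F[X] u)
    (h3 : ∀ k l, (u k l).natDegree ≤ e k)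
    (h4 : ¬ LinearIndependent F fun k l => (u k l).coeff (e k)) :
    ∃ (u' : Fin r → ι → F[X]) (e' : Fin r → ℕ), LinearIndependent F[X] u' ∧
      Submodule.span F[X] (Set.range u') = Submodule.span F[X] (Set.range u) ∧
      (∀ k l, (u' k l).natDegree ≤ e' k) ∧ ∑ k, e' k < ∑ k, e k := by
  classical
  obtain ⟨c, hc, k₁, hk₁⟩ := Fintype.not_linearIndependent_iff.1 h4
  obtain ⟨k₀, hk₀, hm⟩ := (univ.filter fun k => c k ≠ 0).exists_max_image e ⟨k₁, by simpa⟩
  simp only [mem_filter, mem_univ, true_and] at hk₀ hm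
  let τ : Fin r → F[X] := fun k => C (c k) * X ^ (e k₀ - e k)
  have t0 : τ k₀ = C (c k₀) := by simp [τ]
  let w : ι → F[X] := ∑ k, τ k • u k
  have w1 : ∀ l n, e k₀ ≤ n → (w l).coeff n = 0 := by
    intro l n hn
    have a1 : ∀ k, (τ k * u k l).coeff n =
        if n = e k₀ then c k * (u k l).coeff (e k) else 0 := by
      intro k
      by_cases hk : c k = 0
      · simp [τ, hk]
      have := hm k hk
      rw [mul_assoc, coeff_C_mul, coeff_X_pow_mul', if_pos (by omega)]
      split_ifs with q
      · rw [q, show e k₀ - (e k₀ - e k) = e k by omega]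
      · rw [coeff_eq_zero_of_natDegree_lt ((h3 k l).trans_lt (by omega)), mul_zero]
    simp only [w, Finset.sum_apply, Pi.smul_apply, smul_eq_mul, finsetSum_coeff, a1]
    split_ifs
    · simpa [Finset.sum_apply] using congrFun hc l
    · simp
  have li : LinearIndependent F[X] (Function.update u k₀ w) := by
    refine h1.update k₀ w ⟨1, one_mem _,
      (Finsupp.linearEquivFunOnFinite F[X] F[X] (Fin r)).symm τ, ?_, ?_⟩
    · simpa [t0] using hk₀
    · rw [one_smul, Finsupp.linearCombination_eq_fintype_linearCombination_apply,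
        Fintype.linearCombination_apply]
  have e0 : 0 < e k₀ := by
    refine Nat.pos_of_ne_zero fun q => li.ne_zero k₀ ?_
    rw [Function.update_self]
    ext l n
    exact w1 l n (by omega)
  refine ⟨Function.update u k₀ w, Function.update e k₀ (e k₀ - 1), li, le_antisymm ?_ ?_,
    fun k l => ?_, ?_⟩
  · rw [Submodule.span_le]
    rintro _ ⟨k, rfl⟩
    rcases eq_or_ne k k₀ with rfl | hk
    · rw [Function.update_self]
      exact Submodule.sum_mem _ fun j _ =>
        Submodule.smul_mem _ _ (Submodule.subset_span ⟨j, rfl⟩)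
    · rw [Function.update_of_ne hk]
      exact Submodule.subset_span ⟨k, rfl⟩
  · have a1 : ∀ k, k ≠ k₀ → u k ∈ Submodule.span F[X] (Set.range (Function.update u k₀ w)) :=
      fun k hk => Submodule.subset_span ⟨k, Function.update_of_ne hk _ _⟩
    rw [Submodule.span_le]
    rintro _ ⟨k, rfl⟩
    rcases eq_or_ne k k₀ with rfl | hk
    · have a2 : u k = C (c k)⁻¹ • (w - ∑ j ∈ univ.erase k, τ j • u j) := by
        simp only [w]
        rw [← add_sum_erase _ _ (mem_univ k), add_sub_cancel_right, t0, smul_smul, ← C_mul,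
          inv_mul_cancel₀ hk₀, C_1, one_smul]
      rw [a2]
      exact Submodule.smul_mem _ _ (Submodule.sub_mem _
        (Submodule.subset_span ⟨k, Function.update_self _ _ _⟩)
        (Submodule.sum_mem _ fun j hj => Submodule.smul_mem _ _ (a1 j (ne_of_mem_erase hj))))
    · exact a1 k hk
  · rcases eq_or_ne k k₀ with rfl | hk
    · rw [Function.update_self, Function.update_self]
      exact natDegree_le_iff_coeff_eq_zero.2 fun n hn => w1 l n (by omega)
    · rw [Function.update_of_ne hk, Function.update_of_ne hk]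
      exact h3 k l
  · refine sum_lt_sum (fun k _ => ?_) ⟨k₀, mem_univ _, ?_⟩
    · rcases eq_or_ne k k₀ with rfl | hk
      · simp
      · rw [Function.update_of_ne hk]
    · rw [Function.update_self]
      omega

/- `Λ` is free of finite rank (`Submodule.basisOfPid` or `Module.Free` + `Module.finBasis`), so there are
`r`, `u`, `e` with the first three properties.  Take them with `∑ k, e k` minimal (`Nat.find` or strong
induction on the sum).  If `∑ k, c k • lead k = 0` with `c ≠ 0`, take `k₀` with `c k₀ ≠ 0` and `e k₀`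
maximal among these, replace `u k₀` by `u' = ∑ k, (C (c k) * X ^ (e k₀ - e k)) • u k`.  The new family is
again independent and spans `Λ` (the coefficient of `u k₀` is a unit); the coefficient of degree `e k₀` of
`u'` vanishes; `u' ≠ 0`, so `0 < e k₀` and `e k₀` can be lowered by one. -/
theorem exists_reduced (Λ : Submodule F[X] (ι → F[X])) :
    ∃ (r : ℕ) (u : Fin r → ι → F[X]) (e : Fin r → ℕ), LinearIndependent F[X] u ∧
      Submodule.span F[X] (Set.range u) = Λ ∧ (∀ k l, (u k l).natDegree ≤ e k) ∧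
      LinearIndependent F fun k l => (u k l).coeff (e k) := by
  classical
  obtain ⟨r, ⟨b⟩⟩ := Submodule.nonempty_basis_of_pid (Pi.basisFun F[X] ι) Λ
  have key : ∀ (n : ℕ) (u : Fin r → ι → F[X]) (e : Fin r → ℕ), ∑ k, e k = n →
      LinearIndependent F[X] u → Submodule.span F[X] (Set.range u) = Λ →
      (∀ k l, (u k l).natDegree ≤ e k) →
      ∃ (u : Fin r → ι → F[X]) (e : Fin r → ℕ), LinearIndependent F[X] u ∧
        Submodule.span F[X] (Set.range u) = Λ ∧ (∀ k l, (u k l).natDegree ≤ e k) ∧
        LinearIndependent F fun k l => (u k l).coeff (e k) := by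
    intro n
    induction n using Nat.strong_induction_on with
    | _ n ih =>
      intro u e h0 h1 h2 h3
      by_cases h4 : LinearIndependent F fun k l => (u k l).coeff (e k)
      · exact ⟨u, e, h1, h2, h3, h4⟩
      · obtain ⟨u', e', k1, k2, k3, k4⟩ := AMBa_step h1 h3 h4
        exact ih _ (h0 ▸ k4) u' e' rfl k1 (k2.trans h2) k3
  refine ⟨r, key _ (Λ.subtype ∘ b) (fun k => univ.sup fun l => ((b k : ι → F[X]) l).natDegree) rfl
    (b.linearIndependent.map' Λ.subtype Λ.ker_subtype) ?_ fun k l =>
      le_sup (f := fun l => ((b k : ι → F[X]) l).natDegree) (mem_univ l)⟩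
  rw [Set.range_comp, ← Submodule.map_span, b.span_eq, Submodule.map_subtype_top]

theorem AMBa_row {r : ℕ} {v : Fin r → ι → F} (hv : LinearIndependent F v) (a : Fin r → F) :
    ∃ ℓ : ι → F, ∀ k, ∑ l, ℓ l * v k l = a k := by
  classical
  obtain ⟨g, hg⟩ := (Fintype.linearCombination F v).exists_leftInverse_of_injective
    (LinearMap.ker_eq_bot.2 hv.fintypeLinearCombination_injective)
  refine ⟨fun l => a ⬝ᵥ g (Pi.single l 1), fun k => ?_⟩
  have h1 : g (v k) = Pi.single k 1 := by
    simpa [Fintype.linearCombination_apply_single] using congr($hg (Pi.single k 1))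
  have h2 : v k = ∑ l, v k l • (Pi.single l 1 : ι → F) := by
    ext j
    simp [Finset.sum_apply, Pi.single_apply]
  have h3 : a ⬝ᵥ g (v k) = a k := by rw [h1]; simp
  rw [← h3, h2, map_sum, dotProduct_sum, ← h2]
  exact sum_congr rfl fun l _ => by rw [map_smul, dotProduct_smul, smul_eq_mul, mul_comm]

/- Division at infinity.  Let `D` bound the degrees of the `V i l` and of all `∑ k, τ k * V k l` with
`degree (τ k) < e k`, `M = D`.  Claim, by induction on `m ≤ M + 1`: if `degree (τ k) < m + e k` for all `k`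
there is `W` with `natDegree (W l) ≤ M` and `W ⬝ᵥ u k = τ k`.  `m = 0`: `W = ∑ k, τ k • V k`.  Step: a
constant row `ℓ : ι → F` with `ℓ ⬝ᵥ lead k = coeff (τ k) (m + e k)` exists by independence
(`LinearMap.exists_leftInverse_of_injective`, or `LinearIndependent.extend` / `exists_extend`); subtract
`X ^ m * C ℓ`. -/
theorem exists_inf_inv {r : ℕ} (u V : Fin r → ι → F[X]) (e : Fin r → ℕ)
    (hd : ∀ k l, (u k l).natDegree ≤ e k)
    (hl : LinearIndependent F fun k l => (u k l).coeff (e k))
    (hV : ∀ i k, V i ⬝ᵥ u k = if i = k then 1 else 0) :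
    ∃ (M : ℕ) (W : Fin r → ι → F[X]), (∀ i l, (V i l).natDegree ≤ M) ∧
      (∀ i l, (W i l).natDegree ≤ M) ∧
      ∀ i k, W i ⬝ᵥ u k = if i = k then X ^ (M + e i) else 0 := by
  classical
  obtain ⟨D, hD⟩ : ∃ D, ∀ i l, (V i l).natDegree ≤ D :=
    ⟨univ.sup fun p : Fin r × ι => (V p.1 p.2).natDegree, fun i l =>
      le_sup (f := fun p : Fin r × ι => (V p.1 p.2).natDegree) (mem_univ (i, l))⟩
  obtain ⟨E, hE⟩ : ∃ E, ∀ k, e k ≤ E := ⟨univ.sup e, fun k => le_sup (mem_univ k)⟩
  have key : ∀ m ≤ E + D + 1, ∀ τ : Fin r → F[X], (∀ k n, m + e k ≤ n → (τ k).coeff n = 0) →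
      ∃ W : ι → F[X], (∀ l, (W l).natDegree ≤ E + D) ∧ ∀ k, W ⬝ᵥ u k = τ k := by
    intro m
    induction m with
    | zero =>
      intro _ τ hτ
      refine ⟨∑ k, τ k • V k, fun l => ?_, fun k => ?_⟩
      · rw [Finset.sum_apply]
        refine natDegree_sum_le_of_forall_le _ _ fun k _ => natDegree_mul_le.trans ?_
        exact Nat.add_le_add ((natDegree_le_iff_coeff_eq_zero.2 fun n hn =>
          hτ k n (by omega)).trans (hE k)) (hD k l)
      · simp [sum_dotProduct, hV]
    | succ m ih =>
      intro hm τ hτ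
      obtain ⟨ℓ, hℓ⟩ := AMBa_row hl fun k => (τ k).coeff (m + e k)
      obtain ⟨W, h1, h2⟩ := ih (by omega) (fun k => τ k - X ^ m * ∑ l, C (ℓ l) * u k l)
        fun k n hn => by
          rw [coeff_sub, coeff_X_pow_mul', if_pos (by omega), finsetSum_coeff]
          simp only [coeff_C_mul]
          rcases hn.eq_or_lt with rfl | q
          · rw [Nat.add_sub_cancel_left, hℓ, sub_self]
          · rw [hτ k n (by omega), sum_eq_zero fun l _ => ?_, sub_zero]
            rw [coeff_eq_zero_of_natDegree_lt ((hd k l).trans_lt (by omega)), mul_zero]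
      refine ⟨W + fun l => X ^ m * C (ℓ l), fun l => ?_, fun k => ?_⟩
      · refine natDegree_add_le_of_degree_le (h1 l) ?_
        refine (natDegree_mul_le (p := X ^ m) (q := C (ℓ l))).trans ?_
        rw [natDegree_C, natDegree_X_pow]
        omega
      · rw [add_dotProduct, h2, mul_sum]
        simp only [dotProduct, mul_assoc, sub_add_cancel]
  have k2 := fun i => key _ le_rfl (fun k => if i = k then X ^ (E + D + e i) else 0)
    fun k n hn => by
      split_ifs with q
      · subst q
        rw [coeff_X_pow, if_neg (by omega)]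
      · rfl
  choose W h1 h2 using k2
  exact ⟨E + D, W, fun i l => (hD i l).trans (Nat.le_add_left _ _), h1, h2⟩

end Pool.Agent.Lib.MP_651af7_nt.Es
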