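import Pool.Agent.Lib.MP_651af7_nt.Es.ACell

/-! The first theorem of Minkowski over `K`, by the pigeonhole principle. -/

namespace Pool.Agent.Lib.MP_651af7_nt.Es

open Finset Matrix Height NumberField Pool.Agent.Lib.MP_e97e2b_nt Pool.Agent.Lib.MP_651af7_nt.Iv
  Pool.Agent.Lib.MP_651af7_nt.Vj Pool.Agent.Lib.MP_651af7_nt.Rt Pool.Agent.Lib.Common.Subspace

variable {K : Type} [Field K] [NumberField K] {S : Finset (FinitePlace K)}

/- Let `ω = integralBasis K` (index type of cardinality `d = finrank ℚ K = ∑ w, mult w`,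
`InfinitePlace.sum_mult_eq`), `Ω = 1 + ∑ w k, w (ω k)`, `T` a positive natural number with
`exp (b p l) ≤ T` for all `p, l`.  The `T ^ (card ι * d)` points `y z l = ∑ k, z l k * ω k`,
`z : ι → _ → Fin T`, are integral and different.  At an infinite place `av p ((N p *ᵥ y z) l) ≤ R p =
card ι * exp β * Ω * T`, at a finite place `≤ R p = exp β` (`fin_dot_le`).  `cell` gives a map to a finite
type with at most `∏ p l, (c * R p / exp (b p l)) ^ mu p < T ^ (card ι * d)` elements when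
`C = log (c * card ι * Ω)`; `Fintype.exists_ne_map_eq_of_card_lt`; `y = y z - y z'`. -/
theorem mink_one (S : Finset (FinitePlace K)) (ι : Type) [Fintype ι] [Nonempty ι] :
    ∃ C : ℝ, 0 ≤ C ∧ ∀ (N : Pl S → Matrix ι ι K) (b : Pl S → ι → ℝ) (β : ℝ), 0 ≤ β →
      (∀ p i j, av p (N p i j) ≤ Real.exp β) → (∀ v l, b (Sum.inr v) l ≤ β) →
      (∑ p : Pl S, (mu p : ℝ)) * (Fintype.card ι * (C + β)) < vol b →
      ∃ y : ι → K, y ≠ 0 ∧ IntV y ∧ ∀ p l, av p ((N p *ᵥ y) l) ≤ Real.exp (b p l) := by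
  classical
  obtain ⟨c, hc, hcell⟩ := cell S
  let ω := integralBasis K
  obtain ⟨Ω, hΩ1, hΩ⟩ : ∃ Ω : ℝ, 1 ≤ Ω ∧ ∀ w : InfinitePlace K, ∑ k, w (ω k) ≤ Ω :=
    ⟨1 + ∑ w : InfinitePlace K, ∑ k, w (ω k), le_add_of_nonneg_right (by positivity), fun w =>
      (single_le_sum (f := fun w : InfinitePlace K => ∑ k, w (ω k)) (fun _ _ => by positivity)
        (mem_univ w)).trans (le_add_of_nonneg_left zero_le_one)⟩
  have hn : (1 : ℝ) ≤ Fintype.card ι := by exact_mod_cast Fintype.card_pos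
  have hA : 1 ≤ Fintype.card ι * Ω := one_le_mul_of_one_le_of_one_le hn hΩ1
  have hA' : 1 ≤ c * (Fintype.card ι * Ω) := one_le_mul_of_one_le_of_one_le hc hA
  refine ⟨Real.log (c * (Fintype.card ι * Ω)), Real.log_nonneg hA', fun N b β hβ hN hb hv => ?_⟩
  obtain ⟨T, hT⟩ := exists_nat_gt (∑ q : Pl S × ι, Real.exp (b q.1 q.2))
  have hT' : ∀ p l, Real.exp (b p l) ≤ T := fun p l =>
    (single_le_sum (f := fun q : Pl S × ι => Real.exp (b q.1 q.2)) (fun _ _ => by positivity)
      (mem_univ (p, l))).trans hT.le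
  have hT0 : (0 : ℝ) < T := lt_of_le_of_lt (by positivity) hT
  have hβ' : 1 ≤ Real.exp β := Real.one_le_exp hβ
  let R : Pl S → ℝ := Sum.elim (fun _ => Fintype.card ι * Ω * Real.exp β * T) fun _ => Real.exp β
  let t : Pl S → ℝ := Sum.elim (fun _ => T) fun _ => 1
  choose τ hτ f hf1 hf2 using fun q : Pl S × ι => hcell q.1 (R q.1) (Real.exp (b q.1 q.2))
    (Real.exp_pos _) (by
      obtain ⟨w | v, l⟩ := q
      · exact (hT' _ l).trans
          (le_mul_of_one_le_left hT0.le (one_le_mul_of_one_le_of_one_le hA hβ'))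
      · exact Real.exp_le_exp.2 (hb v l))
  let y : (ι → _ → Fin T) → ι → K := fun z l => ω.equivFun.symm fun k => ((z l k : ℕ) : ℚ)
  have hy : ∀ z l, y z l = ∑ k, ((z l k : ℕ) : K) * ω k := fun z l => by
    simp only [y, Module.Basis.equivFun_symm_apply, Nat.cast_smul_eq_nsmul, nsmul_eq_mul]
  have hint : ∀ z, IntV (y z) := fun z l => by
    rw [hy]
    refine IsIntegral.sum _ fun k _ => (isIntegral_natCast _).mul ?_
    rw [integralBasis_apply]
    exact RingOfIntegers.isIntegral_coe _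
  have hR : ∀ z p l, av p ((N p *ᵥ y z) l) ≤ R p := by
    rintro z (w | v) l
    · have h1 : ∀ j, w.1 (y z j) ≤ Ω * T := fun j => by
        rw [hy]
        refine (w.1.sum_le _ _).trans (le_trans ?_ (mul_le_mul_of_nonneg_right (hΩ w) hT0.le))
        rw [sum_mul]
        refine sum_le_sum fun k _ => ?_
        rw [map_mul, mul_comm]
        refine mul_le_mul_of_nonneg_left ?_ (w.1.nonneg _)
        rw [show w.1 ((z j k : ℕ) : K) = (z j k : ℕ) from w.map_natCast _]
        exact_mod_cast (z j k).2.le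
      refine (w.1.sum_le _ _).trans ((sum_le_card_nsmul _ _ (Real.exp β * (Ω * T))
        fun j _ => ?_).trans (le_of_eq ?_))
      · rw [map_mul]
        exact mul_le_mul (hN (Sum.inl w) l j) (h1 j) (w.1.nonneg _) (by positivity)
      · simp only [R, Sum.elim_inl, card_univ, nsmul_eq_mul]
        ring
    · exact fin_dot_le v.1 (by positivity) (hN (Sum.inr v) l) (hint z)
  have hcard : Fintype.card (∀ q, τ q) <
      Fintype.card (ι → Module.Free.ChooseBasisIndex ℤ (𝓞 K) → Fin T) := by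
    have h1 : ∀ q : Pl S × ι, (Fintype.card (τ q) : ℝ) ≤ Real.exp (mu q.1 *
        (Real.log (c * (Fintype.card ι * Ω)) + β - b q.1 q.2)) * t q.1 ^ mu q.1 := fun q => by
      have h0 : 0 ≤ R q.1 := (AbsoluteValue.nonneg _ _).trans (hR (fun _ _ =>
        ⟨0, by exact_mod_cast hT0⟩) q.1 q.2)
      refine (hf1 q).trans ?_
      rw [Real.exp_nat_mul, ← mul_pow, Real.exp_sub, Real.exp_add, Real.exp_log (by positivity),
        div_mul_eq_mul_div]
      refine pow_le_pow_left₀ (by positivity) (div_le_div_of_nonneg_right ?_ (by positivity)) _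
      obtain ⟨w | v, l⟩ := q
      · exact le_of_eq (by simp only [R, t, Sum.elim_inl]; ring)
      · simp only [R, t, Sum.elim_inr, mul_one]
        exact mul_le_mul_of_nonneg_right (le_mul_of_one_le_right (by positivity) hA) (by positivity)
    have h2 : ∏ q : Pl S × ι, t q.1 ^ mu q.1 =
        (Fintype.card (ι → Module.Free.ChooseBasisIndex ℤ (𝓞 K) → Fin T) : ℝ) := by
      rw [Fintype.prod_prod_type, Fintype.card_fun, Fintype.card_fun, Fintype.card_fin,
        ← Module.finrank_eq_card_basis ω, ← InfinitePlace.sum_mult_eq]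
      simp [t, mu, prod_pow, prod_pow_eq_pow_sum]
    have h3 : ∑ q : Pl S × ι, (mu q.1 : ℝ) *
        (Real.log (c * (Fintype.card ι * Ω)) + β - b q.1 q.2) < 0 := by
      rw [Fintype.sum_prod_type]
      simp only [← mul_sum, sum_sub_distrib, mul_sub, sum_const, card_univ, nsmul_eq_mul, ← sum_mul]
      exact sub_neg.2 hv
    have h4 := prod_le_prod (s := univ) (fun q _ => Nat.cast_nonneg _) fun q _ => h1 q
    rw [prod_mul_distrib, ← Real.exp_sum, h2, ← Nat.cast_prod, ← Fintype.card_pi] at h4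
    have h5 : (0 : ℝ) < Fintype.card (ι → Module.Free.ChooseBasisIndex ℤ (𝓞 K) → Fin T) := by
      rw [← h2]
      exact prod_pos fun q _ => pow_pos (by obtain ⟨w | v, l⟩ := q; exacts [hT0, one_pos]) _
    exact_mod_cast h4.trans_lt (mul_lt_of_lt_one_left h5 (Real.exp_lt_one_iff.2 h3))
  obtain ⟨z, z', hne, he⟩ := Fintype.exists_ne_map_eq_of_card_lt
    (fun z q => f q ((N q.1 *ᵥ y z) q.2)) hcard
  refine ⟨y z - y z', sub_ne_zero.2 fun h0 => hne ?_, fun l => (hint z l).sub (hint z' l),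
    fun p l => ?_⟩
  · funext l k
    exact Fin.ext (Nat.cast_injective (R := ℚ)
      (congrFun (ω.equivFun.symm.injective (congrFun h0 l)) k))
  · rw [mulVec_sub]
    exact hf2 (p, l) _ _ (hR z p l) (hR z' p l) (congrFun he (p, l))

/- `mink_one` with `ι = Unit`, `N = 1`, `β = 0`, `b p = log (min ε 1)` for `p ≠ inl o` and `b (inl o)`
large (`one_le_mu`). -/
theorem exists_small (S : Finset (FinitePlace K)) (o : InfinitePlace K) {ε : ℝ} (hε : 0 < ε) :
    ∃ u : K, u ≠ 0 ∧ IsIntegral ℤ u ∧ ∀ p : Pl S, p ≠ Sum.inl o → av p u ≤ ε := by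
  classical
  obtain ⟨C, hC, h⟩ := mink_one S Unit
  have hL : Real.log (min ε 1) ≤ 0 := Real.log_nonpos (by positivity) (min_le_right _ _)
  obtain ⟨B, hB0, hB⟩ : ∃ B : ℝ, 0 ≤ B ∧ (∑ p : Pl S, (mu p : ℝ)) * C <
      ∑ p : Pl S, (mu p : ℝ) * Real.log (min ε 1) + B :=
    ⟨max 0 ((∑ p : Pl S, (mu p : ℝ)) * C + 1 - ∑ p : Pl S, (mu p : ℝ) * Real.log (min ε 1)),
      le_max_left _ _, by linarith [le_max_right 0 ((∑ p : Pl S, (mu p : ℝ)) * C + 1 -
        ∑ p : Pl S, (mu p : ℝ) * Real.log (min ε 1))]⟩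
  obtain ⟨y, hy0, hy1, hy2⟩ := h (fun _ => 1)
    (fun p _ => Real.log (min ε 1) + if p = Sum.inl o then B else 0) 0 le_rfl
    (fun p i j => by simp) (fun v l => by simpa using hL) (by
      have h1 : (1 : ℝ) ≤ mu (S := S) (Sum.inl o) := by exact_mod_cast one_le_mu _
      simp only [vol, Fintype.card_unit, Nat.cast_one, add_zero, one_mul, univ_unique,
        sum_singleton, mul_add, sum_add_distrib, mul_ite, mul_zero, sum_ite_eq', mem_univ, if_true]
      exact hB.trans_le (add_le_add le_rfl (le_mul_of_one_le_left hB0 h1)))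
  refine ⟨y (), fun h0 => hy0 (funext fun _ => h0), hy1 (), fun p hp => ?_⟩
  have h2 := hy2 p ()
  rw [one_mulVec, if_neg hp, add_zero, Real.exp_log (by positivity)] at h2
  exact h2.trans (min_le_left _ _)

end Pool.Agent.Lib.MP_651af7_nt.Es
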