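import Pool.Agent.Lib.MP_651af7_nt.Es.AGre
import Pool.Agent.Lib.MP_651af7_nt.Es.AMink
import Pool.Agent.Lib.MP_651af7_nt.Es.AApx

/-! Successive minima over `K`, scaled at one infinite place. -/

namespace Pool.Agent.Lib.MP_651af7_nt.Es

open Finset Matrix Height NumberField Pool.Agent.Lib.MP_e97e2b_nt Pool.Agent.Lib.MP_651af7_nt.Iv
  Pool.Agent.Lib.MP_651af7_nt.Vj Pool.Agent.Lib.MP_651af7_nt.Rt Pool.Agent.Lib.Common.Subspace

variable {K : Type} [Field K] [NumberField K] {S : Finset (FinitePlace K)}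

/-- The output of the geometry of numbers for the box with forms `N` and sides `A`. -/
structure Minima {n : ℕ} (o : Pl S) (N : Pl S → Matrix (Fin n) (Fin n) K) (A : Pl S → Fin n → ℝ)
    (C : ℝ) (X : Matrix (Fin n) (Fin n) K) (lam : Fin n → ℝ) (π : Equiv.Perm (Fin n)) : Prop where
  det : X.det ≠ 0
  int : ∀ i, IntV (X i)
  pos : ∀ i, 0 < lam i
  mono : Monotone lam
  off : ∀ p, p ≠ o → ∀ i l, av p ((N p *ᵥ X i) l) ≤ C * A p l
  on : ∀ i l, av o ((N o *ᵥ X i) (π l)) ≤ C * A o (π l) * min (lam i) (lam l)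
  span : ∀ y : Fin n → K, IntV y → (∀ p, p ≠ o → ∀ l, av p ((N p *ᵥ y) l) ≤ A p l) →
    ∀ i : Fin n, (∀ l, av o ((N o *ᵥ y) l) < A o l * lam i) →
      ∃ g : Fin n → K, (∀ l, i ≤ l → g l = 0) ∧ y = ∑ l, g l • X l

theorem AMin_vol (o : Pl S) {n : ℕ} (b : Pl S → Fin n → ℝ) (t : Fin n → ℝ) :
    vol (fun p l => b p l + open Classical in if p = o then t l else 0) =
      vol b + mu o * ∑ l, t l := by
  classical
  simp only [vol, sum_add_distrib, mul_add]
  congr 1
  rw [Finset.sum_eq_single o]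
  · simp
  · intro p _ hp
    simp [hp]
  · simp

theorem AMin_low (o : Pl S) {D t : ℝ} (h : 0 ≤ D + mu o * t) : -|D| ≤ t := by
  have h1 : (1 : ℝ) ≤ mu o := by exact_mod_cast one_le_mu o
  have h2 := le_abs_self D
  have h3 := abs_nonneg D
  by_contra hc
  nlinarith

/-- The boxes at the places other than `o`, in the coordinates `φ`. -/
def AMin_G {n : ℕ} (o : Pl S) (N : Pl S → Matrix (Fin n) (Fin n) K) (A : Pl S → Fin n → ℝ)
    (φ : (Fin n → K) →ₗ[K] (Fin n → K)) (t : ℝ) : Set (Fin n → K) :=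
  {u | ∃ y, IntV y ∧ (∀ p, p ≠ o → ∀ l, av p ((N p *ᵥ y) l) ≤ t * A p l) ∧ φ y = u}

theorem AMin_boxes {n : ℕ} (o : InfinitePlace K) (N : Pl S → Matrix (Fin n) (Fin n) K)
    {A : Pl S → Fin n → ℝ} (hA : ∀ p l, 0 < A p l) (φ : (Fin n → K) →ₗ[K] (Fin n → K)) {c : ℝ}
    (hc : 1 ≤ c) (h : ∀ t : K, ∃ a : K, IsIntegral ℤ a ∧ o (t - a) ≤ c ∧
      ∀ w : InfinitePlace K, w ≠ o → w a ≤ c) :
    Boxes (av (Sum.inl o : Pl S)) (AMin_G (Sum.inl o) N A φ)
      {a | IsIntegral ℤ a ∧ ∀ p : Pl S, p ≠ Sum.inl o → av p a ≤ c} c := by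
  refine ⟨⟨0, fun _ => isIntegral_zero, fun p _ l => by simp, map_zero φ⟩, ?_, ?_, ?_, fun t => ?_⟩
  · rintro t t' ht _ ⟨y, h1, h2, rfl⟩
    exact ⟨y, h1, fun p hp l => (h2 p hp l).trans (mul_le_mul_of_nonneg_right ht (hA p l).le), rfl⟩
  · rintro t t' _ ⟨y, h1, h2, rfl⟩ _ ⟨y', h1', h2', rfl⟩
    refine ⟨y + y', fun l => (h1 l).add (h1' l), fun p hp l => ?_, map_add φ _ _⟩
    rw [mulVec_add, add_mul]
    exact ((av p).add_le _ _).trans (add_le_add (h2 p hp l) (h2' p hp l))
  · rintro a ⟨a1, a2⟩ t _ ⟨y, h1, h2, rfl⟩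
    refine ⟨a • y, fun l => a1.mul (h1 l), fun p hp l => ?_, map_smul φ _ _⟩
    rw [mulVec_smul, Pi.smul_apply, smul_eq_mul, map_mul, mul_assoc]
    exact mul_le_mul (a2 p hp) (h2 p hp l) ((av p).nonneg _) (by linarith)
  · obtain ⟨a, a1, a2, a3⟩ := h t
    refine ⟨a, ⟨a1, ?_⟩, a2⟩
    rintro (w | v) hp
    · exact a3 w fun e => hp (by rw [e])
    · exact (fin_le_oneA v.1 a1).trans hc

theorem exists_minimaK (S : Finset (FinitePlace K)) (n : ℕ) (o : InfinitePlace K) :
    ∃ C : ℝ, 1 ≤ C ∧ ∀ (N : Pl S → Matrix (Fin n) (Fin n) K) (a : Pl S → Fin n → K) (c : ℝ),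
      0 ≤ c → (∀ p, Tame (av p) c (N p)) → (∀ p l, a p l ≠ 0) →
      (∀ v l, av (Sum.inr v : Pl S) (a (Sum.inr v) l) ≤ Real.exp c) →
      ∃ X lam π, Minima (Sum.inl o) N (fun p l => av p (a p l)) C X lam π ∧
        mu (Sum.inl o : Pl S) * ∑ i, Real.log (lam i) +
          vol (fun p l => Real.log (av p (a p l))) ≤ C * (1 + c) := by
  classical
  obtain ⟨c₁, hc₁, happ⟩ := exists_approx K
  obtain ⟨C₂, hC₂, hev⟩ := evertse (F := K) n hc₁
  obtain ⟨C₃, -, hlow⟩ := low_bound S (Fin n)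
  obtain ⟨C₁, hC₁, hmk⟩ : ∃ C : ℝ, 0 ≤ C ∧ (0 < n → ∀ (N : Pl S → Matrix (Fin n) (Fin n) K)
      (b : Pl S → Fin n → ℝ) (β : ℝ), 0 ≤ β → (∀ p i j, av p (N p i j) ≤ Real.exp β) →
      (∀ v l, b (Sum.inr v) l ≤ β) → (∑ p : Pl S, (mu p : ℝ)) * (n * (C + β)) < vol b →
      ∃ y : Fin n → K, y ≠ 0 ∧ IntV y ∧ ∀ p l, av p ((N p *ᵥ y) l) ≤ Real.exp (b p l)) := by
    rcases Nat.eq_zero_or_pos n with h | h
    · exact ⟨0, le_rfl, fun h' => absurd h h'.ne'⟩
    · have : Nonempty (Fin n) := ⟨⟨0, h⟩⟩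
      obtain ⟨C, h1, h2⟩ := mink_one S (Fin n)
      exact ⟨C, h1, fun _ => by simpa only [Fintype.card_fin] using h2⟩
  set s : ℝ := ∑ p : Pl S, (mu p : ℝ) with hs
  have hs0 : 0 ≤ s := sum_nonneg fun _ _ => Nat.cast_nonneg _
  set e : ℝ := 2 ^ n * n + 1 with he
  have he1 : 1 ≤ e := le_add_of_nonneg_left (by positivity)
  have hle := Real.log_nonneg he1
  set C₄ : ℝ := s * (n * (C₁ + 1)) + 2 * (n * Real.log e) with hC₄
  have hC₄0 : 0 ≤ C₄ := by positivity
  refine ⟨C₂ + C₄, by linarith, fun N a c hc hT ha hfin => ?_⟩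
  set O : Pl S := Sum.inl o with hO
  set A : Pl S → Fin n → ℝ := fun p l => av p (a p l) with hAdef
  have hA : ∀ p l, 0 < A p l := fun p l => (av p).pos (ha p l)
  set φ : (Fin n → K) →ₗ[K] (Fin n → K) := (diagonal (fun l => (a O l)⁻¹) * N O).mulVecLin with hφ
  have hφv : ∀ y l, av O (φ y l) = av O ((N O *ᵥ y) l) / A O l := fun y l => by
    rw [hφ, mulVecLin_apply, ← mulVec_mulVec, mulVec_diagonal, map_mul, map_inv₀, div_eq_inv_mul]
  have hφinj : Function.Injective φ := by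
    rw [injective_iff_map_eq_zero]
    refine fun y hy => eq_zero_of_mulVec_eq_zero ?_ hy
    rw [det_mul, det_diagonal]
    exact mul_ne_zero (prod_ne_zero_iff.2 fun l _ => inv_ne_zero (ha O l))
      ((av O).pos_iff.1 ((Real.exp_pos _).trans_le (hT O).2))
  have hφsurj : Function.Surjective φ := LinearMap.injective_iff_surjective.1 hφinj
  obtain ⟨M, hM⟩ := Finite.exists_le fun pl : Pl S × Fin n => Real.log (A pl.1 pl.2)
  have hAM : ∀ p l, A p l ≤ Real.exp M := fun p l =>
    (Real.log_le_iff_le_exp (hA p l)).1 (hM (p, l))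
  obtain ⟨M', hM'⟩ := Finite.exists_le fun pl : Pl S × Fin n => c - Real.log (A pl.1 pl.2)
  obtain ⟨x, lam, hx1, hx2, hpos, hmono, hx3, hx4⟩ := greedy (AMin_G O N A φ 1)
    (fun u => ⨆ l, av O (u l)) (δ := Real.exp (-|C₃ * (1 + c) + s * M|)) (Real.exp_pos _) (by
      rintro _ ⟨y, h1, h2, rfl⟩ h0
      have hν := sup_pos (av O) h0
      rw [← Real.le_log_iff_exp_le hν]
      refine AMin_low O ?_
      have h3 := hlow N c y (fun p => M + if p = O then Real.log (⨆ l, av O (φ y l)) else 0) hc hT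
        (fun e => h0 (by rw [e, map_zero])) h1 fun p l => by
          by_cases hp : p = O
          · subst hp
            have h4 := le_sup_av (av O) (φ y) l
            rw [hφv, div_le_iff₀' (hA _ _)] at h4
            rw [if_pos rfl, Real.exp_add, Real.exp_log hν]
            exact h4.trans (mul_le_mul_of_nonneg_right (hAM _ _) hν.le)
          · rw [if_neg hp, add_zero]
            exact (h2 p hp l).trans (by rw [one_mul]; exact hAM p l)
      simp only [mul_add, sum_add_distrib, ← sum_mul, mul_ite, mul_zero, sum_ite_eq', mem_univ,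
        if_true] at h3
      rw [mul_add]
      linarith) (by
      intro W hW
      by_contra hcon
      push Not at hcon
      obtain ⟨u, u0, u1, u2⟩ := exists_small S o (Real.exp_pos (-M'))
      refine hW (eq_top_iff.2 fun w _ => ?_)
      obtain ⟨y, rfl⟩ := hφsurj w
      have e1 : y = ∑ j, (y j / u) • (Pi.single j u : Fin n → K) := by
        ext i
        simp [Finset.sum_apply, Pi.single_apply, u0]
      rw [e1, map_sum]
      refine Submodule.sum_mem _ fun j _ => ?_
      rw [map_smul]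
      refine Submodule.smul_mem _ _ (hcon _ ⟨_, fun l => ?_, fun p hp l => ?_, rfl⟩)
      · rw [Pi.single_apply]
        split_ifs
        exacts [u1, isIntegral_zero]
      · rw [mulVec_single, Pi.smul_apply, MulOpposite.smul_eq_mul_unop, MulOpposite.unop_op,
          map_mul, one_mul, ← Real.exp_log (hA p l)]
        refine (mul_le_mul ((hT p).1 l j) (u2 p hp) ((av p).nonneg _) (Real.exp_pos _).le).trans ?_
        rw [← Real.exp_add, Real.exp_le_exp]
        have := hM' (p, l)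
        simp only at this
        linarith)
  have hind := spV_indep hx2
  obtain ⟨π, hπ⟩ := exists_flag (av O) x
  obtain ⟨X, hX1, hX2, hX3⟩ := hev (av O) _ _ x lam π (AMin_boxes o N hA φ hc₁ (happ o)) hx1 hind
    hpos hmono (fun i l => (le_sup_av (av O) (x i) l).trans (hx3 i)) hπ
  choose Y hY1 hY2 hY3 using hX1
  have hXind : LinearIndependent K X := spV_indep fun i hi => hx2 i (by
    rw [spV_congr hX2] at hi
    simpa using sub_mem hi (hX2 i))
  have hYind : LinearIndependent K Y :=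
    LinearIndependent.of_comp φ (by rwa [show φ ∘ Y = X from funext hY3])
  have hle2 : C₂ ≤ C₂ + C₄ := by linarith
  refine ⟨Matrix.of Y, lam, π, ⟨?_, hY1, hpos, hmono, fun p hp i l => ?_, fun i l => ?_,
    fun y hy h1 i h2 => ?_⟩, ?_⟩
  · exact ((isUnit_iff_isUnit_det _).1
      (linearIndependent_rows_iff_isUnit.1 (show LinearIndependent K (Matrix.of Y).row from
        hYind))).ne_zero
  · exact (hY2 i p hp l).trans (mul_le_mul_of_nonneg_right hle2 (hA p l).le)
  · have h1 := hX3 i l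
    rw [← hY3, hφv, div_le_iff₀ (hA _ _), mul_right_comm] at h1
    exact h1.trans (mul_le_mul_of_nonneg_right (mul_le_mul_of_nonneg_right hle2 (hA _ _).le)
      (lt_min (hpos i) (hpos l)).le)
  · have : Nonempty (Fin n) := ⟨i⟩
    have h3 : φ y ∈ spV X i := by
      rw [spV_congr hX2]
      by_contra h
      have h4 := hx4 _ ⟨y, hy, fun p hp l => by rw [one_mul]; exact h1 p hp l, rfl⟩ i h
      obtain ⟨l, hl⟩ := exists_eq_ciSup_of_finite (f := fun l => av O (φ y l))
      rw [← hl, hφv, le_div_iff₀' (hA _ _)] at h4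
      exact absurd (h2 l) (not_lt.2 h4)
    obtain ⟨g, g1, g2⟩ := spV_iff.1 h3
    exact ⟨g, fun l hl => g1 l hl, hφinj (by simp only [g2, map_sum, map_smul, ← hY3]; rfl)⟩
  · have hC0 : 0 ≤ C₂ * (1 + c) := mul_nonneg (by linarith) (by linarith)
    rcases Nat.eq_zero_or_pos n with rfl | hn
    · simp only [vol, univ_eq_empty, sum_empty, mul_zero, sum_const_zero, add_zero]
      exact mul_nonneg (by linarith) (by linarith)
    by_contra hcon
    obtain ⟨y, y0, y1, y2⟩ := hmk hn N (fun p l => Real.log (A p l) +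
      if p = O then Real.log (lam (π.symm l)) - Real.log e else 0) c hc (fun p => (hT p).1)
      (fun v l => by
        rw [if_neg (by simp [hO]), add_zero, Real.log_le_iff_le_exp (hA _ _)]
        exact hfin v l) (by
        have h1 := AMin_vol O (fun p l => Real.log (A p l))
          fun l => Real.log (lam (π.symm l)) - Real.log e
        rw [sum_sub_distrib, Equiv.sum_comp π.symm fun l => Real.log (lam l), sum_const, card_univ,
          Fintype.card_fin, nsmul_eq_mul] at h1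
        have h2 : (mu O : ℝ) ≤ 2 := by exact_mod_cast mu_le_two O
        have h3 : (mu O : ℝ) * (n * Real.log e) ≤ 2 * (n * Real.log e) :=
          mul_le_mul_of_nonneg_right h2 (by positivity)
        have h4 : s * (n * (C₁ + c)) ≤ s * (n * (C₁ + 1)) * (1 + c) := by
          rw [mul_assoc, mul_assoc]
          gcongr
          nlinarith
        have h5 : 2 * (n * Real.log e) ≤ 2 * (n * Real.log e) * (1 + c) :=
          le_mul_of_one_le_right (by positivity) (by linarith)
        refine lt_of_lt_of_eq ?_ (by convert h1.symm)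
        rw [not_le, hC₄] at hcon
        nlinarith)
    obtain ⟨k, k1, k2⟩ := flag_small hπ hind hpos hmono (u := φ y)
      (fun e => y0 (hφinj (by rw [e, map_zero]))) fun l => by
        have h1 := y2 O (π l)
        rw [if_pos rfl, Equiv.symm_apply_apply, Real.exp_add, Real.exp_sub, Real.exp_log (hA _ _),
          Real.exp_log (hpos l), Real.exp_log (by linarith)] at h1
        rwa [hφv, div_le_iff₀' (hA _ _)]
    have h4 := hx4 _ ⟨y, y1, fun p hp l => by
      have h1 := y2 p l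
      rwa [if_neg hp, add_zero, Real.exp_log (hA _ _), ← one_mul (A p l)] at h1, rfl⟩ k k1
    have : Nonempty (Fin n) := ⟨k⟩
    obtain ⟨l, hl⟩ := exists_eq_ciSup_of_finite (f := fun l => av O (φ y l))
    rw [← hl] at h4
    exact absurd (k2 l) (not_lt.2 h4)

end Pool.Agent.Lib.MP_651af7_nt.Es
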