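import Pool.Agent.Lib.MP_651af7_nt.Es.Gc

/-! Reduction from hyperplanes to points of the line. -/

namespace Pool.Agent.Lib.MP_651af7_nt.Es

open Finset Matrix Height NumberField Pool.Agent.Lib.MP_e97e2b_nt Pool.Agent.Lib.MP_651af7_nt.Iv
  Pool.Agent.Lib.MP_651af7_nt.Vj Pool.Agent.Lib.MP_651af7_nt.Vj.P1 Pool.Agent.Lib.MP_651af7_nt.Rt
  Pool.Agent.Lib.Common.Subspace
open Pool.Agent.Lib.MP_8865d3_nt.Fa (Small Adm wt)

variable {m : ℕ} {T : Fin m → Type} [∀ i, Fintype (T i)] {κ : Type} [Fintype κ] [DecidableEq κ]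
  {e : Fin m → ℕ}

private theorem kill_split {M : Type} [CommMonoid M] {α β : κ} (hαβ : α ≠ β) (g : κ → M) :
    ∏ l, g l = g α * g β * ∏ l ∈ univ.filter (fun l => l ≠ α ∧ l ≠ β), g l := by
  rw [← mul_prod_erase _ _ (mem_univ α), ← mul_prod_erase _ _ (mem_erase.2 ⟨hαβ.symm, mem_univ β⟩),
    mul_assoc]
  congr 3
  ext l
  simp [and_comm]

private theorem kill_split' {M : Type} [AddCommMonoid M] {α β : κ} (hαβ : α ≠ β) (g : κ → M) :
    ∑ l, g l = g α + g β + ∑ l ∈ univ.filter (fun l => l ≠ α ∧ l ≠ β), g l :=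
  kill_split (M := Multiplicative M) hαβ g

private theorem kill_mon {R : Type} [CommRing R] (O : Finset κ) (g : Fin m → κ → ℕ) :
    ∏ i, ∏ l ∈ O, (MvPolynomial.X (i, l) : MvPolynomial (Fin m × κ) R) ^ g i l =
      MvPolynomial.monomial (Finsupp.equivFunOnFinite.symm
        fun q : Fin m × κ => if q.2 ∈ O then g q.1 q.2 else 0) 1 := by
  rw [MvPolynomial.monomial_eq, Finsupp.prod_fintype _ _ (by simp), Fintype.prod_prod_type]
  simp [pow_ite, prod_ite_mem]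

/- Work in `MvPolynomial (Fin m × κ) R`.  Put `x i α = C (s i - ρ i β) - ∑ l ∉ {α, β}, C (ρ i l) * X (i, l)`,
`x i β = 1`, `x i l = X (i, l)` otherwise, and `t i = (Z i)⁻¹.map C *ᵥ x i`.  Then `t i j₀ = ρ i ⬝ᵥ x i = C (s i)`
and `∑ γ, C (a γ) * ∏ i, mo (γ i) (x i) = ∑ ν, C (∑ γ, ..) * ∏ i, mo (ν i) (t i)` (`mo_mulVec`, `map_cx`).
Take the coefficient of `k = ∑ i, ∑ l ∉ {α, β}, single (i, l) (γ₀ i l)`: on the left
`∏ i, mo (γ i) (x i) = monomial (k γ) 1 * ∏ i, x i α ^ γ i α` (`coeff_monomial_mul'`, `constantCoeff`). -/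
theorem kill {R : Type} [CommRing R] (a : IX κ e → R) {α β : κ} (hαβ : α ≠ β) (γ₀ : IX κ e)
    (hmin : ∀ γ : IX κ e, (∀ i l, l ≠ α → l ≠ β → (γ i).1 l ≤ (γ₀ i).1 l) →
      (∀ i l, l ≠ α → l ≠ β → (γ i).1 l = (γ₀ i).1 l) ∨ a γ = 0)
    (ρ : Fin m → κ → R) (Z : Fin m → Matrix κ κ R) (j₀ : κ) (s : Fin m → R) (h1 : ∀ i, ρ i α = 1)
    (hZ : ∀ i, IsUnit (Z i).det) (h2 : ∀ i, ρ i ᵥ* Z i = Pi.single j₀ 1) :
    ∃ r : IX κ e → R,
      ∑ γ ∈ univ.filter (fun γ : IX κ e => ∀ i l, l ≠ α → l ≠ β → (γ i).1 l = (γ₀ i).1 l),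
        a γ * ∏ i, (s i - ρ i β) ^ (γ i).1 α =
      ∑ ν : IX κ e, (∑ γ : IX κ e, a γ * ∏ i, cx (γ i) (ν i) (Z i)) *
        ((∏ i, s i ^ (ν i).1 j₀) * r ν) := by
  classical
  let O : Finset κ := univ.filter fun l => l ≠ α ∧ l ≠ β
  let c : R →+* MvPolynomial (Fin m × κ) R := MvPolynomial.C
  let y : Fin m → MvPolynomial (Fin m × κ) R := fun i =>
    c (s i - ρ i β) - ∑ l ∈ O, c (ρ i l) * MvPolynomial.X (i, l)
  let x : Fin m → κ → MvPolynomial (Fin m × κ) R := fun i l =>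
    if l = α then y i else if l = β then 1 else MvPolynomial.X (i, l)
  let t : Fin m → κ → MvPolynomial (Fin m × κ) R := fun i => ((Z i)⁻¹.map c) *ᵥ x i
  have hO : ∀ i, ∀ l ∈ O, x i l = MvPolynomial.X (i, l) := fun i l hl => by
    obtain ⟨k1, k2⟩ := (mem_filter.1 hl).2
    simp [x, k1, k2]
  have hxa : ∀ i, x i α = y i := fun i => by simp [x]
  have hxb : ∀ i, x i β = 1 := fun i => by simp [x, hαβ.symm]
  have hZt : ∀ i, (Z i).map c *ᵥ t i = x i := fun i => by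
    simp only [t]
    rw [mulVec_mulVec, ← Matrix.map_mul, mul_nonsing_inv _ (hZ i), Matrix.map_one _ c.map_zero c.map_one,
      one_mulVec]
  have ht : ∀ i, t i j₀ = c (s i) := fun i => by
    have e1 : (fun l => c (ρ i l)) ᵥ* (Z i).map c = Pi.single j₀ 1 := by
      funext l
      have := RingHom.map_vecMul c (Z i) (ρ i) l
      rw [h2 i] at this
      rw [show (fun l => c (ρ i l)) = c ∘ ρ i from rfl, ← this, Pi.single_apply, Pi.single_apply]
      split_ifs <;> simp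
    have e2 := dotProduct_mulVec (fun l => c (ρ i l)) ((Z i).map c) (t i)
    rw [hZt, e1, single_one_dotProduct, dotProduct, kill_split' hαβ, hxa, hxb, h1, map_one,
      sum_congr rfl fun l hl => by rw [hO i l hl]] at e2
    rw [← e2]
    simp only [y, map_sub]
    ring
  let kk : IX κ e → (Fin m × κ →₀ ℕ) := fun γ => Finsupp.equivFunOnFinite.symm
    fun q : Fin m × κ => if q.2 ∈ O then (γ q.1).1 q.2 else 0
  let Q : IX κ e → MvPolynomial (Fin m × κ) R := fun ν =>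
    ∏ i, ∏ l ∈ univ.erase j₀, t i l ^ (ν i).1 l
  have hL : ∀ γ : IX κ e, ∏ i, mo (γ i) (x i) =
      MvPolynomial.monomial (kk γ) 1 * ∏ i, y i ^ (γ i).1 α := fun γ => by
    rw [← kill_mon O fun i l => (γ i).1 l, ← prod_mul_distrib]
    refine prod_congr rfl fun i _ => ?_
    rw [mo, kill_split hαβ, hxa, hxb, one_pow, mul_one, mul_comm]
    congr 1
    exact prod_congr rfl fun l hl => by rw [hO i l hl]
  have hR : ∀ ν : IX κ e, ∏ i, mo (ν i) (t i) = c (∏ i, s i ^ (ν i).1 j₀) * Q ν := fun ν => by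
    rw [map_prod, ← prod_mul_distrib]
    refine prod_congr rfl fun i _ => ?_
    rw [mo, ← mul_prod_erase _ _ (mem_univ j₀), ht, map_pow]
  have main : ∑ γ : IX κ e, c (a γ) * ∏ i, mo (γ i) (x i) = ∑ ν : IX κ e,
      c (∑ γ : IX κ e, a γ * ∏ i, cx (γ i) (ν i) (Z i)) * ∏ i, mo (ν i) (t i) := by
    simp only [map_sum, sum_mul]
    rw [sum_comm]
    refine sum_congr rfl fun γ _ => ?_
    simp only [← hZt, mo_mulVec]
    rw [prod_univ_sum, Fintype.piFinset_univ, mul_sum]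
    refine sum_congr rfl fun ν _ => ?_
    simp only [map_mul, map_prod, map_cx, prod_mul_distrib, mul_assoc]
  refine ⟨fun ν => MvPolynomial.coeff (kk γ₀) (Q ν), ?_⟩
  have := congrArg (MvPolynomial.coeff (kk γ₀)) main
  simp only [hL, hR, c, MvPolynomial.coeff_sum, MvPolynomial.coeff_C_mul] at this
  rw [← this, sum_filter]
  refine sum_congr rfl fun γ _ => ?_
  rw [MvPolynomial.coeff_monomial_mul', one_mul]
  split_ifs with k1 k2 k2
  · have e1 : kk γ = kk γ₀ := by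
      ext q
      by_cases hq : q.2 ∈ O
      · simp [kk, hq, k1 _ _ (mem_filter.1 hq).2.1 (mem_filter.1 hq).2.2]
      · simp [kk, hq]
    rw [e1, tsub_self, ← MvPolynomial.constantCoeff_eq]
    simp [y, c]
  · refine absurd (fun q => ?_) k2
    by_cases hq : q.2 ∈ O
    · simp [kk, hq, k1 _ _ (mem_filter.1 hq).2.1 (mem_filter.1 hq).2.2]
    · simp [kk, hq]
  · rw [(hmin γ fun i l l1 l2 => ?_).resolve_left k1, zero_mul]
    have hq : l ∈ O := mem_filter.2 ⟨mem_univ _, l1, l2⟩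
    simpa [kk, hq] using k2 (i, l)
  · rw [mul_zero]

private theorem kla_le {n : ℕ} (γ : Mo κ n) (α : κ) : γ.1 α < n + 1 := by
  have h := Finset.single_le_sum (f := γ.1) (fun _ _ => Nat.zero_le _) (Finset.mem_univ α)
  rw [sum_Mo] at h
  omega

private theorem kla_ext {n : ℕ} {γ γ' : Mo κ n} {α β : κ}
    (h : ∀ l, l ≠ α → l ≠ β → γ.1 l = γ'.1 l) (hα : γ.1 α = γ'.1 α) : γ = γ' := by
  have h1 : ∀ l, l ≠ β → γ.1 l = γ'.1 l := by
    intro l hl
    by_cases hl' : l = α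
    · rw [hl', hα]
    · exact h l hl' hl
  have h2 := sum_Mo γ
  have h3 := sum_Mo γ'
  rw [← Finset.add_sum_erase _ _ (Finset.mem_univ β)] at h2 h3
  have h4 : ∑ l ∈ univ.erase β, γ.1 l = ∑ l ∈ univ.erase β, γ'.1 l :=
    Finset.sum_congr rfl fun l hl => h1 l (Finset.ne_of_mem_erase hl)
  apply Subtype.ext
  funext l
  by_cases hl : l = β
  · rw [hl]
    omega
  · exact h1 l hl

/-- The column attached to a basic section. -/
private def klaF (α : κ) (p : CX T κ e) : Col T e :=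
  fun i => ((p i).1, ⟨(p i).2.1 α, kla_le _ _⟩)

private theorem kla_inj {α β : κ} {p p' : CX T κ e}
    (h : ∀ i l, l ≠ α → l ≠ β → (p i).2.1 l = (p' i).2.1 l) (hF : klaF α p = klaF α p') :
    p = p' := by
  funext i
  have h1 := congrFun hF i
  simp only [klaF, Prod.mk.injEq, Fin.mk.injEq] at h1
  exact Prod.ext h1.1 (kla_ext (h i) h1.2)

private theorem kla_min {c : CX T κ e → ℤ} (hc : c ≠ 0) (α β : κ) :
    ∃ p₀ : CX T κ e, c p₀ ≠ 0 ∧ ∀ p : CX T κ e, c p ≠ 0 →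
      (∀ i l, l ≠ α → l ≠ β → (p i).2.1 l ≤ (p₀ i).2.1 l) →
      ∀ i l, l ≠ α → l ≠ β → (p i).2.1 l = (p₀ i).2.1 l := by
  classical
  have hne : (univ.filter fun p : CX T κ e => c p ≠ 0).Nonempty := by
    obtain ⟨p, hp⟩ := Function.ne_iff.1 hc
    exact ⟨p, Finset.mem_filter.2 ⟨Finset.mem_univ _, hp⟩⟩
  obtain ⟨p₀, hp₀, hm⟩ := Finset.exists_min_image _
    (fun p : CX T κ e => ∑ q ∈ univ.filter (fun q : Fin m × κ => q.2 ≠ α ∧ q.2 ≠ β),
      (p q.1).2.1 q.2) hne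
  refine ⟨p₀, (Finset.mem_filter.1 hp₀).2, fun p hp hle i l hα hβ => ?_⟩
  have h1 := hm p (Finset.mem_filter.2 ⟨Finset.mem_univ _, hp⟩)
  have h2 : ∀ q ∈ univ.filter (fun q : Fin m × κ => q.2 ≠ α ∧ q.2 ≠ β),
      (p q.1).2.1 q.2 ≤ (p₀ q.1).2.1 q.2 := fun q hq =>
    hle q.1 q.2 (Finset.mem_filter.1 hq).2.1 (Finset.mem_filter.1 hq).2.2
  have h3 := (Finset.sum_eq_sum_iff_of_le h2).1 (le_antisymm (Finset.sum_le_sum h2) h1)
  exact h3 (i, l) (Finset.mem_filter.2 ⟨Finset.mem_univ _, hα, hβ⟩)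

/- Among the `γ` for which `t ↦ c (t, γ)` is not zero take `γ₀` with the least
`∑ i, ∑ l ∉ {α, β}, γ i l`.  In the class of `γ₀` an exponent is determined by the numbers `γ i α ≤ e i`
(`sum_Mo`).  Let `c' τ = ∑ γ in the class with (∀ i, γ i α = (τ i).2), c (τ.1, γ)` (at most one term).
Then `GR e c' f t = ∑ γ in the class, GA c f γ * ∏ i, t i ^ γ i α`; `kill` with `a = GA c f`, `GC_eq`. -/
theorem kill_all {c : CX T κ e → ℤ} (hc : c ≠ 0) {α β : κ} (hαβ : α ≠ β) :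
    ∃ c' : Col T e → ℤ, c' ≠ 0 ∧ (∀ τ', c' τ' = 0 ∨ ∃ τ, c' τ' = c τ) ∧
      ∀ (R : Type) [CommRing R] (f : ∀ i, T i → R) (ρ : Fin m → κ → R) (Z : Fin m → Matrix κ κ R)
        (j₀ : κ) (s : Fin m → R), (∀ i, ρ i α = 1) → (∀ i, IsUnit (Z i).det) →
        (∀ i, ρ i ᵥ* Z i = Pi.single j₀ 1) → ∃ r : IX κ e → R,
          GR e c' f (fun i => s i - ρ i β) =
            ∑ ν : IX κ e, GC c f Z ν * ((∏ i, s i ^ (ν i).1 j₀) * r ν) := by
  classical
  obtain ⟨p₀, hp₀, hm⟩ := kla_min hc α β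
  set A : Finset (CX T κ e) :=
    univ.filter (fun p => ∀ i l, l ≠ α → l ≠ β → (p i).2.1 l = (p₀ i).2.1 l) with hA
  have hone : ∀ p ∈ A, A.filter (fun q => klaF α q = klaF α p) = {p} := by
    intro p hp
    ext q
    simp only [Finset.mem_filter, Finset.mem_singleton]
    constructor
    · rintro ⟨hq, hF⟩
      refine kla_inj (β := β) (fun i l h1 h2 => ?_) hF
      rw [(Finset.mem_filter.1 hq).2 i l h1 h2, (Finset.mem_filter.1 hp).2 i l h1 h2]
    · rintro rfl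
      exact ⟨hp, rfl⟩
  have hp₀A : p₀ ∈ A := Finset.mem_filter.2 ⟨Finset.mem_univ _, fun _ _ _ _ => rfl⟩
  refine ⟨fun τ => ∑ p ∈ A.filter (fun q => klaF α q = τ), c p, ?_, ?_, ?_⟩
  · intro h0
    have h1 := congrFun h0 (klaF α p₀)
    simp only [hone p₀ hp₀A, Finset.sum_singleton, Pi.zero_apply] at h1
    exact hp₀ h1
  · intro τ
    rcases (A.filter (fun q => klaF α q = τ)).eq_empty_or_nonempty with h0 | ⟨p, hp⟩
    · left
      simp only [h0, Finset.sum_empty]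
    · right
      obtain ⟨hp1, rfl⟩ := Finset.mem_filter.1 hp
      exact ⟨p, by simp only [hone p hp1, Finset.sum_singleton]⟩
  · intro R _ f ρ Z j₀ s h1 hZ h2
    have hmin : ∀ γ : IX κ e, (∀ i l, l ≠ α → l ≠ β → (γ i).1 l ≤ (p₀ i).2.1 l) →
        (∀ i l, l ≠ α → l ≠ β → (γ i).1 l = (p₀ i).2.1 l) ∨ GA c f γ = 0 := by
      intro γ hγ
      by_cases h0 : ∀ t : ∀ i, T i, c (fun i => (t i, γ i)) = 0
      · right
        refine Finset.sum_eq_zero fun t _ => ?_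
        rw [h0 t, Int.cast_zero, zero_mul]
      · left
        obtain ⟨t, ht⟩ := not_forall.1 h0
        exact hm (fun i => (t i, γ i)) ht hγ
    obtain ⟨r, hr⟩ := kill (GA c f) hαβ (fun i => (p₀ i).2) hmin ρ Z j₀ s h1 hZ h2
    refine ⟨r, ?_⟩
    simp only [GC_eq]
    rw [← hr]
    have h3 : GR e (fun τ => ∑ p ∈ A.filter (fun q => klaF α q = τ), c p) f
        (fun i => s i - ρ i β) =
        ∑ p ∈ A, (c p : R) * ∏ i, (f i (p i).1 * (s i - ρ i β) ^ (p i).2.1 α) := by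
      rw [← Finset.sum_fiberwise A (klaF α), GR]
      refine Finset.sum_congr rfl fun τ _ => ?_
      rw [Int.cast_sum, Finset.sum_mul]
      refine Finset.sum_congr rfl fun p hp => ?_
      obtain ⟨-, rfl⟩ := Finset.mem_filter.1 hp
      rfl
    rw [h3, hA, Finset.sum_filter, Finset.sum_filter,
      ← (Equiv.arrowProdEquivProdArrow (Fin m) T fun i => Mo κ (e i)).symm.sum_comp,
      Fintype.sum_prod_type_right]
    refine Finset.sum_congr rfl fun γ _ => ?_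
    simp only [Equiv.arrowProdEquivProdArrow_symm_apply]
    split_ifs with h4
    · rw [GA, Finset.sum_mul]
      refine Finset.sum_congr rfl fun t _ => ?_
      rw [Finset.prod_mul_distrib, mul_assoc]
      rfl
    · simp

/- Some term has a nonzero coefficient; `∏ i, X (u i) ^ n i = monomial (∑ i, single (u i) (n i)) 1`,
`MvPowerSeries.coeff_mul`, `coeff_monomial_mul`: there is `k` with `k + ∑ i, single (u i) (n i) ≤ k₀`. -/
theorem coeff_split {F τ I : Type} [Field F] [Fintype τ] [Fintype I]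
    (G r : I → MvPowerSeries τ F) (u : Fin m → τ) (n : I → Fin m → ℕ) (k₀ : τ →₀ ℕ)
    (h : MvPowerSeries.coeff k₀
      (∑ ν, G ν * ((∏ i, MvPowerSeries.X (u i) ^ n ν i) * r ν)) ≠ 0) (W : τ → ℝ)
    (hW : ∀ q, 0 ≤ W q) : ∃ (ν : I) (k : τ →₀ ℕ), MvPowerSeries.coeff k (G ν) ≠ 0 ∧
      ∑ q, (k q : ℝ) * W q + ∑ i, (n ν i : ℝ) * W (u i) ≤ ∑ q, (k₀ q : ℝ) * W q := by
  classical
  rw [map_sum] at h
  obtain ⟨ν, -, hν⟩ := exists_ne_zero_of_sum_ne_zero h
  rw [MvPowerSeries.coeff_mul] at hν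
  obtain ⟨⟨k, k'⟩, hk, hk'⟩ := exists_ne_zero_of_sum_ne_zero hν
  have e1 : (∏ i, MvPowerSeries.X (u i) ^ n ν i : MvPowerSeries τ F) =
      MvPowerSeries.monomial (∑ i, Finsupp.single (u i) (n ν i)) 1 := by
    simp only [MvPowerSeries.X_pow_eq]
    induction (univ : Finset (Fin m)) using Finset.induction_on with
    | empty => simp
    | insert i s hi ih =>
      rw [prod_insert hi, sum_insert hi, ih, MvPowerSeries.monomial_mul_monomial, one_mul]
  have h2 := right_ne_zero_of_mul hk'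
  rw [e1, MvPowerSeries.coeff_monomial_mul] at h2
  have h3 : ∑ i, Finsupp.single (u i) (n ν i) ≤ k' := by
    by_contra hcon
    exact h2 (if_neg hcon)
  refine ⟨ν, k, left_ne_zero_of_mul hk', ?_⟩
  have e2 : ∑ i, (n ν i : ℝ) * W (u i) =
      ∑ q, (((∑ i, Finsupp.single (u i) (n ν i) : τ →₀ ℕ) q : ℕ) : ℝ) * W q := by
    simp only [Finsupp.finsetSum_apply, Nat.cast_sum, sum_mul]
    rw [sum_comm]
    refine sum_congr rfl fun i _ => ?_
    simp [Finsupp.single_apply]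
  rw [e2, ← sum_add_distrib, ← mem_antidiagonal.1 hk]
  refine sum_le_sum fun q _ => ?_
  rw [← add_mul, Finsupp.add_apply, Nat.cast_add]
  refine mul_le_mul_of_nonneg_right (add_le_add_right ?_ _) (hW q)
  exact_mod_cast h3 q

variable {K : Type} [Field K]

/- `Matrix.adjugate_apply`, `Matrix.mul_adjugate`. -/
theorem Zm_spec (Y : Matrix κ κ K) (j₀ α : κ) (h : nv Y j₀ α ≠ 0) : (Zm Y j₀ α).det ≠ 0 ∧
    (fun l => nv Y j₀ l / nv Y j₀ α) ᵥ* Zm Y j₀ α = Pi.single j₀ 1 := by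
  refine ⟨?_, ?_⟩
  · rwa [Zm, det_transpose, ← adjugate_apply]
  · funext j
    rw [Zm, vecMul_transpose, mulVec]
    by_cases hj : j = j₀
    · subst hj
      rw [updateRow_self, single_dotProduct, one_mul, div_self h, Pi.single_eq_same]
    · have h1 := congrFun (congrFun (mul_adjugate Y) j) j₀
      rw [Matrix.smul_apply, one_apply_ne hj, smul_zero, Matrix.mul_apply] at h1
      rw [updateRow_ne hj, Pi.single_eq_of_ne hj, dotProduct]
      simp only [← mul_div_assoc, ← sum_div]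
      exact div_eq_zero_iff.2 (Or.inl h1)

/-- The form in which the reduction is used. -/
theorem kill_ser {τ : Type} [Fintype τ] {c : CX T κ e → ℤ} (hc : c ≠ 0) {α β : κ} (hαβ : α ≠ β) :
    ∃ c' : Col T e → ℤ, c' ≠ 0 ∧ (∀ τ', c' τ' = 0 ∨ ∃ τ, c' τ' = c τ) ∧
      ∀ (f : ∀ i, T i → MvPowerSeries τ K) (Y : Fin m → Matrix κ κ K) (j₀ : κ) (u : Fin m → τ)
        (k₀ : τ →₀ ℕ) (W : τ → ℝ), (∀ i, nv (Y i) j₀ α ≠ 0) → (∀ q, 0 ≤ W q) →
        MvPowerSeries.coeff k₀ (GR e c' f fun i =>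
          MvPowerSeries.C (rt (Y i) j₀ α β) + MvPowerSeries.X (u i)) ≠ 0 →
        ∃ (ν : IX κ e) (k : τ →₀ ℕ), MvPowerSeries.coeff k
          (GC c f (fun i => (Zm (Y i) j₀ α).map MvPowerSeries.C) ν) ≠ 0 ∧
          ∑ q, (k q : ℝ) * W q + ∑ i, ((ν i).1 j₀ : ℝ) * W (u i) ≤ ∑ q, (k₀ q : ℝ) * W q := by
  obtain ⟨c', h0, h1, h2⟩ := kill_all hc hαβ
  refine ⟨c', h0, h1, fun f Y j₀ u k₀ W hY hW h => ?_⟩
  obtain ⟨r, hr⟩ := h2 (MvPowerSeries τ K) f
    (fun i l => MvPowerSeries.C (nv (Y i) j₀ l / nv (Y i) j₀ α))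
    (fun i => (Zm (Y i) j₀ α).map MvPowerSeries.C) j₀ (fun i => MvPowerSeries.X (u i))
    (fun i => by rw [div_self (hY i), map_one])
    (fun i => by
      have := (Zm_spec (Y i) j₀ α (hY i)).1.isUnit.map (MvPowerSeries.C (σ := τ) (R := K))
      rwa [RingHom.map_det] at this)
    (fun i => by
      funext j
      have := RingHom.map_vecMul (MvPowerSeries.C (σ := τ) (R := K)) (Zm (Y i) j₀ α)
        (fun l => nv (Y i) j₀ l / nv (Y i) j₀ α) j
      rw [(Zm_spec (Y i) j₀ α (hY i)).2] at this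
      refine this.symm.trans ?_
      simp only [Pi.single_apply]
      split_ifs
      exacts [map_one _, map_zero _])
  have e1 : (fun i => MvPowerSeries.C (rt (Y i) j₀ α β) + MvPowerSeries.X (u i) :
      Fin m → MvPowerSeries τ K) = fun i => MvPowerSeries.X (u i) -
        MvPowerSeries.C (nv (Y i) j₀ β / nv (Y i) j₀ α) := by
    funext i
    rw [rt, map_neg]
    ring
  rw [e1, hr] at h
  exact coeff_split _ r u (fun ν i => (ν i).1 j₀) k₀ h W hW

end Pool.Agent.Lib.MP_651af7_nt.Es
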