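import Pool.Agent.Lib.MP_651af7_nt.Es.BDefs
import Pool.Agent.Lib.MP_651af7_nt.Rt.Core
import Pool.Agent.Lib.MP_651af7_nt.Rt.MovC

/-! The zero lemma for the reduced sections. -/

namespace Pool.Agent.Lib.MP_651af7_nt.Es

open Finset Matrix Height NumberField Pool.Agent.Lib.MP_e97e2b_nt Pool.Agent.Lib.MP_651af7_nt.Iv
  Pool.Agent.Lib.MP_651af7_nt.Vj Pool.Agent.Lib.MP_651af7_nt.Vj.P1 Pool.Agent.Lib.MP_651af7_nt.Rt
  Pool.Agent.Lib.Common.Subspace
open Pool.Agent.Lib.MP_8865d3_nt.Fa (Small Adm wt)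

variable {K : Type} [Field K] [NumberField K] {a b : ℤ}

section aux

variable {m : ℕ} {e : Fin m → ℕ}

lemma nv_mono (c : Col (fun _ : Fin m => Unit) e → ℤ) :
    GR e c (fun _ _ => (1 : MvPolynomial (Fin m) ℚ)) MvPolynomial.X =
      ∑ τ, MvPolynomial.monomial (Finsupp.equivFunOnFinite.symm fun i => ((τ i).2 : ℕ))
        (c τ : ℚ) := by
  refine sum_congr rfl fun τ _ => ?_
  rw [MvPolynomial.monomial_eq, Finsupp.prod_fintype _ _ (by simp)]
  simp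

lemma nv_ne {c : Col (fun _ : Fin m => Unit) e → ℤ} (hc : c ≠ 0) :
    GR e c (fun _ _ => (1 : MvPolynomial (Fin m) ℚ)) MvPolynomial.X ≠ 0 := by
  classical
  intro h0
  apply hc
  funext τ
  have h1 := congrArg (MvPolynomial.coeff
    (Finsupp.equivFunOnFinite.symm fun i => ((τ i).2 : ℕ))) h0
  rw [nv_mono, MvPolynomial.coeff_sum, sum_eq_single τ] at h1
  · simpa using h1
  · intro τ' _ hne
    rw [MvPolynomial.coeff_monomial, if_neg]
    intro h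
    apply hne
    funext i
    have h2 := congrFun (Finsupp.equivFunOnFinite.symm.injective h) i
    exact Prod.ext (Subsingleton.elim _ _) (Fin.ext h2)
  · simp

lemma nv_int (c : Col (fun _ : Fin m => Unit) e → ℤ) :
    IsInt (GR e c (fun _ _ => (1 : MvPolynomial (Fin m) ℚ)) MvPolynomial.X) := by
  rw [nv_mono]
  exact isInt_sum _ _ fun τ _ => isInt_monomial _ _

lemma nv_deg (c : Col (fun _ : Fin m => Unit) e → ℤ) :
    ∀ μ ∈ (GR e c (fun _ _ => (1 : MvPolynomial (Fin m) ℚ)) MvPolynomial.X).support, ∀ i,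
      μ i ≤ e i := by
  classical
  intro μ hμ i
  rw [nv_mono] at hμ
  obtain ⟨τ, -, h⟩ := mem_biUnion.1 (MvPolynomial.support_sum hμ)
  have h2 := mem_singleton.1 (MvPolynomial.support_monomial_subset h)
  rw [h2]
  simpa using Nat.lt_succ_iff.1 (τ i).2.2

end aux

open Pool.Agent.Lib.MP_8865d3_nt.Gm Pool.Agent.Lib.Common.ZeroLemma in
/- The middle part of the proof of `core_ineqR` (`Rt/Core`): `exists_polyR`, `GR_ne_zero`,
`ev_ne_zeroT`, `nonvanishing`, `exit_two`. -/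
theorem nv_star (hD : 4 * a ^ 3 + 27 * b ^ 2 ≠ 0) (m d : ℕ) {θ : ℝ} (hθ : 0 < θ) :
    ∃ (Bd : ℕ) (ζ C : ℝ), 0 < ζ ∧ 1 ≤ C ∧ ∀ (ε D Γ : ℝ) (j e : Fin m → ℕ)
      (X : Option (Fin m) → Pt (a : K) (b : K) × K) (w : Option (Fin m) → ℝ)
      (c : Col (fun i => TA d (j i)) e → ℤ) (x y : Option (Fin m) → MvPowerSeries (VV m) K),
      0 < ε → (∀ o, C ≤ ε * w o) → (∀ o o', o ≠ o' → w o ≤ ζ * w o' ∨ w o' ≤ ζ * w o) →
      (∀ o, w o * dg d j e o ≤ D) → 1 ≤ ε * D → 1 ≤ Γ →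
      Γ * C ^ (∑ i, (4 ^ j i + e i)) ≤ Real.exp (ε * D) → c ≠ 0 → (∀ τ, |(c τ : ℝ)| ≤ Γ) →
      (∀ o, x o = MvPowerSeries.C (xc (X o).1) + MvPowerSeries.X (o, false)) →
      (∀ o, y o ^ 2 = fc (a : MvPowerSeries (VV m) K) b (x o)) → (∀ o, y o ≠ 0) →
      (∃ k : VV m →₀ ℕ, ∑ q, (k q : ℝ) * w q.1 < θ * D ∧
        MvPowerSeries.coeff k (GR e c (fA a b d j (fun _ => false) x y)
          fun i => MvPowerSeries.C (X (some i)).2 + MvPowerSeries.X (some i, true)) ≠ 0) ∨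
      ∃ o, SpecX Bd (Bd * ε * w o) (X o).1 (X o).2 := by
  classical
  obtain ⟨C₂, hC₂, H₂⟩ := exists_polyR a b d
  obtain ⟨Bd, ζ, hζ, H₄⟩ := nonvanishing (K := K) (σ := VV m ⊕ Option (Fin m)) (τ := VV m)
    (e := Sum.inl) Sum.inl_injective Prod.fst 3 (Fintype.card (Option (Fin m))) θ hθ
  have p₄ : 0 ≤ 2 + |(a : ℝ)| + |(b : ℝ)| := by positivity
  refine ⟨Bd, ζ, C₂ + (2 + |(a : ℝ)| + |(b : ℝ)|), hζ, by linarith,
    fun ε D Γ j e X w c x y hε hw hr hdeg hD1 hΓ hlen hc0 hc1 hx e1 e2 => ?_⟩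
  obtain rfl : x = fun o => MvPowerSeries.C (xc (X o).1) + MvPowerSeries.X (o, false) := funext hx
  have : IsDomain (MvPowerSeries (VV m) K) := NoZeroDivisors.to_isDomain _
  have : CharZero (MvPowerSeries (VV m) K) := algebraRat.charZero _
  obtain ⟨G, g1, g2, g3, g5⟩ := H₂ m j e c _ hΓ hc1
  obtain ⟨x₀, y₀, t₀, z1, z2⟩ := GR_ne_zero hD d j e c hc0
  let ξ : VV m → K := fun p => cond p.2 (X p.1).2 (xc (X p.1).1)
  let φ : MvPolynomial (VV m ⊕ Option (Fin m)) ℚ →+* MvPowerSeries (VV m) K :=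
    MvPolynomial.eval₂Hom (algebraMap ℚ _)
      (Sum.elim (fun p => MvPowerSeries.C (ξ p) + MvPowerSeries.X p) y)
  have v1 : ∀ p, φ (MvPolynomial.X (.inl p)) = MvPowerSeries.C (ξ p) + MvPowerSeries.X p :=
    fun p => by simp [φ]
  have v2 : ∀ p, φ (MvPolynomial.X (.inr p)) = y p := fun p => by simp [φ]
  have v3 : ∀ p, φ (MvPolynomial.X (.inr p)) ^ 2 = fc (a : MvPowerSeries (VV m) K) b
      (φ (MvPolynomial.X (.inl (p, false)))) := fun p => by rw [v1, v2, e1]; rfl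
  have v4 : φ G ≠ 0 := by
    refine ev_ne_zeroT (fun o => (o, false)) a b G
      (fun p => cond p.2 (p.1.elim 0 t₀) (x₀ p.1)) y₀ z1 (fun sg => ?_) ξ φ v1 v3
    rw [g5]
    · simpa using z2 sg
    · intro p
      have : ((sg p : ℤ) : ℂ) ^ 2 = 1 := by
        rcases Int.units_eq_one_or (sg p) with h | h <;> simp [h]
      simp [mul_pow, this, z1]
  have hw0 : ∀ o, 0 ≤ w o := fun o => ((mul_pos_iff_of_pos_left hε).1 (by linarith [hw o])).le
  have hG : Sm (fun q : VV m ⊕ Option (Fin m) => w (Sum.elim Prod.fst id q)) ε D G := by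
    refine ⟨g1, fun ν hν q => le_trans (mul_le_mul_of_nonneg_left
      (Nat.cast_le.2 (g3 ν hν q)) (hw0 _)) (hdeg _), g2.trans (le_trans ?_ hlen)⟩
    exact mul_le_mul_of_nonneg_left (pow_le_pow_left₀ (by linarith) (by linarith) _) (by linarith)
  rcases H₄ ε (fun q => w (Sum.elim Prod.fst id q)) hε (fun q => le_trans (by linarith) (hw _))
    (fun p q h => by simp [h]) (fun p q h => hr _ _ h) ξ φ v1
    ((univ : Finset (Option (Fin m))).toList.map Sum.inr)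
    (Sum.elim (fun _ => 0) (eqnT (fun o => (o, false)) a b)) (by simp)
    (by rintro (p | p) <;> simp) (eqnT_pairwise _ a b) (fun q hq => by
      obtain ⟨p, -, rfl⟩ := List.mem_map.1 hq
      rw [Sum.elim_inr]
      refine eqnT_rel (fun o => (o, false)) a b p φ _ ε rfl ?_ (v3 p) (by rw [v2]; exact e2 p)
      have h4 : 2 + |(a : ℝ)| + |(b : ℝ)| ≤ Real.exp (ε * w p) := by
        linarith [hw p, Real.add_one_le_exp (ε * w p)]
      exact h4)
    D hD1 G hG v4 with ⟨κ, k1, k2⟩ | ⟨p, g, q1, q2, q3, q4, q5⟩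
  · left
    rw [g5 _ φ v3] at k2
    simp only [v1, v2] at k2
    rw [Finsupp.weight_apply, Finsupp.sum_fintype _ _ (by simp)] at k1
    simp only [nsmul_eq_mul] at k1
    exact ⟨κ, k1, k2⟩
  · right
    obtain ⟨g', r1, r2, r3, r4, r5⟩ := exit_two p.1 g q1 q2 Bd q3 _ q5
    exact ⟨p.1, g', ⟨r1.ne_zero, ⟨r2, r4.trans q4⟩, fun ν hν i =>
      (MvPolynomial.monomial_le_degreeOf i hν).trans (r3 i)⟩, r5⟩

/- The middle part of the proof of `core_mov` (`Rt/MovC`). -/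
theorem nv_small (m : ℕ) {θ : ℝ} (hθ : 0 < θ) : ∃ (Bd : ℕ) (ζ : ℝ), 0 < ζ ∧
    ∀ (ε D Γ : ℝ) (e : Fin m → ℕ) (t : Fin m → K) (w : Fin m → ℝ)
      (c : Col (fun _ => Unit) e → ℤ), 0 < ε → (∀ i, 1 ≤ ε * w i) →
      (∀ i i', i ≠ i' → w i ≤ ζ * w i' ∨ w i' ≤ ζ * w i) → (∀ i, w i * e i ≤ D) → 1 ≤ ε * D →
      1 ≤ Γ → Γ * 2 ^ (∑ i, e i) ≤ Real.exp (ε * D) → c ≠ 0 → (∀ τ, |(c τ : ℝ)| ≤ Γ) →
      (∃ k : Fin m →₀ ℕ, ∑ i, (k i : ℝ) * w i < θ * D ∧
        MvPowerSeries.coeff k (GR e c (fun _ _ => (1 : MvPowerSeries (Fin m) K))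
          fun i => MvPowerSeries.C (t i) + MvPowerSeries.X i) ≠ 0) ∨
      ∃ i, logHeight₁ (t i) ≤ totalWeight K * (Bd * ε * w i) := by
  classical
  obtain ⟨B, ζ, hζ, H₄⟩ := Pool.Agent.Lib.Common.ZeroLemma.nonvanishing (K := K) (σ := Fin m)
    (τ := Fin m) (ι := Fin m) (e := id) Function.injective_id id 0 0 θ hθ
  refine ⟨B, ζ, hζ, fun ε D Γ e t w c hε hw hr hdeg hD1 hΓ hlen hc0 hc => ?_⟩
  have hw0 : ∀ i, 0 ≤ w i := fun i => ((mul_pos_iff_of_pos_left hε).1 (by linarith [hw i])).le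
  have hG : Pool.Agent.Lib.Common.ZeroLemma.Sm w ε D
      (GR e c (fun _ _ => (1 : MvPolynomial (Fin m) ℚ)) MvPolynomial.X) := by
    refine ⟨nv_int c, fun μ hμ i => le_trans (mul_le_mul_of_nonneg_left
      (Nat.cast_le.2 (nv_deg c μ hμ i)) (hw0 i)) (hdeg i), ?_⟩
    have h1 := locG (lenSN (Fin m)) hΓ hc (f := fun _ _ => 1) (F := fun _ => 1)
      (fun _ => zero_le_one) (fun _ _ => (lenSN (Fin m)).one) (t := MvPolynomial.X)
      (U := fun _ => 1) (fun _ => le_rfl) fun i => (nrm_X i).le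
    rw [E_neg_case not_false] at h1
    simp only [Fintype.card_unit, Nat.cast_one, one_mul, one_pow, prod_const_one, mul_one] at h1
    rw [prod_pow_eq_pow_sum] at h1
    exact le_trans h1 hlen
  let ev : MvPolynomial (Fin m) ℚ →+* MvPowerSeries (Fin m) K :=
    MvPolynomial.eval₂Hom (algebraMap ℚ _) fun i => MvPowerSeries.C (t i) + MvPowerSeries.X i
  have v1 : ∀ i, ev (MvPolynomial.X i) = MvPowerSeries.C (t i) + MvPowerSeries.X i :=
    fun i => by simp [ev]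
  rcases H₄ ε w hε hw (fun i j h => congrArg w h) (fun i j h => hr i j h) t ev v1 []
    (fun _ => 0) le_rfl (fun i => Or.inr ⟨i, rfl⟩) List.Pairwise.nil (by simp) D hD1 _ hG
    (shift_ne_zero t (nv_ne hc0) _) with ⟨κ', k1, k2⟩ | ⟨i, g, r1, r2, r3, r4, r5⟩
  · left
    rw [map_GR] at k2
    simp only [v1, map_one] at k2
    rw [Finsupp.weight_apply, Finsupp.sum_fintype _ _ (by simp)] at k1
    simp only [nsmul_eq_mul, id] at k1
    exact ⟨κ', k1, k2⟩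
  · right
    refine ⟨i, ?_⟩
    have h1 := height_root_le r1.ne_zero (T := Real.exp (B * ε * w i)) ⟨r2, r4⟩ i
      (fun μ hμ j hj => (r3 μ hμ j).1 hj) t r5
    rwa [Real.log_exp] at h1

end Pool.Agent.Lib.MP_651af7_nt.Es
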