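import Pool.Agent.Lib.MP_651af7_nt.Es.Gc
import Pool.Agent.Lib.MP_651af7_nt.Rt.Sec

/-! Construction of the auxiliary section. -/

namespace Pool.Agent.Lib.MP_651af7_nt.Es

open Finset Matrix Height NumberField Pool.Agent.Lib.MP_e97e2b_nt Pool.Agent.Lib.MP_651af7_nt.Iv
  Pool.Agent.Lib.MP_651af7_nt.Vj Pool.Agent.Lib.MP_651af7_nt.Vj.P1 Pool.Agent.Lib.MP_651af7_nt.Rt
  Pool.Agent.Lib.Common.Subspace
open Pool.Agent.Lib.MP_8865d3_nt.Fa (Small Adm wt)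

open MvPolynomial in
/- Copy `exists_col` (`Rt/Split`) with `Φ` in place of `cf e α β A B`. -/
theorem exists_colX (a b : ℤ) (d k₀ : ℕ) {Λ : ℝ} (hΛ : 1 ≤ Λ) : ∃ C : ℝ, 1 ≤ C ∧
    ∀ (j e : ℕ) (Φ : MvPolynomial (Fin 3 ⊕ Fin 3) ℚ), IL Φ (Λ ^ e) → WD (wt 0) Φ (k₀ * e) →
      WD (wt 1) Φ 0 → WD (wt 2) Φ (k₀ * e) → ∀ τ : TA d j,
      ∃ (ρ : MM ((2 * d + 1) * 4 ^ j + 2 + k₀ * e) → MvPolynomial (Fin 3 ⊕ Fin 3) ℚ)
        (s : MM (4 ^ j + 1 + k₀ * e) → MvPolynomial (Fin 3 ⊕ Fin 3) ℚ),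
        (∀ μ, IL (ρ μ) (C ^ (4 ^ j + e)) ∧ WD (wt 0) (ρ μ) 0 ∧ WD (wt 1) (ρ μ) (2 * d + 2) ∧
          WD (wt 2) (ρ μ) (k₀ * e + 2)) ∧
        ∀ (F : Type) [Field F] [CharZero F] (x y : Fin 3 → F),
          (∀ p, y p ^ 2 = fc (a : F) b (x p)) →
          ∑ μ, aeval (Sum.elim (Function.update x 0 0) (Function.update y 0 0)) (ρ μ) *
              mon (x 0) (y 0) μ =
            arm (a : F) b d j (x 0) (y 0) (x 1) (y 1) false τ.1 * y 0 ^ (τ.2 : ℕ) *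
              aeval (Sum.elim x y) Φ ∧
          ∑ μ, aeval (Sum.elim (Function.update x 0 0) (Function.update y 0 0)) (s μ) *
              mon (x 0) (y 0) μ =
            x 0 ^ (τ.1.2 : ℕ) * y 0 ^ (τ.2 : ℕ) * aeval (Sum.elim x y) Φ := by
  obtain ⟨C0, hC0, harr⟩ := exists_arr a b d
  have hL : 1 ≤ 1 + |(a : ℝ)| + |(b : ℝ)| := by
    linarith [abs_nonneg (a : ℝ), abs_nonneg (b : ℝ)]
  refine ⟨(1 + |(a : ℝ)| + |(b : ℝ)|) ^ (4 * d + 3 + 2 * k₀) * (C0 * Λ),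
    one_le_mul_of_one_le_of_one_le (one_le_pow₀ hL) (one_le_mul_of_one_le_of_one_le hC0 hΛ),
    fun j e Φ ci c0 c1 c2 τ => ?_⟩
  obtain ⟨r, r1, r2, r3⟩ := harr j false τ.1
  have hτ : (τ.2 : ℕ) ≤ 1 := Nat.lt_succ_iff.1 τ.2.2
  have hτ' : (τ.1.2 : ℕ) < 4 ^ j := τ.1.2.2
  let Ψ : MvPolynomial (Fin 3 ⊕ Fin 3) ℚ := ∑ ν, ∑ μ, C (r ν μ : ℚ) *
    mon (X (.inl 1)) (X (.inr 1)) ν * mon (X (.inl 0)) (X (.inr 0)) μ
  have hΨi : IL Ψ (C0 ^ 4 ^ j) := by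
    refine (il_sum _ fun ν _ => il_sum _ fun μ _ => ?_).mono r2
    refine (((il_intCast _).mul (((il_X _).pow _).mul ((il_X _).pow _))).mul
      (((il_X _).pow _).mul ((il_X _).pow _))).mono (le_of_eq ?_)
    simp
  have hΨw : ∀ (p : Fin 3) (D : ℕ), (∀ ν μ, r ν μ ≠ 0 →
      (ν.1 : ℕ) * wt p (Sum.inl 1) + (ν.2 : ℕ) * wt p (Sum.inr 1) +
        ((μ.1 : ℕ) * wt p (Sum.inl 0) + (μ.2 : ℕ) * wt p (Sum.inr 0)) ≤ D) → WD (wt p) Ψ D := by
    intro p D hD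
    refine wd_sum _ fun ν _ => wd_sum _ fun μ _ => ?_
    by_cases h0 : r ν μ = 0
    · rw [h0, Int.cast_zero, map_zero, zero_mul, zero_mul]
      exact wd_zero _ _
    · refine (((wd_C _ _).mul (((wd_X _ _).pow _).mul ((wd_X _ _).pow _))).mul
        (((wd_X _ _).pow _).mul ((wd_X _ _).pow _))).mono ?_
      rw [zero_add]
      exact hD ν μ h0
  have w0 : WD (wt 0) Ψ ((2 * d + 1) * 4 ^ j) := hΨw 0 _ fun ν μ h => by
    have := (r1 ν μ h).2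
    simp [wt]
    omega
  have w1 : WD (wt 1) Ψ (2 * d) := hΨw 1 _ fun ν μ h => by
    have := (r1 ν μ h).1
    simp [wt]
    omega
  have w2 : WD (wt 2) Ψ 0 := hΨw 2 _ fun ν μ h => by simp [wt]
  have y0 : WD (wt 0) (X (Sum.inr 0) ^ (τ.2 : ℕ) : MvPolynomial (Fin 3 ⊕ Fin 3) ℚ) 2 :=
    ((wd_X _ _).pow _).mono (by simp [wt]; omega)
  have y1 : WD (wt 1) (X (Sum.inr 0) ^ (τ.2 : ℕ) : MvPolynomial (Fin 3 ⊕ Fin 3) ℚ) 0 :=
    ((wd_X _ _).pow _).mono (by simp [wt])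
  have y2 : WD (wt 2) (X (Sum.inr 0) ^ (τ.2 : ℕ) : MvPolynomial (Fin 3 ⊕ Fin 3) ℚ) 0 :=
    ((wd_X _ _).pow _).mono (by simp [wt])
  have x0 : WD (wt 0) (X (Sum.inl 0) ^ (τ.1.2 : ℕ) : MvPolynomial (Fin 3 ⊕ Fin 3) ℚ) τ.1.2 :=
    ((wd_X _ _).pow _).mono (by simp [wt])
  have x1 : WD (wt 1) (X (Sum.inl 0) ^ (τ.1.2 : ℕ) : MvPolynomial (Fin 3 ⊕ Fin 3) ℚ) 0 :=
    ((wd_X _ _).pow _).mono (by simp [wt])
  have x2 : WD (wt 2) (X (Sum.inl 0) ^ (τ.1.2 : ℕ) : MvPolynomial (Fin 3 ⊕ Fin 3) ℚ) 0 :=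
    ((wd_X _ _).pow _).mono (by simp [wt])
  obtain ⟨ρ, ρ1, ρ2⟩ := split_red a b ((hΨi.mul ((il_X (Sum.inr 0)).pow (τ.2 : ℕ))).mul ci)
    (W := (2 * d + 1) * 4 ^ j + 2 + k₀ * e) (D1 := 2 * d) (D2 := k₀ * e)
    ((w0.mul y0).mul c0) (((w1.mul y1).mul c1).mono (by omega))
    (((w2.mul y2).mul c2).mono (by omega))
  obtain ⟨s, -, s2⟩ := split_red a b
    ((((il_X (Sum.inl 0)).pow (τ.1.2 : ℕ)).mul ((il_X (Sum.inr 0)).pow (τ.2 : ℕ))).mul ci)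
    (W := 4 ^ j + 1 + k₀ * e) (D1 := 0) (D2 := k₀ * e)
    (((x0.mul y0).mul c0).mono (by omega)) (((x1.mul y1).mul c1).mono (by omega))
    (((x2.mul y2).mul c2).mono (by omega))
  refine ⟨ρ, s, fun μ => ⟨(ρ1 μ).1.mono ?_, (ρ1 μ).2⟩, fun F _ _ x y h => ⟨?_, ?_⟩⟩
  · rw [one_pow, mul_one, mul_pow _ (C0 * _), mul_pow C0, ← pow_mul]
    have h4 : 1 ≤ 4 ^ j := Nat.one_le_pow _ _ (by norm_num)
    refine mul_le_mul (pow_le_pow_right₀ hL ?_) (mul_le_mul (pow_le_pow_right₀ hC0 (by omega))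
      (pow_le_pow_right₀ hΛ (by omega)) (by positivity) (by positivity)) (by positivity)
      (by positivity)
    generalize 4 ^ j = N at h4 ⊢
    obtain ⟨M, rfl⟩ : ∃ M, N = M + 1 := ⟨N - 1, by omega⟩
    have : (4 * d + 3 + 2 * k₀) * (M + 1 + e) = (2 * d + 1) * (M + 1) + 2 + k₀ * e + 2 * d + k₀ * e
        + ((2 * d + 2) * M + 2 * k₀ * (M + 1) + (4 * d + 3) * e) := by ring
    omega
  · rw [ρ2 F x y h, map_mul, map_mul, r3 F _ _ _ _ (h 0) (h 1)]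
    simp [Ψ, mon]
  · rw [s2 F x y h, map_mul, map_mul]
    simp

theorem secX_card {κ : Type} [Fintype κ] [DecidableEq κ] (d : ℕ) {m : ℕ} (j e : Fin m → ℕ) :
    Fintype.card (CX (fun i => TA d (j i)) κ e) =
      ∏ i, (2 * (d + 1) * 4 ^ j i * Fintype.card (Mo κ (e i))) := by
  rw [Fintype.card_pi]
  refine prod_congr rfl fun i _ => ?_
  simp only [Fintype.card_prod, Fintype.card_fin]
  ring

theorem secX_card_le {κ : Type} [Fintype κ] [DecidableEq κ] (d : ℕ) {m : ℕ} (j e : Fin m → ℕ) :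
    ∏ i, (2 * (d + 1) * 4 ^ j i * Fintype.card (Mo κ (e i))) ≤
      (4 * (d + 1) * 2 ^ Fintype.card κ) ^ ∑ i, (4 ^ j i + e i) := by
  rw [← prod_pow_eq_pow_sum]
  refine prod_le_prod' fun i _ => ?_
  have h0 : 1 ≤ 2 ^ Fintype.card κ := Nat.one_le_two_pow
  have h1 : 1 ≤ 4 ^ j i := Nat.one_le_pow _ _ (by norm_num)
  have h2 : 2 * (d + 1) ≤ (2 * (d + 1)) ^ 4 ^ j i := Nat.le_self_pow (by omega) _
  have h3 : 4 ^ j i ≤ 2 ^ 4 ^ j i := Nat.lt_two_pow_self.le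
  have h4 : Fintype.card (Mo κ (e i)) ≤ (4 * (d + 1) * 2 ^ Fintype.card κ) ^ e i :=
    le_trans card_Mo_le (Nat.pow_le_pow_left (Nat.le_mul_of_pos_left _ (by omega)) _)
  have h5 : (2 * (d + 1)) ^ 4 ^ j i * 2 ^ 4 ^ j i ≤
      (4 * (d + 1) * 2 ^ Fintype.card κ) ^ 4 ^ j i := by
    rw [← mul_pow]
    refine Nat.pow_le_pow_left (le_trans (le_of_eq (by ring)) (Nat.le_mul_of_pos_right _ h0)) _
  calc _ ≤ (2 * (d + 1)) ^ 4 ^ j i * 2 ^ 4 ^ j i * (4 * (d + 1) * 2 ^ Fintype.card κ) ^ e i := by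
        gcongr
    _ ≤ _ := by
        rw [pow_add]
        exact Nat.mul_le_mul_right _ h5

open MvPolynomial in
theorem secX_field {K : Type} [Field K] [NumberField K] {J κ : Type} [Fintype J] [Fintype κ]
    [DecidableEq κ] [Nonempty κ] {a b : ℤ} (hD : 4 * a ^ 3 + 27 * b ^ 2 ≠ 0)
    (A : J → Matrix κ κ (PK K)) :
    ∃ k₀ : ℕ, ∀ d : ℕ, ∃ C : ℝ, 1 ≤ C ∧ ∀ (m : ℕ) (j e : Fin m → ℕ) (Lw : J → Finset (IX κ e)),
      2 * ((∑ p, (Lw p).card) * (∏ i, rk k₀ d (j i) (e i)) * (8 * ((2 * d + 2) * m + 1) * k₀)) ≤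
        ∏ i, (2 * (d + 1) * 4 ^ j i * Fintype.card (Mo κ (e i))) →
      ∀ (F : Type) [Field F] [CharZero F] [IsAlgClosed F] [Algebra K F]
        (x y : Option (Fin m) → F), (∀ p, y p ^ 2 = fc (a : F) b (x p)) →
        ∃ c : CX (fun i => TA d (j i)) κ e → ℤ, c ≠ 0 ∧
          (∀ τ, |(c τ : ℝ)| ≤ C ^ (∑ i, (4 ^ j i + e i))) ∧ ∀ p, ∀ β ∈ Lw p,
            GC c (fA a b d j (fun _ => false) x y)
              (fun i => (A p).map (MvPolynomial.aeval ![x (some i), y (some i)])) β = 0 := by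
  classical
  obtain ⟨θ, n, k₀, Λ, D, ψ, g', hn, hnκ, hΛ, hD0, hψ, hψs, hg, hev⟩ :=
    exists_theta K (fun t : J × κ × κ => A t.1 t.2.1 t.2.2)
  refine ⟨k₀, fun d => ?_⟩
  have hκ : (1 : ℝ) ≤ Fintype.card κ := by exact_mod_cast Fintype.card_pos
  obtain ⟨C₁, hC₁, hcol⟩ := exists_colX a b d k₀ (one_le_mul_of_one_le_of_one_le hκ hΛ)
  let G : J → Matrix κ κ (MvPolynomial (Fin 3 ⊕ Fin 3) ℚ) := fun p => .of fun l l' => g' (p, l, l')
  have hcol' := fun (p : J) (j e : ℕ) (β : Mo κ e) (τ : TA d j × Mo κ e) =>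
    hcol j e (cx τ.2 β (G p)) (il_cx _ _ (zero_le_one.trans hΛ) fun l l' => (hg _).1)
      (wd_cx _ _ fun l l' => (hg _).2.1)
      ((wd_cx (k := 0) _ _ fun l l' => (hg _).2.2.1).mono (by simp))
      (wd_cx _ _ fun l l' => (hg _).2.2.2) τ.1
  choose ρ s hρ hρs using hcol'
  have hΛ' : (1 : ℝ) ≤ 1 + |(a : ℝ)| + |(b : ℝ)| := by
    linarith [abs_nonneg (a : ℝ), abs_nonneg (b : ℝ)]
  have hC₂ : (1 : ℝ) ≤
      Λ ^ (k₀ + 2) * ((1 + |(a : ℝ)| + |(b : ℝ)|) ^ (2 * d + 2 + (k₀ + 2)) * C₁) :=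
    one_le_mul_of_one_le_of_one_le (one_le_pow₀ hΛ)
      (one_le_mul_of_one_le_of_one_le (one_le_pow₀ hΛ') hC₁)
  have hd : (1 : ℝ) ≤ ((4 * (d + 1) * 2 ^ Fintype.card κ : ℕ) : ℝ) := by
    exact_mod_cast Nat.succ_le_of_lt (by positivity)
  refine ⟨_, one_le_mul_of_one_le_of_one_le hd hC₂, fun m j e Lw hcard F _ _ _ _ x y hxy => ?_⟩
  obtain ⟨η, hη⟩ := IsAlgClosed.exists_pow_nat_eq (fc (a : F) b (algebraMap K F θ)) two_pos
  have hup : ∀ (u v X : F), Function.update ![X, u, v] 0 0 = ![0, u, v] := fun u v X => by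
    funext p
    fin_cases p <;> simp
  have hcv : ∀ X Y : F, Y ^ 2 = fc (a : F) b X → ∀ p : Fin 3,
      ![Y, y none, η] p ^ 2 = fc (a : F) b (![X, x none, algebraMap K F θ] p) := fun X Y h p => by
    fin_cases p
    · exact h
    · exact hxy none
    · exact hη
  have hF := fun p j e β τ (X Y : F) (h : Y ^ 2 = fc (a : F) b X) =>
    hρs p j e β τ F ![X, x none, algebraMap K F θ] ![Y, y none, η] (hcv X Y h)
  simp only [hup] at hF
  set z₀ : Fin 3 ⊕ Fin 3 → F := Sum.elim ![0, x none, algebraMap K F θ] ![0, y none, η] with hz₀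
  have hrk : ∀ (p : J) (j e : ℕ) (β : Mo κ e),
      ∃ g : Fin (rk k₀ d j e) → MM ((2 * d + 1) * 4 ^ j + 2 + k₀ * e),
      ∀ μ, ∃ c : Fin (rk k₀ d j e) → F, ∀ τ, aeval z₀ (ρ p j e β τ μ) =
        ∑ k, c k * aeval z₀ (ρ p j e β τ (g k)) := fun p j e β =>
    rank_arm hD (hxy none) d j (4 ^ j + 1 + k₀ * e) _ (fun τ : TA d j × Mo κ e => τ.1.1.1)
      (fun τ => Nat.lt_succ_iff.1 τ.1.1.1.2) (fun τ μ => aeval z₀ (s p j e β τ μ))
      (fun τ μ => aeval z₀ (ρ p j e β τ μ)) fun τ X Y h => by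
        obtain ⟨h1, h2⟩ := hF p j e β τ X Y h
        simp only [Matrix.cons_val_zero, Matrix.cons_val_one] at h1 h2
        rw [h1, h2, arm]
        ring
  choose g hgk using hrk
  obtain ⟨Mon, hMon, hMon'⟩ := sec_box ((2 * d + 2) * m) n
  have hq := fun (τ : CX (fun i => TA d (j i)) κ e)
      (r : (Σ p, Lw p) × ∀ i, Fin (rk k₀ d (j i) (e i))) =>
    sec_reduce a b hn hΛ hψ hψs
      (P := ∏ i, ρ r.1.1 (j i) (e i) (r.1.2.1 i) (τ i) (g r.1.1 (j i) (e i) (r.1.2.1 i) (r.2 i)))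
      (il_prod _ fun i _ => (hρ _ _ _ _ _ _).1) (D1 := (2 * d + 2) * m)
      (D2 := ∑ i, (k₀ * e i + 2))
      ((wd_prod _ fun i _ => (hρ _ _ _ _ _ _).2.1).mono (by simp))
      ((wd_prod _ fun i _ => (hρ _ _ _ _ _ _).2.2.1).mono (by simp [mul_comm]))
      (wd_prod _ fun i _ => (hρ _ _ _ _ _ _).2.2.2)
  choose q hq1 hq2 hq3 using hq
  obtain ⟨c, hc0, hc1, hc2⟩ := sieg q Mon (fun τ r ν hν => hMon' ν (hq2 τ r ν hν))
    (one_le_pow₀ hC₂ (n := ∑ i, (4 ^ j i + e i)))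
    (fun τ r => (hq1 τ r).mono (sec_size hΛ hΛ' hC₁ k₀ d j e))
    (by
      rw [secX_card, hMon, Fintype.card_prod, Fintype.card_sigma, Fintype.card_pi]
      refine le_trans ?_ hcard
      simp only [Fintype.card_fin, Fintype.card_coe]
      gcongr)
    (by
      rw [secX_card]
      exact prod_pos fun i _ => Nat.mul_pos (by positivity) card_Mo_pos)
  refine ⟨c, hc0, fun τ => (hc2 τ).trans ?_, fun p β hβ => ?_⟩
  · rw [mul_pow ((4 * (d + 1) * 2 ^ Fintype.card κ : ℕ) : ℝ)]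
    refine mul_le_mul_of_nonneg_right ?_ (pow_nonneg (zero_le_one.trans hC₂) _)
    rw [secX_card]
    exact_mod_cast secX_card_le d j e
  have hz := (hev F z₀ rfl).1
  have h1 : ∀ k : ∀ i, Fin (rk k₀ d (j i) (e i)), ∑ τ, (c τ : F) *
      ∏ i, aeval z₀ (ρ p (j i) (e i) (β i) (τ i) (g p (j i) (e i) (β i) (k i))) = 0 := by
    intro k
    have h2 := congrArg (aeval z₀) (hc1 (⟨p, β, hβ⟩, k))
    rw [map_sum, map_zero] at h2
    rw [← h2]
    refine sum_congr rfl fun τ _ => ?_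
    rw [map_zsmul, zsmul_eq_mul, hq3 τ _ F _ _ _ _ (hxy none) hη hz, map_prod]
  have h2 := tens_rows (fun i τ μ => aeval z₀ (ρ p (j i) (e i) (β i) τ μ))
    (fun i => g p (j i) (e i) (β i)) (fun i μ => hgk p (j i) (e i) (β i) μ)
    (fun τ => (c τ : F)) h1
  have h3 : GC c (fA a b d j (fun _ => false) x y)
      (fun i => (D : F) • (A p).map (MvPolynomial.aeval ![x (some i), y (some i)])) β = 0 := by
    have h4 : ∀ (τ : CX (fun i => TA d (j i)) κ e) (i : Fin m),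
        fA a b d j (fun _ => false) x y i (τ i).1 * cx (τ i).2 (β i)
          ((D : F) • (A p).map (MvPolynomial.aeval ![x (some i), y (some i)])) =
        ∑ μ, aeval z₀ (ρ p (j i) (e i) (β i) (τ i) μ) * mon (x (some i)) (y (some i)) μ := by
      intro τ i
      have h5 := (hF p (j i) (e i) (β i) (τ i) _ _ (hxy (some i))).1
      have h6 := (hev F (Sum.elim ![x (some i), x none, algebraMap K F θ]
        ![y (some i), y none, η]) rfl).2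
      have h7 := map_cx (aeval (Sum.elim ![x (some i), x none, algebraMap K F θ]
        ![y (some i), y none, η]) : MvPolynomial (Fin 3 ⊕ Fin 3) ℚ →ₐ[ℚ] F).toRingHom
        (τ i).2 (β i) (G p)
      have h8 : (G p).map (aeval (Sum.elim ![x (some i), x none, algebraMap K F θ]
          ![y (some i), y none, η]) : MvPolynomial (Fin 3 ⊕ Fin 3) ℚ →ₐ[ℚ] F).toRingHom =
          (D : F) • (A p).map (MvPolynomial.aeval ![x (some i), y (some i)]) :=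
        Matrix.ext fun l l' => h6 (p, l, l')
      rw [h8] at h7
      rw [← h7]
      exact h5.symm
    unfold GC
    simp only [h4, prod_univ_sum, Fintype.piFinset_univ, mul_sum, prod_mul_distrib]
    rw [sum_comm]
    refine sum_eq_zero fun μ _ => ?_
    simp only [← mul_assoc]
    rw [← sum_mul, h2 μ, zero_mul]
  rw [GC_smul c _ fun _ => (D : F)] at h3
  refine (mul_eq_zero.1 h3).resolve_left (prod_ne_zero_iff.2 fun i _ => pow_ne_zero _ ?_)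
  exact_mod_cast hD0

/- Copy `sec_field`, `exists_sec` (`Rt/Sec`): `exists_theta` for the family of all entries `A p l l'`,
`Φ = cx α β (matrix of the g' (p, l, l'))` with `il_cx`, `wd_cx`, `map_cx`; the rows are indexed by
`(Σ p, Lw p) × ∀ i, Fin (rk ..)`; `GC_smul` removes the denominator `D`; `card_Mo_le`, `card_Mo_pos`. -/
theorem exists_secX {K : Type} [Field K] [NumberField K] {J κ : Type} [Fintype J] [Fintype κ]
    [DecidableEq κ] [Nonempty κ] {a b : ℤ} (hD : 4 * a ^ 3 + 27 * b ^ 2 ≠ 0)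
    (A : J → Matrix κ κ (PK K)) :
    ∃ k₀ : ℕ, ∀ d : ℕ, ∃ C : ℝ, 1 ≤ C ∧ ∀ (m : ℕ) (j e : Fin m → ℕ) (Lw : J → Finset (IX κ e)),
      2 * ((∑ p, (Lw p).card) * (∏ i, rk k₀ d (j i) (e i)) * (8 * ((2 * d + 2) * m + 1) * k₀)) ≤
        ∏ i, (2 * (d + 1) * 4 ^ j i * Fintype.card (Mo κ (e i))) →
      ∀ (R : Type) [CommRing R] [IsDomain R] [Algebra K R] (x y : Option (Fin m) → R),
        (∀ p, y p ^ 2 = fc (a : R) b (x p)) →
        ∃ c : CX (fun i => TA d (j i)) κ e → ℤ, c ≠ 0 ∧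
          (∀ τ, |(c τ : ℝ)| ≤ C ^ (∑ i, (4 ^ j i + e i))) ∧ ∀ p, ∀ β ∈ Lw p,
            GC c (fA a b d j (fun _ => false) x y)
              (fun i => (A p).map (MvPolynomial.aeval ![x (some i), y (some i)])) β = 0 := by
  obtain ⟨k₀, hκ⟩ := secX_field hD A
  refine ⟨k₀, fun d => ?_⟩
  obtain ⟨C, hC, h⟩ := hκ d
  refine ⟨C, hC, fun m j e Lw hcard R _ _ _ x y hxy => ?_⟩
  let F := AlgebraicClosure (FractionRing R)
  have : CharZero F := charZero_of_injective_algebraMap (algebraMap K F).injective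
  let φ : R →ₐ[K] F := IsScalarTower.toAlgHom K R F
  have hφ : Function.Injective φ :=
    (algebraMap (FractionRing R) F).injective.comp (IsFractionRing.injective R (FractionRing R))
  obtain ⟨c, h0, h1, h2⟩ := h m j e Lw hcard F (fun p => φ (x p)) (fun p => φ (y p)) fun p => by
    have := congrArg (φ : R →+* F) (hxy p)
    rwa [map_pow, map_fc, map_intCast, map_intCast] at this
  refine ⟨c, h0, h1, fun p β hβ => hφ ?_⟩
  have h3 : ∀ (u v : R) (g : MvPolynomial (Fin 2) K),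
      (φ : R →+* F) (MvPolynomial.aeval ![u, v] g) = MvPolynomial.aeval ![φ u, φ v] g := by
    intro u v g
    have h4 : (fun i => φ (![u, v] i)) = ![φ u, φ v] := by
      funext i
      fin_cases i <;> rfl
    rw [← h4, ← MvPolynomial.comp_aeval_apply]
    rfl
  rw [map_zero, ← h2 p β hβ]
  refine (map_GC (φ : R →+* F) _ _ _ _).trans ?_
  simp only [map_fA]
  congr 1
  funext i
  exact Matrix.ext fun l l' => h3 _ _ _

end Pool.Agent.Lib.MP_651af7_nt.Es
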