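import Pool.Agent.Lib.MP_651af7_nt.Es.CoreL
import Pool.Agent.Lib.MP_651af7_nt.Es.Sec
import Pool.Agent.Lib.MP_651af7_nt.Es.Kill
import Pool.Agent.Lib.MP_651af7_nt.Es.Nv

/-! The height inequality given by the auxiliary section. -/

namespace Pool.Agent.Lib.MP_651af7_nt.Es

open Finset Matrix Height NumberField Pool.Agent.Lib.MP_e97e2b_nt Pool.Agent.Lib.MP_651af7_nt.Iv
  Pool.Agent.Lib.MP_651af7_nt.Vj Pool.Agent.Lib.MP_651af7_nt.Vj.P1 Pool.Agent.Lib.MP_651af7_nt.Rt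
  Pool.Agent.Lib.Common.Subspace
open Pool.Agent.Lib.MP_8865d3_nt.Fa (Small Adm wt)

variable {K : Type} [Field K] [NumberField K] {S : Finset (FinitePlace K)} {a b : ℤ}
  {κ : Type} [Fintype κ] [DecidableEq κ]

/- Port of `core_ineqR` (`Rt/Core`): `core_localX` gives `y`; `exists_secX` for `A p = (M p).adjugate`
gives `c`; `kill_ser` gives `c'`; `nv_star` for `c'`; in the first case `kill_ser` (`u i = (some i, true)`,
`W q = w q.1`) gives `ν, k`; `pfB`, `core_fin` (second coordinates `0`, `logHeight₁_zero`). -/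
theorem core_ineqX [Nonempty κ] (hD : 4 * a ^ 3 + 27 * b ^ 2 ≠ 0)
    (M : Pl S → Matrix κ κ (PK K)) {j₀ α β : κ} (hαβ : α ≠ β) :
    ∃ k₀ : ℕ, 1 ≤ k₀ ∧ ∀ (m d : ℕ) (θ : ℝ), 0 < m → 0 < θ →
    ∃ (Bd : ℕ) (ζ C : ℝ), 0 < ζ ∧ 1 ≤ C ∧ ∀ (ε s D Γ : ℝ) (L : Pl S → ℝ) (j e : Fin m → ℕ)
      (X : Option (Fin m) → Pt (a : K) (b : K) × K) (Y : Fin m → Matrix κ κ K)
      (w : Option (Fin m) → ℝ) (cc : Pl S → κ → ℝ),
      0 < ε → ε ≤ 1 → 0 ≤ s → 1 ≤ Γ → (∀ o, (X o).1 ≠ 0) → (∀ o, yc (X o).1 ≠ 0) →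
      (∀ i, 2 ^ j i • (X (some i)).1 ≠ 0) → (∀ i, 2 ^ j i • (X (some i)).1 + (X none).1 ≠ 0) →
      (∀ o, C ≤ ε * w o) → (∀ o, ht (X o).1 ≤ w o) →
      (∀ o o', o ≠ o' → w o ≤ ζ * w o' ∨ w o' ≤ ζ * w o) → (∀ o, w o * dg d j e o ≤ D) →
      C * (∑ i, (4 ^ j i + e i) : ℕ) ≤ ε * D →
      2 * ((∑ p, (Bad e (fun i => w (some i)) (cc p) (L p)).card) *
        (∏ i, rk k₀ d (j i) (e i)) * (8 * ((2 * d + 2) * m + 1) * k₀)) ≤
        ∏ i, (2 * (d + 1) * 4 ^ j i * Fintype.card (Mo κ (e i))) →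
      (∀ p l, |cc p l| ≤ Γ) →
      (∀ i, Blk (fun p => evM (X (some i)).1 (M p)) j₀ cc Γ s (w (some i)) (Y i)) →
      (∀ i, nv (Y i) j₀ α ≠ 0) → (∀ i, (X (some i)).2 = rt (Y i) j₀ α β) →
      (∀ i (p : Pl S), SmP (av p) (s * w (some i)) (X (some i)).1) →
      (d * ∑ i, ht (2 ^ j i • (X (some i)).1 + (X none).1) - ∑ p, mu p * L p ≤
          C * (∑ i, (4 ^ j i + e i) : ℕ) + ∑ o, nx d j o * ht (X o).1 +
            k₀ * (s * ∑ i, e i * w (some i)) + k₀ * (Γ * (θ * D))) ∨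
      ∃ o, SpecX Bd (Bd * ε * w o) (X o).1 (X o).2 := by
  classical
  obtain ⟨κ₀, H₀⟩ := exists_secX hD (fun p => (M p).adjugate)
  obtain ⟨N, H₁⟩ := core_localX a b M j₀ α
  set μ : ℕ := ∑ p : Pl S, mu p with hμ
  refine ⟨κ₀ + (6 + 2 * μ) + μ * N, by omega, fun m d θ hm hθ => ?_⟩
  obtain ⟨C₁, hC₁, H₀⟩ := H₀ d
  obtain ⟨Z, c₁, hZ, hc₁, H₁⟩ := H₁ m d
  obtain ⟨C₃, H₃⟩ := P1.height_y_le (K := K) a b
  obtain ⟨Bd, ζ, C₂, hζ, hC₂, H₄⟩ := nv_star (K := K) hD m d hθ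
  have l₁ := Real.log_nonneg hC₁
  have l₂ := Real.log_nonneg hC₂
  have l₃ := Real.log_nonneg hc₁
  have l₄ := Real.log_nonneg hZ
  have hn0 : (0 : ℝ) ≤ μ := by positivity
  set C : ℝ := C₂ + Real.log C₁ + Real.log C₂ + μ * (Real.log C₁ + Real.log Z) +
    μ * Real.log c₁ + |C₃| with hC
  have p₁ : 0 ≤ μ * (Real.log C₁ + Real.log Z) := by positivity
  have p₂ : 0 ≤ μ * Real.log c₁ := by positivity
  have p₅ := abs_nonneg C₃
  have hC1 : 1 ≤ C := by linarith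
  refine ⟨Bd, ζ, C, hζ, hC1, fun ε s D Γ L j e X Y w cc hε hε1 hs hΓ1 hP hy h2 h3 hw hht hr hdeg
    hlen hcnt hcc hblk hnv hrt hsm => ?_⟩
  have : IsDomain (MvPowerSeries (VV m) K) := NoZeroDivisors.to_isDomain _
  obtain ⟨y, e1, e2, H₅⟩ := H₁ j e (fun o => (X o).1) hP hy h2 h3 _ fun _ => rfl
  obtain ⟨c, hc0, hc1, hc2⟩ := H₀ m j e (fun p => Bad e (fun i => w (some i)) (cc p) (L p))
    (le_trans (by
      unfold rk
      gcongr <;> omega) hcnt) (MvPowerSeries (VV m) K) _ y e1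
  set T : ℕ := ∑ i, (4 ^ j i + e i) with hT
  have hΓ₀ : 1 ≤ C₁ ^ T := one_le_pow₀ hC₁
  have hT1 : (1 : ℝ) ≤ T := by
    have : 4 ^ j ⟨0, hm⟩ + e ⟨0, hm⟩ ≤ T := single_le_sum (f := fun i => 4 ^ j i + e i)
      (fun _ _ => Nat.zero_le _) (mem_univ _)
    exact_mod_cast ((Nat.one_le_pow _ _ (by norm_num)).trans (Nat.le_add_right _ _)).trans this
  have hw0 : ∀ o, 0 ≤ w o := fun o => ((mul_pos_iff_of_pos_left hε).1 (by linarith [hw o])).le
  have hCT : C ≤ C * T := le_mul_of_one_le_right (by linarith) hT1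
  obtain ⟨c', hc'0, hc'1, H₆⟩ := kill_ser (K := K) (τ := VV m) hc0 hαβ
  have hc'2 : ∀ τ, |(c' τ : ℝ)| ≤ C₁ ^ T := by
    intro τ
    rcases hc'1 τ with h | ⟨τ', h⟩
    · rw [h, Int.cast_zero, abs_zero]
      positivity
    · rw [h]
      exact hc1 τ'
  have hG : C₁ ^ T * C₂ ^ T ≤ Real.exp (ε * D) := by
    rw [← mul_pow, ← Real.exp_log (show 0 < C₁ * C₂ by positivity), ← Real.exp_nat_mul,
      Real.exp_le_exp, Real.log_mul (by positivity) (by positivity), mul_comm]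
    exact (mul_le_mul_of_nonneg_right (by linarith) (by linarith)).trans hlen
  rcases H₄ ε D (C₁ ^ T) j e X w c' _ y hε (fun o => by linarith [hw o]) hr hdeg (by linarith) hΓ₀
    hG hc'0 hc'2 (fun _ => rfl) e1 e2 with ⟨k₁, k1, k2⟩ | hsp
  · left
    simp only [hrt] at k2
    obtain ⟨ν, k, k2', k1'⟩ := H₆ _ Y j₀ (fun i => (some i, true)) k₁ (fun q => w q.1) hnv
      (fun q => hw0 _) k2
    obtain ⟨k', k3, g, hg, k4, k5⟩ := H₅ c _ hΓ₀ hc1 Y (fun i l => (hblk i).pen.int l) ν k k2'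
    have m0 : ∑ q, (k' q : ℝ) * w q.1 ≤ ∑ q, (k q : ℝ) * w q.1 :=
      sum_le_sum fun q _ => mul_le_mul_of_nonneg_right (Nat.cast_le.2 (k3 q)) (hw0 _)
    have m1 : 0 ≤ s * ∑ i, e i * w (some i) :=
      mul_nonneg hs (sum_nonneg fun i _ => mul_nonneg (Nat.cast_nonneg _) (hw0 _))
    have m2 : 0 ≤ ∑ q, (k' q : ℝ) * w q.1 :=
      sum_nonneg fun q _ => mul_nonneg (Nat.cast_nonneg _) (hw0 _)
    have m4 : 0 ≤ ∑ i, ((ν i).1 j₀ : ℝ) * w (some i) :=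
      sum_nonneg fun q _ => mul_nonneg (Nat.cast_nonneg _) (hw0 _)
    have k6 := pfB hg _ (fun _ => d) (coreB fun o => ((X o).1, 0))
      (coreN d j e fun o => k' (o, false)) _ (fun v _ => k4 v)
      (k5 w cc Γ s L (by linarith) hs hw0 hcc hblk hsm hc2)
    have k7 := core_fin d j e k' (fun o => ((X o).1, 0)) w (C := C₃) (u := μ * Real.log c₁) hht
      (fun o => H₃ _ _ (pt_spec (hP o)).choose.1) (fun o => by
        have := mul_le_of_le_one_left (hw0 o) hε1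
        linarith [hw o, le_abs_self C₃]) hw0
    have k8 : Real.log (C₁ ^ T * Z ^ T * c₁ ^ (∑ o, k' (o, false))) =
        T * (Real.log C₁ + Real.log Z) + (∑ o, k' (o, false) : ℕ) * Real.log c₁ := by
      rw [Real.log_mul (by positivity) (by positivity), Real.log_mul (by positivity)
        (by positivity), Real.log_pow, Real.log_pow, Real.log_pow]
      ring
    have k9 : μ * (Real.log C₁ + Real.log Z) * T ≤ C * T :=
      mul_le_mul_of_nonneg_right (by linarith) (by linarith)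
    simp only [mul_sub, mul_neg, sum_sub_distrib, sum_neg_distrib, ← sum_mul, ← mul_sum] at k6
    rw [← Nat.cast_sum, ← hμ, k8] at k6
    dsimp only at k1'
    simp only [logHeight₁_zero, mul_zero, sum_const_zero, add_zero] at k7
    unfold ht at *
    generalize ∑ q, (k' q : ℝ) * w q.1 = W₁ at *
    generalize ∑ i, (e i : ℝ) * w (some i) = W₂ at *
    generalize ∑ i, ((ν i).1 j₀ : ℝ) * w (some i) = W₃ at *
    have q1 : W₁ + W₃ ≤ θ * D := by linarith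
    have q2 : 0 ≤ θ * D := by linarith
    have q3 : θ * D ≤ Γ * (θ * D) := le_mul_of_one_le_left q2 hΓ1
    have q4 : μ * (Γ * (W₁ + W₃)) ≤ μ * (Γ * (θ * D)) :=
      mul_le_mul_of_nonneg_left (mul_le_mul_of_nonneg_left q1 (by linarith)) hn0
    have n1 := mul_nonneg (Nat.cast_nonneg (α := ℝ) (κ₀ + μ * N)) (q2.trans q3)
    have n2 := mul_nonneg (Nat.cast_nonneg (α := ℝ) (κ₀ + (6 + 2 * μ))) m1
    push_cast at n1 n2 k6 k7 ⊢
    linarith
  · exact Or.inr hsp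

end Pool.Agent.Lib.MP_651af7_nt.Es
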