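import Pool.Agent.Lib.MP_651af7_nt.Es.Gc
import Pool.Agent.Lib.MP_651af7_nt.Es.Cher
import Pool.Agent.Lib.MP_651af7_nt.Rt.Core

/-! The local inequalities for a minimal coefficient of the auxiliary section. -/

namespace Pool.Agent.Lib.MP_651af7_nt.Es

open Finset Matrix Height NumberField Pool.Agent.Lib.MP_e97e2b_nt Pool.Agent.Lib.MP_651af7_nt.Iv
  Pool.Agent.Lib.MP_651af7_nt.Vj Pool.Agent.Lib.MP_651af7_nt.Vj.P1 Pool.Agent.Lib.MP_651af7_nt.Rt
  Pool.Agent.Lib.Common.Subspace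
open Pool.Agent.Lib.MP_8865d3_nt.Fa (Small Adm wt)

variable {K : Type} [Field K] [NumberField K] {S : Finset (FinitePlace K)} {a b : ℤ}
  {κ : Type} [Fintype κ] [DecidableEq κ]

theorem lipX_fam {τ : Type} [Fintype τ] (v : AbsoluteValue K ℝ) (G : τ → PK K) :
    ∃ (C : ℝ) (n : ℕ), 1 ≤ C ∧ ∀ (R : Type) [CommRing R] (na : Prop) (Sn : SN R na) (ι : K →+* R),
      (∀ z, Sn.N (ι z) ≤ v z) → ∀ (z : Fin 2 → R) (z₀ : Fin 2 → K) (B r : ℝ), 1 ≤ B → 0 ≤ r →
        (∀ s, Sn.N (z s) ≤ B) → (∀ s, v (z₀ s) ≤ B) → (∀ s, Sn.N (z s - ι (z₀ s)) ≤ r * B) →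
        ∀ t, Sn.N (MvPolynomial.eval₂ ι z (G t)) ≤ C * B ^ n ∧
          Sn.N (MvPolynomial.eval₂ ι z (G t) - ι (MvPolynomial.eval z₀ (G t))) ≤
            r * (C * B ^ n) := by
  choose C n hC H using fun t => exists_lip v (G t)
  have h0 : ∀ t, 0 ≤ C t := fun t => zero_le_one.trans (hC t)
  refine ⟨1 + ∑ t, C t, ∑ t, n t, le_add_of_nonneg_right (sum_nonneg fun t _ => h0 t),
    fun R _ na Sn ι hι z z₀ B r hB hr k1 k2 k3 t => ?_⟩
  obtain ⟨a1, -, a3⟩ := H t R na Sn ι hι z z₀ B r hB hr k1 k2 k3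
  have h1 : C t ≤ 1 + ∑ t, C t :=
    (single_le_sum (fun t _ => h0 t) (mem_univ t)).trans (le_add_of_nonneg_left zero_le_one)
  have h2 : C t * B ^ n t ≤ (1 + ∑ t, C t) * B ^ ∑ t, n t :=
    mul_le_mul h1 (pow_le_pow_right₀ hB (single_le_sum (fun t _ => Nat.zero_le (n t)) (mem_univ t)))
      (by positivity) ((h0 t).trans h1)
  exact ⟨a1.trans h2, a3.trans (mul_le_mul_of_nonneg_left h2 hr)⟩

/- `exists_lip` (`Rt/Ser`) for the entries of `M` and of `M.adjugate` (`RingHom.map_adjugate`).  For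
`j ≠ j₀`: `(M (z) * Zm) l j = ι ((M (z₀) *ᵥ Y j) l) + ∑ l', (M (z) l l' - ι (M (z₀) l l')) * ι (Y j l')` and
`r * exp (Γ w) ≤ exp (-(Γ w)) ≤ exp (g l * w)`.  For `j = j₀` the entry is `M (z) l α` and
`1 ≤ exp (g l * w) * exp (Γ w)`. -/
theorem lipX (v : AbsoluteValue K ℝ) (M : Matrix κ κ (PK K)) :
    ∃ (C : ℝ) (n : ℕ), 1 ≤ C ∧ ∀ (R : Type) [CommRing R] (na : Prop) (Sn : SN R na) (ι : K →+* R),
      (∀ z, Sn.N (ι z) ≤ v z) → ∀ (z : Fin 2 → R) (z₀ : Fin 2 → K) (B r Γ w : ℝ) (g : κ → ℝ)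
        (Y : Matrix κ κ K) (j₀ α : κ), 1 ≤ B → 0 ≤ r → r ≤ Real.exp (-(2 * Γ * w)) → 0 ≤ w →
        (∀ s, Sn.N (z s) ≤ B) → (∀ s, v (z₀ s) ≤ B) → (∀ s, Sn.N (z s - ι (z₀ s)) ≤ r * B) →
        (∀ l, |g l| ≤ Γ) → (∀ i l, i ≠ j₀ → v (Y i l) ≤ Real.exp (Γ * w)) →
        (∀ i l, i ≠ j₀ → v ((M.map (MvPolynomial.eval z₀) *ᵥ Y i) l) ≤ Real.exp (g l * w)) →
        (∀ l j, Sn.N ((M.map (MvPolynomial.eval₂ ι z)).adjugate l j) ≤ C * B ^ n) ∧
        ∀ l j, Sn.N ((M.map (MvPolynomial.eval₂ ι z) * (Zm Y j₀ α).map ι) l j) ≤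
          C * B ^ n * Real.exp (g l * w) * if j = j₀ then Real.exp (Γ * w) else 1 := by
  obtain ⟨C, n, hC, H⟩ := lipX_fam (τ := (κ × κ) ⊕ (κ × κ)) v
    (Sum.elim (fun q => M q.1 q.2) fun q => M.adjugate q.1 q.2)
  have hk : (0 : ℝ) ≤ Fintype.card κ := Nat.cast_nonneg _
  have hC' : C ≤ (1 + Fintype.card κ) * C := by nlinarith
  refine ⟨(1 + Fintype.card κ) * C, n, hC.trans hC',
    fun R _ na Sn ι hι z z₀ B r Γ w g Y j₀ α hB hr hrΓ hw k1 k2 k3 hg hY hMY => ?_⟩
  have H' := H R na Sn ι hι z z₀ B r hB hr k1 k2 k3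
  have hBn : (1 : ℝ) ≤ B ^ n := one_le_pow₀ hB
  have hCB : C * B ^ n ≤ (1 + Fintype.card κ) * C * B ^ n :=
    mul_le_mul_of_nonneg_right hC' (zero_le_one.trans hBn)
  have hCB1 : 1 ≤ C * B ^ n := one_le_mul_of_one_le_of_one_le hC hBn
  refine ⟨fun l j => ?_, fun l j => ?_⟩
  · have e : (M.map (MvPolynomial.eval₂ ι z)).adjugate =
        M.adjugate.map (MvPolynomial.eval₂ ι z) :=
      (RingHom.map_adjugate (MvPolynomial.eval₂Hom ι z) M).symm
    rw [e]
    exact (H' (Sum.inr (l, j))).1.trans hCB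
  · have hgl := abs_le.mp (hg l)
    have hgw : -(Γ * w) ≤ g l * w := by nlinarith [hgl.1]
    split_ifs with hj
    · subst hj
      have e : (M.map (MvPolynomial.eval₂ ι z) * (Zm Y j α).map ι) l j =
          MvPolynomial.eval₂ ι z (M l α) := by
        rw [Matrix.mul_apply, Finset.sum_eq_single α]
        · simp [Zm]
        · intro l' _ hl'
          simp [Zm, hl']
        · simp
      rw [e, mul_assoc _ (Real.exp _), ← Real.exp_add]
      refine ((H' (Sum.inl (l, α))).1.trans hCB).trans (le_mul_of_one_le_right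
        (zero_le_one.trans (hCB1.trans hCB)) (Real.one_le_exp (by linarith)))
    · have e : (M.map (MvPolynomial.eval₂ ι z) * (Zm Y j₀ α).map ι) l j =
          ι ((M.map (MvPolynomial.eval z₀) *ᵥ Y j) l) + ∑ l',
            (MvPolynomial.eval₂ ι z (M l l') - ι (MvPolynomial.eval z₀ (M l l'))) * ι (Y j l') := by
        rw [Matrix.mul_apply, Matrix.mulVec, dotProduct, map_sum, ← Finset.sum_add_distrib]
        refine Finset.sum_congr rfl fun l' _ => ?_
        simp only [Zm, Matrix.map_apply, Matrix.transpose_apply, Matrix.updateRow_ne hj, map_mul]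
        ring
      have h1 : r * Real.exp (Γ * w) ≤ Real.exp (g l * w) := by
        refine (mul_le_mul_of_nonneg_right hrΓ (Real.exp_pos _).le).trans ?_
        rw [← Real.exp_add]
        exact Real.exp_le_exp.mpr (by linarith)
      have h2 : ∀ l' ∈ (univ : Finset κ), Sn.N ((MvPolynomial.eval₂ ι z (M l l') -
          ι (MvPolynomial.eval z₀ (M l l'))) * ι (Y j l')) ≤ C * B ^ n * Real.exp (g l * w) := by
        intro l' _
        refine (Sn.mul_le (H' (Sum.inl (l, l'))).2 ((hι _).trans (hY j l' hj))).trans ?_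
        rw [mul_comm r, mul_assoc]
        exact mul_le_mul_of_nonneg_left h1 (zero_le_one.trans hCB1)
      have h0 : 0 ≤ C * B ^ n * Real.exp (g l * w) :=
        mul_nonneg (zero_le_one.trans hCB1) (Real.exp_pos _).le
      have h3 := Sn.sum_le_card univ h0 h2
      have h4 : E na ((univ : Finset κ).card : ℝ) ≤ Fintype.card κ := by
        rw [Finset.card_univ]
        refine E_le_self ?_
        exact_mod_cast Fintype.card_pos_iff.mpr ⟨l⟩
      have h5 : Real.exp (g l * w) ≤ C * B ^ n * Real.exp (g l * w) :=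
        le_mul_of_one_le_left (Real.exp_pos _).le hCB1
      rw [e, mul_one]
      refine (Sn.add _ _).trans ((add_le_add (((hι _).trans (hMY j l hj)).trans h5)
        (h3.trans (mul_le_mul_of_nonneg_right h4 h0))).trans (le_of_eq ?_))
      ring

omit [Fintype κ] [NumberField K] in
lemma coreL_int {Y : Matrix κ κ K} (hY : ∀ l, IntV (Y l)) (j₀ α l j : κ) :
    IsIntegral ℤ (Zm Y j₀ α l j) := by
  unfold Zm
  rw [transpose_apply, updateRow_apply]
  split_ifs with h
  · rw [Pi.single_apply]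
    split_ifs
    · exact isIntegral_one
    · exact isIntegral_zero
  · exact hY j l

lemma coreL_U {m : ℕ} {e : Fin m → ℕ} (ν : IX κ e) (j₀ : κ) {Γ : ℝ} (hΓ : 0 ≤ Γ)
    (w : Fin m → ℝ) (hw : ∀ i, 0 ≤ w i) :
    ∏ i, ∏ j, (if j = j₀ then Real.exp (Γ * w i) else 1) ^ (ν i).1 j ≤
      Real.exp (2 * Γ * ∑ i, ((ν i).1 j₀ : ℝ) * w i) := by
  rw [mul_sum, Real.exp_sum]
  refine prod_le_prod (fun i _ => prod_nonneg fun j _ => pow_nonneg ?_ _) fun i _ => ?_
  · split_ifs
    · exact (Real.exp_pos _).le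
    · exact zero_le_one
  · rw [prod_eq_single j₀ (fun j _ h => by rw [if_neg h, one_pow]) (fun h => absurd (mem_univ _) h),
      if_pos rfl, ← Real.exp_nat_mul, Real.exp_le_exp]
    have : 0 ≤ ((ν i).1 j₀ : ℝ) * (Γ * w i) := mul_nonneg (Nat.cast_nonneg _) (mul_nonneg hΓ (hw i))
    linarith

omit [NumberField K] in
lemma coreL_adj {V : Type} (z : Fin 2 → MvPowerSeries V K) (A : Matrix κ κ (PK K)) :
    (A.map (MvPolynomial.eval₂ MvPowerSeries.C z)).adjugate =
      A.adjugate.map (MvPolynomial.aeval z) := by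
  have h : (MvPolynomial.aeval z : PK K → MvPowerSeries V K) =
      MvPolynomial.eval₂ MvPowerSeries.C z := funext fun g => by
    rw [MvPolynomial.aeval_def, ← MvPowerSeries.c_eq_algebraMap]
  have h2 := RingHom.map_adjugate (MvPolynomial.eval₂Hom MvPowerSeries.C z) A
  rw [RingHom.mapMatrix_apply, RingHom.mapMatrix_apply, MvPolynomial.coe_eval₂Hom] at h2
  rw [h, h2]

omit [NumberField K] in
lemma coreL_det {V : Type} (z : Fin 2 → MvPowerSeries V K) (z₀ : Fin 2 → K)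
    (h : ∀ s, MvPowerSeries.constantCoeff (z s) = z₀ s) (A : Matrix κ κ (PK K)) :
    MvPowerSeries.constantCoeff (A.map (MvPolynomial.eval₂ MvPowerSeries.C z)).det =
      (A.map (MvPolynomial.eval z₀)).det := by
  rw [RingHom.map_det]
  congr 1
  ext l j
  simp only [RingHom.mapMatrix_apply, map_apply]
  rw [MvPolynomial.eval₂_comp_left, ← MvPolynomial.eval₂_id]
  congr 1
  exact funext h

lemma coreL_alg {a u u' Λ L δ δ' α β V Q : ℝ} (ha : 0 ≤ a) (hΛ : 0 < Λ) (hQ : 0 ≤ Q)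
    (hu : Real.exp (-α) ≤ u) (hu' : Real.exp (-β) ≤ u') (hV : V ≤ Real.exp δ')
    (h : u * a * u' ≤ Λ * Real.exp δ * (Real.exp L * V) * Q) :
    a * Real.exp (-L - (Real.log Λ + (δ + δ') + α + β)) ≤ Q := by
  refine core_alg3 ha hΛ hu hu' (h.trans ?_)
  rw [neg_neg, Real.exp_add]
  calc _ ≤ Λ * Real.exp δ * (Real.exp L * Real.exp δ') * Q := by gcongr
    _ = _ := by ring

/- Port of `core_local` (`Rt/Core`), with second coordinates `0` in `coreB` (`core_prod`).
`exists_branchR`, `exists_min_coeff` for the series `GC c .. ν`, `core_xi`, `fA_law`, `GC_scale`.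
At a finite place: radii `1`, `locO` (the entries of `Zm` are integral: `fin_le_one`, `fin_na`).
At `p`: radii `exp (-(2 Γ w o))`, `lipX` with `B = (c₁ * exp (s * w)) ^ 2`, `locX`; the constant
coefficient of `∏ det ^ e` has size at least `exp (-(s * ∑ e w))` by `Tame`. -/
theorem core_localX (a b : ℤ) (M : Pl S → Matrix κ κ (PK K)) (j₀ α : κ) :
    ∃ N : ℕ, ∀ m d : ℕ, ∃ Z c₁ : ℝ, 1 ≤ Z ∧ 1 ≤ c₁ ∧ ∀ (j e : Fin m → ℕ)
      (P : Option (Fin m) → Pt (a : K) (b : K)), (∀ o, P o ≠ 0) → (∀ o, yc (P o) ≠ 0) →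
      (∀ i, 2 ^ j i • P (some i) ≠ 0) → (∀ i, 2 ^ j i • P (some i) + P none ≠ 0) →
      ∀ x : Option (Fin m) → MvPowerSeries (VV m) K,
      (∀ o, x o = MvPowerSeries.C (xc (P o)) + MvPowerSeries.X (o, false)) →
      ∃ y : Option (Fin m) → MvPowerSeries (VV m) K,
        (∀ o, y o ^ 2 = fc (a : MvPowerSeries (VV m) K) b (x o)) ∧ (∀ o, y o ≠ 0) ∧
        ∀ (c : CX (fun i => TA d (j i)) κ e → ℤ) (Λ : ℝ), 1 ≤ Λ → (∀ τ, |(c τ : ℝ)| ≤ Λ) →
        ∀ (Y : Fin m → Matrix κ κ K), (∀ i l, IntV (Y i l)) → ∀ (ν : IX κ e) (k : VV m →₀ ℕ),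
        MvPowerSeries.coeff k (GC c (fA a b d j (fun _ => false) x y)
          (fun i => (Zm (Y i) j₀ α).map MvPowerSeries.C) ν) ≠ 0 →
        ∃ k' ≤ k, ∃ g : K, g ≠ 0 ∧ (∀ v : FinitePlace K,
          v.1 g * ∏ i, max 1 (v.1 (xc (2 ^ j i • P (some i) + P none))) ^ d ≤
            ∏ q, max 1 (v.1 (coreB (fun o => (P o, 0)) q)) ^
              coreN d j e (fun o => k' (o, false)) q) ∧
          ∀ (w : Option (Fin m) → ℝ) (cc : Pl S → κ → ℝ) (Γ s : ℝ) (L : Pl S → ℝ), 0 ≤ Γ → 0 ≤ s →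
            (∀ o, 0 ≤ w o) → (∀ p l, |cc p l| ≤ Γ) →
            (∀ i, Blk (fun p => evM (P (some i)) (M p)) j₀ cc Γ s (w (some i)) (Y i)) →
            (∀ i (p : Pl S), SmP (av p) (s * w (some i)) (P (some i))) →
            (∀ p, ∀ β ∈ Bad e (fun i => w (some i)) (cc p) (L p),
              GC c (fA a b d j (fun _ => false) x y) (fun i => (M p).adjugate.map
                (MvPolynomial.aeval ![x (some i), y (some i)])) β = 0) → ∀ p,
            av p g * (∏ i, max 1 (av p (xc (2 ^ j i • P (some i) + P none))) ^ d) *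
              Real.exp (-L p -
                (Real.log (Λ * Z ^ (∑ i, (4 ^ j i + e i)) * c₁ ^ (∑ o, k' (o, false))) +
                N * (s * ∑ i, e i * w (some i)) + 2 * Γ * (∑ q, (k' q : ℝ) * w q.1 +
                  ∑ i, ((ν i).1 j₀ : ℝ) * w (some i)))) ≤
              ∏ q, max 1 (av p (coreB (fun o => (P o, 0)) q)) ^
                coreN d j e (fun o => k' (o, false)) q := by
  classical
  choose Cp np hCp Hp using fun p : Pl S => lipX (av p) (M p)
  refine ⟨4 * (∑ p, np p) + 1, fun m d => ?_⟩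
  set N := ∑ p, np p with hN
  set C₄ : ℝ := 1 + ∑ p, Cp p with hC₄
  have hC₄p : ∀ p, Cp p ≤ C₄ := fun p =>
    (single_le_sum (f := Cp) (fun q _ => zero_le_one.trans (hCp q)) (mem_univ p)).trans
      (le_add_of_nonneg_left zero_le_one)
  have hC₄1 : 1 ≤ C₄ :=
    le_add_of_nonneg_right (sum_nonneg fun q _ => zero_le_one.trans (hCp q))
  have hNp : ∀ p, np p ≤ N := fun p =>
    single_le_sum (f := np) (fun q _ => Nat.zero_le _) (mem_univ p)
  set C₅ : ℝ := 2 ^ Fintype.card κ * (Fintype.card κ + 1) * C₄ with hC₅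
  have hC₅1 : 1 ≤ C₅ := one_le_mul_of_one_le_of_one_le (one_le_mul_of_one_le_of_one_le
    (one_le_pow₀ one_le_two) (by linarith [Nat.cast_nonneg (α := ℝ) (Fintype.card κ)])) hC₄1
  obtain ⟨C₃, hC₃, H₃⟩ := exists_fA_le a b d
  obtain ⟨c₁, hc₂, H₁⟩ := exists_branchR (K := K) (O := Option (Fin m)) a b
  have hc₁ : 1 ≤ c₁ := by linarith
  have hZ₂ : 1 ≤ C₃ * c₁ ^ (4 * d + 3) := one_le_mul_of_one_le_of_one_le hC₃ (one_le_pow₀ hc₁)
  have hY : 1 ≤ 8 * C₅ ^ 2 * c₁ ^ (4 * N) := by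
    have := one_le_mul_of_one_le_of_one_le (one_le_pow₀ hC₅1 (n := 2))
      (one_le_pow₀ hc₁ (n := 4 * N))
    linarith
  have hZ1 : 1 ≤ 4 * (d + 1) * (C₃ * c₁ ^ (4 * d + 3)) * (8 * C₅ ^ 2 * c₁ ^ (4 * N)) :=
    one_le_mul_of_one_le_of_one_le (one_le_mul_of_one_le_of_one_le
      (by linarith [Nat.cast_nonneg (α := ℝ) d]) hZ₂) hY
  refine ⟨_, c₁, hZ1, hc₁, fun j e P hP hy h2 h3 x hx => ?_⟩
  choose hns hpt using fun p => pt_spec (hP p)
  obtain ⟨y, e1, e2, e3⟩ := H₁ (fun p => xc (P p)) (fun p => yc (P p)) (fun p => (hns p).1) hy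
  simp only [← hx] at e1 e3
  refine ⟨y, e1, fun p h => hy p (by rw [← e2, h, map_zero]), fun c Λ hΛ hc Y hY' ν k hk => ?_⟩
  set Zs : Fin m → Matrix κ κ (MvPowerSeries (VV m) K) :=
    fun i => (Zm (Y i) j₀ α).map MvPowerSeries.C with hZs
  obtain ⟨k', k1, k2, k3⟩ := exists_min_coeff _ k hk
  have hπ : ∀ p, MvPowerSeries.constantCoeff (x p) = xc (P p) := fun p => by simp [hx]
  choose ξ x1 x2 using core_xi j P hP h2 h3 e1 hπ e2
  have key : ∀ v : AbsoluteValue K ℝ, ∃ (l : Fin m → Bool) (sc : Fin m → MvPowerSeries (VV m) K),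
      (∀ i τ, fA a b d j l x y i τ = sc i * fA a b d j (fun _ => false) x y i τ) ∧
      v (MvPowerSeries.constantCoeff (∏ i, sc i)) =
        ∏ i, max 1 (v (xc (2 ^ j i • P (some i) + P none))) ^ d := by
    intro v
    refine ⟨fun i => decide (1 < v (xc (2 ^ j i • P (some i) + P none))), _,
      fA_law a b d j _ x y ξ x2, ?_⟩
    rw [map_prod, map_prod]
    refine prod_congr rfl fun i _ => ?_
    split_ifs with h
    · rw [map_pow, map_pow, x1, max_eq_right (of_decide_eq_true h).le]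
    · rw [max_eq_left (not_lt.1 fun h' => h (decide_eq_true h'))]
      simp
  have hF : ∀ (v : AbsoluteValue K ℝ) (Sn : SN (MvPowerSeries (VV m) K) (IsNonarchimedean v))
      (l : Fin m → Bool),
      (∀ p, Sn.N (x p) ≤ E (IsNonarchimedean v) c₁ * max 1 (v (xc (P p)))) →
      (∀ p, Sn.N (y p) ≤ (E (IsNonarchimedean v) c₁ * max 1 (v (xc (P p)))) ^ 2) →
      ∀ i τ, Sn.N (fA a b d j l x y i τ) ≤
        E (IsNonarchimedean v) ((C₃ * c₁ ^ (4 * d + 3)) ^ 4 ^ j i) *
          (max 1 (v (xc (P (some i)))) ^ ((2 * d + 1) * 4 ^ j i + 2) *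
            max 1 (v (xc (P none))) ^ (2 * d)) := fun v Sn l s1 s2 i τ =>
    (H₃ _ _ Sn m j l x y _ e1 (fun p => one_le_mul_of_one_le_of_one_le (one_le_E hc₁)
      (le_max_left _ _)) s1 s2 i τ).trans
      (core_F hC₃ hc₁ (by positivity) (by positivity) d (j i))
  have hF0 : ∀ (v : AbsoluteValue K ℝ) (i : Fin m),
      0 ≤ E (IsNonarchimedean v) ((C₃ * c₁ ^ (4 * d + 3)) ^ 4 ^ j i) *
          (max 1 (v (xc (P (some i)))) ^ ((2 * d + 1) * 4 ^ j i + 2) *
            max 1 (v (xc (P none))) ^ (2 * d)) := fun v i =>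
    mul_nonneg (E_nonneg (by positivity)) (by positivity)
  refine ⟨k', k1, _, k2, fun v => ?_, fun w cc Γ s L hΓ hs hw hcc hB hS h0 p => ?_⟩
  · obtain ⟨l, sc, l1, l2⟩ := key v.1
    obtain ⟨Sn, s1, s2, s3⟩ := e3 v.1 k' (fun _ => 1) (fun _ => one_pos) fun _ => le_rfl
    have b1 := locO Sn (fin_na v) c (hF0 v.1)
      (hF v.1 Sn l (fun p => (s3 p).1) fun p => (s3 p).2.1) (Z := Zs)
      (fun i l' j' => (s2 _).trans (fin_le_one v (coreL_int (hY' i) j₀ α l' j'))) ν
    have b2 := s1 (GC c (fA a b d j l x y) Zs ν)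
    rw [GC_scale c sc l1, k3, ← GC_scale c sc l1, map_mul, l2, mul_comm _ (v.1 _)] at b2
    simp only [one_pow, prod_const_one, mul_one, E_pos_case (fin_na v), one_mul] at b1 b2
    rw [← core_prod]
    refine b2.trans ((mul_le_mul_of_nonneg_right b1 (prod_nonneg fun o _ => by positivity)).trans
      (le_mul_of_one_le_right (by positivity) ?_))
    exact prod_induction _ (1 ≤ ·) (fun _ _ => one_le_mul_of_one_le_of_one_le) le_rfl
      fun i _ => one_le_pow₀ (le_max_left _ _)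
  · obtain ⟨l, sc, l1, l2⟩ := key (av p)
    have r0 : ∀ o, 0 < Real.exp (-(2 * Γ * w o)) := fun o => Real.exp_pos _
    have r1 : ∀ o, Real.exp (-(2 * Γ * w o)) ≤ 1 := fun o =>
      Real.exp_le_one_iff.2 (neg_nonpos.2 (mul_nonneg (by positivity) (hw o)))
    obtain ⟨Sn, s1, s2, s3⟩ := e3 (av p) k' _ r0 r1
    set Ms : Fin m → Matrix κ κ (MvPowerSeries (VV m) K) := fun i =>
      (M p).map (MvPolynomial.eval₂ MvPowerSeries.C ![x (some i), y (some i)]) with hMs
    have hlip : ∀ i, (∀ l' j', Sn.N ((Ms i).adjugate l' j') ≤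
          C₄ * ((c₁ * Real.exp (s * w (some i))) ^ 2) ^ N) ∧
        ∀ l' j', Sn.N ((Ms i * Zs i) l' j') ≤
          C₄ * ((c₁ * Real.exp (s * w (some i))) ^ 2) ^ N * Real.exp (cc p l' * w (some i)) *
            if j' = j₀ then Real.exp (Γ * w (some i)) else 1 := by
      intro i
      obtain ⟨u1, u2⟩ := hS i p
      have v1 : 1 ≤ Real.exp (s * w (some i)) := Real.one_le_exp (mul_nonneg hs (hw _))
      obtain ⟨t1, t2, t3, t4, t5⟩ := s3 (some i)
      have v2 : E (IsNonarchimedean (av p)) c₁ * max 1 (av p (xc (P (some i)))) ≤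
          c₁ * Real.exp (s * w (some i)) :=
        mul_le_mul (E_le_self hc₁) (max_le v1 u1) (by positivity) (by positivity)
      have v3 : (E (IsNonarchimedean (av p)) c₁ * max 1 (av p (xc (P (some i))))) ^ 2 ≤
          (c₁ * Real.exp (s * w (some i))) ^ 2 :=
        pow_le_pow_left₀ (mul_nonneg (E_nonneg (by positivity)) (by positivity)) v2 2
      have v4 : 2 * Real.exp (s * w (some i)) ≤ c₁ * Real.exp (s * w (some i)) :=
        mul_le_mul_of_nonneg_right hc₂ (by positivity)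
      have v5 : c₁ * Real.exp (s * w (some i)) ≤ (c₁ * Real.exp (s * w (some i))) ^ 2 :=
        le_self_pow₀ (by linarith) two_ne_zero
      have v6 := r0 (some i)
      generalize (c₁ * Real.exp (s * w (some i))) ^ 2 = B at *
      have hM : 1 ≤ B := by linarith
      have hb : Cp p * B ^ np p ≤ C₄ * B ^ N :=
        mul_le_mul (hC₄p p) (pow_le_pow_right₀ hM (hNp p)) (by positivity) (by positivity)
      obtain ⟨q1, q2⟩ := Hp p _ _ Sn MvPowerSeries.C s2 ![x (some i), y (some i)]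
        ![xc (P (some i)), yc (P (some i))] B _ Γ (w (some i)) (cc p) (Y i) j₀ α hM v6.le le_rfl
        (hw _) (Fin.forall_fin_two.2 ⟨t1.trans (v2.trans v5), t2.trans v3⟩)
        (Fin.forall_fin_two.2 ⟨by simpa using u1.trans (by linarith),
          by simpa using u2.trans (by linarith)⟩)
        (Fin.forall_fin_two.2 ⟨by
          simpa [hx] using t3.trans (le_mul_of_one_le_right v6.le hM),
          t5.trans (mul_le_mul_of_nonneg_left v3 v6.le)⟩)
        (hcc p) ((hB i).sz p) ((hB i).pen.bd p)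
      refine ⟨fun l' j' => (q1 l' j').trans hb, fun l' j' => (q2 l' j').trans ?_⟩
      refine mul_le_mul_of_nonneg_right (mul_le_mul_of_nonneg_right hb (Real.exp_pos _).le) ?_
      split_ifs
      · exact (Real.exp_pos _).le
      · exact zero_le_one
    have hU : ∀ (i : Fin m) (j' : κ),
        0 ≤ if j' = j₀ then Real.exp (Γ * w (some i)) else 1 := fun i j' => by
      split_ifs
      · exact (Real.exp_pos _).le
      · exact zero_le_one
    have hadj : ∀ i, (Ms i).adjugate =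
        (M p).adjugate.map (MvPolynomial.aeval ![x (some i), y (some i)]) := fun i =>
      coreL_adj _ (M p)
    have b1 := locX Sn hΛ hc (hF0 (av p))
      (hF (av p) Sn l (fun p => (s3 p).1) fun p => (s3 p).2.1) (M := Ms) (Z := Zs)
      (w := fun i => w (some i)) (g := cc p) (L := L p)
      (fun i => one_le_mul_of_one_le_of_one_le hC₄1 (one_le_pow₀ (one_le_pow₀
        (one_le_mul_of_one_le_of_one_le hc₁ (Real.one_le_exp (mul_nonneg hs (hw _)))))))
      hU (fun i => (hlip i).1) (fun i => (hlip i).2)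
      (fun β hβ => by
        rw [GC_scale c sc l1]
        simp only [hadj]
        rw [h0 p β hβ, mul_zero]) ν
    have hV : 0 ≤ ∏ i, ∏ j', (if j' = j₀ then Real.exp (Γ * w (some i)) else 1) ^ (ν i).1 j' :=
      prod_nonneg fun i _ => prod_nonneg fun j' _ => pow_nonneg (hU i j') _
    have b3 : ∏ i, ((Fintype.card (TA d (j i)) : ℝ) *
        (E (IsNonarchimedean (av p)) ((C₃ * c₁ ^ (4 * d + 3)) ^ 4 ^ j i) *
          (max 1 (av p (xc (P (some i)))) ^ ((2 * d + 1) * 4 ^ j i + 2) *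
            max 1 (av p (xc (P none))) ^ (2 * d))) *
        (4 ^ Fintype.card κ * (Fintype.card κ + 1) ^ 2 *
          (C₄ * ((c₁ * Real.exp (s * w (some i))) ^ 2) ^ N) ^ 2) ^ e i) ≤
        ∏ i, ((Fintype.card (TA d (j i)) : ℝ) *
        (E (IsNonarchimedean (av p)) ((C₃ * c₁ ^ (4 * d + 3)) ^ 4 ^ j i) *
          (max 1 (av p (xc (P (some i)))) ^ ((2 * d + 1) * 4 ^ j i + 2) *
            max 1 (av p (xc (P none))) ^ (2 * d))) *
        (8 * (C₅ * ((c₁ * Real.exp (s * w (some i))) ^ 2) ^ N) ^ 2) ^ e i) := by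
      refine prod_le_prod (fun i _ => mul_nonneg (mul_nonneg (Nat.cast_nonneg _) (hF0 _ i))
        (by positivity)) fun i _ => mul_le_mul_of_nonneg_left (pow_le_pow_left₀ (by positivity) ?_ _)
        (mul_nonneg (Nat.cast_nonneg _) (hF0 _ i))
      have f1 : (4 : ℝ) ^ Fintype.card κ * (Fintype.card κ + 1) ^ 2 *
          (C₄ * ((c₁ * Real.exp (s * w (some i))) ^ 2) ^ N) ^ 2 =
          (C₅ * ((c₁ * Real.exp (s * w (some i))) ^ 2) ^ N) ^ 2 := by
        rw [hC₅, show (4 : ℝ) = 2 ^ 2 by norm_num, ← pow_mul, mul_comm 2 (Fintype.card κ), pow_mul]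
        ring
      rw [f1]
      exact le_mul_of_one_le_left (by positivity) (by norm_num)
    have b4 := b1.trans (mul_le_mul_of_nonneg_right (mul_le_mul_of_nonneg_right
      (mul_le_mul_of_nonneg_left b3 (zero_le_one.trans hΛ)) (Real.exp_pos _).le) hV)
    rw [mul_assoc _ (Real.exp (L p))] at b4
    have b2 := s1 ((∏ i, (Ms i).det ^ e i) * GC c (fA a b d j l x y) Zs ν)
    rw [GC_scale c sc l1, ← mul_assoc, k3, mul_assoc, ← GC_scale c sc l1, map_mul, map_mul,
      map_mul, l2, mul_assoc (av p _), mul_comm (∏ i, _) (av p _)] at b2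
    rw [← core_prod]
    have hE := E_nonneg (na := IsNonarchimedean (av p)) (zero_le_one.trans hc₁)
    refine le_of_eq_of_le ?_ (coreL_alg (α := s * ∑ i, e i * w (some i))
      (β := 2 * Γ * ∑ q, (k' q : ℝ) * w q.1) (by positivity) (by positivity) (by positivity) ?_ ?_
      (coreL_U ν j₀ hΓ (fun i => w (some i)) fun i => hw _) (b2.trans
      ((mul_le_mul_of_nonneg_right b4 (prod_nonneg fun o _ => by positivity)).trans
      (core_alg2 (by positivity) hZ₂ hc₁ (mul_nonneg (Real.exp_pos _).le hV) N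
        (fun i => 4 ^ j i) e _ _ _ _
        (fun i => by positivity) (fun i => by positivity) (fun i => le_max_left _ _) _ _
        (fun o => by positivity) _
        fun i => core_Z hZ₂ hY d (j i) (e i) (by positivity) le_rfl))))
    · congr 2
      push_cast
      ring
    · rw [map_prod, map_prod, mul_sum, ← sum_neg_distrib, Real.exp_sum]
      refine prod_le_prod (fun i _ => (Real.exp_pos _).le) fun i _ => ?_
      have f1 : MvPowerSeries.constantCoeff (Ms i).det = (evM (P (some i)) (M p)).det :=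
        coreL_det _ ![xc (P (some i)), yc (P (some i))] (Fin.forall_fin_two.2 ⟨hπ _, e2 _⟩) (M p)
      rw [map_pow, map_pow, f1, show -(s * (e i * w (some i))) = e i * -(s * w (some i)) by ring,
        Real.exp_nat_mul]
      exact pow_le_pow_left₀ (Real.exp_pos _).le ((hB i).tame p).2 _
    · rw [Fintype.sum_prod_type, mul_sum, ← sum_neg_distrib, Real.exp_sum]
      refine prod_le_prod (fun i _ => (Real.exp_pos _).le) fun o _ => ?_
      rw [← Real.exp_nat_mul, Real.exp_le_exp, Fintype.sum_bool]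
      push_cast
      exact le_of_eq (by ring)

end Pool.Agent.Lib.MP_651af7_nt.Es
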