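import Pool.Agent.Lib.MP_651af7_nt.Rt.Defs
import Pool.Agent.Lib.Common.Subspace.Compound

/-! Vocabulary for the subspace theorem over an elliptic curve. -/

namespace Pool.Agent.Lib.MP_651af7_nt.Es

open Finset Matrix Height NumberField Pool.Agent.Lib.MP_e97e2b_nt Pool.Agent.Lib.MP_651af7_nt.Iv
  Pool.Agent.Lib.MP_651af7_nt.Vj Pool.Agent.Lib.MP_651af7_nt.Rt Pool.Agent.Lib.Common.Subspace

variable {K : Type} [Field K] [NumberField K] {S : Finset (FinitePlace K)}

/-- All coordinates are algebraic integers. -/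
def IntV {ι : Type} (x : ι → K) : Prop := ∀ i, IsIntegral ℤ (x i)

/-- The entries are at most `exp c` and the determinant is at least `exp (-c)` at `v`. -/
def Tame {ι : Type} [Fintype ι] [DecidableEq ι] (v : AbsoluteValue K ℝ) (c : ℝ)
    (M : Matrix ι ι K) : Prop :=
  (∀ i j, v (M i j) ≤ Real.exp c) ∧ Real.exp (-c) ≤ v M.det

/-- An invertible integral matrix whose rows other than `j₀` lie in the box given by the forms `M`
and the logarithmic sides `b`. -/
structure Pen {κ : Type} [Fintype κ] [DecidableEq κ] (M : Pl S → Matrix κ κ K) (j₀ : κ)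
    (b : Pl S → κ → ℝ) (Y : Matrix κ κ K) : Prop where
  int : ∀ i, IntV (Y i)
  det : Y.det ≠ 0
  bd : ∀ p i j, i ≠ j₀ → av p ((M p *ᵥ Y i) j) ≤ Real.exp (b p j)

/-- The normal vector of the rows other than `j₀`. -/
def nv {κ : Type} [Fintype κ] [DecidableEq κ] (Y : Matrix κ κ K) (j₀ : κ) : κ → K :=
  fun l => Y.adjugate l j₀

/-- The logarithmic volume of a box. -/
noncomputable def vol {κ : Type} [Fintype κ] (b : Pl S → κ → ℝ) : ℝ := ∑ p, mu p * ∑ j, b p j

/-- Polynomials in the coordinates of the curve. -/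
abbrev PK (K : Type) [Field K] : Type := MvPolynomial (Fin 2) K

/-- The value of a matrix of polynomials at a point of the curve. -/
noncomputable def evM {a b : ℤ} {ι κ : Type} (P : Pt (a : K) (b : K)) (M : Matrix ι κ (PK K)) :
    Matrix ι κ K := M.map (ev P)

/-- The value of a vector of polynomials at a point of the curve. -/
noncomputable def evV {a b : ℤ} {ι : Type} (P : Pt (a : K) (b : K)) (w : ι → PK K) : ι → K :=
  fun l => ev P (w l)

end Pool.Agent.Lib.MP_651af7_nt.Es
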