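import Pool.Agent.Lib.MP_651af7_nt.Es.Hom

namespace Pool.Agent.Results.MP_651af7_nt.EllipticSubspace

open Height MvPolynomial NumberField

/-- The local height at `v` of a divisor of bidegree `(e, 1)` on the product of the projective
plane and a projective space at the point `(P, X)`, where the form has the value `l`. -/
noncomputable def lam {k : Type} [Field k] {n : ℕ} (v : AbsoluteValue k ℝ) (e : ℕ) (P : Fin 3 → k)
    (X : Fin (n + 1) → k) (l : k) : ℝ :=
  Real.log ((⨆ i, v (P i)) ^ e * (⨆ i, v (X i)) / v l)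

/-- Vojta's inequality for rational points on the product of an elliptic curve and a projective
space, for families of hyperplanes in general position. -/
theorem result (W : WeierstrassCurve ℚ) [W.IsElliptic] (k : Type) [Field k] [NumberField k]
    (n q : ℕ) (L : Fin q → Fin (n + 1) → MvPolynomial (Fin 2) k) (e : Fin q → ℕ)
    (ε : ℝ) (hε : 0 < ε) :
    ∃ (d : ℕ) (F : MvPolynomial (Fin (n + 1)) (Polynomial k)), F ≠ 0 ∧ F.IsHomogeneous d ∧
      ∀ S : Finset (FinitePlace k), ∃ C : ℝ,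
      ∀ (x y : k) (X : Fin (n + 1) → k) (J : AbsoluteValue k ℝ → Finset (Fin q)),
        (W.map (algebraMap ℚ k)).toAffine.Equation x y →
        eval₂ (Polynomial.evalRingHom x) X F ≠ 0 →
        (∀ v, ∀ I ⊆ J v, I.card ≤ n + 1 →
          LinearIndependent k fun j : I => fun i => eval ![x, y] (L j i)) →
        (∀ v, ∀ j ∈ J v, ∑ i, eval ![x, y] (L j i) * X i ≠ 0) →
        ∑ w : InfinitePlace k, w.mult * ∑ j ∈ J w.1,
            lam w.1 (e j) ![x, y, 1] X (∑ i, eval ![x, y] (L j i) * X i) +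
          ∑ w ∈ S, ∑ j ∈ J w.1, lam w.1 (e j) ![x, y, 1] X (∑ i, eval ![x, y] (L j i) * X i) ≤
          (n + 1) * logHeight X + ε * (logHeight₁ x + logHeight X) + C := by
  obtain ⟨d, F, h0, hd, hF⟩ := Pool.Agent.Lib.MP_651af7_nt.Es.vojtaH (K := k) W L e hε
  refine ⟨d, F, h0, hd, fun S => ?_⟩
  obtain ⟨C, hC⟩ := hF S
  refine ⟨C, fun x y X J h1 h2 h3 h4 => ?_⟩
  have h := hC x y X (fun p => J (Pool.Agent.Lib.MP_651af7_nt.Rt.av p)) h1 h2 (fun p => h3 _)
    (fun p => h4 _)
  rw [Fintype.sum_sum_type] at h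
  rw [← Finset.sum_coe_sort S]
  simp only [Pool.Agent.Lib.MP_651af7_nt.Rt.mu, Pool.Agent.Lib.MP_651af7_nt.Rt.av, Sum.elim_inl,
    Sum.elim_inr, Nat.cast_one, one_mul, Nat.cast_add] at h
  exact h

end Pool.Agent.Results.MP_651af7_nt.EllipticSubspace
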