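import Pool.Agent.Lib.MP_651af7_nt.Es.BDefs
import Pool.Agent.Lib.MP_8865d3_nt.FaFin

/-! Lower bounds for forms at points whose coordinates lie on small curves. -/

namespace Pool.Agent.Lib.MP_651af7_nt.Es

open Finset Matrix Height NumberField Pool.Agent.Lib.MP_e97e2b_nt Pool.Agent.Lib.MP_651af7_nt.Iv
  Pool.Agent.Lib.MP_651af7_nt.Vj Pool.Agent.Lib.MP_651af7_nt.Vj.P1 Pool.Agent.Lib.MP_651af7_nt.Rt
  Pool.Agent.Lib.Common.Subspace
open Pool.Agent.Lib.MP_8865d3_nt.Fa (Small Adm wt)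

open MvPolynomial

variable {K : Type} [Field K] [NumberField K] {a b : ℤ} {κ : Type} [Fintype κ] [DecidableEq κ]

/- `Fa.fa_abs` with `κ = Unit`; this is `exit_abs` (private) of `Rt/Exit`. -/
theorem abs_ev (hD : 4 * a ^ 3 + 27 * b ^ 2 ≠ 0) {v : AbsoluteValue K ℝ} (hv : Adm v) (g : PK K)
    {ε : ℝ} (hε : 0 < ε) : ∃ C : ℝ, 0 ≤ C ∧ ∀ P : Pt (a : K) (b : K), P ≠ 0 →
      v (ev P g) ≤ Real.exp (ε * ht P + C) ∧
        (ev P g ≠ 0 → Real.exp (-(ε * ht P + C)) ≤ v (ev P g)) := by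
  obtain ⟨C, hC⟩ := MP_8865d3_nt.Fa.fa_abs (K := K) (κ := Unit) (fun _ => a) (fun _ => b)
    (fun _ => hD) hv
    (rename ![Sum.inl (), Sum.inr ()] g) hε
  refine ⟨max C 0, le_max_right _ _, fun P hP => ?_⟩
  have e : eval (Sum.elim (fun _ : Unit => xc P) fun _ : Unit => yc P)
      (rename ![Sum.inl (), Sum.inr ()] g) = ev P g := by
    rw [eval_rename, ev]
    refine congrArg (fun z => eval z g) (funext fun j => ?_)
    fin_cases j <;> rfl
  have key : ev P g ≠ 0 → |Real.log (v (ev P g))| ≤ ε * ht P + max C 0 := fun h0 => by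
    have h1 := hC (fun _ => P) (fun _ => hP) (e ▸ h0)
    have h2 : MP_8865d3_nt.Fa.HS (K := K) (a := fun _ : Unit => a) (b := fun _ => b)
        (fun _ => P) = ht P := by
      simp [MP_8865d3_nt.Fa.HS]
    rw [e, h2] at h1
    linarith [le_max_left C 0]
  refine ⟨?_, fun h0 => ?_⟩
  · by_cases h0 : ev P g = 0
    · rw [h0, map_zero]
      exact (Real.exp_pos _).le
    · exact (Real.log_le_iff_le_exp (v.pos h0)).1 (abs_le.1 (key h0)).2
  · exact (Real.le_log_iff_exp_le (v.pos h0)).1 (abs_le.1 (key h0)).1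

/- `abs_ev` for the coordinates, the entries and the determinant (`RingHom.map_det`). -/
theorem smlX (hD : 4 * a ^ 3 + 27 * b ^ 2 ≠ 0) {v : AbsoluteValue K ℝ} (hv : Adm v)
    (M : Matrix κ κ (PK K)) {s : ℝ} (hs : 0 < s) :
    ∃ H₀ : ℝ, ∀ (P : Pt (a : K) (b : K)) (H : ℝ), H₀ ≤ H → P ≠ 0 → ht P ≤ H →
      (evM P M).det ≠ 0 → SmP v (s * H) P ∧ Tame v (s * H) (evM P M) := by
  have hε : 0 < s / 2 := by positivity
  choose C p h using fun g : PK K => abs_ev hD hv g hε
  refine ⟨(C (X 0) + C (X 1) + C M.det + ∑ q : κ × κ, C (M q.1 q.2)) / (s / 2),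
    fun P H hH hP hh hM => ?_⟩
  rw [div_le_iff₀' hε] at hH
  have h5 : s / 2 * ht P ≤ s / 2 * H := mul_le_mul_of_nonneg_left hh hε.le
  have e1 : ev P (X 0) = xc P := by simp [ev]
  have e2 : ev P (X 1) = yc P := by simp [ev]
  have e3 : ev P M.det = (evM P M).det :=
    RingHom.map_det (MvPolynomial.eval ![xc P, yc P]) M
  have k0 : 0 ≤ ∑ q : κ × κ, C (M q.1 q.2) := Finset.sum_nonneg fun q _ => p _
  have k1 := (h (X 0) P hP).1
  have k2 := (h (X 1) P hP).1
  have k3 := (h M.det P hP).2 (e3 ▸ hM)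
  rw [e1] at k1
  rw [e2] at k2
  rw [e3] at k3
  have p0 := p (X 0)
  have p1 := p (X 1)
  have p2 := p M.det
  refine ⟨⟨k1.trans (Real.exp_le_exp.2 (by linarith)), k2.trans (Real.exp_le_exp.2 (by linarith))⟩,
    fun i j => (h (M i j) P hP).1.trans (Real.exp_le_exp.2 ?_),
    le_trans (Real.exp_le_exp.2 (by linarith)) k3⟩
  have k4 : C (M i j) ≤ ∑ q : κ × κ, C (M q.1 q.2) :=
    Finset.single_le_sum (f := fun q : κ × κ => C (M q.1 q.2)) (fun q _ => p _)
      (Finset.mem_univ (i, j))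
  linarith

/- As `exit_elim` (private) of `Rt/Exit`, with `Option κ` in place of `Fin 2`. -/
theorem elim_fix (a b : ℤ) (v : AbsoluteValue K ℝ) (g : MvPolynomial (Option κ ⊕ Unit) K) :
    ∃ (B : ℕ) (c : ℝ), 0 ≤ c ∧ ∀ (z : Option κ → K) (y : K),
      y ^ 2 = z none ^ 3 + (a : K) * z none + b → eval (Sum.elim z fun _ => y) g ≠ 0 →
      ∃ N : MvPolynomial (Option κ) ℚ, Small B c N ∧ aeval z N ≠ 0 ∧
        v (aeval z N) ≤ v (eval (Sum.elim z fun _ => y) g) * Real.exp c *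
          ((∏ o, max (v (z o)) 1) * max (v y) 1) ^ B := by
  open Pool.Agent.Lib.MP_8865d3_nt.Fa Pool.Agent.Lib.Common.ZeroLemma in
  classical
  choose p hp0 hp using fun μ : g.support =>
    (IsFractionRing.isAlgebraic_iff ℤ ℚ K).2 (Algebra.IsAlgebraic.isAlgebraic (coeff μ.1 g))
  let e : Option κ → (Option κ ⊕ Unit) ⊕ g.support := fun k => Sum.inl (Sum.inl k)
  have he : Function.Injective e := fun k k' h => Sum.inl_injective (Sum.inl_injective h)
  let φ : (Option κ ⊕ Unit) ⊕ g.support → MvPolynomial ((Option κ ⊕ Unit) ⊕ g.support) ℚ :=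
    Sum.elim (Sum.elim (fun _ => 0) fun k => MvPolynomial.X (Sum.inl (Sum.inr k)) ^ 2 -
      (MvPolynomial.X (e none) ^ 3 + C (a : ℚ) * MvPolynomial.X (e none) + C (b : ℚ)))
      fun μ => Polynomial.aeval (MvPolynomial.X (Sum.inr μ)) ((p μ).map (Int.castRingHom ℚ))
  let l := (Finset.univ.filter fun s => s ∉ Set.range e).toList
  have hl : ∀ s, s ∈ l ↔ s ∉ Set.range e := fun s => by
    simp only [l, Finset.mem_toList, Finset.mem_filter, Finset.mem_univ, true_and]
  have hpair : l.Pairwise fun s t => ∀ μ ∈ (φ t).support, μ s = 0 := by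
    refine (Finset.nodup_toList _).pairwise_of_forall_ne fun s hs t _ hst μ hμ => ?_
    refine Nat.le_zero.1 ((wd_single_iff s).1 ?_ μ hμ)
    rcases t with (k | k) | ν
    · exact wd_zero _ _
    · have h1 := faT4_wd_X hst
      have h2 := faT4_wd_X (s := s) (t := e none) fun h => (hl s).1 hs ⟨none, h.symm⟩
      exact (h1.pow 2).sub (((h2.pow 3).add ((wd_C _ _).mul h2)).add (wd_C _ _))
    · exact (faT4_uni _ (p ν)).2 s hst
  have hint : ∀ t ∈ l, IsInt (φ t) := by
    rintro ((k | k) | ν) _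
    · exact isInt_zero
    · exact (((il_X _).pow 2).sub ((((il_X _).pow 3).add ((il_intCast _).mul (il_X _))).add
        (il_intCast _))).1
    · exact (faT4_uni _ (p ν)).1
  let G : MvPolynomial ((Option κ ⊕ Unit) ⊕ g.support) ℚ :=
    ∑ μ : g.support, MvPolynomial.X (Sum.inr μ) * rename Sum.inl (monomial μ.1 1)
  have hG : IsInt G :=
    (il_sum _ fun μ _ => (il_X _).mul ((il_monomial_one μ.1).rename Sum.inl)).1
  obtain ⟨B, c, hB⟩ := elim_list_small (K := K) φ l hpair hint G.totalDegree (len G)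
  have hM : 1 ≤ ∏ μ : g.support, max (v (coeff μ.1 g)) 1 ^ B :=
    Finset.one_le_prod fun _ _ => one_le_pow₀ (le_max_right _ _)
  obtain ⟨c₁, hc₁, e₁⟩ : ∃ c₁ : ℝ, 0 ≤ c₁ ∧
      Real.exp c₁ = ∏ μ : g.support, max (v (coeff μ.1 g)) 1 ^ B :=
    ⟨_, Real.log_nonneg hM, Real.exp_log (by linarith)⟩
  refine ⟨B, max c 0 + c₁, add_nonneg (le_max_right _ _) hc₁, fun w y hE hne => ?_⟩
  let z : (Option κ ⊕ Unit) ⊕ g.support → K :=
    Sum.elim (Sum.elim w fun _ => y) fun μ => coeff μ.1 g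
  have hz : aeval z G = eval (Sum.elim w fun _ => y) g := by
    rw [eval_eq, ← Finset.sum_coe_sort g.support, map_sum]
    refine Finset.sum_congr rfl fun μ _ => ?_
    rw [map_mul, aeval_X, aeval_rename, aeval_monomial, map_one, one_mul]
    rfl
  rw [← hz] at hne ⊢
  obtain ⟨N, hN, hN0, hNl, hNv⟩ := hB v z (by
    rintro ((k | k) | ν) ht
    · exact absurd ⟨k, rfl⟩ ((hl _).1 ht)
    · refine ⟨?_, fun h => ?_⟩
      · simp only [φ, z, e, Sum.elim_inl, Sum.elim_inr, map_sub, map_add, map_mul, map_pow, aeval_X,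
          map_intCast]
        exact sub_eq_zero.2 hE
      · have h2 := faT4_wd_X (s := Sum.inl (Sum.inr k)) (t := e none) (by simp [e])
        have h3 := el_toP_free (Sum.inl (Sum.inr k)) fun μ hμ => Nat.le_zero.1 ((wd_single_iff _).1
          (((h2.pow 3).add ((wd_C _ (a : ℚ)).mul h2)).add (wd_C _ (b : ℚ))) μ hμ)
        simp only [φ, Sum.elim_inl, Sum.elim_inr] at h
        rw [map_sub, h3, map_pow, elToP, aeval_X, if_pos rfl, Polynomial.map_sub, Polynomial.map_pow,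
          Polynomial.map_X, Polynomial.map_C] at h
        exact Polynomial.X_pow_sub_C_ne_zero two_pos _ h
    · refine ⟨?_, ?_⟩
      · simp only [φ, Sum.elim_inr]
        rw [← Polynomial.aeval_algHom_apply, aeval_X, ← algebraMap_int_eq,
          Polynomial.aeval_map_algebraMap]
        exact hp ν
      · exact faT4_el _ z (hp0 ν)) G
    ⟨fun h => hne (by rw [h, map_zero]), ⟨hG, by linarith [Real.add_one_le_exp (len G)]⟩,
      fun μ hμ s => (monomial_le_degreeOf s hμ).trans (degreeOf_le_totalDegree _ _)⟩ hne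
  obtain ⟨N', hN', rfl⟩ := exists_rename_small he hN fun μ hμ s hs => hNl s ((hl s).2 hs) μ hμ
  rw [aeval_rename] at hN0 hNv
  have hze : z ∘ e = w := rfl
  rw [hze] at hN0 hNv
  refine ⟨N', hN'.mono le_rfl (by linarith [le_max_left c 0]), hN0, hNv.trans ?_⟩
  have h1 : ∏ s, max (v (z s)) 1 ^ B =
      ((∏ o, max (v (w o)) 1) * max (v y) 1) ^ B * Real.exp c₁ := by
    rw [e₁]
    simp only [Fintype.prod_sum_type, z, Sum.elim_inl, Sum.elim_inr, Finset.univ_unique,
      Finset.prod_singleton, mul_pow, Finset.prod_pow]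
  rw [h1, Real.exp_add]
  have h2 : Real.exp c ≤ Real.exp (max c 0) := Real.exp_le_exp.2 (le_max_left _ _)
  calc v (aeval z G) * Real.exp c *
        (((∏ o, max (v (w o)) 1) * max (v y) 1) ^ B * Real.exp c₁)
      ≤ v (aeval z G) * Real.exp (max c 0) *
        (((∏ o, max (v (w o)) 1) * max (v y) 1) ^ B * Real.exp c₁) := by gcongr
    _ = _ := by ring

omit [Fintype κ] in
private theorem exit_mov_map (z : Option κ → K) (l : κ) (g : MvPolynomial (Fin 2) ℚ) :
    (Pool.Agent.Lib.Common.ZeroLemma.elToP (some l) (rename ![none, some l] g)).map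
        (aeval z : MvPolynomial (Option κ) ℚ →ₐ[ℚ] K).toRingHom =
      (Pool.Agent.Lib.Common.ZeroLemma.elToP 1 g).map
        (aeval ![z none, z (some l)] : MvPolynomial (Fin 2) ℚ →ₐ[ℚ] K).toRingHom := by
  induction g using MvPolynomial.induction_on with
  | C a => simp [Pool.Agent.Lib.Common.ZeroLemma.elToP]
  | add p q hp hq => simp only [map_add, Polynomial.map_add, hp, hq]
  | mul_X p i hp =>
    simp only [map_mul, Polynomial.map_mul, hp]
    congr 1
    fin_cases i <;> simp [Pool.Agent.Lib.Common.ZeroLemma.elToP]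

/- Induction on the finite set `I` of variables to eliminate, `Fa.elim_small` with `φ` the renaming of
`g l` along `![none, some l]` (take `dφ s = D` for `s = none, some l` and `0` otherwise, `dG s = 0` for the
variables already eliminated, to keep them out). -/
theorem elim_mov (D B : ℕ) (I : Finset κ) : ∃ B' : ℕ, ∀ (v : AbsoluteValue K ℝ) (z : Option κ → K)
    (c c' : ℝ) (g : κ → MvPolynomial (Fin 2) ℚ) (N : MvPolynomial (Option κ) ℚ), 0 ≤ c → 0 ≤ c' →
    (∀ l ∈ I, Small D c (g l) ∧ aeval ![z none, z (some l)] (g l) = 0 ∧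
      (Pool.Agent.Lib.Common.ZeroLemma.elToP 1 (g l)).map
        (aeval ![z none, z (some l)] : MvPolynomial (Fin 2) ℚ →ₐ[ℚ] K).toRingHom ≠ 0) →
    Small B c' N → aeval z N ≠ 0 →
    ∃ N' : MvPolynomial (Option κ) ℚ, Small B' (B' * (c + c' + 1)) N' ∧ aeval z N' ≠ 0 ∧
      (∀ l ∈ I, ∀ μ ∈ N'.support, μ (some l) = 0) ∧
      v (aeval z N') ≤ v (aeval z N) * Real.exp (B' * (c + c' + 1)) *
        ∏ o, max (v (z o)) 1 ^ B' := by
  have one : ∀ (v : AbsoluteValue K ℝ) (z : Option κ → K) (o : Option κ), 1 ≤ max (v (z o)) 1 :=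
    fun _ _ _ => le_max_right _ _
  induction I using Finset.induction_on with
  | empty =>
    refine ⟨B + 1, fun v z c c' g N hc hc' _ hN h0 => ?_⟩
    have hB : (0 : ℝ) ≤ B := Nat.cast_nonneg B
    have h1 : c' ≤ ((B + 1 : ℕ) : ℝ) * (c + c' + 1) := by
      push_cast
      nlinarith
    refine ⟨N, hN.mono (Nat.le_succ B) h1, h0, by simp, ?_⟩
    rw [mul_assoc]
    exact le_mul_of_one_le_right (v.nonneg _) (one_le_mul_of_one_le_of_one_le
      (Real.one_le_exp (hc'.trans h1)) (Finset.one_le_prod fun o _ => one_le_pow₀ (one v z o)))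
  | insert l I hl ih =>
    obtain ⟨B1, ih⟩ := ih
    refine ⟨2 * B1 + 2 * (D * B1) + D, fun v z c c' g N hc hc' hg hN h0 => ?_⟩
    obtain ⟨N1, a1, a2, a3, a4⟩ :=
      ih v z c c' g N hc hc' (fun l' h => hg l' (mem_insert_of_mem h)) hN h0
    obtain ⟨g1, g2, g3⟩ := hg l (mem_insert_self l I)
    have he : Function.Injective (![none, some l] : Fin 2 → Option κ) := by
      intro i j
      fin_cases i <;> fin_cases j <;> simp
    obtain ⟨r1, r2⟩ := Pool.Agent.Lib.MP_8865d3_nt.Fa.Small.rename he g1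
    obtain ⟨N2, b1, b2, b3, b4, b5⟩ := Pool.Agent.Lib.MP_8865d3_nt.Fa.elim_small v z (some l)
      r1.il a1.il (fun s => if s = none ∨ s = some l then D else 0)
      (fun s => if s ∈ I.image some then 0 else B1)
      (fun μ hμ s => by
        split_ifs with h
        · exact r1.deg μ hμ s
        · refine (r2 μ hμ s ?_).le
          rintro ⟨i, rfl⟩
          fin_cases i <;> simp at h)
      (fun μ hμ s => by
        split_ifs with h
        · obtain ⟨l', h', rfl⟩ := mem_image.1 h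
          exact (a3 l' h' μ hμ).le
        · exact a1.deg μ hμ s)
      (by
        rw [aeval_rename, ← g2]
        congr 2
        funext i
        fin_cases i <;> rfl)
      (by rw [exit_mov_map]; exact g3) a2
    have e1 : (some l : Option κ) ∉ I.image some := by simpa using hl
    simp only [or_true, if_true, if_neg e1] at b1 b4 b5
    have hd : ∀ s : Option κ, (D * if s ∈ I.image some then 0 else B1) +
        B1 * (if s = none ∨ s = some l then D else 0) ≤ 2 * (D * B1) := fun s => by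
      split_ifs <;> nlinarith [Nat.zero_le (D * B1)]
    have hs : 1 ≤ c + c' + 1 := by linarith
    have hB : (0 : ℝ) ≤ B1 := Nat.cast_nonneg B1
    have hD : (0 : ℝ) ≤ D := Nat.cast_nonneg D
    have hBs : 0 ≤ B1 * (c + c' + 1) := by positivity
    have hT : Real.exp c ^ B1 * (Real.exp (B1 * (c + c' + 1)) + 1) ^ D ≤
        Real.exp ((B1 + D * B1 + D) * (c + c' + 1)) := by
      have h1 : Real.exp (B1 * (c + c' + 1)) + 1 ≤ Real.exp (B1 * (c + c' + 1) + 1) := by
        rw [Real.exp_add]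
        nlinarith [Real.add_one_le_exp (1 : ℝ), Real.one_le_exp hBs]
      refine (mul_le_mul_of_nonneg_left (pow_le_pow_left₀ (by positivity) h1 D)
        (by positivity)).trans ?_
      rw [← Real.exp_nat_mul, ← Real.exp_nat_mul, ← Real.exp_add, Real.exp_le_exp]
      nlinarith [mul_nonneg hB hc', mul_nonneg hD hc, mul_nonneg hD hc']
    have hDB : 0 ≤ (D : ℝ) * B1 * (c + c' + 1) := by positivity
    refine ⟨N2, ⟨fun h => b2 (by rw [h, map_zero]), b1.mono (hT.trans (Real.exp_le_exp.2 ?_)),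
      fun μ hμ s => ((b4 μ hμ s).trans (hd s)).trans (by omega)⟩, b2, fun l' h' μ hμ => ?_,
      b5.trans ?_⟩
    · push_cast
      nlinarith
    · rcases mem_insert.1 h' with rfl | h'
      · exact b3 μ hμ
      · have h1 := b4 μ hμ (some l')
        have h2 : l' ≠ l := fun h => hl (h ▸ h')
        simpa [h', h2] using h1
    · have p1 : ∏ s, max (v (z s)) 1 ^ ((D * if s ∈ I.image some then 0 else B1) +
          B1 * (if s = none ∨ s = some l then D else 0)) ≤
          ∏ s, max (v (z s)) 1 ^ (B1 + 2 * (D * B1) + D) :=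
        Finset.prod_le_prod (fun s _ => by positivity) fun s _ =>
          pow_le_pow_right₀ (one v z s) ((hd s).trans (by omega))
      have p2 : Real.exp (B1 * (c + c' + 1)) * Real.exp ((B1 + D * B1 + D) * (c + c' + 1)) ≤
          Real.exp (((2 * B1 + 2 * (D * B1) + D : ℕ) : ℝ) * (c + c' + 1)) := by
        rw [← Real.exp_add, Real.exp_le_exp]
        push_cast
        nlinarith
      have p3 : ∏ s, max (v (z s)) 1 ^ (2 * B1 + 2 * (D * B1) + D) =
          (∏ s, max (v (z s)) 1 ^ B1) * ∏ s, max (v (z s)) 1 ^ (B1 + 2 * (D * B1) + D) := by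
        rw [← Finset.prod_mul_distrib]
        refine Finset.prod_congr rfl fun s _ => ?_
        rw [← pow_add]
        congr 1
        ring
      have q1 : 0 ≤ ∏ s, max (v (z s)) 1 ^ B1 := Finset.prod_nonneg fun s _ => by positivity
      have q2 : 0 ≤ ∏ s, max (v (z s)) 1 ^ (B1 + 2 * (D * B1) + D) :=
        Finset.prod_nonneg fun s _ => by positivity
      have q3 := v.nonneg (aeval z N)
      refine (mul_le_mul (mul_le_mul a4 hT (by positivity) (by positivity)) p1
        (Finset.prod_nonneg fun s _ => by positivity) (by positivity)).trans ?_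
      rw [p3]
      have := mul_le_mul_of_nonneg_left p2 (mul_nonneg (mul_nonneg q3 q1) q2)
      linarith

section helpers

open Pool.Agent.Lib.MP_8865d3_nt.Fa Pool.Agent.Lib.Common.ZeroLemma

private theorem exitX_div {η : ℝ} (hη : 0 < η) {x : ℝ} (hx : 0 ≤ x) :
    ∃ δ : ℝ, 0 < δ ∧ x * δ ≤ η := by
  refine ⟨η / (x + 1), by positivity, ?_⟩
  rw [← mul_div_assoc, div_le_iff₀ (by positivity)]
  nlinarith

private theorem exitX_vert {D : ℕ} {c : ℝ} {g : MvPolynomial (Fin 2) ℚ} (hg : Small D c g)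
    (x t : K)
    (h : (elToP 1 g).map (aeval ![x, t] : MvPolynomial (Fin 2) ℚ →ₐ[ℚ] K).toRingHom = 0) :
    logHeight₁ x ≤ totalWeight K * c := by
  obtain ⟨μ, hμ⟩ := support_nonempty.2 hg.ne
  obtain ⟨b1, -, b3⟩ := el_coeff_bounds 1 (d := fun _ => D) (fun ν hν s _ => hg.deg ν hν s) (μ 1)
  have h0 : (elToP 1 g).coeff (μ 1) ≠ 0 := fun e =>
    mem_support_iff.1 hμ (by rw [← faElim_coeff 1 g hμ, e, coeff_zero])
  have h2 := congrArg (fun q => Polynomial.coeff q (μ 1)) h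
  simp only [Polynomial.coeff_map, Polynomial.coeff_zero] at h2
  have h3 := height_root_le h0 ⟨el_isInt 1 hg.il.1 _, b3.trans hg.il.2⟩ 0 (fun ν hν s hs => by
    have : s = 1 := by omega
    rw [this]
    exact b1 ν hν) ![x, t] h2
  rwa [Real.log_exp] at h3

omit [Fintype κ] [DecidableEq κ] in
private theorem exitX_mov (hD : 4 * a ^ 3 + 27 * b ^ 2 ≠ 0) {v : AbsoluteValue K ℝ} (hv : Adm v)
    {η : ℝ} (hη : 0 < η) (B : ℕ) : ∃ δ H₀ : ℝ, 0 < δ ∧
      ∀ (H : ℝ) (P : Pt (a : K) (b : K)) (t : κ → K) (R : MvPolynomial (Option κ) ℚ), H₀ ≤ H →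
        ht P ≤ H → Small B (δ * H) R → (∀ l, ∀ μ ∈ R.support, μ (some l) = 0) →
        aeval (fun o : Option κ => o.elim (xc P) t) R ≠ 0 →
        Real.exp (-(η * H)) ≤ v (aeval (fun o : Option κ => o.elim (xc P) t) R) := by
  obtain ⟨δ, H₀, hδ, h⟩ := fa_moving (K := K) hv _ Unit rfl (fun _ => a) (fun _ => b)
    (fun _ => hD) η hη B
  refine ⟨δ, H₀, hδ, fun H P t R hH hP hR h1 h0 => ?_⟩
  obtain ⟨N, hN, rfl⟩ := exists_rename_small (e := fun _ : Unit => (none : Option κ))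
    (fun _ _ _ => rfl) hR fun μ hμ s hs => by
      cases s with
      | none => exact absurd ⟨(), rfl⟩ hs
      | some l => exact h1 l μ hμ
  rw [aeval_rename] at h0 ⊢
  exact h H (fun _ => P) N hH (by simpa [HS] using hP) hN h0

end helpers

/- As `exitR` (`Rt/Exit`): `elim_fix`, then `exit_vert` (private there; copy) excludes vertical relations
because `δ₀ q ≤ ht P`, `elim_mov` with `I = univ`, `exists_rename_small`, `fa_moving`; `abs_ev` bounds the
coordinates of `P`. -/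
theorem exitX (hD : 4 * a ^ 3 + 27 * b ^ 2 ≠ 0) {v : AbsoluteValue K ℝ} (hv : Adm v)
    (u : κ → PK K) {γ₀ δ₀ : ℝ} (hγ : 0 < γ₀) (hδ : 0 < δ₀) (D : ℕ) :
    ∃ ε H₀ : ℝ, 0 < ε ∧ ∀ (q : ℝ) (P : Pt (a : K) (b : K)) (t : κ → K), H₀ ≤ q → P ≠ 0 →
      δ₀ * q ≤ ht P → ht P ≤ q → (∀ l, v (t l) ≤ 1) → (∀ l, SpecX D (ε * q) P (t l)) →
      t ⬝ᵥ evV P u ≠ 0 → Real.exp (-(γ₀ * q)) ≤ v (t ⬝ᵥ evV P u) := by
  obtain ⟨B, c, hc, hel⟩ := elim_fix a b v
    (∑ l, MvPolynomial.X (Sum.inl (some l)) * rename ![Sum.inl none, Sum.inr ()] (u l))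
  obtain ⟨B', hmv⟩ := elim_mov (K := K) D B (univ : Finset κ)
  obtain ⟨δ, H₁, hδ', hmov⟩ := exitX_mov (κ := κ) hD hv (η := γ₀ / 4) (by positivity) B'
  obtain ⟨m, hm, hm1, hm2⟩ : ∃ m : ℝ, 0 < m ∧ m ≤ δ ∧ m ≤ γ₀ / 4 :=
    ⟨min δ (γ₀ / 4), lt_min hδ' (by positivity), min_le_left _ _, min_le_right _ _⟩
  obtain ⟨ε₁, hε₁, q1⟩ := exitX_div (η := m / 2) (by positivity) (Nat.cast_nonneg B')
  obtain ⟨ε₂, hε₂, q2⟩ := exitX_div (η := δ₀ / 2) (by positivity)
    (Nat.cast_nonneg (totalWeight K))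
  obtain ⟨s, hs, q3⟩ := exitX_div (η := γ₀ / 8) (by positivity) (Nat.cast_nonneg (2 * B + B'))
  obtain ⟨H₂, hsml⟩ := smlX hD hv (1 : Matrix Unit Unit (PK K)) hs
  obtain ⟨H₀, hH₀⟩ : ∃ H₀ : ℝ, ∀ H, H₀ ≤ H → H₁ ≤ H ∧ H₂ ≤ H ∧ 0 < H ∧
      (B' : ℝ) * (c + 1) ≤ m / 2 * H ∧ c ≤ γ₀ / 8 * H := by
    refine ⟨max (max H₁ H₂) (max 1 (max (B' * (c + 1) / (m / 2)) (c / (γ₀ / 8)))), fun H hH => ?_⟩
    simp only [max_le_iff] at hH
    obtain ⟨⟨h1, h2⟩, h3, h4, h5⟩ := hH
    rw [div_le_iff₀' (by positivity)] at h4 h5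
    exact ⟨h1, h2, by linarith, h4, h5⟩
  refine ⟨min ε₁ ε₂, H₀, lt_min hε₁ hε₂, fun H P t hH hP hδP hP1 ht1 hsp hl => ?_⟩
  obtain ⟨g1, g2, g3, g4, g5⟩ := hH₀ _ hH
  choose g hg hg0 using hsp
  by_contra hlt
  replace hlt := (not_le.1 hlt).le
  obtain ⟨⟨s1, s2⟩, -⟩ := hsml P H g2 hP hP1 (by simp [evM, ev])
  have hsH : 1 ≤ Real.exp (s * H) := Real.one_le_exp (by positivity)
  have t1 : ∏ o : Option κ, max (v (o.elim (xc P) t)) 1 ≤ Real.exp (s * H) := by
    rw [Fintype.prod_option]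
    exact (mul_le_of_le_one_right (by positivity)
      (prod_eq_one fun l _ => max_eq_right (ht1 l)).le).trans (max_le s1 hsH)
  have t2 : max (v (yc P)) 1 ≤ Real.exp (s * H) := max_le s2 hsH
  have e : eval (Sum.elim (fun o : Option κ => o.elim (xc P) t) fun _ : Unit => yc P)
      (∑ l, MvPolynomial.X (Sum.inl (some l)) * rename ![Sum.inl none, Sum.inr ()] (u l)) =
      t ⬝ᵥ evV P u := by
    have e0 : ((Sum.elim (fun o : Option κ => o.elim (xc P) t) fun _ : Unit => yc P) ∘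
        (![Sum.inl none, Sum.inr ()] : Fin 2 → Option κ ⊕ Unit)) = ![xc P, yc P] := by
      funext j
      fin_cases j <;> rfl
    rw [map_sum]
    refine sum_congr rfl fun l _ => ?_
    rw [map_mul, eval_rename, e0, eval_X]
    rfl
  obtain ⟨N₀, n1, n2, n3⟩ := hel (fun o => o.elim (xc P) t) (yc P)
    (Pool.Agent.Lib.MP_8865d3_nt.Fa.onE_pt hP) (e ▸ hl)
  rw [e] at n3
  obtain ⟨N, m1, m2, m3, m4⟩ := hmv v (fun o => o.elim (xc P) t) (ε₁ * H) c g N₀ (by positivity) hc
    (fun l _ => ⟨(hg l).mono le_rfl (mul_le_mul_of_nonneg_right (min_le_left ε₁ ε₂) g3.le), hg0 l,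
      fun hv0 => by
        have h1 : ht P ≤ totalWeight K * (min ε₁ ε₂ * H) := exitX_vert (hg l) _ _ hv0
        have h2 : (totalWeight K : ℝ) * (min ε₁ ε₂ * H) ≤ totalWeight K * (ε₂ * H) := by
          gcongr
          exact min_le_right _ _
        have h3 : (totalWeight K : ℝ) * ε₂ * H ≤ δ₀ / 2 * H := mul_le_mul_of_nonneg_right q2 g3.le
        have h4 : 0 < δ₀ * H := by positivity
        linarith⟩) n1 n2
  have k5 : B' * (ε₁ * H + c + 1) ≤ m * H := by
    have h1 : B' * ε₁ * H ≤ m / 2 * H := mul_le_mul_of_nonneg_right q1 g3.le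
    linarith
  have k6 := hmov H P t N g1 hP1
    (m1.mono le_rfl (k5.trans (mul_le_mul_of_nonneg_right hm1 g3.le)))
    (fun l => m3 l (mem_univ l)) m2
  have k7 : v (aeval (fun o : Option κ => o.elim (xc P) t) N₀) ≤ Real.exp (-(γ₀ * H)) *
      Real.exp c * (Real.exp (s * H) * Real.exp (s * H)) ^ B := by
    refine n3.trans ?_
    gcongr
  have k8 : ∏ o : Option κ, max (v (o.elim (xc P) t)) 1 ^ B' ≤ Real.exp (s * H) ^ B' := by
    rw [prod_pow]
    gcongr
  have k9 := k6.trans (m4.trans (mul_le_mul (mul_le_mul k7 (Real.exp_le_exp.2 k5) (by positivity)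
    (by positivity)) k8 (by positivity) (by positivity)))
  simp only [← Real.exp_add, ← Real.exp_nat_mul] at k9
  have k10 := Real.exp_le_exp.1 k9
  have k11 : m * H ≤ γ₀ / 4 * H := mul_le_mul_of_nonneg_right hm2 g3.le
  have k12 := mul_le_mul_of_nonneg_right q3 g3.le
  have k13 : 0 < γ₀ * H := by positivity
  push_cast at k10 k12
  linarith

end Pool.Agent.Lib.MP_651af7_nt.Es
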