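import Pool.Agent.Lib.MP_651af7_nt.Es.Main

/-! Forms in general position on any Weierstrass curve. -/

namespace Pool.Agent.Lib.MP_651af7_nt.Es

open Finset Matrix Height NumberField Pool.Agent.Lib.MP_e97e2b_nt Pool.Agent.Lib.MP_651af7_nt.Iv
  Pool.Agent.Lib.MP_651af7_nt.Vj Pool.Agent.Lib.MP_651af7_nt.Vj.P1 Pool.Agent.Lib.MP_651af7_nt.Rt
  Pool.Agent.Lib.Common.Subspace
open Pool.Agent.Lib.MP_8865d3_nt.Fa (Small Adm wt)

variable {K : Type} [Field K] [NumberField K] {a b : ℤ}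

/-- Any `n` or fewer of the vectors with index in `J` are linearly independent. -/
def GenPos {n q : ℕ} (u : Fin q → Fin n → K) (J : Finset (Fin q)) : Prop :=
  ∀ I ⊆ J, I.card ≤ n → LinearIndependent K fun j : I => u j

private lemma fin_least {q : ℕ} (J : Finset (Fin q)) (f : Fin q → ℝ) (m : ℕ) (hm : m ≤ J.card) :
    ∃ I ⊆ J, I.card = m ∧ ∀ j ∈ J, j ∉ I → ∀ j' ∈ I, f j' ≤ f j := by
  induction m with
  | zero => exact ⟨∅, empty_subset _, rfl, by simp⟩
  | succ m ih =>
    obtain ⟨I, hIJ, hc, hI⟩ := ih (by omega)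
    have hne : (J \ I).Nonempty := by
      rw [← card_pos, card_sdiff_of_subset hIJ]
      omega
    obtain ⟨z, hz, hmin⟩ := exists_min_image _ f hne
    rw [mem_sdiff] at hz
    refine ⟨insert z I, insert_subset hz.1 hIJ, by rw [card_insert_of_notMem hz.2, hc], ?_⟩
    intro j hj hjI j' hj'
    rw [mem_insert, not_or] at hjI
    rcases mem_insert.1 hj' with rfl | hj'
    · exact hmin j (mem_sdiff.2 ⟨hj, hjI.2⟩)
    · exact hI j hj hjI.2 j' hj'

omit [NumberField K] in
private lemma fin_extend {n q : ℕ} (u : Fin q → Fin n → K) (d : ℕ) :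
    ∀ T : Finset (Fin q ⊕ Fin n), T.card + d = n →
      LinearIndepOn K (Sum.elim u fun i => Pi.single i (1 : K)) (T : Set (Fin q ⊕ Fin n)) →
      ∃ T' : Finset (Fin q ⊕ Fin n), T ⊆ T' ∧ T'.card = n ∧
        LinearIndepOn K (Sum.elim u fun i => Pi.single i (1 : K)) (T' : Set (Fin q ⊕ Fin n)) ∧
        ∀ j, Sum.inl j ∈ T' → Sum.inl j ∈ T := by
  classical
  induction d with
  | zero => exact fun T hT h => ⟨T, Subset.rfl, hT, h, fun _ h => h⟩
  | succ d ih =>
    intro T hT h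
    set w : Fin q ⊕ Fin n → Fin n → K := Sum.elim u fun i => Pi.single i (1 : K) with hw
    have hex : ∃ i, w (.inr i) ∉ Submodule.span K (w '' (T : Set (Fin q ⊕ Fin n))) := by
      by_contra hcon
      push Not at hcon
      have htop : Submodule.span K (w '' (T : Set (Fin q ⊕ Fin n))) = ⊤ := by
        rw [eq_top_iff, ← (Pi.basisFun K (Fin n)).span_eq, Submodule.span_le]
        rintro _ ⟨i, rfl⟩
        rw [Pi.basisFun_apply]
        exact hcon i
      have h1 := finrank_span_finset_le_card (R := K) (T.image w)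
      rw [Set.finrank, coe_image, htop, finrank_top, Module.finrank_fin_fun] at h1
      have h2 := card_image_le (s := T) (f := w)
      omega
    obtain ⟨i, hi⟩ := hex
    have hiT : Sum.inr i ∉ T := fun hm => hi (Submodule.subset_span ⟨_, hm, rfl⟩)
    obtain ⟨T', h1, h2, h3, h4⟩ := ih (insert (.inr i) T)
      (by rw [card_insert_of_notMem hiT]; omega)
      (by rw [coe_insert]; exact h.insert hi)
    refine ⟨T', (subset_insert _ _).trans h1, h2, h3, fun j hj => ?_⟩
    simpa using h4 j hj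

/- Let `I ⊆ J` consist of the `min n (card J)` indices with the least values `f j` (induction, or
`Finset.exists_subset_card_eq` with `∑ j ∈ I, f j` minimal and an exchange argument).  If `card J ≤ n` extend
the independent family by unit vectors to a basis (`exists_linearIndependent_extension`,
`LinearIndependent.extend`, or induction on `n - card I`: a proper subspace misses a unit vector).
`Matrix.linearIndependent_rows_iff_isUnit`. -/
theorem choose_rows {n q : ℕ} (u : Fin q → Fin n → K) (J : Finset (Fin q)) (h : GenPos u J)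
    (f : Fin q → ℝ) : ∃ ρ : Fin n → Fin q ⊕ Fin n, Function.Injective ρ ∧
      (Matrix.of fun l => Sum.elim u (fun i => Pi.single i 1) (ρ l)).det ≠ 0 ∧
      (∀ l j, ρ l = .inl j → j ∈ J) ∧
      ∀ j ∈ J, (∃ l, ρ l = .inl j) ∨ ∀ l, ∃ j', ρ l = .inl j' ∧ f j' ≤ f j := by
  classical
  obtain ⟨I, hIJ, hc, hI⟩ := fin_least J f (min n J.card) (min_le_right _ _)
  have hIn : I.card ≤ n := hc ▸ min_le_left _ _
  have h0 : LinearIndepOn K (Sum.elim u fun i => Pi.single i (1 : K))
      ((I.map Function.Embedding.inl : Finset (Fin q ⊕ Fin n)) : Set (Fin q ⊕ Fin n)) := by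
    rw [coe_map]
    exact LinearIndepOn.image_of_comp _ _ (h I hIJ hIn)
  obtain ⟨T, h1, h2, h3, h4⟩ := fin_extend u (n - I.card) (I.map Function.Embedding.inl)
    (by rw [card_map]; omega) h0
  let e := (T.equivFinOfCardEq h2).symm
  refine ⟨fun l => (e l).1, Subtype.val_injective.comp e.injective, ?_, ?_, ?_⟩
  · have h5 : LinearIndependent K (Matrix.of fun l =>
        Sum.elim u (fun i => Pi.single i (1 : K)) (e l).1).row :=
      LinearIndependent.comp h3 e e.injective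
    exact ((Matrix.isUnit_iff_isUnit_det _).1 (Matrix.linearIndependent_rows_iff_isUnit.1 h5)).ne_zero
  · intro l j hl
    have := h4 j (hl ▸ (e l).2)
    exact hIJ (by simpa using this)
  · intro j hj
    by_cases hjI : j ∈ I
    · left
      refine ⟨e.symm ⟨.inl j, h1 (by simpa using hjI)⟩, ?_⟩
      simp
    · right
      have h5 : I.card < J.card := card_lt_card ⟨hIJ, fun h => hjI (h hj)⟩
      have h6 : I.map Function.Embedding.inl = T :=
        eq_of_subset_of_card_le h1 (by rw [card_map]; omega)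
      intro l
      have h7 := (e l).2
      simp only [← h6, mem_map] at h7
      obtain ⟨j', hj', h8⟩ := h7
      exact ⟨j', h8.symm, hI j hj hjI j' hj'⟩

/- `det N • x = adjugate N *ᵥ (N *ᵥ x)`, `adj_le`. -/
theorem lx_other (n : ℕ) : ∃ C : ℝ, 0 ≤ C ∧ ∀ (v : AbsoluteValue K ℝ) (N : Matrix (Fin n) (Fin n) K)
    (x : Fin n → K) (c : ℝ) (l₀ : K), 0 ≤ c → Tame v c N → l₀ ≠ 0 →
    (∀ l, v ((N *ᵥ x) l) ≤ v l₀) → lx v x l₀ ≤ C * (1 + c) := by
  refine ⟨n * n.factorial + (n + 1), by positivity, ?_⟩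
  intro v N x c l₀ hc hN hl h
  have hl' : 0 < v l₀ := v.pos hl
  have h1 : ∀ i, v (x i) ≤ (n * n.factorial + 1) * Real.exp ((n + 1) * c) * v l₀ := by
    intro i
    have e1 : N.det * x i = ∑ l, N.adjugate i l * (N *ᵥ x) l := by
      have := congrFun (Matrix.mulVec_mulVec x N.adjugate N) i
      rw [Matrix.adjugate_mul, Matrix.smul_mulVec, Matrix.one_mulVec] at this
      exact this.symm
    have e2 : v N.det * v (x i) ≤ n * (n.factorial * Real.exp (n * c) * v l₀) := by
      rw [← map_mul, e1]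
      refine (v.sum_le _ _).trans ?_
      refine (sum_le_card_nsmul _ _ (n.factorial * Real.exp (n * c) * v l₀) fun l _ => ?_).trans ?_
      · rw [map_mul]
        have := adj_le hc hN.1 i l
        rw [Fintype.card_fin] at this
        exact mul_le_mul this (h l) (v.nonneg _) (by positivity)
      · simp
    have e3 : Real.exp (-c) * v (x i) ≤ n * (n.factorial * Real.exp (n * c) * v l₀) :=
      (mul_le_mul_of_nonneg_right hN.2 (v.nonneg _)).trans e2
    have e4 : v (x i) = Real.exp c * (Real.exp (-c) * v (x i)) := by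
      rw [← mul_assoc, ← Real.exp_add]; simp
    have e5 : Real.exp (((n : ℝ) + 1) * c) = Real.exp c * Real.exp (n * c) := by
      rw [← Real.exp_add]; congr 1; ring
    rw [e4, e5]
    refine (mul_le_mul_of_nonneg_left e3 (Real.exp_pos c).le).trans ?_
    have : 0 ≤ Real.exp c * Real.exp (n * c) * v l₀ := by positivity
    nlinarith
  have h2 : (⨆ i, v (x i)) / v l₀ ≤ (n * n.factorial + 1) * Real.exp ((n + 1) * c) := by
    rw [div_le_iff₀ hl']
    exact Real.iSup_le h1 (by positivity)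
  have h3 : 0 ≤ (⨆ i, v (x i)) / v l₀ :=
    div_nonneg (Real.iSup_nonneg fun i => v.nonneg _) hl'.le
  have h4 : (0 : ℝ) ≤ n * n.factorial := by positivity
  have h5 : (0 : ℝ) ≤ n * n.factorial * c := by positivity
  have h6 : (0 : ℝ) ≤ n := by positivity
  unfold lx
  rcases h3.eq_or_lt with h3 | h3
  · rw [← h3, Real.log_zero]
    positivity
  · refine (Real.log_le_log h3 h2).trans ?_
    rw [Real.log_mul (by positivity) (by positivity), Real.log_exp]
    have := Real.log_le_sub_one_of_pos (show (0 : ℝ) < n * n.factorial + 1 by positivity)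
    nlinarith

theorem fin_gen_split {n q : ℕ} {ρ : Fin n → Fin q ⊕ Fin n} (hρ : Function.Injective ρ)
    (J : Finset (Fin q)) (g : Fin q ⊕ Fin n → ℝ) {B : ℝ} (hB : 0 ≤ B) (h0 : ∀ i, 0 ≤ g (.inr i))
    (h1 : ∀ l j, ρ l = .inl j → j ∈ J) (h2 : ∀ j ∈ J, (∃ l, ρ l = .inl j) ∨ g (.inl j) ≤ B) :
    ∑ j ∈ J, g (.inl j) ≤ ∑ l, g (ρ l) + q * B := by
  classical
  have e1 : ∑ l, g (ρ l) = ∑ t, if t ∈ univ.image ρ then g t else 0 := by
    rw [← sum_filter, filter_mem_eq_inter, univ_inter, sum_image fun _ _ _ _ h => hρ h]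
  have e2 : ∑ j ∈ J, g (.inl j) = ∑ j, if j ∈ J then g (.inl j) else 0 := by
    rw [← sum_filter, filter_mem_eq_inter, univ_inter]
  have e3 : (q : ℝ) * B = ∑ _j : Fin q, B := by simp
  have e4 : 0 ≤ ∑ i : Fin n, if Sum.inr i ∈ univ.image ρ then g (.inr i) else 0 :=
    sum_nonneg fun i _ => by split_ifs; exacts [h0 i, le_rfl]
  have e5 : ∑ j, (if j ∈ J then g (.inl j) else 0) ≤
      ∑ j : Fin q, ((if Sum.inl j ∈ univ.image ρ then g (.inl j) else 0) + B) := by
    refine sum_le_sum fun j _ => ?_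
    split_ifs with a1 a2 a2
    · linarith
    · rcases h2 j a1 with ⟨l, hl⟩ | h
      · exact absurd (mem_image.2 ⟨l, mem_univ _, hl⟩) a2
      · linarith
    · obtain ⟨l, -, hl⟩ := mem_image.1 a2
      exact absurd (h1 l j hl) a1
    · linarith
  rw [e1, e2, e3, Fintype.sum_sum_type]
  rw [sum_add_distrib] at e5
  linarith

/- `short_main` with `ε / 2` for `Ls` = the forms and the unit vectors; multiply `Θ` by `∏ l, X (some l)`.
The constant is the sum over all `ρ : Pl S → Fin n → Fin q ⊕ Fin n`.  `choose_rows` at each place with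
`f j = av p (value)`; a unit row has `0 ≤ lx`; the forms that were not chosen are bounded by `lx_other` and
`smlX` (for bounded `ht P` use `H = max H₀ (ht P)`). -/
theorem short_gen (hD : 4 * a ^ 3 + 27 * b ^ 2 ≠ 0) {n q : ℕ} (L : Fin q → Fin n → PK K)
    {ε : ℝ} (hε : 0 < ε) : ∃ Θ : MvPolynomial (Option (Fin n)) K, Θ ≠ 0 ∧
      ∀ S : Finset (FinitePlace K), ∃ C : ℝ, ∀ (P : Pt (a : K) (b : K)) (x : Fin n → K)
        (J : Pl S → Finset (Fin q)), P ≠ 0 → MvPolynomial.eval (fun o => o.elim (xc P) x) Θ ≠ 0 →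
        (∀ p, GenPos (fun j => evV P (L j)) (J p)) → (∀ p, ∀ j ∈ J p, evV P (L j) ⬝ᵥ x ≠ 0) →
        ∑ p, mu p * ∑ j ∈ J p, lx (av p) x (evV P (L j) ⬝ᵥ x) ≤
          n * logHeight x + ε * (ht P + logHeight x) + C := by
  classical
  obtain ⟨row, hrow⟩ : ∃ row : Fin q ⊕ Fin n → Fin n → PK K,
      row = Sum.elim L fun i => Pi.single i 1 := ⟨_, rfl⟩
  obtain ⟨Θ, hΘ, H⟩ := short_main (K := K) hD n (univ.image row) (half_pos hε)
  obtain ⟨C₁, hC₁, H1⟩ := lx_other (K := K) n
  refine ⟨Θ * ∏ l, MvPolynomial.X (some l), mul_ne_zero hΘ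
    (prod_ne_zero_iff.2 fun l _ => MvPolynomial.X_ne_zero _), fun S => ?_⟩
  choose Cr hCr using fun ρ : Pl S → Fin n → Fin q ⊕ Fin n =>
    H S (fun p => Matrix.of fun l => row (ρ p l)) fun p l => mem_image_of_mem _ (mem_univ _)
  obtain ⟨W, hW⟩ : ∃ W : ℝ, W = ∑ p : Pl S, (mu p : ℝ) := ⟨_, rfl⟩
  have hW0 : 0 ≤ W := hW ▸ sum_nonneg fun p _ => by positivity
  obtain ⟨s, hs⟩ : ∃ s : ℝ, s = ε / 2 / (W * q * C₁ + 1) := ⟨_, rfl⟩
  have hs0 : 0 < s := by rw [hs]; positivity
  have hs1 : W * q * C₁ * s ≤ ε / 2 := by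
    have : s * (W * q * C₁ + 1) = ε / 2 := by rw [hs]; field_simp
    nlinarith
  choose H₀ hH₀ using fun t : Pl S × (Fin n → Fin q ⊕ Fin n) =>
    smlX hD (adm_av t.1) (Matrix.of fun l => row (t.2 l)) hs0
  obtain ⟨H₁, hH₁⟩ : ∃ H₁ : ℝ, H₁ = ∑ t, |H₀ t| := ⟨_, rfl⟩
  have hH10 : 0 ≤ H₁ := hH₁ ▸ sum_nonneg fun t _ => abs_nonneg _
  have hH11 : ∀ t, H₀ t ≤ H₁ := fun t => (le_abs_self _).trans
    (hH₁ ▸ single_le_sum (f := fun t => |H₀ t|) (fun _ _ => abs_nonneg _) (mem_univ t))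
  refine ⟨∑ ρ, |Cr ρ| + W * q * C₁ * (1 + s * H₁), fun P x J hP hev hG hne => ?_⟩
  rw [map_mul, mul_ne_zero_iff, map_prod, prod_ne_zero_iff] at hev
  have hx : ∀ l, x l ≠ 0 := fun l => by simpa using hev.2 l (mem_univ _)
  choose ρ hρ1 hρ2 hρ3 hρ4 using fun p : Pl S =>
    choose_rows (fun j => evV P (L j)) (J p) (hG p) fun j => av p (evV P (L j) ⬝ᵥ x)
  have hM : ∀ p, evM P (Matrix.of fun l => row (ρ p l)) =
      Matrix.of fun l => Sum.elim (fun j => evV P (L j)) (fun i => Pi.single i 1) (ρ p l) := by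
    intro p
    ext l i
    simp only [evM, Matrix.map_apply, Matrix.of_apply, hrow]
    rcases ρ p l with j | j
    · rfl
    · simp only [Sum.elim_inr, Pi.single_apply, ev]
      split_ifs <;> simp
  obtain ⟨val, hval⟩ : ∃ val : Fin q ⊕ Fin n → K,
      val = Sum.elim (fun j => evV P (L j) ⬝ᵥ x) x := ⟨_, rfl⟩
  have hv : ∀ p l, (evM P (Matrix.of fun l => row (ρ p l)) *ᵥ x) l = val (ρ p l) := by
    intro p l
    rw [hM, hval]
    change Sum.elim (fun j => evV P (L j)) (fun i => Pi.single i 1) (ρ p l) ⬝ᵥ x = _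
    rcases ρ p l with j | j
    · rfl
    · simp
  have hdet : ∀ p, (evM P (Matrix.of fun l => row (ρ p l))).det ≠ 0 := fun p => by
    rw [hM]; exact hρ2 p
  have hv0 : ∀ p l, val (ρ p l) ≠ 0 := by
    intro p l
    rcases h : ρ p l with j | j
    · rw [hval]; exact hne p j (hρ3 p l j h)
    · rw [hval]; exact hx j
  have h1 := hCr ρ P x hP hev.1 hdet fun p l => by rw [hv]; exact hv0 p l
  simp only [vol, hv] at h1
  have hht := ht_nonneg P
  have hc : 0 ≤ s * (H₁ + ht P) := by positivity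
  have h2 : ∀ p, ∑ j ∈ J p, lx (av p) x (evV P (L j) ⬝ᵥ x) ≤
      ∑ l, lx (av p) x (val (ρ p l)) + q * (C₁ * (1 + s * (H₁ + ht P))) := by
    intro p
    refine le_trans (le_of_eq ?_) (fin_gen_split (hρ1 p) (J p) (fun t => lx (av p) x (val t))
      (by positivity) (fun i => ?_) (hρ3 p) fun j hj => ?_)
    · simp [hval]
    · have : val (.inr i) = x i := by simp [hval]
      simp only [this, lx]
      refine Real.log_nonneg ((one_le_div ((av p).pos (hx i))).2 ?_)
      exact Finite.le_ciSup (fun i => av p (x i)) i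
    · refine (hρ4 p j hj).imp id fun h => ?_
      have e : val (.inl j) = evV P (L j) ⬝ᵥ x := by simp [hval]
      simp only [e]
      refine H1 (av p) _ x _ _ hc (hH₀ (p, ρ p) P (H₁ + ht P) ((hH11 _).trans (by linarith)) hP
        (by linarith) (hdet p)).2 (hne p j hj) fun l => ?_
      obtain ⟨j', h3, h4⟩ := h l
      rw [hv, h3, hval]
      exact h4
  have h3 : ∑ p, mu p * ∑ j ∈ J p, lx (av p) x (evV P (L j) ⬝ᵥ x) ≤
      ∑ p, mu p * ∑ l, lx (av p) x (val (ρ p l)) + W * (q * (C₁ * (1 + s * (H₁ + ht P)))) := by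
    rw [hW, sum_mul, ← sum_add_distrib]
    refine sum_le_sum fun p _ => ?_
    rw [← mul_add]
    exact mul_le_mul_of_nonneg_left (h2 p) (by positivity)
  have h4 : Cr ρ ≤ ∑ ρ, |Cr ρ| := (le_abs_self _).trans
    (single_le_sum (f := fun ρ => |Cr ρ|) (fun _ _ => abs_nonneg _) (mem_univ ρ))
  have h5 := mul_le_mul_of_nonneg_right hs1 hht
  have h6 := mul_nonneg hε.le (logHeight_nonneg x)
  nlinarith

/-- The local height of the divisor of a form of bidegree `(e, 1)` with value `l`. -/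
noncomputable def lamX {n : ℕ} (v : AbsoluteValue K ℝ) (e : ℕ) (P : Fin 3 → K) (x : Fin n → K)
    (l : K) : ℝ :=
  Real.log ((⨆ i, v (P i)) ^ e * (⨆ i, v (x i)) / v l)

omit [NumberField K] in
theorem finX_lam {n : ℕ} (v : AbsoluteValue K ℝ) (e : ℕ) {x y l : K} {X : Fin n → K} (hl : l ≠ 0)
    (hX : X ≠ 0) {T : ℝ} (hT : 0 ≤ T) (hx : v x ≤ Real.exp T) (hy : v y ≤ Real.exp T) :
    lamX v e ![x, y, 1] X l ≤ e * T + lx v X l := by
  have h2 : 1 ≤ ⨆ i, v (![x, y, 1] i) := by
    simpa using le_ciSup (f := fun i => v (![x, y, 1] i)) (Set.finite_range _).bddAbove 2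
  have h3 : (⨆ i, v (![x, y, 1] i)) ≤ Real.exp T := by
    refine ciSup_le fun i => ?_
    fin_cases i
    · exact hx
    · exact hy
    · simpa using hT
  obtain ⟨i, hi⟩ := Function.ne_iff.1 hX
  have hpos : 0 < ⨆ i, v (X i) :=
    (v.pos hi).trans_le (le_ciSup (f := fun i => v (X i)) (Set.finite_range _).bddAbove i)
  have h4 : Real.log (⨆ i, v (![x, y, 1] i)) ≤ T :=
    (Real.log_le_iff_le_exp (by positivity)).2 h3
  rw [lamX, lx, mul_div_assoc, Real.log_mul (by positivity) (div_pos hpos (v.pos hl)).ne',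
    Real.log_pow]
  have := mul_le_mul_of_nonneg_left h4 (Nat.cast_nonneg (α := ℝ) e)
  linarith

open MvPolynomial in
/- `exists_short_aff`; `L j l` becomes `aeval φ (L j l)` (`Fa.fin_eval_aeval`); `Θ` is transported by the
substitution `X none ↦ C u * X none + C r`, which is injective (it has an inverse).
`lamX = e * log (⨆ ..) + lx` since `x ≠ 0`; `abs_ev` for `φ 0`, `φ 1`.  Compare `vojtaR` (`Rt/Fin`). -/
theorem vojtaX (W : WeierstrassCurve ℚ) [W.IsElliptic] {n q : ℕ} (L : Fin q → Fin n → PK K)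
    (e : Fin q → ℕ) {ε : ℝ} (hε : 0 < ε) : ∃ Θ : MvPolynomial (Option (Fin n)) K, Θ ≠ 0 ∧
      ∀ S : Finset (FinitePlace K), ∃ C : ℝ, ∀ (x y : K) (X : Fin n → K)
        (J : Pl S → Finset (Fin q)), (W.map (algebraMap ℚ K)).toAffine.Equation x y →
        eval (fun o => o.elim x X) Θ ≠ 0 →
        (∀ p, GenPos (fun j l => eval ![x, y] (L j l)) (J p)) →
        (∀ p, ∀ j ∈ J p, ∑ l, eval ![x, y] (L j l) * X l ≠ 0) →
        ∑ p, mu p * ∑ j ∈ J p, lamX (av p) (e j) ![x, y, 1] X (∑ l, eval ![x, y] (L j l) * X l) ≤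
          n * logHeight X + ε * (logHeight₁ x + logHeight X) + C := by
  classical
  obtain ⟨a, b, C₀, φ, u, r, hD, hu, hφ⟩ := exists_short_aff (K := K) W
  have hε2 : 0 < ε / 2 := half_pos hε
  obtain ⟨Θ, hΘ, H⟩ := short_gen hD (fun j l => aeval φ (L j l)) hε2
  let ψ : Option (Fin n) → MvPolynomial (Option (Fin n)) K :=
    fun o => o.elim (C u * X none + C r) fun l => X (some l)
  refine ⟨aeval ψ Θ, fun h => hΘ ?_, fun S => ?_⟩
  · let ψ' : Option (Fin n) → MvPolynomial (Option (Fin n)) K :=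
      fun o => o.elim (C u⁻¹ * (X none - C r)) fun l => X (some l)
    have h1 : (aeval ψ').comp (aeval ψ) = AlgHom.id K (MvPolynomial (Option (Fin n)) K) := by
      refine algHom_ext fun o => ?_
      rcases o with _ | l
      · simp only [ψ, ψ', AlgHom.comp_apply, aeval_X, Option.elim_none, map_add, map_mul, aeval_C,
          algebraMap_eq, AlgHom.id_apply]
        rw [← mul_assoc, ← C_mul, mul_inv_cancel₀ hu, C_1, one_mul, sub_add_cancel]
      · simp [ψ, ψ']
    have h2 := DFunLike.congr_fun h1 Θ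
    rw [AlgHom.comp_apply, h, map_zero] at h2
    exact h2.symm
  obtain ⟨C₁, hC₁⟩ := H S
  set M : ℝ := ∑ p : Pl S, (mu p : ℝ) with hM
  have hM0 : 0 ≤ M := Finset.sum_nonneg fun _ _ => Nat.cast_nonneg _
  set E : ℝ := ∑ j, (e j : ℝ) with hE
  have hE0 : 0 ≤ E := Finset.sum_nonneg fun _ _ => Nat.cast_nonneg _
  have hε' : 0 < ε / (2 * (M * E + 1)) := by positivity
  choose C₂ hC₂0 hC₂ using fun s : Pl S × Fin 2 => abs_ev hD (adm_av s.1) (φ s.2) hε'
  set C₃ : ℝ := ∑ s, C₂ s with hC₃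
  have hC₃0 : 0 ≤ C₃ := Finset.sum_nonneg fun s _ => hC₂0 s
  refine ⟨C₁ + ε * C₀ + M * E * C₃, fun x y Z J he hZ hJ hl => ?_⟩
  obtain ⟨P, hP, hht, hxc, hxy⟩ := hφ x y he
  have hψ : ∀ g, ev P (aeval φ g) = eval ![x, y] g := fun g => by
    rw [ev, MP_8865d3_nt.Fa.fin_eval_aeval]
    exact congrArg (fun z => eval z g) (funext hxy)
  have hV : ∀ j, evV P (fun l => aeval φ (L j l)) = fun l => eval ![x, y] (L j l) :=
    fun j => funext fun l => hψ _
  have h1 := hC₁ P Z J hP (by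
    rw [MP_8865d3_nt.Fa.fin_eval_aeval] at hZ
    convert hZ using 3
    funext o
    rcases o with _ | l <;> simp [ψ, hxc]) (by simpa only [hV] using hJ)
    (by simpa only [hV, dotProduct] using hl)
  simp only [hV, dotProduct] at h1
  set T := ε / (2 * (M * E + 1)) * ht P + C₃ with hT
  have hT0 : 0 ≤ T := add_nonneg (mul_nonneg hε'.le (ht_nonneg P)) hC₃0
  have h2 : ∀ p : Pl S, ∑ j ∈ J p, lamX (av p) (e j) ![x, y, 1] Z
      (∑ l, eval ![x, y] (L j l) * Z l) ≤
      ∑ j ∈ J p, lx (av p) Z (∑ l, eval ![x, y] (L j l) * Z l) + E * T := by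
    intro p
    have hb : ∀ i, av p (![x, y] i) ≤ Real.exp T := fun i => by
      rw [← hxy i]
      refine (hC₂ (p, i) P hP).1.trans (Real.exp_le_exp.2 (add_le_add_right ?_ _))
      exact Finset.single_le_sum (fun s _ => hC₂0 s) (mem_univ (p, i))
    refine (Finset.sum_le_sum fun j hj => finX_lam (av p) (e j) (hl p j hj)
      (fun h => hl p j hj (by simp [h])) hT0 (hb 0) (hb 1)).trans ?_
    rw [Finset.sum_add_distrib, ← Finset.sum_mul, add_comm]
    exact add_le_add_right (mul_le_mul_of_nonneg_right (Finset.sum_le_sum_of_subset_of_nonneg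
      (subset_univ _) fun _ _ _ => Nat.cast_nonneg _) hT0) _
  have h3 := Finset.sum_le_sum fun p (_ : p ∈ (univ : Finset (Pl S))) =>
    mul_le_mul_of_nonneg_left (h2 p) (Nat.cast_nonneg (α := ℝ) (mu p))
  simp only [mul_add (mu _ : ℝ)] at h3
  rw [Finset.sum_add_distrib, ← Finset.sum_mul, ← hM] at h3
  have h6 : M * E * (ε / (2 * (M * E + 1)) * ht P) ≤ ε / 2 * ht P := by
    have h7 : (M * E + 1) * (ε / (2 * (M * E + 1)) * ht P) = ε / 2 * ht P := by
      field_simp
    have h8 := mul_nonneg hε'.le (ht_nonneg P)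
    linarith
  have h7 := mul_le_mul_of_nonneg_left hht hε.le
  have h8 := mul_nonneg hε2.le (logHeight_nonneg Z)
  have h9 : M * (E * T) = M * E * (ε / (2 * (M * E + 1)) * ht P) + M * E * C₃ := by
    rw [hT]
    ring
  linarith

end Pool.Agent.Lib.MP_651af7_nt.Es
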