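import Pool.Agent.Lib.MP_651af7_nt.Es.Fin

/-! The exceptional polynomial may be taken homogeneous in the coordinates of the fibre. -/

namespace Pool.Agent.Lib.MP_651af7_nt.Es

open Finset Height NumberField MvPolynomial Pool.Agent.Lib.MP_651af7_nt.Rt

variable {K : Type} [Field K] [NumberField K]

omit [NumberField K] in
theorem hom_scale {ι : Type} {d : ℕ} {F : MvPolynomial ι (Polynomial K)} (hF : F.IsHomogeneous d)
    (x t : K) (X : ι → K) : eval₂ (Polynomial.evalRingHom x) (t • X) F =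
      eval₂ (Polynomial.evalRingHom x) X F * t ^ d := by
  rw [eval₂_eq, eval₂_eq, Finset.sum_mul]
  refine Finset.sum_congr rfl fun m hm => ?_
  have h1 : ∑ i ∈ m.support, m i = d := by
    have h2 := hF (mem_support_iff.1 hm)
    simpa [Finsupp.weight_apply, Finsupp.sum] using h2
  simp only [Pi.smul_apply, smul_eq_mul, mul_pow, Finset.prod_mul_distrib,
    Finset.prod_pow_eq_pow_sum, h1]
  ring

omit [NumberField K] in
theorem hom_right {ι : Type} (Θ : MvPolynomial (Option ι) K) (x : K) (X : ι → K) :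
    eval₂ (Polynomial.evalRingHom x) X (optionEquivRight K ι Θ) = eval (fun o => o.elim x X) Θ := by
  induction Θ using MvPolynomial.induction_on with
  | C r => simp
  | add p q hp hq => rw [map_add, eval₂_add, hp, hq, map_add]
  | mul_X p o hp =>
    rw [map_mul, eval₂_mul, hp, map_mul]
    cases o <;> simp

theorem exists_hom {ι : Type} {Θ : MvPolynomial (Option ι) K} (h : Θ ≠ 0) :
    ∃ (d : ℕ) (F : MvPolynomial ι (Polynomial K)), F ≠ 0 ∧ F.IsHomogeneous d ∧
      ∀ (x : K) (X : ι → K), eval₂ (Polynomial.evalRingHom x) X F ≠ 0 →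
        ∃ t : K, t ≠ 0 ∧ eval (fun o => o.elim x (t • X)) Θ ≠ 0 := by
  have h1 : optionEquivRight K ι Θ ≠ 0 := (map_ne_zero_iff _ (optionEquivRight K ι).injective).2 h
  obtain ⟨d, hd, h2⟩ : ∃ d ∈ range ((optionEquivRight K ι Θ).totalDegree + 1),
      homogeneousComponent d (optionEquivRight K ι Θ) ≠ 0 := by
    by_contra h3
    push Not at h3
    exact h1 ((sum_homogeneousComponent _).symm.trans (Finset.sum_eq_zero h3))
  refine ⟨d, _, h2, homogeneousComponent_isHomogeneous _ _, fun x X hx => ?_⟩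
  set p : Polynomial K := ∑ i ∈ range ((optionEquivRight K ι Θ).totalDegree + 1),
    Polynomial.monomial i (eval₂ (Polynomial.evalRingHom x) X
      (homogeneousComponent i (optionEquivRight K ι Θ))) with hp
  have h3 : p ≠ 0 := by
    intro h4
    have h5 := congrArg (fun r => Polynomial.coeff r d) h4
    simp only [hp, Polynomial.finsetSum_coeff, Polynomial.coeff_monomial, Finset.sum_ite_eq',
      if_pos hd, Polynomial.coeff_zero] at h5
    exact hx h5
  obtain ⟨t, ht⟩ : ∃ t : K, (p * Polynomial.X).eval t ≠ 0 := by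
    by_contra h4
    push Not at h4
    exact mul_ne_zero h3 Polynomial.X_ne_zero (Polynomial.funext fun r => by simpa using h4 r)
  rw [Polynomial.eval_mul, Polynomial.eval_X, mul_ne_zero_iff] at ht
  refine ⟨t, ht.2, ?_⟩
  rw [← hom_right, ← sum_homogeneousComponent (optionEquivRight K ι Θ), eval₂_sum]
  convert ht.1 using 1
  rw [hp, Polynomial.eval_finsetSum]
  exact Finset.sum_congr rfl fun i _ => by
    rw [hom_scale (homogeneousComponent_isHomogeneous _ _), Polynomial.eval_monomial]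

omit [NumberField K] in
theorem lamX_smul {n : ℕ} (v : AbsoluteValue K ℝ) (e : ℕ) (P : Fin 3 → K) (X : Fin n → K) (l : K)
    {t : K} (ht : t ≠ 0) : lamX v e P (t • X) (t * l) = lamX v e P X l := by
  have h1 : (⨆ i, v ((t • X) i)) = v t * ⨆ i, v (X i) := by
    rw [Real.mul_iSup_of_nonneg (v.nonneg t)]
    simp
  have h2 := (v.pos ht).ne'
  unfold lamX
  rw [h1, map_mul]
  congr 1
  by_cases hl : v l = 0
  · simp [hl]
  · field_simp

theorem vojtaH (W : WeierstrassCurve ℚ) [W.IsElliptic] {n q : ℕ} (L : Fin q → Fin n → PK K)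
    (e : Fin q → ℕ) {ε : ℝ} (hε : 0 < ε) : ∃ (d : ℕ) (F : MvPolynomial (Fin n) (Polynomial K)),
      F ≠ 0 ∧ F.IsHomogeneous d ∧
      ∀ S : Finset (FinitePlace K), ∃ C : ℝ, ∀ (x y : K) (X : Fin n → K)
        (J : Pl S → Finset (Fin q)), (W.map (algebraMap ℚ K)).toAffine.Equation x y →
        eval₂ (Polynomial.evalRingHom x) X F ≠ 0 →
        (∀ p, GenPos (fun j l => eval ![x, y] (L j l)) (J p)) →
        (∀ p, ∀ j ∈ J p, ∑ l, eval ![x, y] (L j l) * X l ≠ 0) →
        ∑ p, mu p * ∑ j ∈ J p, lamX (av p) (e j) ![x, y, 1] X (∑ l, eval ![x, y] (L j l) * X l) ≤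
          n * logHeight X + ε * (logHeight₁ x + logHeight X) + C := by
  obtain ⟨Θ, h0, hΘ⟩ := vojtaX (K := K) W L e hε
  obtain ⟨d, F, h1, h2, h3⟩ := exists_hom h0
  refine ⟨d, F, h1, h2, fun S => ?_⟩
  obtain ⟨C, hC⟩ := hΘ S
  refine ⟨C, fun x y X J h4 h5 h6 h7 => ?_⟩
  obtain ⟨t, ht, h8⟩ := h3 x X h5
  have h9 : ∀ j, ∑ l, eval ![x, y] (L j l) * (t • X) l = t * ∑ l, eval ![x, y] (L j l) * X l := by
    intro j
    rw [Finset.mul_sum]
    exact Finset.sum_congr rfl fun l _ => by simp only [Pi.smul_apply, smul_eq_mul]; ring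
  have h := hC x y (t • X) J h4 h8 h6 fun p j hj => (h9 j).symm ▸ mul_ne_zero ht (h7 p j hj)
  simp only [h9, lamX_smul _ _ _ _ _ ht, logHeight_smul_eq_logHeight X ht] at h
  exact h

end Pool.Agent.Lib.MP_651af7_nt.Es
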