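import Pool.Agent.Lib.MP_651af7_nt.Es.Defs
import Pool.Agent.Lib.MP_651af7_nt.Rt.Half
import Pool.Agent.Lib.MP_651af7_nt.P1Sig
import Pool.Agent.Lib.MP_651af7_nt.P1Core
import Pool.Agent.Lib.MP_651af7_nt.FinRed

/-! Pull-back along multiplication by a power of two followed by a translation. -/

namespace Pool.Agent.Lib.MP_651af7_nt.Es

open Finset Matrix Height NumberField Pool.Agent.Lib.MP_e97e2b_nt Pool.Agent.Lib.MP_651af7_nt.Iv
  Pool.Agent.Lib.MP_651af7_nt.Vj Pool.Agent.Lib.MP_651af7_nt.Vj.P1 Pool.Agent.Lib.MP_651af7_nt.Rt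
  Pool.Agent.Lib.Common.Subspace
open Pool.Agent.Lib.MP_8865d3_nt.Fa (Small Adm wt)

variable {K : Type} [Field K] [NumberField K] {a b : ℤ}

theorem pull_cosets_aux {G : Type} [AddCommGroup G] (hG : AddGroup.FG G) {n : ℕ} (hn : n ≠ 0) :
    ∃ Ts : Finset G, ∀ P, ∃ T ∈ Ts, ∃ R, P = n • R + T := by
  classical
  let H : AddSubgroup G := (nsmulAddMonoidHom n : G →+ G).range
  have hfg : AddGroup.FG (G ⧸ H) :=
    AddGroup.fg_of_surjective (f := QuotientAddGroup.mk' H) (QuotientAddGroup.mk'_surjective H)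
  have htor : IsAddTorsion (G ⧸ H) := by
    intro q
    obtain ⟨g, rfl⟩ := QuotientAddGroup.mk'_surjective H q
    refine isOfFinAddOrder_iff_nsmul_eq_zero.2 ⟨n, Nat.pos_of_ne_zero hn, ?_⟩
    rw [← map_nsmul]
    exact (QuotientAddGroup.eq_zero_iff _).2 ⟨g, rfl⟩
  have hfin : Finite (G ⧸ H) := AddCommGroup.finite_of_fg_isAddTorsion _ htor
  have := Fintype.ofFinite (G ⧸ H)
  refine ⟨univ.image fun q : G ⧸ H => q.out, fun P => ⟨(P : G ⧸ H).out,
    mem_image_of_mem _ (mem_univ _), ?_⟩⟩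
  have h1 : -(P : G ⧸ H).out + P ∈ H := QuotientAddGroup.eq.1 (QuotientAddGroup.out_eq' _)
  obtain ⟨R, hR⟩ := h1
  refine ⟨R, ?_⟩
  have h2 : n • R = -(P : G ⧸ H).out + P := hR
  rw [h2]
  abel

/- `MW.fg` (as in `ht_par`, `ht_euclid` of `VjIface`); the quotient by the multiples of `2 ^ s` is finitely
generated and torsion, hence finite (`AddCommGroup.finite_of_fg_torsion`). -/
theorem exists_cosets (hD : 4 * a ^ 3 + 27 * b ^ 2 ≠ 0) (s : ℕ) :
    ∃ Ts : Finset (Pt (a : K) (b : K)), ∀ P, ∃ T ∈ Ts, ∃ R, P = 2 ^ s • R + T := by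
  have := isElliptic (A := (a : K)) (B := b) (by exact_mod_cast hD)
  exact pull_cosets_aux (G := Pt (a : K) (b : K))
    (@Pool.Agent.MP_651af7_nt.MW.fg K _ _ (Classical.decEq K) (sw (a : K) (b : K)) this)
    (pow_ne_zero s two_ne_zero)

/- `ht_two_pow`, `ht_par` for `P + T` and `P - T`, `ht_nonneg`. -/
theorem ht_pull (hD : 4 * a ^ 3 + 27 * b ^ 2 ≠ 0) (s : ℕ) (T : Pt (a : K) (b : K)) :
    ∃ C : ℝ, ∀ R : Pt (a : K) (b : K), 4 ^ s * ht R ≤ 2 * ht (2 ^ s • R + T) + C := by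
  obtain ⟨C₁, h₁⟩ := ht_two_pow (A := (a : K)) (B := b) (by exact_mod_cast hD)
  obtain ⟨C₂, h₂⟩ := ht_par (A := (a : K)) (B := b) (by exact_mod_cast hD)
  refine ⟨C₁ * 4 ^ s + C₂ + 2 * ht T, fun R => ?_⟩
  have h3 := (abs_le.1 (h₁ R s)).1
  have h4 := (abs_le.1 (h₂ (2 ^ s • R + T) T)).2
  rw [add_sub_cancel_right] at h4
  linarith [ht_nonneg (2 ^ s • R + T + T)]

/- A point is determined by its coordinates (`pt_spec`), and `y` is a root of `Y ^ 2 - C (fc a b x)`. -/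
theorem fin_xc (Z : Finset K) : {R : Pt (a : K) (b : K) | R = 0 ∨ xc R ∈ Z}.Finite := by
  classical
  have h1 : ∀ x : K, {y : K | y ^ 2 = x ^ 3 + a * x + b}.Finite := by
    intro x
    have h2 : (Polynomial.X ^ 2 - Polynomial.C (x ^ 3 + a * x + b) : Polynomial K) ≠ 0 :=
      Polynomial.X_pow_sub_C_ne_zero two_pos _
    refine (Polynomial.finite_setOfPred_isRoot h2).subset fun y hy => ?_
    simp only [Set.mem_ofPred_eq, Polynomial.IsRoot.def, Polynomial.eval_sub, Polynomial.eval_pow,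
      Polynomial.eval_X, Polynomial.eval_C] at hy ⊢
    exact sub_eq_zero.2 hy
  have h3 : {R : Pt (a : K) (b : K) | R ≠ 0 ∧ xc R ∈ Z}.Finite := by
    refine Set.Finite.of_finite_image (f := fun R => (xc R, yc R)) ?_ ?_
    · refine (Z.finite_toSet.biUnion fun x _ => (h1 x).image (Prod.mk x)).subset ?_
      rintro _ ⟨R, ⟨hR, hZ⟩, rfl⟩
      obtain ⟨h', -⟩ := pt_spec hR
      exact Set.mem_biUnion hZ ⟨yc R, h'.1, rfl⟩
    · rintro R ⟨hR, -⟩ R' ⟨hR', -⟩ e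
      obtain ⟨h, e1⟩ := pt_spec hR
      obtain ⟨h', e2⟩ := pt_spec hR'
      rw [e1, e2]
      exact pt_inj.2 (Prod.mk.inj e)
  refine (h3.insert 0).subset fun R hR => ?_
  by_cases h0 : R = 0
  · exact Or.inl h0
  · exact Or.inr ⟨h0, hR.resolve_left h0⟩

/- `exists_dbl_poly` (`Rt/Half`), `dbl_pt` (`P1Law`), `map_dbl`.  `2 ^ s • R ≠ 0` and `2 ^ s • R ≠ ± T` hold outside
a finite set, for instance because `ht (2 ^ s • R)` is large when `ht R` is (`ht_two_pow`; Northcott: `MW.finite_hx_le`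
or the finiteness of `{x | logHeight₁ x ≤ B}`).  If `T = 0` take `Dn = B ^ 2`.  Otherwise `sub_aff`
(`Rt/Half`) for `2 ^ s • R - (-T)`, denominators cleared by a power of `B`. -/
theorem exists_pull (hD : 4 * a ^ 3 + 27 * b ^ 2 ≠ 0) (s : ℕ) (T : Pt (a : K) (b : K)) :
    ∃ (A B Dn : PK K) (Z : Finset K), ∀ R : Pt (a : K) (b : K), R ≠ 0 → xc R ∉ Z →
      ev R Dn ≠ 0 ∧ ev R A = ev R Dn * xc (2 ^ s • R + T) ∧
        ev R B = ev R Dn * yc (2 ^ s • R + T) := by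
  have hD' : 4 * (a : K) ^ 3 + 27 * (b : K) ^ 2 ≠ 0 := by exact_mod_cast hD
  obtain ⟨C, hC⟩ := ht_two_pow hD'
  have hfin := NumberField.finite_setOfPred_logHeight₁_le (K := K) (C + ht T)
  obtain ⟨A₀, B₀, T₀, hd⟩ : ∃ A₀ B₀ T₀ : PK K, ∀ x y : K, dbl (a : K) (b : K) x s =
      (MvPolynomial.eval ![x, y] A₀, MvPolynomial.eval ![x, y] B₀, MvPolynomial.eval ![x, y] T₀) := by
    refine ⟨(dbl (MvPolynomial.C (a : K)) (MvPolynomial.C (b : K)) (MvPolynomial.X 0) s).1,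
      (dbl (MvPolynomial.C (a : K)) (MvPolynomial.C (b : K)) (MvPolynomial.X 0) s).2.1,
      (dbl (MvPolynomial.C (a : K)) (MvPolynomial.C (b : K)) (MvPolynomial.X 0) s).2.2,
      fun x y => ?_⟩
    have hm := map_dbl (MvPolynomial.eval ![x, y] : PK K →+* K) (MvPolynomial.C (a : K))
      (MvPolynomial.C (b : K)) (MvPolynomial.X 0) s
    rw [MvPolynomial.eval_C, MvPolynomial.eval_C, MvPolynomial.eval_X] at hm
    exact hm
  have key : ∀ R : Pt (a : K) (b : K), R ≠ 0 → xc R ∉ hfin.toFinset →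
      ∃ (xs ys : K) (hs : NS (a : K) (b : K) xs ys), 2 ^ s • R = pt xs ys hs ∧ xs ≠ xc T ∧
        ev R B₀ ≠ 0 ∧ ev R A₀ = xs * ev R B₀ ∧ yc R * ev R T₀ = ys * ev R B₀ ^ 2 := by
    intro R hR hZ
    have h1 : C + ht T < ht R := by
      rw [Set.Finite.mem_toFinset] at hZ
      exact not_le.1 hZ
    have h2 : ht T < ht (2 ^ s • R) := by
      have h3 := (abs_le.1 (hC R s)).1
      have h4 : (1 : ℝ) ≤ 4 ^ s := one_le_pow₀ (by norm_num)
      have h5 := mul_le_mul_of_nonneg_right h4 (show 0 ≤ ht R - C by linarith [ht_nonneg T])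
      linarith
    have h0 : 2 ^ s • R ≠ 0 := by
      intro e
      rw [e] at h2
      have h6 : ht (0 : Pt (a : K) (b : K)) = 0 := logHeight₁_zero
      linarith [ht_nonneg T]
    have hx : xc (2 ^ s • R) ≠ xc T := by
      intro e
      unfold ht at h2
      rw [e] at h2
      exact lt_irrefl _ h2
    rcases R.cases with rfl | ⟨x, y, h, rfl⟩
    · exact absurd rfl hR
    obtain ⟨hB, k1, k2⟩ := dbl_pt h s h0
    rcases (2 ^ s • pt x y h).cases with e | ⟨xs, ys, hs, e⟩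
    · exact absurd e h0
    rw [e] at k1 k2 hx
    rw [xc_pt] at k1 hx
    rw [yc_pt] at k2
    rw [hd x y] at hB k1 k2
    simp only at hB k1 k2
    refine ⟨xs, ys, hs, e, hx, hB, ?_, ?_⟩
    · simp only [ev, xc_pt, yc_pt]
      rw [k1, div_mul_cancel₀ _ hB]
    · simp only [ev, xc_pt, yc_pt]
      rw [k2, div_mul_cancel₀ _ (pow_ne_zero 2 hB)]
  have hY : ∀ R : Pt (a : K) (b : K), ev R (MvPolynomial.X 1) = yc R := fun R => by simp [ev]
  have hmul : ∀ (R : Pt (a : K) (b : K)) (f g : PK K), ev R (f * g) = ev R f * ev R g :=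
    fun R f g => map_mul _ _ _
  have hpow : ∀ (R : Pt (a : K) (b : K)) (f : PK K) (n : ℕ), ev R (f ^ n) = ev R f ^ n :=
    fun R f n => map_pow _ _ _
  have hadd : ∀ (R : Pt (a : K) (b : K)) (f g : PK K), ev R (f + g) = ev R f + ev R g :=
    fun R f g => map_add _ _ _
  have hsub : ∀ (R : Pt (a : K) (b : K)) (f g : PK K), ev R (f - g) = ev R f - ev R g :=
    fun R f g => map_sub _ _ _
  have hc : ∀ (R : Pt (a : K) (b : K)) (c : K), ev R (MvPolynomial.C c) = c :=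
    fun R c => MvPolynomial.eval_C c
  rcases T.cases with rfl | ⟨u, w, hu, rfl⟩
  · refine ⟨A₀ * B₀, MvPolynomial.X 1 * T₀, B₀ ^ 2, hfin.toFinset, fun R hR hZ => ?_⟩
    obtain ⟨xs, ys, hs, e, -, hB, k1, k2⟩ := key R hR hZ
    rw [add_zero, e, xc_pt, yc_pt]
    simp only [hmul, hpow, hY]
    refine ⟨pow_ne_zero 2 hB, ?_, ?_⟩
    · rw [k1]
      ring
    · rw [k2]
      ring
  · obtain ⟨E, hE⟩ : ∃ E : PK K, E = A₀ - MvPolynomial.C u * B₀ := ⟨_, rfl⟩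
    obtain ⟨N, hN⟩ : ∃ N : PK K, N = (A₀ + MvPolynomial.C u * B₀) *
        (A₀ * MvPolynomial.C u + MvPolynomial.C (a : K) * B₀) + MvPolynomial.C (2 * b : K) * B₀ ^ 2 -
        MvPolynomial.C (2 * w) * (MvPolynomial.X 1 * T₀) := ⟨_, rfl⟩
    refine ⟨N * E * B₀ ^ 2, (MvPolynomial.X 1 * T₀ - MvPolynomial.C w * B₀ ^ 2) *
      (A₀ * E ^ 2 - N * B₀) - MvPolynomial.X 1 * T₀ * E ^ 3, E ^ 3 * B₀ ^ 2, hfin.toFinset,
      fun R hR hZ => ?_⟩
    obtain ⟨xs, ys, hs, e, hx, hB, k1, k2⟩ := key R hR hZ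
    rw [xc_pt] at hx
    obtain ⟨l1, l2⟩ := sub_aff hs hu.neg hx
    rw [← neg_pt hu, sub_neg_eq_add] at l1 l2
    rw [e]
    have hE' : ev R E = (xs - u) * ev R B₀ := by
      rw [hE]
      simp only [hmul, hsub, hc]
      rw [k1]
      ring
    have hN' : ev R N = ((xs + u) * (xs * u + a) + 2 * b + 2 * ys * -w) * ev R B₀ ^ 2 := by
      rw [hN]
      simp only [hmul, hsub, hadd, hpow, hc, hY]
      rw [k1, k2]
      ring
    simp only [hmul, hsub, hpow, hc, hY]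
    rw [hE', hN', k1, k2]
    refine ⟨mul_ne_zero (pow_ne_zero 3 (mul_ne_zero (sub_ne_zero.2 hx) hB)) (pow_ne_zero 2 hB),
      ?_, ?_⟩
    · linear_combination (-((xs - u) * ev R B₀ ^ 5)) * l1
    · linear_combination (-(ev R B₀ ^ 5)) * l2

/- `φ g = ∑ μ ∈ g.support, C (coeff μ g) * A ^ μ 0 * B ^ μ 1 * Dn ^ (N - μ 0 - μ 1)`. -/
theorem pull_poly (A B Dn : PK K) (N : ℕ) : ∃ φ : PK K → PK K, ∀ g : PK K, g.totalDegree ≤ N →
    ∀ (R P : Pt (a : K) (b : K)), ev R A = ev R Dn * xc P → ev R B = ev R Dn * yc P →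
      ev R (φ g) = ev R Dn ^ N * ev P g := by
  refine ⟨fun g => ∑ μ ∈ g.support, MvPolynomial.C (MvPolynomial.coeff μ g) * A ^ μ 0 * B ^ μ 1 *
    Dn ^ (N - μ 0 - μ 1), fun g hg R P hA hB => ?_⟩
  have hP : ev P g = ∑ μ ∈ g.support, MvPolynomial.coeff μ g * (xc P ^ μ 0 * yc P ^ μ 1) := by
    rw [ev, MvPolynomial.eval_eq']
    simp [Fin.prod_univ_two]
  rw [hP, Finset.mul_sum]
  unfold ev at hA hB ⊢
  rw [map_sum]
  refine Finset.sum_congr rfl fun μ hμ => ?_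
  have h1 : μ 0 + μ 1 ≤ N := by
    have := (MvPolynomial.le_totalDegree hμ).trans hg
    rwa [Finsupp.sum_fintype _ _ (fun _ => rfl), Fin.sum_univ_two] at this
  obtain ⟨t, rfl⟩ := Nat.exists_eq_add_of_le h1
  rw [map_mul, map_mul, map_mul, map_pow, map_pow, map_pow, MvPolynomial.eval_C, hA, hB,
    show μ 0 + μ 1 + t - μ 0 - μ 1 = t by omega]
  ring

open MvPolynomial in
/- Copy the proof of `Fa.exists_short_inv` (`FaFin`). -/
theorem exists_short_aff (W : WeierstrassCurve ℚ) [W.IsElliptic] :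
    ∃ (a b : ℤ) (C : ℝ) (φ : Fin 2 → PK K) (u r : K), 4 * a ^ 3 + 27 * b ^ 2 ≠ 0 ∧ u ≠ 0 ∧
      ∀ x y : K, (W.map (algebraMap ℚ K)).toAffine.Equation x y →
        ∃ P : Pt (a : K) (b : K), P ≠ 0 ∧ ht P ≤ logHeight₁ x + C ∧ xc P = u * x + r ∧
          ∀ i, ev P (φ i) = ![x, y] i := by
  obtain ⟨a, b, u, hu, hD, ha, hb⟩ := Pool.Agent.MP_651af7_nt.Final.exists_short W
  set V := W.map (algebraMap ℚ K) with hV
  set z := algebraMap ℚ K u with hz
  have hz0 : z ≠ 0 := (map_ne_zero _).mpr hu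
  have ha' : (a : K) = z ^ 4 * (-V.c₄ / 48) := by
    have := congrArg (algebraMap ℚ K) ha
    simpa [hV, hz] using this
  have hb' : (b : K) = z ^ 6 * (-V.c₆ / 864) := by
    have := congrArg (algebraMap ℚ K) hb
    simpa [hV, hz] using this
  refine ⟨a, b, totalWeight K * Real.log 2 + logHeight₁ (z ^ 2) + logHeight₁ (z ^ 2 * (V.b₂ / 12)),
    ![C (z ^ 2)⁻¹ * X 0 - C (V.b₂ / 12), C (z ^ 3)⁻¹ * X 1 -
      C (V.a₁ / 2) * (C (z ^ 2)⁻¹ * X 0 - C (V.b₂ / 12)) - C (V.a₃ / 2)], z ^ 2,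
    z ^ 2 * (V.b₂ / 12), hD, pow_ne_zero _ hz0, fun x y he => ?_⟩
  have he' := (V.toAffine.equation_iff x y).mp he
  have h1 : NS (a : K) (b : K) (z ^ 2 * x + z ^ 2 * (V.b₂ / 12))
      (z ^ 3 * (y + (V.a₁ * x + V.a₃) / 2)) := by
    refine ns_of_eq two_ne_zero (by exact_mod_cast hD) ?_
    rw [ha', hb']
    simp only [WeierstrassCurve.c₄, WeierstrassCurve.c₆, WeierstrassCurve.b₂, WeierstrassCurve.b₄,
      WeierstrassCurve.b₆]
    linear_combination z ^ 6 * he'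
  refine ⟨pt _ _ h1, pt_ne_zero _, ?_, rfl, fun i => ?_⟩
  · have h2 := logHeight₁_add_le (z ^ 2 * x) (z ^ 2 * (V.b₂ / 12))
    have h3 := logHeight₁_mul_le (z ^ 2) x
    rw [ht, xc_pt]
    linarith
  · fin_cases i
    · simp [ev]
      field_simp
      ring
    · simp [ev]
      field_simp
      ring

end Pool.Agent.Lib.MP_651af7_nt.Es
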