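import Pool.Agent.Lib.MP_651af7_nt.Es.Short
import Pool.Agent.Lib.MP_651af7_nt.Es.Pull

/-! The inequality for systems of independent forms on a short curve. -/

namespace Pool.Agent.Lib.MP_651af7_nt.Es

open Finset Matrix Height NumberField Pool.Agent.Lib.MP_e97e2b_nt Pool.Agent.Lib.MP_651af7_nt.Iv
  Pool.Agent.Lib.MP_651af7_nt.Vj Pool.Agent.Lib.MP_651af7_nt.Vj.P1 Pool.Agent.Lib.MP_651af7_nt.Rt
  Pool.Agent.Lib.Common.Subspace
open Pool.Agent.Lib.MP_8865d3_nt.Fa (Small Adm wt)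

variable {K : Type} [Field K] [NumberField K] {a b : ℤ}

theorem main_lx {ι : Type} [Fintype ι] (v : AbsoluteValue K ℝ) {x : ι → K} (hx : x ≠ 0) {c l : K}
    (hc : c ≠ 0) (hl : l ≠ 0) : lx v x l = lx v x (c * l) + Real.log (v c) := by
  obtain ⟨i, hi⟩ := Function.ne_iff.1 hx
  have h1 : 0 < ⨆ i, v (x i) :=
    (v.pos hi).trans_le (le_ciSup (f := fun i => v (x i)) (Finite.bddAbove_range _) i)
  unfold lx
  rw [map_mul, Real.log_div h1.ne' (v.pos hl).ne',
    Real.log_div h1.ne' (mul_pos (v.pos hc) (v.pos hl)).ne',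
    Real.log_mul (v.pos hc).ne' (v.pos hl).ne']
  ring

theorem main_vol {S : Finset (FinitePlace K)} {n : ℕ} (f g : Pl S → Fin n → ℝ) (c : Pl S → ℝ)
    (h : ∀ p l, f p l ≤ g p l + c p) : vol f ≤ vol g + ∑ p, mu p * (n * c p) := by
  unfold vol
  rw [← sum_add_distrib]
  refine sum_le_sum fun p _ => ?_
  rw [← mul_add]
  refine mul_le_mul_of_nonneg_left ?_ (Nat.cast_nonneg _)
  refine (sum_le_sum fun l _ => h p l).trans ?_
  rw [sum_add_distrib]
  simp

theorem main_XC {σ : Type} (o : σ) (u : K) :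
    (MvPolynomial.X o - MvPolynomial.C u : MvPolynomial σ K) ≠ 0 := by
  intro h
  have := congrArg (MvPolynomial.eval fun _ => u + 1) h
  simp at this

theorem main_small (a b : ℤ) {n : ℕ} {S : Finset (FinitePlace K)}
    (M : Pl S → Matrix (Fin n) (Fin n) (PK K)) (Q : ℝ) :
    ∃ C : ℝ, ∀ (P : Pt (a : K) (b : K)) (x : Fin n → K), ht P + logHeight x ≤ Q →
      (∀ p l, (evM P (M p) *ᵥ x) l ≠ 0) →
      vol (fun p l => lx (av p) x ((evM P (M p) *ᵥ x) l)) ≤ C := by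
  obtain ⟨Cc, hCc, Hc⟩ := crude (K := K) (Fin n)
  choose Ce hCe He using fun t : Pl S × Fin n × Fin n => ht_ev a b (M t.1 t.2.1 t.2.2)
  set E : ℝ := ∑ t, Ce t with hE
  have hE0 : 0 ≤ E := sum_nonneg fun t _ => hCe t
  refine ⟨∑ p : Pl S, mu p * (n * (Cc * (1 + E * (1 + Q) + Q))), fun P x hQ hx => ?_⟩
  have h1 := ht_nonneg P
  have h2 : 0 ≤ logHeight x := logHeight_nonneg x
  have := main_vol (fun p l => lx (av p) x ((evM P (M p) *ᵥ x) l)) (fun _ _ => 0)
    (fun _ => Cc * (1 + E * (1 + Q) + Q)) fun p l => by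
      rw [zero_add]
      refine (Hc (av p) (evM P (M p) l) x (E * (1 + Q)) (adm_av p)
        (mul_nonneg hE0 (by linarith)) (fun i => ?_) (hx p l)).trans ?_
      · refine (He (p, l, i) P).trans ?_
        exact mul_le_mul (single_le_sum (f := Ce) (fun t _ => hCe t) (mem_univ _)) (by linarith)
          (by linarith) hE0
      · exact mul_le_mul_of_nonneg_left (by linarith) hCc
  simpa [vol] using this

/- `short_core` with `δ = ε / 2` gives `κ₀`; take `s` with `4 ≤ κ₀ * 4 ^ s`, `Ts` from `exists_cosets`, `N` a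
bound for the degrees.  For `T ∈ Ts`: `A, B, Dn, Z₁` (`exists_pull`), `φ` (`pull_poly`), `Ws, Z₂` from
`short_core` for the image of `Ls` under `φ ∘ ·`.  `Θ` is the product of the polynomials of `descend` for
`(A, Dn, w)`, `w ∈ Ws`, and of the `X none - C u` for `u = xc (2 ^ s • R + T)` with `R = 0` or `xc R ∈ Z₁ ∪ Z₂`
(`fin_xc`).  Let `q = ht P + logHeight x`.  For bounded `q` use `crude`, `ht_ev`.  For large `q` write
`P = 2 ^ s • R + T`, `ht R ≤ κ₀ q` (`ht_pull`), `evM R ((M p).map φ) = ev R Dn ^ N • evM P (M p)`, so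
`lx (value at P) = lx (value at R) + N * log (av p (ev R Dn))` (here `x ≠ 0` unless `n = 0`); `abs_ev`. -/
theorem short_main (hD : 4 * a ^ 3 + 27 * b ^ 2 ≠ 0) (n : ℕ) (Ls : Finset (Fin n → PK K))
    {ε : ℝ} (hε : 0 < ε) : ∃ Θ : MvPolynomial (Option (Fin n)) K, Θ ≠ 0 ∧
      ∀ (S : Finset (FinitePlace K)) (M : Pl S → Matrix (Fin n) (Fin n) (PK K)),
        (∀ p l, M p l ∈ Ls) → ∃ C : ℝ, ∀ (P : Pt (a : K) (b : K)) (x : Fin n → K), P ≠ 0 →
          MvPolynomial.eval (fun o => o.elim (xc P) x) Θ ≠ 0 → (∀ p, (evM P (M p)).det ≠ 0) →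
          (∀ p l, (evM P (M p) *ᵥ x) l ≠ 0) →
          vol (fun p l => lx (av p) x ((evM P (M p) *ᵥ x) l)) ≤
            n * logHeight x + ε * (ht P + logHeight x) + C := by
  classical
  obtain ⟨κ₀, hκ, Hcore⟩ := short_core (K := K) hD n (half_pos hε)
  obtain ⟨s, hs⟩ := pow_unbounded_of_one_lt (4 / κ₀) (by norm_num : (1 : ℝ) < 4)
  have hs' : 4 ≤ κ₀ * 4 ^ s := by
    rw [div_lt_iff₀ hκ] at hs
    linarith
  obtain ⟨Ts, hTs⟩ := exists_cosets (K := K) hD s
  set N : ℕ := Ls.sup fun L => univ.sup fun i => (L i).totalDegree with hN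
  have hdeg : ∀ L ∈ Ls, ∀ i, (L i).totalDegree ≤ N := fun L hL i =>
    (le_sup (f := fun i => (L i).totalDegree) (mem_univ i)).trans
      (le_sup (f := fun L : Fin n → PK K => univ.sup fun i => (L i).totalDegree) hL)
  choose A B Dn Z₁ hpull using fun T : Pt (a : K) (b : K) => exists_pull hD s T
  choose φ hφ using fun T : Pt (a : K) (b : K) =>
    pull_poly (a := a) (b := b) (A T) (B T) (Dn T) N
  choose Ws Z₂ hcore using fun T : Pt (a : K) (b : K) => Hcore (Ls.image fun L i => φ T (L i))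
  choose Θd hΘd0 hΘd using fun (T : Pt (a : K) (b : K)) (w : Fin n → PK K) =>
    descend (a : K) (b : K) (A T) (Dn T) w
  choose C₁ hC₁ using fun T : Pt (a : K) (b : K) => ht_pull hD s T
  set Bd : Pt (a : K) (b : K) → Finset (Pt (a : K) (b : K)) :=
    fun T => (fin_xc (a := a) (b := b) (Z₁ T ∪ Z₂ T)).toFinset with hBd
  refine ⟨∏ T ∈ Ts, ((∏ w ∈ Ws T, Θd T w) *
    ∏ R ∈ Bd T, (MvPolynomial.X none - MvPolynomial.C (xc (2 ^ s • R + T)))), ?_, ?_⟩
  · exact prod_ne_zero_iff.2 fun T _ => mul_ne_zero (prod_ne_zero_iff.2 fun w _ => hΘd0 T w)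
      (prod_ne_zero_iff.2 fun R _ => main_XC _ _)
  intro S M hM
  choose H₀ hH₀ using fun T => hcore T S (fun p => (M p).map (φ T))
    fun p l => mem_image.2 ⟨M p l, hM p l, rfl⟩
  set m : ℝ := ∑ p : Pl S, (mu p : ℝ) with hm
  have hm0 : 0 ≤ m := sum_nonneg fun p _ => Nat.cast_nonneg _
  set W : ℝ := m * n * N * κ₀ with hW
  have hW0 : 0 ≤ W := by positivity
  set η : ℝ := ε / 2 / (W + 1) with hη
  have hη0 : 0 < η := by positivity
  have hηW : η * W ≤ ε / 2 := by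
    rw [hη, div_mul_eq_mul_div, div_le_iff₀ (by positivity)]
    nlinarith
  choose C₂ hC₂ H₂ using fun (T : Pt (a : K) (b : K)) (p : Pl S) =>
    abs_ev hD (adm_av p) (Dn T) hη0
  set Q : ℝ := ∑ T ∈ Ts, (|H₀ T| + |C₁ T|) with hQ
  obtain ⟨C₃, H₃⟩ := main_small a b M Q
  set C₄ : ℝ := ∑ T ∈ Ts, ∑ p : Pl S, mu p * (n * (N * C₂ T p)) with hC₄
  have hpos : ∀ T, 0 ≤ ∑ p : Pl S, (mu p : ℝ) * (n * (N * C₂ T p)) := fun T =>
    sum_nonneg fun p _ => by have := hC₂ T p; positivity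
  refine ⟨|C₃| + C₄, fun P x hP hΘ hdet hx => ?_⟩
  have h1 := ht_nonneg P
  have h2 : 0 ≤ logHeight x := logHeight_nonneg x
  have hC₄0 : 0 ≤ C₄ := sum_nonneg fun T _ => hpos T
  set q : ℝ := ht P + logHeight x with hq
  have hq0 : 0 ≤ q := add_nonneg h1 h2
  by_cases hsm : q ≤ Q
  · have a1 := H₃ P x hsm hx
    have a2 := le_abs_self C₃
    have a3 : 0 ≤ n * logHeight x := by positivity
    have a4 : 0 ≤ ε * q := by positivity
    linarith
  rw [not_le] at hsm
  obtain ⟨T, hT, R, hPR⟩ := hTs P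
  have hQT : |H₀ T| + |C₁ T| ≤ Q :=
    single_le_sum (f := fun T => |H₀ T| + |C₁ T|) (fun _ _ => by positivity) hT
  rw [map_prod, prod_ne_zero_iff] at hΘ
  have hΘT := hΘ T hT
  rw [map_mul, mul_ne_zero_iff, map_prod, map_prod, prod_ne_zero_iff, prod_ne_zero_iff] at hΘT
  have hR : ¬ (R = 0 ∨ xc R ∈ Z₁ T ∪ Z₂ T) := by
    intro h
    refine hΘT.2 R ((Set.Finite.mem_toFinset _).2 h) ?_
    rw [← hPR]
    simp
  rw [not_or, mem_union, not_or] at hR
  obtain ⟨hR0, hZ₁, hZ₂⟩ := hR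
  obtain ⟨hDn, hA, hB⟩ := hpull T R hR0 hZ₁
  rw [← hPR] at hA hB
  have hev : ∀ p, evM R ((M p).map (φ T)) = ev R (Dn T) ^ N • evM P (M p) := by
    intro p
    ext l i
    exact hφ T (M p l i) (hdeg _ (hM p l) i) R P hA hB
  have hc : ev R (Dn T) ^ N ≠ 0 := pow_ne_zero _ hDn
  have hval : ∀ p l, (evM R ((M p).map (φ T)) *ᵥ x) l =
      ev R (Dn T) ^ N * (evM P (M p) *ᵥ x) l := by
    intro p l
    rw [hev, smul_mulVec]
    rfl
  have hRq : ht R ≤ κ₀ * q := by
    have b1 := hC₁ T R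
    rw [← hPR] at b1
    have b2 := le_abs_self (C₁ T)
    have b3 := abs_nonneg (H₀ T)
    have b4 : 4 * q ≤ κ₀ * 4 ^ s * q := mul_le_mul_of_nonneg_right hs' hq0
    have b5 : (4 : ℝ) ^ s * ht R ≤ 4 ^ s * (κ₀ * q) := by linarith
    exact le_of_mul_le_mul_left b5 (by positivity)
  have key := hH₀ T q R x (by linarith [le_abs_self (H₀ T), abs_nonneg (C₁ T)]) hR0 hZ₂ hRq
    (by linarith)
    (fun p => by
      rw [hev, det_smul]
      exact mul_ne_zero (pow_ne_zero _ hc) (hdet p))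
    (fun p l => by
      rw [hval]
      exact mul_ne_zero hc (hx p l))
    (fun w hw => by
      by_contra hcon
      rw [not_or, not_not] at hcon
      have b1 := hΘd T w (xc R) (yc R) x (MP_8865d3_nt.Fa.onE_pt hR0) hDn hcon.1 hcon.2
      have b2 : MvPolynomial.eval ![xc R, yc R] (A T) / MvPolynomial.eval ![xc R, yc R] (Dn T) =
          xc P := by
        change ev R (A T) / ev R (Dn T) = xc P
        rw [hA, mul_div_cancel_left₀ _ hDn]
      rw [b2] at b1
      exact hΘT.1 w hw b1)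
  have hcmp := main_vol (fun p l => lx (av p) x ((evM P (M p) *ᵥ x) l))
    (fun p l => lx (av p) x ((evM R ((M p).map (φ T)) *ᵥ x) l))
    (fun p => N * (η * ht R + C₂ T p)) fun p l => by
      have hx0 : x ≠ 0 := by
        intro h
        refine hx p l ?_
        rw [h, mulVec_zero]
        rfl
      rw [main_lx (av p) hx0 hc (hx p l), hval, map_pow, Real.log_pow]
      have b1 : Real.log (av p (ev R (Dn T))) ≤ η * ht R + C₂ T p :=
        (Real.log_le_iff_le_exp ((av p).pos hDn)).2 (H₂ T p R hR0).1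
      exact add_le_add le_rfl (mul_le_mul_of_nonneg_left b1 (Nat.cast_nonneg _))
  have hsplit : ∑ p : Pl S, (mu p : ℝ) * (n * (N * (η * ht R + C₂ T p))) =
      m * n * N * (η * ht R) + ∑ p : Pl S, (mu p : ℝ) * (n * (N * C₂ T p)) := by
    rw [hm, sum_mul, sum_mul, sum_mul, ← sum_add_distrib]
    exact sum_congr rfl fun p _ => by ring
  have c1 : ∑ p : Pl S, (mu p : ℝ) * (n * (N * C₂ T p)) ≤ C₄ :=
    single_le_sum (f := fun T => ∑ p : Pl S, (mu p : ℝ) * (n * (N * C₂ T p)))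
      (fun T _ => hpos T) hT
  have c2 : m * n * N * (η * ht R) ≤ ε / 2 * q := by
    have d1 : m * n * N * (η * ht R) ≤ m * n * N * (η * (κ₀ * q)) :=
      mul_le_mul_of_nonneg_left (mul_le_mul_of_nonneg_left hRq hη0.le) (by positivity)
    have d2 : m * n * N * (η * (κ₀ * q)) = η * W * q := by
      rw [hW]
      ring
    have d3 : η * W * q ≤ ε / 2 * q := mul_le_mul_of_nonneg_right hηW hq0
    linarith
  have c3 := abs_nonneg C₃
  rw [hsplit] at hcmp
  linarith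

end Pool.Agent.Lib.MP_651af7_nt.Es
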