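import Pool.Agent.Lib.MP_651af7_nt.Es.Core
import Pool.Agent.Lib.MP_651af7_nt.Rt.P1

/-! Among well spaced, nearly proportional bad points one lies on a small curve. -/

namespace Pool.Agent.Lib.MP_651af7_nt.Es

open Finset Matrix Height NumberField Pool.Agent.Lib.MP_e97e2b_nt Pool.Agent.Lib.MP_651af7_nt.Iv
  Pool.Agent.Lib.MP_651af7_nt.Vj Pool.Agent.Lib.MP_651af7_nt.Vj.P1 Pool.Agent.Lib.MP_651af7_nt.Rt
  Pool.Agent.Lib.Common.Subspace
open Pool.Agent.Lib.MP_8865d3_nt.Fa (Small Adm wt)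

variable {K : Type} [Field K] [NumberField K] {S : Finset (FinitePlace K)} {a b : ℤ}
  {κ : Type} [Fintype κ] [DecidableEq κ]

/- As `count_ok` (`Rt/P1`). -/
theorem count_okX {m k₀ d N : ℕ} {δ n' : ℝ} (j e n : Fin m → ℕ) (hn : 0 ≤ n')
    (he : ∀ i, (e i : ℝ) ≤ n' * 4 ^ j i) (hd : 9 + 2 * k₀ * n' ≤ δ ^ 2 / 4 * (d + 1))
    (hm : 2 * N * (8 * ((2 * d + 2) * m + 1) * k₀) ≤ Real.exp (δ ^ 2 * m / 4)) {Lw : ℕ}
    (hL : (Lw : ℝ) ≤ N * (Real.exp (-(δ ^ 2 * m / 2)) * ∏ i, (n i : ℝ))) :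
    2 * (Lw * (∏ i, rk k₀ d (j i) (e i)) * (8 * ((2 * d + 2) * m + 1) * k₀)) ≤
      ∏ i, (2 * (d + 1) * 4 ^ j i * n i) := by
  have h1 : ∀ i, (rk k₀ d (j i) (e i) : ℝ) ≤ Real.exp (δ ^ 2 / 4) * (2 * (d + 1) * 4 ^ j i) := by
    intro i
    have e1 : (1 : ℝ) ≤ 4 ^ j i := one_le_pow₀ (by norm_num)
    have e0 : (0 : ℝ) ≤ 4 ^ j i := by positivity
    have e2 := mul_le_mul_of_nonneg_left (he i) (show (0 : ℝ) ≤ 2 * k₀ by positivity)
    have e3 := mul_le_mul_of_nonneg_right hd e0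
    have e4 := mul_le_mul_of_nonneg_right (Real.add_one_le_exp (δ ^ 2 / 4))
      (show (0 : ℝ) ≤ 2 * (d + 1) * 4 ^ j i by positivity)
    refine le_trans ?_ e4
    unfold rk
    push_cast
    linarith
  have h2 : ((∏ i, rk k₀ d (j i) (e i) : ℕ) : ℝ) ≤
      Real.exp (δ ^ 2 * m / 4) * ∏ i, (2 * (d + 1) * 4 ^ j i : ℝ) := by
    rw [Nat.cast_prod]
    refine (prod_le_prod (fun i _ => by positivity) fun i _ => h1 i).trans_eq ?_
    rw [prod_mul_distrib, prod_const, card_univ, Fintype.card_fin, ← Real.exp_nat_mul]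
    congr 2
    ring
  have hm' : 2 * (8 * ((2 * d + 2) * m + 1) * k₀) * (Lw : ℝ) ≤
      Real.exp (δ ^ 2 * m / 4) * (Real.exp (-(δ ^ 2 * m / 2)) * ∏ i, (n i : ℝ)) := by
    have a1 := mul_le_mul_of_nonneg_left hL
      (show (0 : ℝ) ≤ 2 * (8 * ((2 * d + 2) * m + 1) * k₀) by positivity)
    have a2 := mul_le_mul_of_nonneg_right hm
      (show (0 : ℝ) ≤ Real.exp (-(δ ^ 2 * m / 2)) * ∏ i, (n i : ℝ) by positivity)
    exact a1.trans (le_trans (le_of_eq (by ring)) a2)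
  have h3 := mul_le_mul hm' h2 (by positivity) (by positivity)
  have h4 : Real.exp (δ ^ 2 * m / 4) * Real.exp (-(δ ^ 2 * m / 2)) * Real.exp (δ ^ 2 * m / 4) =
      1 := by
    rw [← Real.exp_add, ← Real.exp_add, ← Real.exp_zero]
    congr 1
    ring
  have h5 : ((∏ i, (2 * (d + 1) * 4 ^ j i * n i) : ℕ) : ℝ) =
      (∏ i, (2 * (d + 1) * 4 ^ j i : ℝ)) * ∏ i, (n i : ℝ) := by
    rw [← prod_mul_distrib]
    push_cast
    rfl
  refine Nat.cast_le (α := ℝ).1 ?_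
  rw [h5]
  generalize (∏ i, rk k₀ d (j i) (e i) : ℕ) = R at h3 ⊢
  push_cast
  refine le_trans (le_of_eq (by ring)) (h3.trans_eq ?_)
  linear_combination ((∏ i, (2 * (d + 1) * 4 ^ j i : ℝ)) * ∏ i, (n i : ℝ)) * h4

/-- The choice of the parameters. -/
theorem paramsX (κ N : ℕ) {η δ δ₀ : ℝ} (hη : 0 < η) (δ0 : 0 < δ) (hδ : 0 < δ₀) :
    ∃ (θ : ℝ) (n d m : ℕ), 2 ≤ n ∧
      128 ≤ η * n ∧ 9 + 2 * κ * (2 * n / δ₀) ≤ δ ^ 2 / 4 * (d + 1) ∧ 0 < m ∧
      2 * N * (8 * ((2 * d + 2) * m + 1) * κ) ≤ Real.exp (δ ^ 2 * m / 4) ∧ 0 < θ ∧ θ < 1 ∧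
      32 * (d * θ) ≤ η * n := by
  obtain ⟨n, hn⟩ := exists_nat_ge (128 / η + 2)
  have u2 : 0 < 128 / η := by positivity
  have n1 : (2 : ℝ) ≤ n := by linarith
  have n3 : 128 ≤ η * n := (div_le_iff₀' hη).1 (by linarith)
  obtain ⟨d, hd⟩ := exists_nat_ge ((9 + 2 * κ * (2 * n / δ₀)) / (δ ^ 2 / 4))
  have d1 : 9 + 2 * κ * (2 * n / δ₀) ≤ δ ^ 2 / 4 * (d + 1) :=
    (div_le_iff₀' (by positivity)).1 (by linarith)
  obtain ⟨m, hm⟩ := exists_nat_ge (512 * N * κ * (2 * d + 3) / δ ^ 4 + 1)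
  have u3 : 0 ≤ 512 * N * κ * (2 * d + 3) / δ ^ 4 := by positivity
  have m1 : (1 : ℝ) ≤ m := by linarith
  have m2 : 512 * N * κ * (2 * d + 3) ≤ δ ^ 4 * m :=
    (div_le_iff₀' (by positivity)).1 (by linarith)
  refine ⟨1 / (d + 2), n, d, m, by exact_mod_cast n1, n3, d1,
    by exact_mod_cast (show (0 : ℝ) < m by linarith), ?_, by positivity, ?_, ?_⟩
  · have e1 := Real.quadratic_le_exp_of_nonneg (show 0 ≤ δ ^ 2 * m / 4 by positivity)
    have e2 := mul_le_mul_of_nonneg_right m2 (zero_le_one.trans m1)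
    have e3 := mul_le_mul_of_nonneg_left m1 (show (0 : ℝ) ≤ N * κ by positivity)
    have e4 : 0 ≤ δ ^ 2 * m / 4 := by positivity
    linarith
  · rw [div_lt_one (by positivity)]
    linarith [Nat.cast_nonneg (α := ℝ) d]
  · have : (d : ℝ) * (1 / (d + 2)) ≤ 1 := by
      rw [mul_one_div, div_le_one (by positivity)]
      linarith
    linarith

/-- The gain in the height inequality. -/
theorem gain_le [Nonempty κ] {cc : Pl S → κ → ℝ} {δ η η' V U : ℝ} (hv : vol cc ≤ -δ)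
    (hη : η * Fintype.card κ = δ) (η0 : 0 ≤ η) (hη' : (∑ p : Pl S, (mu p : ℝ)) * η' ≤ η / 4)
    (hU : 0 ≤ U) (hV : U / 2 ≤ V) :
    ∑ p, mu p * ((∑ l, cc p l) / Fintype.card κ * V + η' * U) ≤ -(η * U / 4) := by
  have N0 : (0 : ℝ) < Fintype.card κ := by exact_mod_cast Fintype.card_pos
  have e1 : ∑ p, mu p * ((∑ l, cc p l) / Fintype.card κ * V + η' * U) =
      vol cc / Fintype.card κ * V + (∑ p : Pl S, (mu p : ℝ)) * η' * U := by
    rw [vol, sum_div, sum_mul, sum_mul, sum_mul, ← sum_add_distrib]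
    exact sum_congr rfl fun p _ => by ring
  have e2 : vol cc / Fintype.card κ ≤ -η := by
    rw [div_le_iff₀ N0]
    linarith
  have e3 := mul_le_mul_of_nonneg_right e2 (show 0 ≤ V by linarith)
  have e4 := mul_le_mul_of_nonneg_right hη' hU
  have e5 := mul_le_mul_of_nonneg_left hV η0
  rw [e1]
  linarith

/- Port of `phaseR` (`Rt/P1`).  Let `η = δ / card κ`, `μ = ∑ p, mu p`, `η' = η / (4 (μ + 1))`,
`δ₁ = η' / (2 Γ)` (so that `card_bad` gives the factor `exp (-(δ₁ ^ 2 m / 2))`), `n ≥ 2`, `n ≥ 128 / η`,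
`W = n * q none`, `e i = ⌊W / q (some i)⌋₊` (so `W / 2 ≤ e i * q (some i) ≤ W`), `w = q`,
`L p = (∑ l, cc p l) / card κ * ∑ i, e i * q (some i) + η' * m * W`; then
`-∑ p, mu p * L p ≥ η m W / 2 - η m W / 4`.  `n' = 2 n / δ₀`; `d, m, θ, D` as in `phaseR`; the parameter of
the zero lemma is `m n η / (32 k₀ Γ D₀)`, `s = min 1 (η / (32 k₀))`. -/
theorem phaseX [Nonempty κ] (hD : 4 * a ^ 3 + 27 * b ^ 2 ≠ 0) (M : Pl S → Matrix κ κ (PK K))
    {j₀ α β : κ} (hαβ : α ≠ β) {δ δ₀ Γ : ℝ} (hδ : 0 < δ) (hδ₀ : 0 < δ₀) (hΓ : 1 ≤ Γ)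
    {cc : Pl S → κ → ℝ} (hc : ∀ p l, |cc p l| ≤ Γ) (hv : vol cc ≤ -δ) :
    ∃ (m Bd : ℕ) (θ lam s : ℝ), 0 < θ ∧ 0 < s ∧ s ≤ 1 ∧ ∀ ε : ℝ, 0 < ε → ∃ H₀ : ℝ,
      ∀ (q : Option (Fin m) → ℝ) (X : Option (Fin m) → Pt (a : K) (b : K) × K)
        (Y : Fin m → Matrix κ κ K) (j : Fin m → ℕ),
        (∀ o, H₀ ≤ q o) → (∀ i i', i < i' → lam * q (some i) ≤ q (some i')) →
        (∀ i, lam * q (some i) ≤ q none) → (∀ o, δ₀ * q o ≤ ht (X o).1) →
        (∀ o, ht (X o).1 ≤ q o) →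
        (∀ i, Blk (fun p => evM (X (some i)).1 (M p)) j₀ cc Γ s (q (some i)) (Y i)) →
        (∀ i, nv (Y i) j₀ α ≠ 0) → (∀ i, (X (some i)).2 = rt (Y i) j₀ α β) →
        (∀ i (p : Pl S), SmP (av p) (s * q (some i)) (X (some i)).1) →
        (∀ i, CloseR θ (j i) (X (some i)).1 (X none).1) →
        ∃ o, SpecX Bd (ε * q o) (X o).1 (X o).2 := by
  obtain ⟨k₀, κ1, H⟩ := core_ineqX hD M (j₀ := j₀) hαβ
  have N0 : (0 : ℝ) < Fintype.card κ := by exact_mod_cast Fintype.card_pos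
  obtain ⟨η, hη₀⟩ : ∃ η : ℝ, η = δ / Fintype.card κ := ⟨_, rfl⟩
  have hη : 0 < η := by rw [hη₀]; positivity
  have hη1 : η * Fintype.card κ = δ := by rw [hη₀]; field_simp
  obtain ⟨μ, hμ⟩ : ∃ μ : ℝ, μ = ∑ p : Pl S, (mu p : ℝ) := ⟨_, rfl⟩
  have μ0 : 0 ≤ μ := by rw [hμ]; positivity
  obtain ⟨η', hη'⟩ : ∃ η' : ℝ, η' = η / (4 * (μ + 1)) := ⟨_, rfl⟩
  have η1 : 0 < η' := by rw [hη']; positivity
  have η2 : μ * η' ≤ η / 4 := by
    have : (μ + 1) * η' = η / 4 := by rw [hη']; field_simp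
    linarith
  have Γ0 : 0 < Γ := by linarith
  obtain ⟨δ₁, hδ₁⟩ : ∃ δ₁ : ℝ, δ₁ = η' / (2 * Γ) := ⟨_, rfl⟩
  have δ1 : 0 < δ₁ := by rw [hδ₁]; positivity
  obtain ⟨θ, n, d, m, n1, n3, d1, m0, m1, θ0, θ1, θ2⟩ :=
    paramsX k₀ (Fintype.card (Pl S)) hη δ1 hδ₀
  have δ2 : η' ^ 2 * m / (8 * Γ ^ 2) = δ₁ ^ 2 * m / 2 := by
    rw [hδ₁]
    field_simp
    ring
  have hD' : 4 * (a : K) ^ 3 + 27 * (b : K) ^ 2 ≠ 0 := by exact_mod_cast hD
  obtain ⟨Cp, hCp⟩ := ht_par hD'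
  obtain ⟨Ct, hCt⟩ := ht_two_pow hD'
  have κ0 : (0 : ℝ) < k₀ := by exact_mod_cast κ1
  have n2 : (2 : ℝ) ≤ n := by exact_mod_cast n1
  have n0 : (1 : ℝ) ≤ n := by linarith
  have mR : (1 : ℝ) ≤ m := by exact_mod_cast m0
  have d0 : (0 : ℝ) ≤ d := Nat.cast_nonneg d
  obtain ⟨r, hr⟩ : ∃ r : ℝ, r = 2 / δ₀ := ⟨_, rfl⟩
  have q0 : 0 < r := by rw [hr]; positivity
  have q1 : δ₀ * r = 2 := by rw [hr]; field_simp
  have q2 : 2 * n / δ₀ = n * r := by rw [hr]; ring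
  rw [q2] at d1
  obtain ⟨D₀, hD₀⟩ : ∃ D₀ : ℝ, D₀ = 2 * d * m + (2 * d + 1) * r + 2 + n := ⟨_, rfl⟩
  have D2 : (0 : ℝ) ≤ 2 * d * m := by positivity
  have D3 : (0 : ℝ) ≤ (2 * d + 1) * r := by positivity
  have D1 : 1 ≤ D₀ := by linarith
  obtain ⟨Bd, ζ, C, hζ, hC, H⟩ := H m d (m * n * η / (32 * k₀ * Γ * D₀)) m0 (by positivity)
  obtain ⟨s, hs⟩ : ∃ s : ℝ, s = min 1 (η / (32 * k₀)) := ⟨_, rfl⟩
  have s0 : 0 < s := by rw [hs]; positivity
  have s1 : s ≤ 1 := hs ▸ min_le_left _ _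
  have s2 : k₀ * s ≤ η / 32 := by
    have e1 : s ≤ η / (32 * k₀) := hs ▸ min_le_right _ _
    have e2 : (k₀ : ℝ) * (η / (32 * k₀)) = η / 32 := by field_simp
    exact e2 ▸ mul_le_mul_of_nonneg_left e1 κ0.le
  refine ⟨m, Bd, θ, max 1 (1 / ζ), s, θ0, s0, s1, fun ε hε => ?_⟩
  obtain ⟨C', hC'⟩ : ∃ C' : ℝ, C' = 2 * |Ct| + |Cp| := ⟨_, rfl⟩
  have C0 : 0 ≤ C' := by rw [hC']; positivity
  have C1 : Cp ≤ C' := by linarith [le_abs_self Cp, abs_nonneg Ct]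
  obtain ⟨ε₀, hε₀⟩ : ∃ ε₀ : ℝ, ε₀ = min 1 (ε / (Bd + 1)) := ⟨_, rfl⟩
  have ε1 : 0 < ε₀ := by rw [hε₀]; positivity
  have ε2 : ε₀ ≤ 1 := hε₀ ▸ min_le_left _ _
  have ε3 : Bd * ε₀ ≤ ε := by
    have : ε₀ * (Bd + 1) ≤ ε := (le_div_iff₀ (by positivity)).1 (hε₀ ▸ min_le_right _ _)
    linarith
  obtain ⟨H₀, H1, H2, H3, H4⟩ := exists_H₀ ε1 hδ₀ hη (C * (m * (r + n))) C'
    (32 * ((C + d * C') * (r + n)))
  have H5 : C ≤ ε₀ * H₀ := by
    refine le_trans (le_mul_of_one_le_right (by linarith) ?_) H2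
    exact one_le_mul_of_one_le_of_one_le mR (by linarith)
  refine ⟨H₀, fun q X Y j h1 h2 h3 h4 h5 h6 h7 h9 h10 h8 => ?_⟩
  have r1 : ∀ {u v : ℝ}, 0 ≤ u → max 1 (1 / ζ) * u ≤ v → u ≤ v ∧ u ≤ ζ * v := fun {u v} hu h => by
    have e1 := mul_le_mul_of_nonneg_right (le_max_left 1 (1 / ζ)) hu
    have e2 := mul_le_mul_of_nonneg_right (le_max_right 1 (1 / ζ)) hu
    refine ⟨by linarith, ?_⟩
    rw [← div_le_iff₀' hζ, div_eq_inv_mul, ← one_div]
    linarith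
  have w4 : ∀ o, Cp < ht (X o).1 := fun o => by
    have := mul_le_mul_of_nonneg_left (h1 o) hδ₀.le
    linarith [h4 o]
  have X0 : ∀ o, 0 < q o := fun o => H1.trans_le (h1 o)
  have Y0 := X0 none
  have XY : ∀ i, q (some i) ≤ q none := fun i => (r1 (X0 _).le (h3 i)).1
  have w8 : ∀ i, ht ((X none).1 - 2 ^ j i • (X (some i)).1) < ht (X none).1 := fun i => by
    have := mul_lt_mul_of_pos_right θ1 ((mul_pos hδ₀ Y0).trans_le (h4 none))
    linarith [(h8 i).1]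
  obtain ⟨e, he⟩ : ∃ e : Fin m → ℕ, e = fun i => ⌊n * q none / q (some i)⌋₊ := ⟨_, rfl⟩
  have W0 : 0 < n * q none := by positivity
  have f1 : ∀ i, e i * q (some i) ≤ n * q none := fun i => by
    rw [he]
    exact (le_div_iff₀ (X0 _)).1 (Nat.floor_le (div_pos W0 (X0 _)).le)
  have f2 : ∀ i, n * q none / 2 ≤ e i * q (some i) := fun i => by
    have e1 : n * q none < (e i + 1) * q (some i) := by
      rw [he]
      exact (div_lt_iff₀ (X0 _)).1 (Nat.lt_floor_add_one _)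
    have e2 := mul_le_mul_of_nonneg_right n2 Y0.le
    linarith [XY i]
  have f3 : ∀ i, 4 ^ j i * q (some i) ≤ r * q none := fun i => by
    have e1 := mul_le_mul_of_nonneg_left (h4 (some i)) (show (0 : ℝ) ≤ 4 ^ j i by positivity)
    have e2 : δ₀ * (r * q none) = 2 * q none := by rw [← mul_assoc, q1]
    refine le_of_mul_le_mul_left ?_ hδ₀
    linarith [(h8 i).2.2, h5 none]
  have f4 : ∀ i, (e i : ℝ) ≤ n * r * 4 ^ j i := fun i => by
    have e1 := mul_le_mul_of_nonneg_left (h5 (some i)) (show (0 : ℝ) ≤ 4 ^ j i by positivity)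
    have e2 : δ₀ * (r * (4 ^ j i * q (some i))) = 2 * (4 ^ j i * q (some i)) := by
      rw [← mul_assoc, q1]
    have e3 : q none ≤ r * (4 ^ j i * q (some i)) := by
      refine le_of_mul_le_mul_left ?_ hδ₀
      linarith [(h8 i).2.1, h4 none]
    have e4 := mul_le_mul_of_nonneg_left e3 (zero_le_one.trans n0)
    refine le_of_mul_le_mul_right ?_ (X0 (some i))
    linarith [f1 i]
  obtain ⟨T, hT⟩ : ∃ T : ℕ, T = ∑ i, (4 ^ j i + e i) := ⟨_, rfl⟩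
  have hT' : (T : ℝ) = ∑ i, ((4 : ℝ) ^ j i + e i) := by rw [hT]; push_cast; rfl
  have T1 : T * H₀ ≤ m * (r + n) * q none := by
    rw [hT', sum_mul]
    refine (sum_le_card_nsmul _ _ ((r + n) * q none) fun i _ => ?_).trans_eq (by simp; ring)
    have := mul_le_mul_of_nonneg_left (h1 (some i)) (show (0 : ℝ) ≤ 4 ^ j i + e i by positivity)
    linarith [f1 i, f3 i]
  have sW : ∑ i, e i * q (some i) ≤ m * (n * q none) :=
    (sum_le_card_nsmul _ _ (n * q none) fun i _ => f1 i).trans_eq (by simp)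
  have sV : m * (n * q none) / 2 ≤ ∑ i, e i * q (some i) :=
    le_trans (le_of_eq (by simp; ring)) (card_nsmul_le_sum _ _ (n * q none / 2) fun i _ => f2 i)
  rcases H ε₀ s (D₀ * q none) Γ
    (fun p => (∑ l, cc p l) / Fintype.card κ * ∑ i, e i * q (some i) + η' * m * (n * q none))
    j e X Y q cc ε1 ε2 s0.le hΓ (fun p => (nondeg hCp (w4 p)).1) (fun p => (nondeg hCp (w4 p)).2)
    (fun i => (nondeg₂ hCp (w4 none) (w8 i)).1) (fun i => (nondeg₂ hCp (w4 none) (w8 i)).2)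
    (fun o => H5.trans (mul_le_mul_of_nonneg_left (h1 o) ε1.le)) h5
    (by
      rintro (_ | i) (_ | i') h
      · exact absurd rfl h
      · exact Or.inr (r1 (X0 _).le (h3 i')).2
      · exact Or.inl (r1 (X0 _).le (h3 i)).2
      · rcases lt_or_gt_of_ne (fun e => h (congrArg some e)) with h' | h'
        · exact Or.inl (r1 (X0 _).le (h2 _ _ h')).2
        · exact Or.inr (r1 (X0 _).le (h2 _ _ h')).2)
    (by
      rintro (_ | i)
      · change q none * ((2 * d * m : ℕ) : ℝ) ≤ _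
        rw [mul_comm]
        push_cast
        exact mul_le_mul_of_nonneg_right (by linarith) Y0.le
      · change q (some i) * (((2 * d + 1) * 4 ^ j i + 2 + e i : ℕ) : ℝ) ≤ _
        have e1 := mul_le_mul_of_nonneg_left (f3 i) (show (0 : ℝ) ≤ 2 * d + 1 by positivity)
        have e2 := mul_nonneg D2 Y0.le
        rw [hD₀]
        push_cast
        linarith [f1 i, XY i])
    (by
      rw [← hT]
      have e1 := mul_le_mul_of_nonneg_left T1 (show 0 ≤ C by linarith)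
      have e2 := mul_le_mul_of_nonneg_right H2 Y0.le
      have e3 : C * T ≤ ε₀ * q none := le_of_mul_le_mul_right (by linarith) H1
      linarith [mul_le_mul_of_nonneg_right D1 (mul_pos ε1 Y0).le])
    (count_okX j e (fun i => Fintype.card (Mo κ (e i))) (by positivity) f4 d1 m1 (by
      rw [Nat.cast_sum, ← δ2]
      refine (sum_le_card_nsmul _ _ _ fun p _ => card_bad e (fun i => q (some i)) (cc p) W0 Γ0
        η1.le (fun i => (X0 _).le) f1 (hc p)).trans_eq ?_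
      rw [nsmul_eq_mul, card_univ]))
    hc h6 h7 h9 h10 with k2 | ⟨o, g, q3, q4⟩
  · exfalso
    rw [← hT] at k2
    have hW : 0 < m * (n * q none) := mul_pos (by linarith) W0
    have g1 := gain_le (η' := η') hv hη1 hη.le (hμ ▸ η2) hW.le sV
    simp only [← mul_assoc η'] at g1
    have g2 : ∑ o, nx d j o * ht (X o).1 - d * ∑ i, ht (2 ^ j i • (X (some i)).1 + (X none).1) +
        C * T ≤ 3 * (η * (m * (n * q none)) / 32) := by
      have e1 := sum_le_sum fun i (_ : i ∈ univ) =>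
        arm_le d0 θ0.le (one_le_pow₀ (by norm_num)) (Nat.cast_nonneg (e i)) hC'
          (abs_le.1 (hCp (X none).1 (2 ^ j i • (X (some i)).1))).1
          (abs_le.1 (hCt (X (some i)).1 (j i))).1 (h8 i).1
          (h8 i).2.2 ((h5 _).trans (XY i)) (h5 none) Y0.le n3 θ2
      have e2 : (C + d * C') * T ≤ η * (m * (n * q none)) / 32 := by
        have a1 := mul_le_mul_of_nonneg_left T1 (show 0 ≤ C + d * C' by positivity)
        have a2 := mul_le_mul_of_nonneg_right H4 (show 0 ≤ m * q none by positivity)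
        have a3 := mul_le_mul_of_nonneg_right n0 (show 0 ≤ η * H₀ * (m * q none) by positivity)
        exact le_of_mul_le_mul_right (by linarith) H1
      rw [Fintype.sum_option]
      change ((2 * d * m : ℕ) : ℝ) * ht (X none).1 +
        ∑ i, (((2 * d + 1) * 4 ^ j i + 2 : ℕ) : ℝ) * ht (X (some i)).1 -
        d * ∑ i, ht (2 ^ j i • (X (some i)).1 + (X none).1) + _ ≤ _
      rw [sum_sub_distrib, sum_add_distrib, sum_add_distrib, ← mul_sum, ← mul_sum, ← mul_sum,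
        ← mul_sum, ← hT', sum_const, sum_const, card_univ, Fintype.card_fin, nsmul_eq_mul,
        nsmul_eq_mul] at e1
      simp only [add_comm (X none).1] at e1
      push_cast
      linarith
    have g3 : k₀ * (s * ∑ i, e i * q (some i)) ≤ η * (m * (n * q none)) / 32 := by
      rw [← mul_assoc]
      exact (mul_le_mul s2 sW (by linarith) (by positivity)).trans_eq (by ring)
    have g4 : k₀ * (Γ * (m * n * η / (32 * k₀ * Γ * D₀) * (D₀ * q none))) =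
        η * (m * (n * q none)) / 32 := by
      field_simp
    have g5 := mul_pos hη hW
    linarith
  · exact ⟨o, g, q3.mono le_rfl (mul_le_mul_of_nonneg_right ε3 (X0 o).le), q4⟩

end Pool.Agent.Lib.MP_651af7_nt.Es
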