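import Pool.Agent.Lib.MP_651af7_nt.Es.Star
import Pool.Agent.Lib.MP_651af7_nt.Es.A

/-! The hyperplane spanned by the small rows belongs to a finite family. -/

namespace Pool.Agent.Lib.MP_651af7_nt.Es

open Finset Matrix Height NumberField Pool.Agent.Lib.MP_e97e2b_nt Pool.Agent.Lib.MP_651af7_nt.Iv
  Pool.Agent.Lib.MP_651af7_nt.Vj Pool.Agent.Lib.MP_651af7_nt.Vj.P1 Pool.Agent.Lib.MP_651af7_nt.Rt
  Pool.Agent.Lib.Common.Subspace
open Pool.Agent.Lib.MP_8865d3_nt.Fa (Small Adm wt)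

variable {K : Type} [Field K] [NumberField K] {a b : ℤ}

/- `exists_ffbasis` for every subset of `Cs` (`Finset.powerset`; union of the `Ws` and of the `Z`, sum of
the `|C|`).  For given data let `z = nv Y j₀ ≠ 0`, `Cs' = Cs.filter (evV P c ⬝ᵥ z = 0)`, `w` from
`exists_ffbasis`.  `pen_pf` with `c = η q`, `η = δ / (4 (C + 1))`: `smlX` gives `Tame`, `dual_all` gives `Dual`;
if `(z ᵥ* adj) j = 0` the column `j` of the adjugate lies in `Cs'` (`RingHom.map_adjugate`). -/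
theorem penultX (hD : 4 * a ^ 3 + 27 * b ^ 2 ≠ 0) {κ : Type} [Fintype κ] [DecidableEq κ]
    (Cs : Finset (κ → PK K)) : ∃ (Ws : Finset (κ → PK K)) (Z : Finset K),
    ∀ (S : Finset (FinitePlace K)) (M : Pl S → Matrix κ κ (PK K)) (j₀ : κ) (δ Γ : ℝ), 0 < δ →
      δ ≤ 8 → (∀ p j, (fun l => (M p).adjugate l j) ∈ Cs) →
      ∃ H₀ : ℝ, ∀ (q : ℝ) (P : Pt (a : K) (b : K)) (Y : Matrix κ κ K) (bb : Pl S → κ → ℝ),
        H₀ ≤ q → P ≠ 0 → xc P ∉ Z → ht P ≤ δ / 8 * q → (∀ p, (evM P (M p)).det ≠ 0) →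
        (∀ p l, |bb p l| ≤ Γ * q) → vol bb ≤ -(δ * q) → Pen (fun p => evM P (M p)) j₀ bb Y →
        ∃ w ∈ Ws, evV P w ≠ 0 ∧ ∀ i, i ≠ j₀ → evV P w ⬝ᵥ Y i = 0 := by
  classical
  choose Ws Z C h using fun T : Finset (κ → PK K) => exists_ffbasis a b T
  refine ⟨Cs.powerset.biUnion Ws, Cs.powerset.biUnion Z, fun S M j₀ δ Γ hδ hδ8 hM => ?_⟩
  obtain ⟨C₀, hC₀, hpf⟩ := pen_pf S κ
  have hη : 0 < δ / (4 * (C₀ + 1)) := by positivity
  obtain ⟨H₁, hH₁⟩ := dual_all hD M j₀ hδ hη Γ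
  choose H₂ hH₂ using fun p : Pl S => smlX hD (adm_av p) (M p) hη
  have hC₁ : 0 ≤ ∑ T ∈ Cs.powerset, |C T| := sum_nonneg fun _ _ => abs_nonneg _
  refine ⟨max H₁ (max (∑ p, |H₂ p|) (4 * (C₀ + ∑ T ∈ Cs.powerset, |C T| + 1) / δ)),
    fun q P Y bb hq hP hZ hht hdet hbb hvol hpen => ?_⟩
  have q1 : H₁ ≤ q := (le_max_left _ _).trans hq
  have q2 : ∀ p, H₂ p ≤ q := fun p => (le_abs_self _).trans
    ((single_le_sum (fun p _ => abs_nonneg (H₂ p)) (mem_univ p)).trans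
      (((le_max_left _ _).trans (le_max_right _ _)).trans hq))
  have q3 : 4 * (C₀ + ∑ T ∈ Cs.powerset, |C T| + 1) ≤ q * δ :=
    (div_le_iff₀ hδ).1 (((le_max_right _ _).trans (le_max_right _ _)).trans hq)
  have q0 : 0 < q := (mul_pos_iff_of_pos_right hδ).1 (by linarith)
  have hhq : ht P ≤ q := hht.trans (by nlinarith)
  have hz : nv Y j₀ ≠ 0 := fun e => hpen.det (by
    have h1 := congrFun (congrFun (Matrix.mul_adjugate Y) j₀) j₀
    have h2 : ∀ l, Y.adjugate l j₀ = 0 := fun l => congrFun e l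
    simpa [Matrix.mul_apply, h2] using h1.symm)
  have hT : Cs.filter (fun c => evV P c ⬝ᵥ nv Y j₀ = 0) ∈ Cs.powerset :=
    mem_powerset.2 (filter_subset _ _)
  obtain ⟨w, w1, w2, w3, w4⟩ := h (Cs.filter fun c => evV P c ⬝ᵥ nv Y j₀ = 0) P (nv Y j₀) hP
    (fun e => hZ (mem_biUnion.2 ⟨_, hT, e⟩)) hz fun c hc => (mem_filter.1 hc).2
  refine ⟨w, mem_biUnion.2 ⟨_, hT, w1⟩, w2, hpf _ j₀ bb Y (δ / (4 * (C₀ + 1)) * q) _
    (by positivity) hpen (fun p => (hH₂ p P q (q2 p) hP hhq (hdet p)).2) (fun p j => ?_) ?_⟩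
  · refine (hH₁ q P Y bb q1 hP hhq hdet hbb hvol hpen p j).imp_left fun e => ?_
    have e1 : evV P (fun l => (M p).adjugate l j) = fun l => (evM P (M p)).adjugate l j :=
      funext fun l => congrFun (congrFun
        (RingHom.map_adjugate (MvPolynomial.eval ![xc P, yc P]) (M p)) l) j
    have e2 := w3 _ (mem_filter.2 ⟨hM p j, by rw [e1, dotProduct_comm]; exact e⟩)
    rw [e1, dotProduct_comm] at e2
    exact e2
  · have h1 : C (Cs.filter fun c => evV P c ⬝ᵥ nv Y j₀ = 0) ≤ ∑ T ∈ Cs.powerset, |C T| :=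
      (le_abs_self _).trans (single_le_sum (fun T _ => abs_nonneg (C T)) hT)
    have h2 : C₀ * (δ / (4 * (C₀ + 1)) * q) ≤ δ * q / 4 := by
      rw [← mul_assoc, mul_div_assoc', div_mul_eq_mul_div, div_le_div_iff₀ (by positivity) four_pos]
      nlinarith [mul_pos hδ q0]
    nlinarith

end Pool.Agent.Lib.MP_651af7_nt.Es
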