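import Pool.Agent.Lib.MP_651af7_nt.Es.Cher
import Pool.Agent.Lib.MP_651af7_nt.Es.A
import Pool.Agent.Lib.MP_651af7_nt.Rt.PF

/-! Normalisation of the solutions and crude bounds. -/

namespace Pool.Agent.Lib.MP_651af7_nt.Es

open Finset Matrix Height NumberField Pool.Agent.Lib.MP_e97e2b_nt Pool.Agent.Lib.MP_651af7_nt.Iv
  Pool.Agent.Lib.MP_651af7_nt.Vj Pool.Agent.Lib.MP_651af7_nt.Vj.P1 Pool.Agent.Lib.MP_651af7_nt.Rt
  Pool.Agent.Lib.Common.Subspace
open Pool.Agent.Lib.MP_8865d3_nt.Fa (Small Adm wt)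

variable {K : Type} [Field K] [NumberField K] {ι : Type} [Fintype ι]

/-- The local height of the hyperplane given by a form with value `l` at `x`. -/
noncomputable def lx (v : AbsoluteValue K ℝ) (x : ι → K) (l : K) : ℝ :=
  Real.log ((⨆ i, v (x i)) / v l)

/- `logHeight₁_eq`, `sum_archAbsVal_eq`, `sum_nonarchAbsVal_eq` (see `pfS` in `Rt/PF`), `fin_le_one`,
`InfinitePlace.sum_mult_eq`. -/
theorem ht_int {z : K} (hz : IsIntegral ℤ z) {B : ℝ} (hB : 0 ≤ B)
    (h : ∀ w : InfinitePlace K, w z ≤ Real.exp B) :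
    logHeight₁ z ≤ Module.finrank ℚ K * B := by
  rw [NumberField.logHeight₁_eq, finsum_eq_zero_of_forall_eq_zero, add_zero,
    ← InfinitePlace.sum_mult_eq, Nat.cast_sum, Finset.sum_mul]
  · refine Finset.sum_le_sum fun w _ => mul_le_mul_of_nonneg_left ?_ (Nat.cast_nonneg _)
    refine (Real.posLog_le_posLog (apply_nonneg w z) (h w)).trans ?_
    rw [Real.posLog_eq_log, Real.log_exp]
    rw [abs_of_pos (Real.exp_pos B)]
    exact Real.one_le_exp hB
  · intro v
    rw [Real.posLog_eq_zero_iff, abs_of_nonneg (apply_nonneg v z)]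
    exact fin_le_one v hz

/- Divide by a coordinate `x i₀` of maximal size at `v`; `logHeight₁ (x i / x i₀) ≤ logHeight x`
(`logHeight₁_div_eq_logHeight`, `logHeight_comp_le`); `logHeight₁_add_le` (or `logHeight₁_sum_le`),
`logHeight₁_mul_le`, `Fa.liouville`. -/
theorem crude (ι : Type) [Fintype ι] : ∃ C : ℝ, 0 ≤ C ∧
    ∀ (v : AbsoluteValue K ℝ) (u x : ι → K) (h : ℝ), Adm v → 0 ≤ h → (∀ i, logHeight₁ (u i) ≤ h) →
      u ⬝ᵥ x ≠ 0 → lx v x (u ⬝ᵥ x) ≤ C * (1 + h + logHeight x) := by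
  classical
  have hlog : 0 ≤ (totalWeight K : ℝ) * Real.log (Fintype.card ι) :=
    mul_nonneg (Nat.cast_nonneg _) (Real.log_natCast_nonneg _)
  refine ⟨totalWeight K * Real.log (Fintype.card ι) + Fintype.card ι, by positivity,
    fun v u x h hv hh hu hne => ?_⟩
  have hx : x ≠ 0 := by
    rintro rfl
    exact hne (dotProduct_zero u)
  obtain ⟨j, hj⟩ := Function.ne_iff.1 hx
  have : Nonempty ι := ⟨j⟩
  obtain ⟨i₀, hi₀⟩ := exists_eq_ciSup_of_finite (f := fun i => v (x i))
  have hj' : 0 < v (x j) := v.pos hj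
  have hpos : 0 < v (x i₀) := by
    rw [hi₀]
    exact hj'.trans_le (Finite.le_ciSup (fun i => v (x i)) j)
  have hx0 : x i₀ ≠ 0 := fun e => by
    rw [e, map_zero] at hpos
    exact lt_irrefl _ hpos
  set γ : K := (u ⬝ᵥ x) / x i₀ with hγ
  have hγ0 : γ ≠ 0 := div_ne_zero hne hx0
  have hL := MP_8865d3_nt.Fa.liouville hv hγ0
  have hvγ : 0 < v γ := v.pos hγ0
  have h1 : lx v x (u ⬝ᵥ x) = -Real.log (v γ) := by
    unfold lx
    rw [← hi₀, hγ, map_div₀, ← Real.log_inv, inv_div]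
  have h2 : -logHeight₁ γ ≤ Real.log (v γ) := by
    rw [Real.le_log_iff_exp_le hvγ]
    exact hL
  have h3 : γ = ∑ i, u i * (x i / x i₀) := by
    rw [hγ, dotProduct, Finset.sum_div]
    exact Finset.sum_congr rfl fun i _ => mul_div_assoc _ _ _
  have h4 : ∀ i, logHeight₁ (x i / x i₀) ≤ logHeight x := by
    intro i
    rw [logHeight₁_div_eq_logHeight]
    have e : ![x i, x i₀] = x ∘ ![i, i₀] := by
      ext k
      fin_cases k <;> rfl
    rw [e]
    exact logHeight_comp_le _ _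
  have h5 : logHeight₁ γ ≤ totalWeight K * Real.log (Fintype.card ι) +
      Fintype.card ι * (h + logHeight x) := by
    rw [h3]
    refine (logHeight₁_sum_le _ _).trans ?_
    rw [Finset.card_univ]
    refine add_le_add le_rfl ?_
    calc ∑ i, logHeight₁ (u i * (x i / x i₀)) ≤ ∑ _i : ι, (h + logHeight x) :=
          Finset.sum_le_sum fun i _ => (logHeight₁_mul_le _ _).trans (add_le_add (hu i) (h4 i))
      _ = Fintype.card ι * (h + logHeight x) := by
          rw [Finset.sum_const, Finset.card_univ, nsmul_eq_mul]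
  have h6 : 0 ≤ logHeight x := logHeight_nonneg x
  have h7 : (0 : ℝ) ≤ Fintype.card ι := Nat.cast_nonneg _
  rw [h1]
  nlinarith [mul_nonneg hlog (add_nonneg hh h6)]

theorem lx_smul (v : AbsoluteValue K ℝ) {t : K} (ht : t ≠ 0) (x : ι → K) (l : K) :
    lx v (t • x) (t * l) = lx v x l := by
  unfold lx
  have h0 : 0 < v t := v.pos ht
  simp only [Pi.smul_apply, smul_eq_mul, map_mul]
  rw [← Real.mul_iSup_of_nonneg h0.le, mul_div_mul_left _ _ h0.ne']

/- `normalize` gives `t`.  The coordinates of `t • x` have height at most `d C + logHeight x` (`ht_int`), so the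
values of the forms have height at most `C (1 + q + h)`; `Fa.log_max_le`, `Fa.liouville`.  Finally
`log (av p value) = log (⨆ av p (t • x)) - lx`, `∑ p, mu p * log (⨆ ..) ≤ d C + logHeight x`. -/
theorem short_prep (ι : Type) [Fintype ι] : ∃ C : ℝ, 0 ≤ C ∧ ∀ (S : Finset (FinitePlace K))
    (N : Pl S → Matrix ι ι K) (x : ι → K) (q h : ℝ), x ≠ 0 → logHeight x ≤ q → 0 ≤ h →
    (∀ p l i, logHeight₁ (N p l i) ≤ h) → (∀ p l, (N p *ᵥ x) l ≠ 0) →
    ∃ t : K, t ≠ 0 ∧ IntV (t • x) ∧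
      (∀ p l, Real.exp (-(C * (1 + q + h))) ≤ av p ((N p *ᵥ (t • x)) l) ∧
        av p ((N p *ᵥ (t • x)) l) ≤ Real.exp (C * (1 + q + h))) ∧
      vol (fun p l => Real.log (av p ((N p *ᵥ (t • x)) l))) ≤
        C + Fintype.card ι * logHeight x - vol fun p l => lx (av p) x ((N p *ᵥ x) l) := by
  obtain ⟨C₀, hC₀, H⟩ := normalize (K := K) ι
  set d : ℝ := (Module.finrank ℚ K : ℝ) with hd
  set n : ℝ := (Fintype.card ι : ℝ) with hn
  have d0 : 0 < d := Nat.cast_pos.2 Module.finrank_pos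
  have n0 : 0 ≤ n := Nat.cast_nonneg _
  have w0 : 0 ≤ (totalWeight K : ℝ) * Real.log n :=
    mul_nonneg (Nat.cast_nonneg _) (Real.log_natCast_nonneg _)
  have c0 : 0 ≤ n * (d * C₀) := by positivity
  refine ⟨totalWeight K * Real.log n + n * (d * C₀) + n, by positivity,
    fun S N x q h hx hq hh hN hne => ?_⟩
  obtain ⟨t, ht, hint, hw⟩ := H x hx
  have hH := logHeight_nonneg x
  have hB : 0 ≤ C₀ + logHeight x / d := by positivity
  have eB : d * (C₀ + logHeight x / d) = d * C₀ + logHeight x := by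
    rw [mul_add, mul_div_cancel₀ _ d0.ne']
  have e1 : ∀ p l, (N p *ᵥ (t • x)) l = t * (N p *ᵥ x) l := fun p l => by
    rw [Matrix.mulVec_smul, Pi.smul_apply, smul_eq_mul]
  have hne' : ∀ p l, (N p *ᵥ (t • x)) l ≠ 0 := fun p l => by
    rw [e1]
    exact mul_ne_zero ht (hne p l)
  have h1 : ∀ i, logHeight₁ ((t • x) i) ≤ d * C₀ + q := fun i => by
    have := ht_int (hint i) hB fun w => hw w i
    rw [← hd, eB] at this
    linarith
  have h2 : ∀ p l, logHeight₁ ((N p *ᵥ (t • x)) l) ≤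
      (totalWeight K * Real.log n + n * (d * C₀) + n) * (1 + q + h) := fun p l => by
    have a1 := logHeight₁_sum_le (univ : Finset ι) fun i => N p l i * (t • x) i
    have a2 : ∑ i, logHeight₁ (N p l i * (t • x) i) ≤ n * (h + (d * C₀ + q)) := by
      refine (sum_le_card_nsmul _ _ (h + (d * C₀ + q)) fun i _ =>
        (logHeight₁_mul_le _ _).trans (add_le_add (hN p l i) (h1 i))).trans (le_of_eq ?_)
      rw [nsmul_eq_mul, card_univ]
    rw [card_univ] at a1
    have a3 : 0 ≤ q + h := by linarith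
    have a4 := mul_nonneg (add_nonneg w0 c0) a3
    refine a1.trans ?_
    nlinarith
  refine ⟨t, ht, hint, fun p l => ⟨?_, ?_⟩, ?_⟩
  · exact (Real.exp_le_exp.2 (neg_le_neg (h2 p l))).trans
      (MP_8865d3_nt.Fa.liouville (adm_av p) (hne' p l))
  · have a1 := (MP_8865d3_nt.Fa.log_max_le (adm_av p) _).trans (h2 p l)
    rw [Real.log_le_iff_le_exp (lt_max_of_lt_right one_pos)] at a1
    exact (le_max_left _ _).trans a1
  · obtain ⟨i₀, hi₀⟩ := Function.ne_iff.1 hx
    have : Nonempty ι := ⟨i₀⟩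
    have s0 : ∀ p : Pl S, 0 < ⨆ i, av p ((t • x) i) := fun p =>
      ((av p).pos (mul_ne_zero ht hi₀)).trans_le
        (Finite.le_ciSup (fun i => av p ((t • x) i)) i₀)
    have e2 : ∀ p l, Real.log (av p ((N p *ᵥ (t • x)) l)) =
        Real.log (⨆ i, av p ((t • x) i)) - lx (av p) x ((N p *ᵥ x) l) := fun p l => by
      rw [← lx_smul (av p) ht, ← e1, lx, Real.log_div (s0 p).ne' ((av p).pos (hne' p l)).ne',
        sub_sub_cancel]
    have e3 : ∑ p : Pl S, mu p * Real.log (⨆ i, av p ((t • x) i)) ≤ d * C₀ + logHeight x := by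
      rw [Fintype.sum_sum_type, ← eB, hd, ← InfinitePlace.sum_mult_eq, Nat.cast_sum, sum_mul,
        ← add_zero (∑ w : InfinitePlace K, (w.mult : ℝ) * (C₀ + _))]
      refine add_le_add (sum_le_sum fun w _ => mul_le_mul_of_nonneg_left ?_ (Nat.cast_nonneg _))
        (sum_nonpos fun v _ => mul_nonpos_of_nonneg_of_nonpos (Nat.cast_nonneg _) ?_)
      · rw [Real.log_le_iff_le_exp (s0 _), ← Nat.cast_sum, InfinitePlace.sum_mult_eq]
        exact ciSup_le fun i => hw w i
      · exact Real.log_nonpos (s0 _).le (ciSup_le fun i => fin_le_one v.1 (hint i))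
    have e4 : vol (fun p l => Real.log (av p ((N p *ᵥ (t • x)) l))) =
        n * ∑ p : Pl S, mu p * Real.log (⨆ i, av p ((t • x) i)) -
          vol fun p l => lx (av p) x ((N p *ᵥ x) l) := by
      simp only [vol, e2]
      rw [mul_sum, ← sum_sub_distrib]
      refine sum_congr rfl fun p _ => ?_
      rw [sum_sub_distrib, sum_const, card_univ, nsmul_eq_mul]
      ring
    rw [e4]
    have := mul_le_mul_of_nonneg_left e3 n0
    linarith

end Pool.Agent.Lib.MP_651af7_nt.Es
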