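import Pool.Agent.Lib.MP_651af7_nt.Es.Pen
import Pool.Agent.Lib.MP_651af7_nt.Es.Prep

/-! The inequality for base points of small height. -/

namespace Pool.Agent.Lib.MP_651af7_nt.Es

open Finset Matrix Height NumberField Pool.Agent.Lib.MP_e97e2b_nt Pool.Agent.Lib.MP_651af7_nt.Iv
  Pool.Agent.Lib.MP_651af7_nt.Vj Pool.Agent.Lib.MP_651af7_nt.Vj.P1 Pool.Agent.Lib.MP_651af7_nt.Rt
  Pool.Agent.Lib.Common.Subspace
open Pool.Agent.Lib.MP_8865d3_nt.Fa (Small Adm wt)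

variable {K : Type} [Field K] [NumberField K] {a b : ℤ}

theorem Short_evV {ι κ : Type} [Fintype κ] (P : Pt (a : K) (b : K)) (T : Matrix ι κ ℤ)
    (w : κ → PK K) :
    evV P (T.map (Int.cast : ℤ → PK K) *ᵥ w) = T.map (Int.cast : ℤ → K) *ᵥ evV P w := by
  funext l
  simp [evV, ev, Matrix.mulVec, dotProduct]

theorem Short_comp {n : ℕ} (k : ℕ) (P : Pt (a : K) (b : K)) (M : Matrix (Fin n) (Fin n) (PK K))
    (π : Equiv.Perm (Fin n)) :
    evM P (comp k (M.submatrix π id)) = comp k ((evM P M).submatrix π id) :=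
  (comp_map (MvPolynomial.eval ![xc P, yc P]) k (M.submatrix π id)).symm

/- `reduce n (δ / 2)` gives `δ'` and `𝒯`; `κ₀ = min δ' 8 / 8`.  For each `k` let `Cs k` be the set of the
columns of `(comp k N).adjugate` for the matrices `N` with rows in `Ls` (`Fintype.piFinset`); `penultX` gives
`Ws k`, `Z k`; let `Ws` be the set of the `T.map Int.cast *ᵥ w`, `T ∈ 𝒯 k`, `w ∈ Ws k`.  For given `S`, `M`
apply `penultX` to the finitely many `(k, π, top)` and the matrices `comp k ((M p).submatrix (π p) id)`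
(`comp_map`, `det_comp_ne`, `Matrix.det_permute`).  If the inequality fails then `n ≠ 0`, `x ≠ 0`;
`short_prep` (`ht_ev`), `smlX`, `reduce`. -/
theorem short_core (hD : 4 * a ^ 3 + 27 * b ^ 2 ≠ 0) (n : ℕ) {δ : ℝ} (hδ : 0 < δ) :
    ∃ κ₀ : ℝ, 0 < κ₀ ∧ ∀ Ls : Finset (Fin n → PK K),
      ∃ (Ws : Finset (Fin n → PK K)) (Z : Finset K), ∀ (S : Finset (FinitePlace K))
        (M : Pl S → Matrix (Fin n) (Fin n) (PK K)), (∀ p l, M p l ∈ Ls) →
        ∃ H₀ : ℝ, ∀ (q : ℝ) (P : Pt (a : K) (b : K)) (x : Fin n → K), H₀ ≤ q → P ≠ 0 →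
          xc P ∉ Z → ht P ≤ κ₀ * q → logHeight x ≤ q → (∀ p, (evM P (M p)).det ≠ 0) →
          (∀ p l, (evM P (M p) *ᵥ x) l ≠ 0) → (∀ w ∈ Ws, evV P w = 0 ∨ evV P w ⬝ᵥ x ≠ 0) →
          vol (fun p l => lx (av p) x ((evM P (M p) *ᵥ x) l)) ≤ n * logHeight x + δ * q := by
  classical
  obtain ⟨δ', 𝒯, hδ', hred⟩ := reduce (K := K) n (half_pos hδ)
  have d0 : 0 < min δ' 8 := lt_min hδ' (by norm_num)
  refine ⟨min δ' 8 / 8, by positivity, fun Ls => ?_⟩
  choose Ws Z hpen using fun k : Fin n => penultX (K := K) hD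
    (((Fintype.piFinset fun _ : Fin n => Ls) ×ˢ (univ : Finset (PS n k))).image
      fun r => fun l => (comp k (Matrix.of r.1)).adjugate l r.2)
  refine ⟨univ.biUnion fun k => (𝒯 k ×ˢ Ws k).image
    fun r => r.1.map (Int.cast : ℤ → PK K) *ᵥ r.2, univ.biUnion Z, fun S M hM => ?_⟩
  obtain ⟨C, hC, hprep⟩ := short_prep (K := K) (Fin n)
  choose Ce hCe0 hCe using fun r : Pl S × Fin n × Fin n => ht_ev a b (M r.1 r.2.1 r.2.2)
  obtain ⟨E, hE0, hE⟩ : ∃ E : ℝ, 0 ≤ E ∧ ∀ r, Ce r ≤ E :=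
    ⟨∑ r, Ce r, sum_nonneg fun r _ => hCe0 r, fun r =>
      single_le_sum (fun r _ => hCe0 r) (mem_univ r)⟩
  obtain ⟨Γ', η, q₀, hη, hred⟩ := hred S (C * (2 + 2 * E))
  choose H₁ hH₁ using fun p : Pl S => smlX hD (adm_av p) (M p) hη
  choose H₂ hH₂ using fun r : Σ k : Fin n, (Pl S → Equiv.Perm (Fin n)) × PS n k =>
    hpen r.1 S (fun p => comp r.1 ((M p).submatrix (r.2.1 p) id)) r.2.2 _ Γ' d0 (min_le_right _ _)
      fun p j => mem_image.2 ⟨(fun l => M p (r.2.1 p l), j),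
        mem_product.2 ⟨Fintype.mem_piFinset.2 fun l => hM p _, mem_univ _⟩, rfl⟩
  obtain ⟨B₁, hB₁⟩ := Finite.bddAbove_range H₁
  obtain ⟨B₂, hB₂⟩ := Finite.bddAbove_range H₂
  refine ⟨max (max 1 q₀) (max (max B₁ B₂) (C / (δ / 2))),
    fun q P x hq hP hZ h1 h2 h3 h4 h5 => ?_⟩
  simp only [max_le_iff] at hq
  obtain ⟨⟨q1, q2⟩, ⟨q3, q4⟩, q5⟩ := hq
  rw [div_le_iff₀' (half_pos hδ)] at q5
  have q0 : 0 ≤ q := zero_le_one.trans q1
  have hq' : ht P ≤ q := by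
    refine h1.trans (mul_le_of_le_one_left q0 ?_)
    linarith [min_le_right δ' 8]
  by_contra hcon
  rw [not_le] at hcon
  have x0 : x ≠ 0 := by
    rintro rfl
    have e : vol (fun p l => lx (av p) (0 : Fin n → K) ((evM P (M p) *ᵥ 0) l)) = 0 :=
      sum_eq_zero fun p _ => mul_eq_zero_of_right _
        (sum_eq_zero fun l _ => absurd (by simp) (h4 p l))
    rw [e, logHeight_zero] at hcon
    linarith [mul_nonneg hδ.le q0]
  obtain ⟨t, t0, t1, t2, t3⟩ := hprep S (fun p => evM P (M p)) x q (E * (1 + q)) x0 h2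
    (by positivity) (fun p l i => (hCe (p, l, i) P).trans
      (mul_le_mul (hE _) (by linarith) (by linarith [ht_nonneg P]) hE0)) h4
  have g1 : C * (1 + q + E * (1 + q)) ≤ C * (2 + 2 * E) * q := by
    rw [mul_assoc]
    refine mul_le_mul_of_nonneg_left ?_ hC
    linarith [mul_le_mul_of_nonneg_left q1 hE0]
  obtain ⟨k, π, top, Y, bb, r1, r2, r3, r4⟩ := hred q (fun p => evM P (M p)) (t • x) q2
    (fun p => (hH₁ p P q ((hB₁ ⟨p, rfl⟩).trans q3) hP hq' (h3 p)).2) t1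
    (fun p l => ⟨(Real.exp_le_exp.2 (neg_le_neg g1)).trans (t2 p l).1,
      (t2 p l).2.trans (Real.exp_le_exp.2 g1)⟩)
    (by
      rw [Fintype.card_fin] at t3
      linarith)
  obtain ⟨w, w1, w2, w3⟩ := hH₂ ⟨k, π, top⟩ q P Y bb ((hB₂ ⟨_, rfl⟩).trans q4) hP
    (fun h => hZ (mem_biUnion.2 ⟨k, mem_univ _, h⟩)) h1
    (fun p => by
      rw [Short_comp]
      refine det_comp_ne _ ?_
      rw [Matrix.det_permute]
      refine mul_ne_zero ?_ (h3 p)
      rcases Int.units_eq_one_or (Equiv.Perm.sign (π p)) with e | e <;> simp [e])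
    r2 (r3.trans (neg_le_neg (mul_le_mul_of_nonneg_right (min_le_left _ _) q0)))
    (by simpa only [Short_comp] using r1)
  obtain ⟨T, T1, T2, T3⟩ := r4 _ w2 w3
  rcases h5 _ (mem_biUnion.2 ⟨k, mem_univ _, mem_image.2 ⟨(T, w), mem_product.2 ⟨T1, w1⟩, rfl⟩⟩)
    with e | e
  · exact T2 (Short_evV P T w ▸ e)
  · rw [dotProduct_smul, smul_eq_mul, ← Short_evV] at T3
    exact mul_ne_zero t0 e T3

end Pool.Agent.Lib.MP_651af7_nt.Es
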