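import Pool.Agent.Lib.MP_651af7_nt.Es.P1
import Pool.Agent.Lib.MP_651af7_nt.Es.Exit
import Pool.Agent.Lib.MP_651af7_nt.Es.Mov

/-! The dual forms are not small at the normal vector. -/

namespace Pool.Agent.Lib.MP_651af7_nt.Es

open Finset Matrix Height NumberField Pool.Agent.Lib.MP_e97e2b_nt Pool.Agent.Lib.MP_651af7_nt.Iv
  Pool.Agent.Lib.MP_651af7_nt.Vj Pool.Agent.Lib.MP_651af7_nt.Vj.P1 Pool.Agent.Lib.MP_651af7_nt.Rt
  Pool.Agent.Lib.Common.Subspace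
open Pool.Agent.Lib.MP_8865d3_nt.Fa (Small Adm wt)

variable {K : Type} [Field K] [NumberField K] {S : Finset (FinitePlace K)} {a b : ℤ}
  {κ : Type} [Fintype κ] [DecidableEq κ]

/- Port of `main_pat` (`Rt/Asm`): `phaseX` with `Γ' = max 1 Γ + card κ + 2`; if the scales of the
counterexamples `(q, P, Y)` are unbounded they are unbounded in one cell (`cells_abs`, `ht_euclid`);
`exists_chain` (height `max q 0`) with the factor `max (max 1 lam) (8 / δ₀)`; `X o = (P, rt Y j₀ α β)` for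
all `o`, the centre is the member `m` of the chain; `smlX`, `blk_of_pen`. -/
theorem star_pat (hD : 4 * a ^ 3 + 27 * b ^ 2 ≠ 0) (M : Pl S → Matrix κ κ (PK K))
    {j₀ α β : κ} (hαβ : α ≠ β) {δ δ₀ Γ : ℝ} (hδ : 0 < δ) (hδ₀ : 0 < δ₀)
    {cc : Pl S → κ → ℝ} (hc : ∀ p l, |cc p l| ≤ Γ) (hv : vol cc ≤ -δ) :
    ∃ D : ℕ, ∀ ε : ℝ, 0 < ε → ∃ H₀ : ℝ, ∀ (q : ℝ) (P : Pt (a : K) (b : K)) (Y : Matrix κ κ K),
      H₀ ≤ q → P ≠ 0 → δ₀ * q ≤ ht P → ht P ≤ q → (∀ p, (evM P (M p)).det ≠ 0) →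
      Pen (fun p => evM P (M p)) j₀ (fun p l => cc p l * q) Y → nv Y j₀ α ≠ 0 →
      SpecX D (ε * q) P (rt Y j₀ α β) := by
  have hDK : 4 * (a : K) ^ 3 + 27 * (b : K) ^ 2 ≠ 0 := by exact_mod_cast hD
  have : Nonempty κ := ⟨j₀⟩
  have hc1 : ∀ p l, |cc p l| ≤ max 1 Γ := fun p l => (hc p l).trans (le_max_right _ _)
  have hκ : (0 : ℝ) ≤ Fintype.card κ := Nat.cast_nonneg _
  have hΓ1 : max 1 Γ ≤ max 1 Γ + Fintype.card κ + 2 := by linarith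
  obtain ⟨m, Bd, θ, lam, s, hθ, hs, hs1, hph⟩ := phaseX hD M (j₀ := j₀) hαβ hδ hδ₀
    ((le_max_left _ _).trans hΓ1) (fun p l => (hc1 p l).trans hΓ1) hv
  refine ⟨Bd, fun ε hε => ?_⟩
  obtain ⟨H2, hH2⟩ := hph ε hε
  obtain ⟨H1, hH1⟩ := blk_of_pen (S := S) κ
  choose H3 hH3 using fun p => smlX hD (adm_av p) (M p) hs
  obtain ⟨r, φ, C, hC⟩ := ht_euclid hDK
  obtain ⟨N, cell, H4, hcl⟩ := cells_abs φ ht C hC θ hθ
  let Bad : ℝ × Pt (a : K) (b : K) × Matrix κ κ K → Prop := fun X => X.2.1 ≠ 0 ∧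
    δ₀ * X.1 ≤ ht X.2.1 ∧ ht X.2.1 ≤ X.1 ∧ (∀ p, (evM X.2.1 (M p)).det ≠ 0) ∧
    Pen (fun p => evM X.2.1 (M p)) j₀ (fun p l => cc p l * X.1) X.2.2 ∧ nv X.2.2 j₀ α ≠ 0 ∧
    ¬SpecX Bd (ε * X.1) X.2.1 (rt X.2.2 j₀ α β)
  by_contra hcon
  have h1 : ∀ t : ℝ, ∃ X, Bad X ∧ t ≤ X.1 := by
    intro t
    by_contra h
    refine hcon ⟨t, fun q P Y a₁ a₂ a₃ a₄ a₅ a₆ a₇ => ?_⟩
    by_contra a₈
    exact h ⟨(q, P, Y), ⟨a₂, a₃, a₄, a₅, a₆, a₇, a₈⟩, a₁⟩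
  have h2 : ∃ c, ∀ t : ℝ, ∃ X ∈ {X | cell X.2.1 = c ∧ Bad X}, t ≤ max X.1 0 := by
    by_contra h
    push Not at h
    choose t ht' using h
    obtain ⟨X, hX, hle⟩ := h1 (∑ c, |t c|)
    have a₁ := ht' (cell X.2.1) X ⟨rfl, hX⟩
    have a₂ : |t (cell X.2.1)| ≤ ∑ c, |t c| :=
      single_le_sum (f := fun c => |t c|) (fun c _ => abs_nonneg _) (mem_univ _)
    have a₃ := le_abs_self (t (cell X.2.1))
    have a₄ := le_max_left X.1 0
    linarith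
  obtain ⟨c, h2⟩ := h2
  obtain ⟨z, z₁, z₂, z₃⟩ := exists_chain
    (fun X : ℝ × Pt (a : K) (b : K) × Matrix κ κ K => max X.1 0) (fun X => le_max_right _ _) _ h2
    (max (max H1 H2) (max (∑ p, |H3 p|) (H4 / δ₀))) (max (max 1 lam) (8 / δ₀))
    (le_max_of_le_left (le_max_left _ _))
  have b₀ : ∀ i, 0 ≤ (z i).1 := fun i => (ht_nonneg _).trans (z₁ i).2.2.2.1
  simp only [max_eq_left (b₀ _)] at z₂ z₃
  have b₁ : ∀ i, H1 ≤ (z i).1 := fun i => (le_max_of_le_left (le_max_left _ _)).trans (z₂ i)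
  have b₂ : ∀ i, H2 ≤ (z i).1 := fun i => (le_max_of_le_left (le_max_right _ _)).trans (z₂ i)
  have b₃ : ∀ i p, H3 p ≤ (z i).1 := fun i p =>
    ((le_abs_self _).trans (single_le_sum (f := fun p => |H3 p|) (fun p _ => abs_nonneg _)
      (mem_univ p))).trans ((le_max_of_le_right (le_max_left _ _)).trans (z₂ i))
  have b₄ : ∀ i, H4 ≤ ht (z i).2.1 := fun i => by
    have a₁ : H4 / δ₀ ≤ (z i).1 := (le_max_of_le_right (le_max_right _ _)).trans (z₂ i)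
    rw [div_le_iff₀ hδ₀, mul_comm] at a₁
    exact a₁.trans (z₁ i).2.2.1
  have l₁ : ∀ i i', i < i' → lam * (z i).1 ≤ (z i').1 := fun i i' hi =>
    (mul_le_mul_of_nonneg_right (le_max_of_le_left (le_max_right _ _)) (b₀ _)).trans
      (z₃ i i' hi)
  have l₂ : ∀ i : Fin m, ∃ j, CloseR θ j (z i).2.1 (z m).2.1 := fun i => by
    refine hcl _ _ ((z₁ i).1.trans (z₁ m).1.symm) (b₄ i) ?_
    have a₁ : 8 / δ₀ * (z i).1 ≤ (z m).1 :=
      (mul_le_mul_of_nonneg_right (le_max_right _ _) (b₀ _)).trans (z₃ i m i.2)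
    rw [div_mul_eq_mul_div, div_le_iff₀ hδ₀, mul_comm (z m).1] at a₁
    have a₂ := (z₁ i).2.2.2.1
    have a₃ := (z₁ m).2.2.1
    linarith
  choose j hj using l₂
  have hsm : ∀ i p, SmP (av p) (s * (z i).1) (z i).2.1 ∧
      Tame (av p) (s * (z i).1) (evM (z i).2.1 (M p)) := fun i p =>
    hH3 p _ _ (b₃ i p) (z₁ i).2.1 (z₁ i).2.2.2.1 ((z₁ i).2.2.2.2.1 p)
  let ι : Option (Fin m) → ℕ := fun o => o.elim m fun i => i
  obtain ⟨o, ho⟩ := hH2 (fun o => (z (ι o)).1)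
    (fun o => ((z (ι o)).2.1, rt (z (ι o)).2.2 j₀ α β)) (fun i => (z i).2.2) j (fun o => b₂ _)
    (fun i i' hi => l₁ i i' hi) (fun i => l₁ i m i.2) (fun o => (z₁ _).2.2.1)
    (fun o => (z₁ _).2.2.2.1)
    (fun i => hH1 _ j₀ cc _ s _ _ (b₁ i) hs.le hs1 hc1 (z₁ i).2.2.2.2.2.1 fun p => (hsm i p).2)
    (fun i => (z₁ i).2.2.2.2.2.2.1) (fun i => rfl) (fun i p => (hsm i p).1) hj
  exact (z₁ (ι o)).2.2.2.2.2.2.2 ho

/- At `p` take `α` with `av p (nv Y j₀ α)` maximal, `t l = rt Y j₀ α l`, so `av p (t l) ≤ 1` and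
`(nv Y j₀ ᵥ* adj) j = -nv Y j₀ α * (t ⬝ᵥ evV P u)`, `u l = (M p).adjugate l j` (`RingHom.map_adjugate`).
`star_pat` for all pairs `α ≠ l` (`D` the maximum and at least `1`; `t α = -1` is a root of `X 1 + 1`), `exitX`
for all `p, j` (minimum of the `ε`). -/
theorem dual_star (hD : 4 * a ^ 3 + 27 * b ^ 2 ≠ 0) (M : Pl S → Matrix κ κ (PK K)) (j₀ : κ)
    {δ δ₀ η Γ : ℝ} (hδ : 0 < δ) (hδ₀ : 0 < δ₀) (hη : 0 < η)
    {cc : Pl S → κ → ℝ} (hc : ∀ p l, |cc p l| ≤ Γ) (hv : vol cc ≤ -δ) :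
    ∃ H₀ : ℝ, ∀ (q : ℝ) (P : Pt (a : K) (b : K)) (Y : Matrix κ κ K),
      H₀ ≤ q → P ≠ 0 → δ₀ * q ≤ ht P → ht P ≤ q → (∀ p, (evM P (M p)).det ≠ 0) →
      Pen (fun p => evM P (M p)) j₀ (fun p l => cc p l * q) Y →
      Dual (fun p => evM P (M p)) j₀ (η * q) Y := by
  have : Nonempty κ := ⟨j₀⟩
  have hpair : ∀ α l : κ, ∃ D : ℕ, ∀ ε : ℝ, 0 < ε → ∃ H₀ : ℝ,
      ∀ (q : ℝ) (P : Pt (a : K) (b : K)) (Y : Matrix κ κ K),
      H₀ ≤ q → P ≠ 0 → δ₀ * q ≤ ht P → ht P ≤ q → (∀ p, (evM P (M p)).det ≠ 0) →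
      Pen (fun p => evM P (M p)) j₀ (fun p l => cc p l * q) Y → nv Y j₀ α ≠ 0 →
      SpecX D (ε * q) P (rt Y j₀ α l) := by
    intro α l
    by_cases hαl : α = l
    · obtain ⟨D, c, H⟩ := Pool.Agent.Lib.MP_8865d3_nt.Fa.small_of_low (K := K) 0
      refine ⟨D, fun ε hε => ⟨c / ε, fun q P Y hq _ _ _ _ _ hz => ?_⟩⟩
      have e : rt Y j₀ α l = -1 := by
        rw [← hαl, rt, div_self hz]
      obtain ⟨g, g1, g2, -⟩ := H (Fin 2) ![xc P, rt Y j₀ α l] 1 (by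
        rw [e]
        simp)
      refine ⟨g, g1.mono le_rfl ?_, g2⟩
      rw [div_le_iff₀ hε] at hq
      linarith
    · exact star_pat hD M hαl hδ hδ₀ hc hv
  choose D hDD using hpair
  obtain ⟨Dm, hDm⟩ := Finite.exists_le fun x : κ × κ => D x.1 x.2
  have hex := fun (p : Pl S) (j : κ) =>
    exitX hD (adm_av p) (fun l => (M p).adjugate l j) hη hδ₀ Dm
  choose ε H hε hH using hex
  have hst := fun (p : Pl S) (j α l : κ) => hDD α l (ε p j) (hε p j)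
  choose H₁ hH₁ using hst
  obtain ⟨H₀, hH₀⟩ := Finite.exists_le fun x : Pl S × κ × κ × κ =>
    max (H x.1 x.2.1) (H₁ x.1 x.2.1 x.2.2.1 x.2.2.2)
  refine ⟨H₀, fun q P Y hq hP h1 h2 hdet hpen p j => ?_⟩
  obtain ⟨α, hα⟩ := exists_eq_ciSup_of_finite (f := fun l => av p (nv Y j₀ l))
  have hmax : ∀ l, av p (nv Y j₀ l) ≤ av p (nv Y j₀ α) := fun l => by
    rw [hα]
    exact Finite.le_ciSup (fun l => av p (nv Y j₀ l)) l
  rw [← hα]
  by_cases hz : nv Y j₀ α = 0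
  · right
    rw [hz, map_zero, mul_zero]
    exact apply_nonneg _ _
  have hz' : 0 < av p (nv Y j₀ α) := (av p).pos hz
  have hadj : ∀ l, (evM P (M p)).adjugate l j = ev P ((M p).adjugate l j) := fun l => by
    have e := RingHom.map_adjugate (MvPolynomial.eval ![xc P, yc P]) (M p)
    exact (congrFun (congrFun e l) j).symm
  have key : (nv Y j₀ ᵥ* (evM P (M p)).adjugate) j =
      -nv Y j₀ α * ((fun l => rt Y j₀ α l) ⬝ᵥ evV P fun l => (M p).adjugate l j) := by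
    simp only [vecMul, dotProduct, evV, mul_sum, hadj, rt]
    refine sum_congr rfl fun l _ => ?_
    field_simp
  rw [key]
  by_cases h0 : ((fun l => rt Y j₀ α l) ⬝ᵥ evV P fun l => (M p).adjugate l j) = 0
  · left
    rw [h0, mul_zero]
  right
  have h3 := hH p j q P (fun l => rt Y j₀ α l)
    (((le_max_left _ _).trans (hH₀ (p, j, j, j))).trans hq) hP h1 h2
    (fun l => by
      rw [rt, AbsoluteValue.map_neg, map_div₀, div_le_one hz']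
      exact hmax l)
    (fun l => by
      obtain ⟨g, g1, g2⟩ := hH₁ p j α l q P Y
        (((le_max_right _ _).trans (hH₀ (p, j, α, l))).trans hq) hP h1 h2 hdet hpen hz
      exact ⟨g, g1.mono (hDm (α, l)) le_rfl, g2⟩) h0
  rw [map_mul, AbsoluteValue.map_neg, mul_comm]
  exact mul_le_mul_of_nonneg_left h3 hz'.le

/- `exists_patX`, `Pen.mono`; for each pattern `dual_small` gives `s`; by `ht_ev` (`Rt/PF`) the entries
of `evM P (M p)` have height at most `s q` if `ht P ≤ δ₀ q` with `δ₀` small and `q` is large; otherwise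
`dual_star`. -/
theorem dual_all (hD : 4 * a ^ 3 + 27 * b ^ 2 ≠ 0) (M : Pl S → Matrix κ κ (PK K)) (j₀ : κ)
    {δ η : ℝ} (hδ : 0 < δ) (hη : 0 < η) (Γ : ℝ) :
    ∃ H₀ : ℝ, ∀ (q : ℝ) (P : Pt (a : K) (b : K)) (Y : Matrix κ κ K) (bb : Pl S → κ → ℝ),
      H₀ ≤ q → P ≠ 0 → ht P ≤ q → (∀ p, (evM P (M p)).det ≠ 0) → (∀ p l, |bb p l| ≤ Γ * q) →
      vol bb ≤ -(δ * q) → Pen (fun p => evM P (M p)) j₀ bb Y →
      Dual (fun p => evM P (M p)) j₀ (η * q) Y := by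
  obtain ⟨G, hG, hpat⟩ := exists_patX S κ Γ hδ
  choose C hC0 hC using fun (x : Pl S × κ × κ) => ht_ev (K := K) a b (M x.1 x.2.1 x.2.2)
  obtain ⟨C₀, hC₀⟩ := Finite.exists_le C
  obtain ⟨C₁, hC₁, hCC⟩ : ∃ C₁ : ℝ, 0 < C₁ ∧ ∀ x, C x ≤ C₁ :=
    ⟨max C₀ 1, lt_max_of_lt_right one_pos, fun x => (hC₀ x).trans (le_max_left _ _)⟩
  have one : ∀ c : G, ∃ H₀ : ℝ, ∀ (q : ℝ) (P : Pt (a : K) (b : K)) (Y : Matrix κ κ K),
      H₀ ≤ q → P ≠ 0 → ht P ≤ q → (∀ p, (evM P (M p)).det ≠ 0) →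
      Pen (fun p => evM P (M p)) j₀ (fun p l => c.1 p l * q) Y →
      Dual (fun p => evM P (M p)) j₀ (η * q) Y := by
    intro c
    obtain ⟨c1, c2⟩ := hG c.1 c.2
    obtain ⟨s, H₁, hs, h₁⟩ := dual_small S j₀ (half_pos hδ) hη c1 c2
    have hd : 0 < s / (2 * C₁) := by positivity
    obtain ⟨H₂, h₂⟩ := dual_star hD M j₀ (half_pos hδ) hd hη c1 c2
    refine ⟨max (max H₁ H₂) (2 * C₁ / s), fun q P Y hq hP h2 hdet hpen => ?_⟩
    have q1 : H₁ ≤ q := ((le_max_left _ _).trans (le_max_left _ _)).trans hq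
    have q2 : H₂ ≤ q := ((le_max_right _ _).trans (le_max_left _ _)).trans hq
    have q3 : 2 * C₁ / s ≤ q := (le_max_right _ _).trans hq
    rcases le_total (s / (2 * C₁) * q) (ht P) with h | h
    · exact h₂ q P Y q2 hP h h2 hdet hpen
    · refine h₁ q _ Y q1 (fun p l l' => ?_) hdet hpen
      have e1 := hC (p, l, l') P
      have e2 : C (p, l, l') * (1 + ht P) ≤ C₁ * (1 + ht P) :=
        mul_le_mul_of_nonneg_right (hCC _) (by linarith [ht_nonneg P])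
      have e3 : C₁ * ht P ≤ C₁ * (s / (2 * C₁) * q) := mul_le_mul_of_nonneg_left h hC₁.le
      have e4 : C₁ * (s / (2 * C₁) * q) = s * q / 2 := by field_simp
      rw [div_le_iff₀ hs] at q3
      refine e1.trans ?_
      nlinarith
  choose H hH using one
  obtain ⟨H₀, hH₀⟩ := Finite.exists_le H
  refine ⟨max H₀ 1, fun q P Y bb hq hP h2 hdet hb hv hpen => ?_⟩
  obtain ⟨c, hc, hbc⟩ := hpat q bb (one_pos.trans_le ((le_max_right _ _).trans hq)) hb hv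
  exact hH ⟨c, hc⟩ q P Y ((hH₀ _).trans ((le_max_left _ _).trans hq)) hP h2 hdet (hpen.mono hbc)

end Pool.Agent.Lib.MP_651af7_nt.Es
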