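import Pool.Agent.Lib.MP_651af7_nt.Es.UW

/-! Forms in general position on a projective bundle over a Weierstrass curve. -/

namespace Pool.Agent.Lib.MP_651af7_nt.Es

open Finset Matrix Height NumberField Pool.Agent.Lib.MP_e97e2b_nt Pool.Agent.Lib.MP_651af7_nt.Iv
  Pool.Agent.Lib.MP_651af7_nt.Vj Pool.Agent.Lib.MP_651af7_nt.Vj.P1 Pool.Agent.Lib.MP_651af7_nt.Rt
  Pool.Agent.Lib.Common.Subspace
open Pool.Agent.Lib.MP_8865d3_nt.Fa (Small Adm wt)

open MvPolynomial

variable {K : Type} [Field K] [NumberField K]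

omit [NumberField K] in
theorem ufin_lx {n r : ℕ} (v : AbsoluteValue K ℝ) {Y : Fin n → K} {t : Fin r → K} (hY : Y ≠ 0)
    (ht : t ≠ 0) {D : ℝ} (h : |Real.log (⨆ i, v (Y i)) - Real.log (⨆ j, v (t j))| ≤ D) {l : K}
    (hl : l ≠ 0) : lx v Y l ≤ lx v t l + D ∧ lx v t l ≤ lx v Y l + D := by
  have pos : ∀ {m : ℕ} {x : Fin m → K}, x ≠ 0 → 0 < ⨆ i, v (x i) := fun {m x} hx => by
    obtain ⟨i, hi⟩ := Function.ne_iff.1 hx
    exact (v.pos hi).trans_le (le_ciSup (f := fun i => v (x i)) (Set.finite_range _).bddAbove i)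
  rw [lx, lx, Real.log_div (pos hY).ne' (v.pos hl).ne', Real.log_div (pos ht).ne' (v.pos hl).ne']
  rw [abs_le] at h
  constructor <;> linarith [h.1, h.2]

/- Port of `short_gen` and `vojtaX` (`Es/Fin`) with `mainW` (`ε / 2`; multiply `F` by `∏ l, X l`) and `absW_all`
for the finite set of all entries of `L`, `B`, `X 0`, `X 1`, `0`, `1`, all `mn B e` and all determinants of
matrices with rows among the forms and the unit vectors; this gives `Tame` with `c = s * logHeight₁ x + C`.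
`choose_rows`, `fin_gen_split` and `lx_other` are used for `lx v t`; `sup_cmp` compares `lx v (B t) l` and
`lx v t l`; `finX_lam`. -/
theorem vojtaU (W : WeierstrassCurve ℚ) [W.IsElliptic] {n r q : ℕ}
    (B : Matrix (Fin n) (Fin r) (PK K)) (L : Fin q → Fin r → PK K) (e : Fin q → ℕ) {ε : ℝ}
    (hε : 0 < ε) : ∃ (d : ℕ) (F : MvPolynomial (Fin r) (Polynomial K)), F ≠ 0 ∧
      F.IsHomogeneous d ∧ ∀ S : Finset (FinitePlace K), ∃ C : ℝ, ∀ (x y : K) (t : Fin r → K)
        (J : Pl S → Finset (Fin q)), (W.map (algebraMap ℚ K)).toAffine.Equation x y →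
        eval₂ (Polynomial.evalRingHom x) t F ≠ 0 → mn (B.map (eval ![x, y])) ≠ 0 →
        (∀ p, GenPos (fun j l => eval ![x, y] (L j l)) (J p)) →
        (∀ p, ∀ j ∈ J p, ∑ l, eval ![x, y] (L j l) * t l ≠ 0) →
        ∑ p, mu p * ∑ j ∈ J p, lamX (av p) (e j) ![x, y, 1] (B.map (eval ![x, y]) *ᵥ t)
            (∑ l, eval ![x, y] (L j l) * t l) + logHeight (mn (B.map (eval ![x, y]))) ≤
          r * logHeight (B.map (eval ![x, y]) *ᵥ t) +
            ε * (logHeight₁ x + logHeight (B.map (eval ![x, y]) *ᵥ t)) + C := by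
  classical
  obtain ⟨row, hrow⟩ : ∃ row : Fin q ⊕ Fin r → Fin r → PK K,
      row = Sum.elim L fun i => Pi.single i 1 := ⟨_, rfl⟩
  obtain ⟨d, F, hF, hd, H⟩ := mainW (K := K) W (univ.image row) B (half_pos hε)
  obtain ⟨C₁, hC₁, H1⟩ := lx_other (K := K) r
  obtain ⟨C₂, hC₂, H2⟩ := sup_cmp (K := K) n r
  refine ⟨_, F * ∏ l, X l, mul_ne_zero hF (prod_ne_zero_iff.2 fun l _ => X_ne_zero _),
    hd.mul (IsHomogeneous.prod univ _ (fun _ => 1) fun l _ => isHomogeneous_X _ l), fun S => ?_⟩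
  choose Cr hCr using fun ρ : Pl S → Fin r → Fin q ⊕ Fin r =>
    H S (fun p => Matrix.of fun l => row (ρ p l)) fun p l => mem_image_of_mem _ (mem_univ _)
  obtain ⟨M, hM⟩ : ∃ M : ℝ, M = ∑ p : Pl S, (mu p : ℝ) := ⟨_, rfl⟩
  have hM0 : 0 ≤ M := hM ▸ sum_nonneg fun p _ => by positivity
  obtain ⟨E, hE⟩ : ∃ E : ℝ, E = ∑ j, (e j : ℝ) := ⟨_, rfl⟩
  have hE0 : 0 ≤ E := hE ▸ sum_nonneg fun p _ => by positivity
  obtain ⟨A, hA⟩ : ∃ A : ℝ, A = E + (q + r) * C₂ + q * C₁ := ⟨_, rfl⟩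
  have hA0 : 0 ≤ A := by rw [hA]; positivity
  obtain ⟨s, hs⟩ : ∃ s : ℝ, s = ε / 2 / (M * A + 1) := ⟨_, rfl⟩
  have hs0 : 0 < s := by rw [hs]; positivity
  have hs1 : M * A * s ≤ ε / 2 := by
    have : s * (M * A + 1) = ε / 2 := by rw [hs]; field_simp
    nlinarith
  let g : (Fin 2 ⊕ (Fin q ⊕ Fin r) × Fin r) ⊕ (Fin n × Fin r) ⊕ (Fin r → Fin n) ⊕
      (Fin r → Fin q ⊕ Fin r) → PK K :=
    Sum.elim (Sum.elim X fun z => row z.1 z.2) (Sum.elim (fun z => B z.1 z.2)
      (Sum.elim (mn B) fun ρ => (Matrix.of fun l => row (ρ l)).det))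
  obtain ⟨C₃, hC₃, H3⟩ := absW_all W S (univ.image g) hs0
  refine ⟨∑ ρ, |Cr ρ| + M * A * (1 + C₃), fun x y t J hW hev hmn hG hne => ?_⟩
  have H4 := fun p z => H3 x y hW p (g z) (mem_image_of_mem _ (mem_univ z))
  rw [eval₂_mul, mul_ne_zero_iff, eval₂_prod, prod_ne_zero_iff] at hev
  have ht : ∀ l, t l ≠ 0 := fun l => by simpa using hev.2 l (mem_univ _)
  choose ρ hρ1 hρ2 hρ3 hρ4 using fun p : Pl S =>
    choose_rows (fun j l => eval ![x, y] (L j l)) (J p) (hG p)
      fun j => av p (∑ l, eval ![x, y] (L j l) * t l)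
  have hN : ∀ p, (Matrix.of fun l => row (ρ p l)).map (eval ![x, y]) =
      Matrix.of fun l => Sum.elim (fun j l => eval ![x, y] (L j l)) (fun i => Pi.single i 1)
        (ρ p l) := by
    intro p
    ext l i
    simp only [Matrix.map_apply, Matrix.of_apply, hrow]
    rcases ρ p l with j | j
    · rfl
    · simp only [Sum.elim_inr, Pi.single_apply]
      split_ifs <;> simp
  obtain ⟨val, hval⟩ : ∃ val : Fin q ⊕ Fin r → K,
      val = Sum.elim (fun j => ∑ l, eval ![x, y] (L j l) * t l) t := ⟨_, rfl⟩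
  have hv : ∀ p l, ((Matrix.of fun l => row (ρ p l)).map (eval ![x, y]) *ᵥ t) l = val (ρ p l) := by
    intro p l
    rw [hN, hval]
    change Sum.elim (fun j l => eval ![x, y] (L j l)) (fun i => Pi.single i 1) (ρ p l) ⬝ᵥ t = _
    rcases ρ p l with j | j
    · rfl
    · simp
  have hdet : ∀ p, ((Matrix.of fun l => row (ρ p l)).map (eval ![x, y])).det ≠ 0 := fun p => by
    rw [hN]; exact hρ2 p
  have hv0 : ∀ p l, val (ρ p l) ≠ 0 := by
    intro p l
    rcases h : ρ p l with j | j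
    · rw [hval]; exact hne p j (hρ3 p l j h)
    · rw [hval]; exact ht j
  have h1 := hCr ρ x y t hW hev.1 hmn hdet fun p l => by rw [hv]; exact hv0 p l
  simp only [vol, hv] at h1
  have hht := zero_le_logHeight₁ x
  obtain ⟨c, hc⟩ : ∃ c, c = s * logHeight₁ x + C₃ := ⟨_, rfl⟩
  have hc0 : 0 ≤ c := by rw [hc]; positivity
  rw [← hc] at H4
  obtain ⟨f, hf⟩ := Function.ne_iff.1 hmn
  have ef : mn (B.map (eval ![x, y])) f = eval ![x, y] (mn B f) :=
    (RingHom.map_det (eval ![x, y]) (B.submatrix f id)).symm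
  have hY : ∀ p : Pl S, t ≠ 0 → _ := fun p => H2 (av p) (B.map (eval ![x, y])) f t c hc0
    (fun i j => (H4 p (.inr (.inl (i, j)))).1)
    (ef ▸ (H4 p (.inr (.inr (.inl f)))).2 (ef ▸ hf :))
  generalize B.map (eval ![x, y]) *ᵥ t = Y at h1 hY ⊢
  have h2 : ∀ p, ∑ j ∈ J p, lamX (av p) (e j) ![x, y, 1] Y (∑ l, eval ![x, y] (L j l) * t l) ≤
      ∑ l, lx (av p) Y (val (ρ p l)) + A * (1 + c) := by
    intro p
    have k1 : ∑ j ∈ J p, lx (av p) t (∑ l, eval ![x, y] (L j l) * t l) ≤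
        ∑ l, lx (av p) t (val (ρ p l)) + q * (C₁ * (1 + c)) := by
      refine le_trans (le_of_eq ?_) (fin_gen_split (hρ1 p) (J p) (fun z => lx (av p) t (val z))
        (by positivity) (fun i => ?_) (hρ3 p) fun j hj => ?_)
      · simp [hval]
      · have : val (.inr i) = t i := by simp [hval]
        simp only [this, lx]
        refine Real.log_nonneg ((one_le_div ((av p).pos (ht i))).2 ?_)
        exact Finite.le_ciSup (fun i => av p (t i)) i
      · refine (hρ4 p j hj).imp id fun h => ?_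
        have e1 : val (.inl j) = ∑ l, eval ![x, y] (L j l) * t l := by simp [hval]
        have e2 := RingHom.map_det (eval ![x, y]) (Matrix.of fun l => row (ρ p l))
        simp only [e1]
        refine H1 (av p) ((Matrix.of fun l => row (ρ p l)).map (eval ![x, y])) t _ _ hc0
          ⟨fun i k => (H4 p (.inl (.inr (ρ p i, k)))).1, ?_⟩ (hne p j hj) fun l => ?_
        · exact ((H4 p (.inr (.inr (.inr (ρ p))))).2 fun h0 => hdet p (e2.symm.trans h0)).trans_eq
            (congrArg (av p) e2)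
        · obtain ⟨j', h3, h4⟩ := h l
          rw [hv, h3, hval]
          exact h4
    have k2 : ∑ l, lx (av p) t (val (ρ p l)) ≤ ∑ l, (lx (av p) Y (val (ρ p l)) + C₂ * (1 + c)) :=
      sum_le_sum fun l _ => by
        have h0 : t ≠ 0 := fun h => ht l (congrFun h l)
        exact (ufin_lx (av p) (hY p h0).1 h0 (hY p h0).2 (hv0 p l)).2
    have k3 : ∑ j ∈ J p, lamX (av p) (e j) ![x, y, 1] Y (∑ l, eval ![x, y] (L j l) * t l) ≤
        ∑ j ∈ J p, (lx (av p) t (∑ l, eval ![x, y] (L j l) * t l) + (e j * c + C₂ * (1 + c))) :=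
      sum_le_sum fun j hj => by
        have h0 : t ≠ 0 := fun h => hne p j hj (by simp [h])
        have h3 := (ufin_lx (av p) (hY p h0).1 h0 (hY p h0).2 (hne p j hj)).1
        have h4 := finX_lam (av p) (e j) (x := x) (y := y) (hne p j hj) (hY p h0).1 hc0
          (by simpa [g] using (H4 p (.inl (.inl 0))).1) (by simpa [g] using (H4 p (.inl (.inl 1))).1)
        linarith
    have k4 : ∑ j ∈ J p, ((e j : ℝ) * c + C₂ * (1 + c)) ≤ ∑ j, ((e j : ℝ) * c + C₂ * (1 + c)) :=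
      sum_le_sum_of_subset_of_nonneg (subset_univ _) fun _ _ _ => by positivity
    rw [sum_add_distrib (s := univ), ← sum_mul, ← hE] at k4
    rw [sum_add_distrib] at k2 k3
    simp only [sum_const, card_univ, Fintype.card_fin, nsmul_eq_mul] at k2 k4
    rw [hA]
    linarith
  have h3 : ∑ p, mu p * ∑ j ∈ J p, lamX (av p) (e j) ![x, y, 1] Y
      (∑ l, eval ![x, y] (L j l) * t l) ≤
      ∑ p, mu p * ∑ l, lx (av p) Y (val (ρ p l)) + M * (A * (1 + c)) := by
    rw [hM, sum_mul, ← sum_add_distrib]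
    refine sum_le_sum fun p _ => ?_
    rw [← mul_add]
    exact mul_le_mul_of_nonneg_left (h2 p) (by positivity)
  have h4 : Cr ρ ≤ ∑ ρ, |Cr ρ| := (le_abs_self _).trans
    (single_le_sum (f := fun ρ => |Cr ρ|) (fun _ _ => abs_nonneg _) (mem_univ ρ))
  have h5 := mul_le_mul_of_nonneg_right hs1 hht
  have h6 := mul_nonneg hε.le (logHeight_nonneg Y)
  rw [hc] at h3
  linarith

end Pool.Agent.Lib.MP_651af7_nt.Es
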