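import Pool.Agent.Lib.MP_651af7_nt.Es.Short
import Pool.Agent.Lib.MP_651af7_nt.Es.URed

/-! The inequality for points of a moving subspace over base points of small height. -/

namespace Pool.Agent.Lib.MP_651af7_nt.Es

open Finset Matrix Height NumberField Pool.Agent.Lib.MP_e97e2b_nt Pool.Agent.Lib.MP_651af7_nt.Iv
  Pool.Agent.Lib.MP_651af7_nt.Vj Pool.Agent.Lib.MP_651af7_nt.Vj.P1 Pool.Agent.Lib.MP_651af7_nt.Rt
  Pool.Agent.Lib.Common.Subspace
open Pool.Agent.Lib.MP_8865d3_nt.Fa (Small Adm wt)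

variable {K : Type} [Field K] [NumberField K] {a b : ℤ}

/- The proof of `short_prep` (`Es/Prep`) works word for word for rectangular systems (two cardinalities). -/
theorem short_prepU (ι κ : Type) [Fintype ι] [Fintype κ] : ∃ C : ℝ, 0 ≤ C ∧
    ∀ (S : Finset (FinitePlace K)) (N : Pl S → Matrix κ ι K) (x : ι → K) (q h : ℝ), x ≠ 0 →
    logHeight x ≤ q → 0 ≤ h → (∀ p l i, logHeight₁ (N p l i) ≤ h) → (∀ p l, (N p *ᵥ x) l ≠ 0) →
    ∃ t : K, t ≠ 0 ∧ IntV (t • x) ∧
      (∀ p l, Real.exp (-(C * (1 + q + h))) ≤ av p ((N p *ᵥ (t • x)) l) ∧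
        av p ((N p *ᵥ (t • x)) l) ≤ Real.exp (C * (1 + q + h))) ∧
      vol (fun p l => Real.log (av p ((N p *ᵥ (t • x)) l))) ≤
        C + Fintype.card κ * logHeight x - vol fun p l => lx (av p) x ((N p *ᵥ x) l) := by
  obtain ⟨C₀, hC₀, H⟩ := normalize (K := K) ι
  set d : ℝ := (Module.finrank ℚ K : ℝ) with hd
  set n : ℝ := (Fintype.card ι : ℝ) with hn
  set m : ℝ := (Fintype.card κ : ℝ) with hm
  have m0 : 0 ≤ m := Nat.cast_nonneg _
  have d0 : 0 < d := Nat.cast_pos.2 Module.finrank_pos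
  have n0 : 0 ≤ n := Nat.cast_nonneg _
  have w0 : 0 ≤ (totalWeight K : ℝ) * Real.log n :=
    mul_nonneg (Nat.cast_nonneg _) (Real.log_natCast_nonneg _)
  have c0 : 0 ≤ n * (d * C₀) := by positivity
  have c1 : 0 ≤ m * (d * C₀) := by positivity
  refine ⟨totalWeight K * Real.log n + n * (d * C₀) + m * (d * C₀) + n, by positivity,
    fun S N x q h hx hq hh hN hne => ?_⟩
  obtain ⟨t, ht, hint, hw⟩ := H x hx
  have hH := logHeight_nonneg x
  have hB : 0 ≤ C₀ + logHeight x / d := by positivity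
  have eB : d * (C₀ + logHeight x / d) = d * C₀ + logHeight x := by
    rw [mul_add, mul_div_cancel₀ _ d0.ne']
  have e1 : ∀ p l, (N p *ᵥ (t • x)) l = t * (N p *ᵥ x) l := fun p l => by
    rw [Matrix.mulVec_smul, Pi.smul_apply, smul_eq_mul]
  have hne' : ∀ p l, (N p *ᵥ (t • x)) l ≠ 0 := fun p l => by
    rw [e1]
    exact mul_ne_zero ht (hne p l)
  have h1 : ∀ i, logHeight₁ ((t • x) i) ≤ d * C₀ + q := fun i => by
    have := ht_int (hint i) hB fun w => hw w i
    rw [← hd, eB] at this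
    linarith
  have h2 : ∀ p l, logHeight₁ ((N p *ᵥ (t • x)) l) ≤
      (totalWeight K * Real.log n + n * (d * C₀) + m * (d * C₀) + n) * (1 + q + h) := fun p l => by
    have a1 := logHeight₁_sum_le (univ : Finset ι) fun i => N p l i * (t • x) i
    have a2 : ∑ i, logHeight₁ (N p l i * (t • x) i) ≤ n * (h + (d * C₀ + q)) := by
      refine (sum_le_card_nsmul _ _ (h + (d * C₀ + q)) fun i _ =>
        (logHeight₁_mul_le _ _).trans (add_le_add (hN p l i) (h1 i))).trans (le_of_eq ?_)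
      rw [nsmul_eq_mul, card_univ]
    rw [card_univ] at a1
    have a3 : 0 ≤ q + h := by linarith
    have a4 := mul_nonneg (add_nonneg (add_nonneg w0 c0) c1) a3
    refine a1.trans ?_
    nlinarith
  refine ⟨t, ht, hint, fun p l => ⟨?_, ?_⟩, ?_⟩
  · exact (Real.exp_le_exp.2 (neg_le_neg (h2 p l))).trans
      (MP_8865d3_nt.Fa.liouville (adm_av p) (hne' p l))
  · have a1 := (MP_8865d3_nt.Fa.log_max_le (adm_av p) _).trans (h2 p l)
    rw [Real.log_le_iff_le_exp (lt_max_of_lt_right one_pos)] at a1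
    exact (le_max_left _ _).trans a1
  · obtain ⟨i₀, hi₀⟩ := Function.ne_iff.1 hx
    have : Nonempty ι := ⟨i₀⟩
    have s0 : ∀ p : Pl S, 0 < ⨆ i, av p ((t • x) i) := fun p =>
      ((av p).pos (mul_ne_zero ht hi₀)).trans_le
        (Finite.le_ciSup (fun i => av p ((t • x) i)) i₀)
    have e2 : ∀ p l, Real.log (av p ((N p *ᵥ (t • x)) l)) =
        Real.log (⨆ i, av p ((t • x) i)) - lx (av p) x ((N p *ᵥ x) l) := fun p l => by
      rw [← lx_smul (av p) ht, ← e1, lx, Real.log_div (s0 p).ne' ((av p).pos (hne' p l)).ne',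
        sub_sub_cancel]
    have e3 : ∑ p : Pl S, mu p * Real.log (⨆ i, av p ((t • x) i)) ≤ d * C₀ + logHeight x := by
      rw [Fintype.sum_sum_type, ← eB, hd, ← InfinitePlace.sum_mult_eq, Nat.cast_sum, sum_mul,
        ← add_zero (∑ w : InfinitePlace K, (w.mult : ℝ) * (C₀ + _))]
      refine add_le_add (sum_le_sum fun w _ => mul_le_mul_of_nonneg_left ?_ (Nat.cast_nonneg _))
        (sum_nonpos fun v _ => mul_nonpos_of_nonneg_of_nonpos (Nat.cast_nonneg _) ?_)
      · rw [Real.log_le_iff_le_exp (s0 _), ← Nat.cast_sum, InfinitePlace.sum_mult_eq]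
        exact ciSup_le fun i => hw w i
      · exact Real.log_nonpos (s0 _).le (ciSup_le fun i => fin_le_one v.1 (hint i))
    have e4 : vol (fun p l => Real.log (av p ((N p *ᵥ (t • x)) l))) =
        m * ∑ p : Pl S, mu p * Real.log (⨆ i, av p ((t • x) i)) -
          vol fun p l => lx (av p) x ((N p *ᵥ x) l) := by
      simp only [vol, e2]
      rw [mul_sum, ← sum_sub_distrib]
      refine sum_congr rfl fun p _ => ?_
      rw [sum_sub_distrib, sum_const, card_univ, nsmul_eq_mul]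
      ring
    rw [e4]
    have := mul_le_mul_of_nonneg_left e3 m0
    linarith

/-- A square system that extends the forms `G` on the column space of `B` by equations of that space. -/
def extM {R : Type*} [CommRing R] {n r : ℕ} (B : Matrix (Fin n) (Fin r) R) (e : Fin r → Fin n)
    (G : Matrix (Fin r) (Fin r) R) : Matrix (Fin n) (Fin n) R :=
  ((1 : Matrix (Fin n) (Fin n) R).submatrix id e * G - B) *
    ((B.submatrix e id).adjugate * (1 : Matrix (Fin n) (Fin n) R).submatrix e id) + mn B e • 1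

theorem extM_map {R R' : Type*} [CommRing R] [CommRing R'] (φ : R →+* R') {n r : ℕ}
    (B : Matrix (Fin n) (Fin r) R) (e : Fin r → Fin n) (G : Matrix (Fin r) (Fin r) R) :
    (extM B e G).map φ = extM (B.map φ) e (G.map φ) := by
  have h1 : ∀ {p q : Type} (f : p → Fin n) (g : q → Fin n),
      ((1 : Matrix (Fin n) (Fin n) R).submatrix f g).map φ =
        (1 : Matrix (Fin n) (Fin n) R').submatrix f g := fun f g => by
    rw [← Matrix.submatrix_map, Matrix.map_one _ φ.map_zero φ.map_one]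
  have h2 : (B.submatrix e id).adjugate.map φ = ((B.map φ).submatrix e id).adjugate :=
    φ.map_adjugate (B.submatrix e id)
  rw [extM, extM, Matrix.map_add _ φ.map_add, Matrix.map_mul, Matrix.map_sub _ φ.map_sub,
    Matrix.map_mul, Matrix.map_mul, h1, h1, h2, mn_map]
  congr 1
  ext i j
  by_cases h : i = j <;> simp [h]

private theorem ushort_row {R : Type*} [CommRing R] {n r s : ℕ} (B : Matrix (Fin n) (Fin s) R)
    (e : Fin r → Fin n) :
    (1 : Matrix (Fin n) (Fin n) R).submatrix e id * B = B.submatrix e id := by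
  ext i j
  simp [Matrix.mul_apply, Matrix.one_apply]

/- `(1.submatrix e id) * B = B.submatrix e id`, `adjugate_mul`. -/
theorem extM_mul {R : Type*} [CommRing R] {n r : ℕ} (B : Matrix (Fin n) (Fin r) R)
    (e : Fin r → Fin n) (G : Matrix (Fin r) (Fin r) R) :
    extM B e G * B = mn B e • ((1 : Matrix (Fin n) (Fin n) R).submatrix id e * G) := by
  rw [extM, Matrix.add_mul, Matrix.mul_assoc, Matrix.mul_assoc _ _ B, ushort_row, adjugate_mul,
    Matrix.mul_smul, Matrix.mul_one, Matrix.smul_mul, Matrix.one_mul, smul_sub]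
  exact sub_add_cancel _ _

theorem extM_out {R : Type*} [CommRing R] {n r : ℕ} (B : Matrix (Fin n) (Fin r) R)
    (e : Fin r → Fin n) (G : Matrix (Fin r) (Fin r) R) (l : Fin n) (hl : l ∉ Set.range e) :
    extM B e G l ᵥ* B = 0 := by
  funext j
  have h := congrFun (congrFun (extM_mul B e G) l) j
  rw [Matrix.smul_apply, Matrix.mul_apply (M := Matrix.submatrix _ _ _),
    sum_eq_zero fun i _ => by
      rw [Matrix.submatrix_apply, id, Matrix.one_apply_ne fun h => hl ⟨i, h.symm⟩, zero_mul],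
    smul_zero] at h
  exact h

private theorem ushort_col {R : Type*} [CommRing R] {n r : ℕ} {e : Fin r → Fin n}
    (he : Function.Injective e) (y : Fin r → R) (l : Fin r) :
    ((1 : Matrix (Fin n) (Fin n) R).submatrix id e *ᵥ y) (e l) = y l := by
  simp [Matrix.mulVec, dotProduct, Matrix.one_apply, he.eq_iff]

theorem extM_val {R : Type*} [CommRing R] {n r : ℕ} (B : Matrix (Fin n) (Fin r) R)
    {e : Fin r → Fin n} (he : Function.Injective e) (G : Matrix (Fin r) (Fin r) R)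
    (t : Fin r → R) (l : Fin r) : (extM B e G *ᵥ (B *ᵥ t)) (e l) = mn B e * (G *ᵥ t) l := by
  rw [Matrix.mulVec_mulVec, extM_mul, Matrix.smul_mulVec, Pi.smul_apply, ← Matrix.mulVec_mulVec,
    ushort_col he, smul_eq_mul]

/- If `extM B e G *ᵥ y = 0` then, with `Q = adjugate * 1.submatrix e id`, the rows `e l` give
`G *ᵥ (Q *ᵥ y) = 0` (`mul_adjugate`), so `Q *ᵥ y = 0` and `mn B e • y = 0`. -/
theorem extM_det {F : Type*} [Field F] {n r : ℕ} {B : Matrix (Fin n) (Fin r) F}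
    {e : Fin r → Fin n} (hB : mn B e ≠ 0) {G : Matrix (Fin r) (Fin r) F} (hG : G.det ≠ 0) :
    (extM B e G).det ≠ 0 := by
  intro h0
  obtain ⟨y, hy, h⟩ := Matrix.exists_mulVec_eq_zero_iff.2 h0
  set z := ((B.submatrix e id).adjugate * (1 : Matrix (Fin n) (Fin n) F).submatrix e id) *ᵥ y
    with hz
  rw [extM, Matrix.add_mulVec, ← Matrix.mulVec_mulVec, ← hz, Matrix.smul_mulVec,
    Matrix.one_mulVec, Matrix.sub_mulVec, ← Matrix.mulVec_mulVec] at h
  have h1 : B.submatrix e id *ᵥ z = mn B e • fun l => y (e l) := by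
    rw [hz, Matrix.mulVec_mulVec, ← Matrix.mul_assoc, mul_adjugate, Matrix.smul_mul,
      Matrix.one_mul, Matrix.smul_mulVec]
    congr 1
    funext l
    simp [Matrix.mulVec, dotProduct, Matrix.one_apply]
  have h2 : G *ᵥ z = 0 := funext fun l => by
    have h3 := congrFun h (e l)
    have h4 : (B *ᵥ z) (e l) = mn B e • y (e l) := congrFun h1 l
    rwa [Pi.add_apply, Pi.sub_apply, ushort_col (mn_inj hB), h4, Pi.smul_apply,
      sub_add_cancel] at h3
  rw [h2, Matrix.eq_zero_of_mulVec_eq_zero hG h2, Matrix.mulVec_zero, Matrix.mulVec_zero, sub_zero,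
    zero_add] at h
  exact hy ((smul_eq_zero.1 h).resolve_left hB)

omit [NumberField K] in
private theorem ucore_lx {ι : Type} [Fintype ι] (v : AbsoluteValue K ℝ) {x : ι → K} (hx : x ≠ 0)
    {c l : K} (hc : c ≠ 0) (hl : l ≠ 0) : lx v x l = lx v x (c * l) + Real.log (v c) := by
  obtain ⟨i, hi⟩ := Function.ne_iff.1 hx
  have h1 : 0 < ⨆ i, v (x i) :=
    (v.pos hi).trans_le (le_ciSup (f := fun i => v (x i)) (Finite.bddAbove_range _) i)
  unfold lx
  rw [map_mul, Real.log_div h1.ne' (v.pos hl).ne',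
    Real.log_div h1.ne' (mul_pos (v.pos hc) (v.pos hl)).ne',
    Real.log_mul (v.pos hc).ne' (v.pos hl).ne']
  ring

omit [NumberField K] in
private theorem ucore_sub {n r : ℕ} (N : Matrix (Fin n) (Fin n) K) (e : Fin r → Fin n)
    (x : Fin n → K) (l : Fin r) : (N.submatrix e id *ᵥ x) l = (N *ᵥ x) (e l) := rfl

omit [NumberField K] in
private theorem ucore_evV {ι κ : Type} [Fintype ι] (P : Pt (a : K) (b : K)) (w : ι → PK K)
    (B : Matrix ι κ (PK K)) : evV P (w ᵥ* B) = evV P w ᵥ* evM P B := by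
  funext l
  simp [evV, evM, ev, Matrix.vecMul, dotProduct]

private theorem ucore_rows {α β ι κ : Type} [Fintype ι] [Fintype κ] (Ls : Finset (ι → α))
    (f : Matrix ι ι α → Matrix κ κ β) :
    ∃ Rs : Finset (κ → β), ∀ G : Matrix ι ι α, (∀ l, G l ∈ Ls) → ∀ l, f G l ∈ Rs := by
  classical
  exact ⟨((Fintype.piFinset fun _ : ι => Ls) ×ˢ (univ : Finset κ)).image
    fun u => f (Matrix.of u.1) u.2, fun G hG l => mem_image.2
      ⟨(G, l), mem_product.2 ⟨Fintype.mem_piFinset.2 hG, mem_univ _⟩, rfl⟩⟩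

/- Port of `short_core` (`Es/Short`) with `reduceU n r (δ / 2)`, the matrices `M p = extM B e (G p)`, and the
finite set of all rows of all `extM B e (Matrix.of ρ)`, `ρ ∈ Fintype.piFinset fun _ => Ls`, in place of `Ls`;
`Ws` consists of the `(T.map Int.cast *ᵥ w) ᵥ* B`.  If the inequality fails then `B t ≠ 0`: for `r = 0` both
sides are trivial (`mn` is the constant vector `1`, `logHeight_one`), otherwise use `extM_val`.  `short_prepU` for
`(evM P (M p)).submatrix e id`, `c • (B *ᵥ t) = B *ᵥ (c • t)`; with `Δ = mn (evM P B) e = ev P (mn B e)`: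
`lx v X l = lx v X (Δ * l) + log (v Δ)` (`main_lx` of `Es/Main`, copy it) and `log (av p Δ) ≤ s * q` for a small
`s` and large `q` (`abs_ev`). -/
theorem short_coreU (hD : 4 * a ^ 3 + 27 * b ^ 2 ≠ 0) (n r : ℕ) {δ : ℝ} (hδ : 0 < δ) :
    ∃ κ₀ : ℝ, 0 < κ₀ ∧ ∀ (Ls : Finset (Fin r → PK K)) (B : Matrix (Fin n) (Fin r) (PK K))
      (e : Fin r → Fin n), ∃ (Ws : Finset (Fin r → PK K)) (Z : Finset K),
      ∀ (S : Finset (FinitePlace K)) (G : Pl S → Matrix (Fin r) (Fin r) (PK K)),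
        (∀ p l, G p l ∈ Ls) → ∃ H₀ : ℝ, ∀ (q : ℝ) (P : Pt (a : K) (b : K)) (t : Fin r → K),
          H₀ ≤ q → P ≠ 0 → xc P ∉ Z → ht P ≤ κ₀ * q → logHeight (evM P B *ᵥ t) ≤ q →
          mn (evM P B) e ≠ 0 → (∀ p, (evM P (G p)).det ≠ 0) →
          (∀ p l, (evM P (G p) *ᵥ t) l ≠ 0) → (∀ w ∈ Ws, evV P w = 0 ∨ evV P w ⬝ᵥ t ≠ 0) →
          vol (fun p l => lx (av p) (evM P B *ᵥ t) ((evM P (G p) *ᵥ t) l)) +
            logHeight (mn (evM P B)) ≤ r * logHeight (evM P B *ᵥ t) + δ * q := by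
  classical
  obtain ⟨δ', 𝒯, hδ', hred⟩ := reduceU (K := K) n r (half_pos hδ)
  have d0 : 0 < min δ' 8 := lt_min hδ' (by norm_num)
  refine ⟨min δ' 8 / 8, by positivity, fun Ls B e => ?_⟩
  obtain ⟨Rs, hRs⟩ := ucore_rows Ls (extM B e)
  choose Ws Z hpen using fun k : Fin n => penultX (K := K) hD
    (((Fintype.piFinset fun _ : Fin n => Rs) ×ˢ (univ : Finset (PS n k))).image
      fun r => fun l => (comp k (Matrix.of r.1)).adjugate l r.2)
  refine ⟨univ.biUnion fun k => (𝒯 k ×ˢ Ws k).image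
    fun u => (u.1.map (Int.cast : ℤ → PK K) *ᵥ u.2) ᵥ* B, univ.biUnion Z, fun S G hG => ?_⟩
  obtain ⟨M, hMe⟩ : ∃ M : Pl S → Matrix (Fin n) (Fin n) (PK K), ∀ p, M p = extM B e (G p) :=
    ⟨_, fun _ => rfl⟩
  have hM : ∀ p l, M p l ∈ Rs := fun p l => by
    rw [hMe]
    exact hRs _ (hG p) l
  obtain ⟨C, hC, hprep⟩ := short_prepU (K := K) (Fin n) (Fin r)
  choose Ce hCe0 hCe using fun r : Pl S × Fin n × Fin n => ht_ev a b (M r.1 r.2.1 r.2.2)
  obtain ⟨E, hE0, hE⟩ : ∃ E : ℝ, 0 ≤ E ∧ ∀ r, Ce r ≤ E :=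
    ⟨∑ r, Ce r, sum_nonneg fun r _ => hCe0 r, fun r =>
      single_le_sum (fun r _ => hCe0 r) (mem_univ r)⟩
  obtain ⟨Γ', η, q₀, hη, hred⟩ := hred S (C * (2 + 2 * E) + 2 * E)
  choose H₁ hH₁ using fun p : Pl S => smlX hD (adm_av p) (M p) hη
  choose H₂ hH₂ using fun r : Σ k : Fin n, (Pl S → Equiv.Perm (Fin n)) × PS n k =>
    hpen r.1 S (fun p => comp r.1 ((M p).submatrix (r.2.1 p) id)) r.2.2 _ Γ' d0 (min_le_right _ _)
      fun p j => mem_image.2 ⟨(fun l => M p (r.2.1 p l), j),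
        mem_product.2 ⟨Fintype.mem_piFinset.2 fun l => hM p _, mem_univ _⟩, rfl⟩
  obtain ⟨s, s0, s1⟩ : ∃ s : ℝ, 0 < s ∧ (∑ p : Pl S, (mu p : ℝ)) * (r * (2 * s)) ≤ δ / 4 := by
    have hμ : 0 ≤ (∑ p : Pl S, (mu p : ℝ)) * r := by positivity
    refine ⟨δ / 8 / ((∑ p : Pl S, (mu p : ℝ)) * r + 1), by positivity, ?_⟩
    rw [← mul_assoc, mul_left_comm, ← mul_div_assoc, ← mul_div_assoc, div_le_iff₀ (by positivity)]
    nlinarith
  choose Ca hCa0 hCa using fun p : Pl S => abs_ev hD (adm_av p) (mn B e) s0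
  obtain ⟨B₁, hB₁⟩ := Finite.bddAbove_range H₁
  obtain ⟨B₂, hB₂⟩ := Finite.bddAbove_range H₂
  obtain ⟨B₃, hB₃⟩ := Finite.bddAbove_range Ca
  refine ⟨max (max (max 1 q₀) (B₃ / s)) (max (max B₁ B₂) (C / (δ / 4))),
    fun q P t hq hP hZ h1 h2 h0 h3 h4 h5 => ?_⟩
  simp only [max_le_iff] at hq
  obtain ⟨⟨⟨q1, q2⟩, q6⟩, ⟨q3, q4⟩, q5⟩ := hq
  rw [div_le_iff₀' (by positivity)] at q5 q6
  have q0 : 0 ≤ q := zero_le_one.trans q1
  have hq' : ht P ≤ q := by
    refine h1.trans (mul_le_of_le_one_left q0 ?_)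
    linarith [min_le_right δ' 8]
  have he := mn_inj h0
  have hev : ∀ p, evM P (M p) = extM (evM P B) e (evM P (G p)) := fun p => by
    rw [hMe]
    exact extM_map (MvPolynomial.eval ![xc P, yc P]) B e (G p)
  have hval : ∀ p l, (evM P (M p) *ᵥ (evM P B *ᵥ t)) (e l) =
      mn (evM P B) e * (evM P (G p) *ᵥ t) l := fun p l => by
    rw [hev, extM_val _ he]
  have h3' : ∀ p, (evM P (M p)).det ≠ 0 := fun p => by
    rw [hev]
    exact extM_det h0 (h3 p)
  by_contra hcon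
  rw [not_le] at hcon
  have x0 : evM P B *ᵥ t ≠ 0 := by
    intro e0
    rcases isEmpty_or_nonempty (Fin r) with hr | ⟨⟨l⟩⟩
    · have e1 : mn (evM P B) = 1 := funext fun f => Matrix.det_isEmpty
      rw [e1, logHeight_one, e0, logHeight_zero] at hcon
      simp only [vol, univ_eq_empty, sum_empty, mul_zero, sum_const_zero] at hcon
      linarith [mul_nonneg hδ.le q0]
    · have o : Pl S := .inl (Classical.arbitrary _)
      have e1 := hval o l
      rw [e0, Matrix.mulVec_zero] at e1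
      exact mul_ne_zero h0 (h4 o l) e1.symm
  have k1 : ∀ p l i, logHeight₁ (evM P (M p) l i) ≤ E * (1 + q) := fun p l i =>
    (hCe (p, l, i) P).trans (mul_le_mul (hE _) (by linarith) (by linarith [ht_nonneg P]) hE0)
  obtain ⟨c, t0, t1, t2, t3⟩ := hprep S (fun p => (evM P (M p)).submatrix e id) (evM P B *ᵥ t) q
    (E * (1 + q)) x0 h2 (by positivity) (fun p l i => k1 p _ i)
    fun p l => by
      rw [ucore_sub, hval]
      exact mul_ne_zero h0 (h4 p l)
  simp only [ucore_sub] at t2 t3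
  have g0 : E * (1 + q) ≤ 2 * E * q := by linarith [mul_le_mul_of_nonneg_left q1 hE0]
  have g2 : C * (1 + q + E * (1 + q)) ≤ C * (2 + 2 * E) * q := by
    rw [mul_assoc]
    refine mul_le_mul_of_nonneg_left ?_ hC
    linarith
  have g1 : C * (1 + q + E * (1 + q)) ≤ (C * (2 + 2 * E) + 2 * E) * q := by
    rw [add_mul]
    linarith [mul_nonneg hE0 q0]
  have g3 : E * (1 + q) ≤ (C * (2 + 2 * E) + 2 * E) * q := by
    have : 0 ≤ C * (2 + 2 * E) * q := by positivity
    rw [add_mul]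
    linarith
  have g4 : ∀ p : Pl S, Real.log (av p (mn (evM P B) e)) ≤ 2 * s * q := fun p => by
    rw [Real.log_le_iff_le_exp ((av p).pos h0)]
    have e1 : mn (evM P B) e = ev P (mn B e) := mn_map (MvPolynomial.eval ![xc P, yc P]) B e
    rw [e1]
    refine (hCa p P hP).1.trans (Real.exp_le_exp.2 ?_)
    have := hB₃ ⟨p, rfl⟩
    linarith [mul_le_mul_of_nonneg_left hq' s0.le]
  have g5 : vol (fun p l => lx (av p) (evM P B *ᵥ t) ((evM P (G p) *ᵥ t) l)) ≤
      vol (fun p l => lx (av p) (evM P B *ᵥ t)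
        ((evM P (M p) *ᵥ (evM P B *ᵥ t)) (e l))) + δ / 4 * q := by
    refine le_trans ?_ (add_le_add_right (mul_le_mul_of_nonneg_right s1 q0) _)
    rw [vol, vol, mul_assoc, sum_mul, ← sum_add_distrib]
    refine sum_le_sum fun p _ => ?_
    rw [← mul_add]
    refine mul_le_mul_of_nonneg_left ?_ (Nat.cast_nonneg _)
    have e1 : (r : ℝ) * (2 * s) * q = ∑ _l : Fin r, 2 * s * q := by
      rw [sum_const, card_univ, Fintype.card_fin, nsmul_eq_mul, mul_assoc]
    rw [e1, ← sum_add_distrib]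
    refine sum_le_sum fun l _ => ?_
    rw [hval, ucore_lx (av p) x0 h0 (h4 p l)]
    exact add_le_add_right (g4 p) _
  rw [← Matrix.mulVec_smul] at t1 t2 t3
  obtain ⟨k, π, top, Y, bb, r1, r2, r3, r4⟩ := hred q (fun p => evM P (M p)) (evM P B) e (c • t) q2
    he (fun p => (hH₁ p P q ((hB₁ ⟨p, rfl⟩).trans q3) hP hq' (h3' p)).2)
    (fun p i j => (k1 p i j).trans g3) (fun e0 => h0 (congrFun e0 e))
    (fun p l hl => by rw [hev]; exact extM_out _ e _ l hl) t1
    (fun p l => ⟨(Real.exp_le_exp.2 (neg_le_neg g1)).trans (t2 p l).1,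
      (t2 p l).2.trans (Real.exp_le_exp.2 g1)⟩)
    (by
      rw [Fintype.card_fin] at t3
      linarith)
  obtain ⟨w, w1, w2, w3⟩ := hH₂ ⟨k, π, top⟩ q P Y bb ((hB₂ ⟨_, rfl⟩).trans q4) hP
    (fun h => hZ (mem_biUnion.2 ⟨k, mem_univ _, h⟩)) h1
    (fun p => by
      rw [Short_comp]
      refine det_comp_ne _ ?_
      rw [Matrix.det_permute]
      refine mul_ne_zero ?_ (h3' p)
      rcases Int.units_eq_one_or (Equiv.Perm.sign (π p)) with e | e <;> simp [e])
    r2 (r3.trans (neg_le_neg (mul_le_mul_of_nonneg_right (min_le_left _ _) q0)))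
    (by simpa only [Short_comp] using r1)
  obtain ⟨T, T1, T2, T3⟩ := r4 _ w2 w3
  rw [Matrix.dotProduct_mulVec, dotProduct_smul, smul_eq_mul] at T3
  rw [← Short_evV, ← ucore_evV] at T2 T3
  rcases h5 _ (mem_biUnion.2 ⟨k, mem_univ _, mem_image.2 ⟨(T, w), mem_product.2 ⟨T1, w1⟩, rfl⟩⟩)
    with e1 | e1
  · exact T2 e1
  · exact mul_ne_zero t0 e1 T3

end Pool.Agent.Lib.MP_651af7_nt.Es
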