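import Pool.Agent.Lib.MP_651af7_nt.Es.Main
import Pool.Agent.Lib.MP_651af7_nt.Es.UShort

/-! The inequality for points of a moving subspace on a short curve. -/

namespace Pool.Agent.Lib.MP_651af7_nt.Es

open Finset Matrix Height NumberField Pool.Agent.Lib.MP_e97e2b_nt Pool.Agent.Lib.MP_651af7_nt.Iv
  Pool.Agent.Lib.MP_651af7_nt.Vj Pool.Agent.Lib.MP_651af7_nt.Vj.P1 Pool.Agent.Lib.MP_651af7_nt.Rt
  Pool.Agent.Lib.Common.Subspace
open Pool.Agent.Lib.MP_8865d3_nt.Fa (Small Adm wt)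

variable {K : Type} [Field K] [NumberField K] {a b : ℤ}

theorem UMain_ht_le {ι : Type} [Fintype ι] {x : ι → K} (hx : x ≠ 0) :
    logHeight x ≤ ∑ i, logHeight₁ (x i) := by
  simp only [← gsum_max]
  rw [← gsum_sup hx, ← gsum_sum _ fun i _ => finS_max (x i)]
  refine pf_gsum_mono (finS_sup x) (finS_sum _ fun i _ => finS_max (x i)) fun v => ?_
  obtain ⟨i₀, -⟩ := Function.ne_iff.1 hx
  have : Nonempty ι := ⟨i₀⟩
  obtain ⟨i, hi⟩ := exists_eq_ciSup_of_finite (f := fun i => v (x i))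
  have h0 : 0 < v (x i) := hi ▸ sup_pos v hx
  rw [← hi]
  exact (Real.log_le_log h0 (le_max_left _ _)).trans
    (single_le_sum (f := fun i => Real.log (max (v (x i)) 1))
      (fun i _ => pf_log_max_nonneg _) (mem_univ i))

/- As `main_small` (`Es/Main`) for the rows `e l` of `extM B e (G p)` (`extM_val`, `extM_map`, `mn_inj`), then
`main_lx` and `log (av p Δ) ≤ logHeight₁ Δ` (`Fa.log_max_le`); `logHeight (mn ..) ≤ ∑ f, logHeight₁ (mn .. f)`
(`gsum_sup`, `gsum_max`, `pf_gsum_mono`; the vector is nonzero), `mn_map`, `ht_ev`. -/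
theorem main_smallU (a b : ℤ) {n r : ℕ} {S : Finset (FinitePlace K)}
    (B : Matrix (Fin n) (Fin r) (PK K)) (e : Fin r → Fin n)
    (G : Pl S → Matrix (Fin r) (Fin r) (PK K)) (Q : ℝ) :
    ∃ C : ℝ, ∀ (P : Pt (a : K) (b : K)) (t : Fin r → K), ht P + logHeight (evM P B *ᵥ t) ≤ Q →
      mn (evM P B) e ≠ 0 → (∀ p l, (evM P (G p) *ᵥ t) l ≠ 0) →
      vol (fun p l => lx (av p) (evM P B *ᵥ t) ((evM P (G p) *ᵥ t) l)) +
        logHeight (mn (evM P B)) ≤ C := by
  obtain ⟨Cc, hCc, Hc⟩ := crude (K := K) (Fin n)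
  choose Ce hCe He using fun t : Pl S × Fin r × Fin n =>
    ht_ev a b (extM B e (G t.1) (e t.2.1) t.2.2)
  choose Cm hCm Hm using fun f : Fin r → Fin n => ht_ev a b (mn B f)
  set E : ℝ := ∑ t, Ce t with hE
  have hE0 : 0 ≤ E := sum_nonneg fun t _ => hCe t
  refine ⟨∑ p : Pl S, mu p * (r * (Cc * (1 + E * (1 + Q) + Q) + Cm e * (1 + Q))) +
    ∑ f, Cm f * (1 + Q), fun P t hQ hB hx => ?_⟩
  have h1 := ht_nonneg P
  have h2 : 0 ≤ logHeight (evM P B *ᵥ t) := logHeight_nonneg _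
  have hmn : ∀ f, logHeight₁ (mn (evM P B) f) ≤ Cm f * (1 + Q) := fun f => by
    have e1 : mn (evM P B) f = ev P (mn B f) := mn_map (MvPolynomial.eval ![xc P, yc P]) B f
    rw [e1]
    exact (Hm f P).trans (mul_le_mul_of_nonneg_left (by linarith) (hCm f))
  have hval : ∀ p l, evM P (extM B e (G p)) (e l) ⬝ᵥ (evM P B *ᵥ t) =
      mn (evM P B) e * (evM P (G p) *ᵥ t) l := fun p l => by
    have e1 : evM P (extM B e (G p)) = extM (evM P B) e (evM P (G p)) :=
      extM_map (MvPolynomial.eval ![xc P, yc P]) B e (G p)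
    rw [e1]
    exact extM_val _ (mn_inj hB) _ t l
  have := main_vol (fun p l => lx (av p) (evM P B *ᵥ t) ((evM P (G p) *ᵥ t) l)) (fun _ _ => 0)
    (fun _ => Cc * (1 + E * (1 + Q) + Q) + Cm e * (1 + Q)) fun p l => by
      have hne := mul_ne_zero hB (hx p l)
      have hX : evM P B *ᵥ t ≠ 0 := fun h0 => hne (by rw [← hval, h0, dotProduct_zero])
      rw [zero_add, main_lx (av p) hX hB (hx p l), ← hval]
      refine add_le_add ?_ ?_
      · refine (Hc (av p) _ _ (E * (1 + Q)) (adm_av p) (mul_nonneg hE0 (by linarith))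
          (fun i => ?_) (by rwa [hval])).trans ?_
        · refine (He (p, l, i) P).trans ?_
          exact mul_le_mul (single_le_sum (f := Ce) (fun t _ => hCe t) (mem_univ _)) (by linarith)
            (by linarith) hE0
        · exact mul_le_mul_of_nonneg_left (by linarith) hCc
      · exact ((Real.log_le_log ((av p).pos hB) (le_max_left _ _)).trans
          (Pool.Agent.Lib.MP_8865d3_nt.Fa.log_max_le (adm_av p) _)).trans (hmn e)
  refine add_le_add (by simpa [vol] using this) ?_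
  exact (UMain_ht_le (Function.ne_iff.2 ⟨e, hB⟩)).trans (sum_le_sum fun f _ => hmn f)

/- Port of `short_main` (`Es/Main`) with `short_coreU` (`δ = ε`); `N` bounds the degrees of the entries of `B`
too, `B` is replaced by `B.map (φ T)`.  With `c = ev R (Dn T) ^ N` both `evM P B` and `evM P (G p)` are multiplied
by `c`, so there is no error term: `lx_smul`, `mn_smul`, `logHeight_smul_eq_logHeight`. -/
theorem short_mainU (hD : 4 * a ^ 3 + 27 * b ^ 2 ≠ 0) {n r : ℕ} (Ls : Finset (Fin r → PK K))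
    (B : Matrix (Fin n) (Fin r) (PK K)) (e : Fin r → Fin n) {ε : ℝ} (hε : 0 < ε) :
    ∃ Θ : MvPolynomial (Option (Fin r)) K, Θ ≠ 0 ∧
      ∀ (S : Finset (FinitePlace K)) (G : Pl S → Matrix (Fin r) (Fin r) (PK K)),
        (∀ p l, G p l ∈ Ls) → ∃ C : ℝ, ∀ (P : Pt (a : K) (b : K)) (t : Fin r → K), P ≠ 0 →
          MvPolynomial.eval (fun o => o.elim (xc P) t) Θ ≠ 0 → mn (evM P B) e ≠ 0 →
          (∀ p, (evM P (G p)).det ≠ 0) → (∀ p l, (evM P (G p) *ᵥ t) l ≠ 0) →
          vol (fun p l => lx (av p) (evM P B *ᵥ t) ((evM P (G p) *ᵥ t) l)) +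
            logHeight (mn (evM P B)) ≤
            r * logHeight (evM P B *ᵥ t) + ε * (ht P + logHeight (evM P B *ᵥ t)) + C := by
  classical
  obtain ⟨κ₀, hκ, Hcore⟩ := short_coreU (K := K) hD n r hε
  obtain ⟨s, hs⟩ := pow_unbounded_of_one_lt (4 / κ₀) (by norm_num : (1 : ℝ) < 4)
  have hs' : 4 ≤ κ₀ * 4 ^ s := by
    rw [div_lt_iff₀ hκ] at hs
    linarith
  obtain ⟨Ts, hTs⟩ := exists_cosets (K := K) hD s
  obtain ⟨N, hdeg, hdegB⟩ : ∃ N : ℕ, (∀ L ∈ Ls, ∀ i, (L i).totalDegree ≤ N) ∧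
      ∀ i j, (B i j).totalDegree ≤ N :=
    ⟨max (Ls.sup fun L => univ.sup fun i => (L i).totalDegree)
      (univ.sup fun t : Fin n × Fin r => (B t.1 t.2).totalDegree),
      fun L hL i => le_max_of_le_left ((le_sup (f := fun i => (L i).totalDegree) (mem_univ i)).trans
        (le_sup (f := fun L : Fin r → PK K => univ.sup fun i => (L i).totalDegree) hL)),
      fun i j => le_max_of_le_right
        (le_sup (f := fun t : Fin n × Fin r => (B t.1 t.2).totalDegree) (mem_univ (i, j)))⟩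
  choose A B' Dn Z₁ hpull using fun T : Pt (a : K) (b : K) => exists_pull hD s T
  choose φ hφ using fun T : Pt (a : K) (b : K) =>
    pull_poly (a := a) (b := b) (A T) (B' T) (Dn T) N
  choose Ws Z₂ hcore using fun T : Pt (a : K) (b : K) =>
    Hcore (Ls.image fun L i => φ T (L i)) (B.map (φ T)) e
  choose Θd hΘd0 hΘd using fun (T : Pt (a : K) (b : K)) (w : Fin r → PK K) =>
    descend (a : K) (b : K) (A T) (Dn T) w
  choose C₁ hC₁ using fun T : Pt (a : K) (b : K) => ht_pull hD s T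
  set Bd : Pt (a : K) (b : K) → Finset (Pt (a : K) (b : K)) :=
    fun T => (fin_xc (a := a) (b := b) (Z₁ T ∪ Z₂ T)).toFinset with hBd
  refine ⟨∏ T ∈ Ts, ((∏ w ∈ Ws T, Θd T w) *
    ∏ R ∈ Bd T, (MvPolynomial.X none - MvPolynomial.C (xc (2 ^ s • R + T)))), ?_, ?_⟩
  · exact prod_ne_zero_iff.2 fun T _ => mul_ne_zero (prod_ne_zero_iff.2 fun w _ => hΘd0 T w)
      (prod_ne_zero_iff.2 fun R _ => main_XC _ _)
  intro S G hG
  choose H₀ hH₀ using fun T => hcore T S (fun p => (G p).map (φ T))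
    fun p l => mem_image.2 ⟨G p l, hG p l, rfl⟩
  set Q : ℝ := ∑ T ∈ Ts, (|H₀ T| + |C₁ T|) with hQ
  obtain ⟨C₃, H₃⟩ := main_smallU a b B e G Q
  refine ⟨|C₃|, fun P t hP hΘ hmn hdet hx => ?_⟩
  have h1 := ht_nonneg P
  have h2 : 0 ≤ logHeight (evM P B *ᵥ t) := logHeight_nonneg _
  set q : ℝ := ht P + logHeight (evM P B *ᵥ t) with hq
  have hq0 : 0 ≤ q := add_nonneg h1 h2
  by_cases hsm : q ≤ Q
  · have a1 := H₃ P t hsm hmn hx
    have a2 := le_abs_self C₃
    have a3 : 0 ≤ r * logHeight (evM P B *ᵥ t) := by positivity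
    have a4 : 0 ≤ ε * q := by positivity
    linarith
  rw [not_le] at hsm
  obtain ⟨T, hT, R, hPR⟩ := hTs P
  have hQT : |H₀ T| + |C₁ T| ≤ Q :=
    single_le_sum (f := fun T => |H₀ T| + |C₁ T|) (fun _ _ => by positivity) hT
  rw [map_prod, prod_ne_zero_iff] at hΘ
  have hΘT := hΘ T hT
  rw [map_mul, mul_ne_zero_iff, map_prod, map_prod, prod_ne_zero_iff, prod_ne_zero_iff] at hΘT
  have hR : ¬ (R = 0 ∨ xc R ∈ Z₁ T ∪ Z₂ T) := by
    intro h
    refine hΘT.2 R ((Set.Finite.mem_toFinset _).2 h) ?_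
    rw [← hPR]
    simp
  rw [not_or, mem_union, not_or] at hR
  obtain ⟨hR0, hZ₁, hZ₂⟩ := hR
  obtain ⟨hDn, hA, hB⟩ := hpull T R hR0 hZ₁
  rw [← hPR] at hA hB
  have hev : ∀ p, evM R ((G p).map (φ T)) = ev R (Dn T) ^ N • evM P (G p) := by
    intro p
    ext l i
    exact hφ T (G p l i) (hdeg _ (hG p l) i) R P hA hB
  have hevB : evM R (B.map (φ T)) = ev R (Dn T) ^ N • evM P B := by
    ext l i
    exact hφ T (B l i) (hdegB l i) R P hA hB
  have hc : ev R (Dn T) ^ N ≠ 0 := pow_ne_zero _ hDn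
  have hval : ∀ p l, (evM R ((G p).map (φ T)) *ᵥ t) l =
      ev R (Dn T) ^ N * (evM P (G p) *ᵥ t) l := by
    intro p l
    rw [hev, smul_mulVec]
    rfl
  have hvalB : evM R (B.map (φ T)) *ᵥ t = ev R (Dn T) ^ N • (evM P B *ᵥ t) := by
    rw [hevB, smul_mulVec]
  have hmnB : mn (evM R (B.map (φ T))) = (ev R (Dn T) ^ N) ^ r • mn (evM P B) := by
    rw [hevB, mn_smul]
  have hRq : ht R ≤ κ₀ * q := by
    have b1 := hC₁ T R
    rw [← hPR] at b1
    have b2 := le_abs_self (C₁ T)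
    have b3 := abs_nonneg (H₀ T)
    have b4 : 4 * q ≤ κ₀ * 4 ^ s * q := mul_le_mul_of_nonneg_right hs' hq0
    have b5 : (4 : ℝ) ^ s * ht R ≤ 4 ^ s * (κ₀ * q) := by linarith
    exact le_of_mul_le_mul_left b5 (by positivity)
  have key := hH₀ T q R t (by linarith [le_abs_self (H₀ T), abs_nonneg (C₁ T)]) hR0 hZ₂ hRq
    (by
      rw [hvalB, logHeight_smul_eq_logHeight _ hc]
      linarith)
    (by
      rw [hmnB, Pi.smul_apply, smul_eq_mul]
      exact mul_ne_zero (pow_ne_zero _ hc) hmn)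
    (fun p => by
      rw [hev, det_smul]
      exact mul_ne_zero (pow_ne_zero _ hc) (hdet p))
    (fun p l => by
      rw [hval]
      exact mul_ne_zero hc (hx p l))
    (fun w hw => by
      by_contra hcon
      rw [not_or, not_not] at hcon
      have b1 := hΘd T w (xc R) (yc R) t (MP_8865d3_nt.Fa.onE_pt hR0) hDn hcon.1 hcon.2
      have b2 : MvPolynomial.eval ![xc R, yc R] (A T) / MvPolynomial.eval ![xc R, yc R] (Dn T) =
          xc P := by
        change ev R (A T) / ev R (Dn T) = xc P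
        rw [hA, mul_div_cancel_left₀ _ hDn]
      rw [b2] at b1
      exact hΘT.1 w hw b1)
  simp only [hval, hvalB, hmnB, lx_smul _ hc, logHeight_smul_eq_logHeight _ hc,
    logHeight_smul_eq_logHeight _ (pow_ne_zero r hc)] at key
  have c3 := abs_nonneg C₃
  linarith

end Pool.Agent.Lib.MP_651af7_nt.Es
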