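import Pool.Agent.Lib.MP_651af7_nt.Es.Hom
import Pool.Agent.Lib.MP_651af7_nt.Es.UMain

/-! The inequality for points of a moving subspace on any Weierstrass curve. -/

namespace Pool.Agent.Lib.MP_651af7_nt.Es

open Finset Matrix Height NumberField Pool.Agent.Lib.MP_e97e2b_nt Pool.Agent.Lib.MP_651af7_nt.Iv
  Pool.Agent.Lib.MP_651af7_nt.Vj Pool.Agent.Lib.MP_651af7_nt.Vj.P1 Pool.Agent.Lib.MP_651af7_nt.Rt
  Pool.Agent.Lib.Common.Subspace
open Pool.Agent.Lib.MP_8865d3_nt.Fa (Small Adm wt)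

open MvPolynomial

variable {K : Type} [Field K] [NumberField K]

/- `exists_short_aff`, `abs_ev` for `aeval φ g` (see `vojtaX` in `Es/Fin`). -/
theorem absW (W : WeierstrassCurve ℚ) [W.IsElliptic] {v : AbsoluteValue K ℝ} (hv : Adm v)
    (g : PK K) {ε : ℝ} (hε : 0 < ε) : ∃ C : ℝ, 0 ≤ C ∧ ∀ x y : K,
      (W.map (algebraMap ℚ K)).toAffine.Equation x y →
      v (eval ![x, y] g) ≤ Real.exp (ε * logHeight₁ x + C) ∧
        (eval ![x, y] g ≠ 0 → Real.exp (-(ε * logHeight₁ x + C)) ≤ v (eval ![x, y] g)) := by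
  obtain ⟨a, b, C₀, φ, u, r, hD, -, hφ⟩ := exists_short_aff (K := K) W
  obtain ⟨C, hC0, hC⟩ := abs_ev hD hv (aeval φ g) hε
  refine ⟨C + ε * |C₀|, by positivity, fun x y he => ?_⟩
  obtain ⟨P, hP, hht, -, hxy⟩ := hφ x y he
  have hψ : ev P (aeval φ g) = eval ![x, y] g := by
    rw [ev, MP_8865d3_nt.Fa.fin_eval_aeval]
    exact congrArg (fun z => eval z g) (funext hxy)
  have h1 := hC P hP
  rw [hψ] at h1
  have h2 : ε * ht P + C ≤ ε * logHeight₁ x + (C + ε * |C₀|) := by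
    have := mul_le_mul_of_nonneg_left (hht.trans (add_le_add_right (le_abs_self C₀) _)) hε.le
    linarith
  exact ⟨h1.1.trans (Real.exp_le_exp.2 h2),
    fun h0 => (Real.exp_le_exp.2 (neg_le_neg h2)).trans (h1.2 h0)⟩

/- Sum of the constants of `absW`. -/
theorem absW_all (W : WeierstrassCurve ℚ) [W.IsElliptic] (S : Finset (FinitePlace K))
    (Gs : Finset (PK K)) {ε : ℝ} (hε : 0 < ε) : ∃ C : ℝ, 0 ≤ C ∧ ∀ x y : K,
      (W.map (algebraMap ℚ K)).toAffine.Equation x y → ∀ p : Pl S, ∀ g ∈ Gs,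
      av p (eval ![x, y] g) ≤ Real.exp (ε * logHeight₁ x + C) ∧
        (eval ![x, y] g ≠ 0 → Real.exp (-(ε * logHeight₁ x + C)) ≤ av p (eval ![x, y] g)) := by
  choose C hC0 hC using fun s : Pl S × Gs => absW W (adm_av s.1) s.2.1 hε
  refine ⟨∑ s, C s, sum_nonneg fun s _ => hC0 s, fun x y he p g hg => ?_⟩
  have h1 := hC (p, ⟨g, hg⟩) x y he
  have h2 : ε * logHeight₁ x + C (p, ⟨g, hg⟩) ≤ ε * logHeight₁ x + ∑ s, C s :=
    add_le_add_right (single_le_sum (fun s _ => hC0 s) (mem_univ _)) _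
  exact ⟨h1.1.trans (Real.exp_le_exp.2 h2),
    fun h0 => (Real.exp_le_exp.2 (neg_le_neg h2)).trans (h1.2 h0)⟩

/- Upper bound: `v.sum_le`; lower bound: `inv_le` (`Es/AApx`) for `B.submatrix e id`. -/
theorem sup_cmp (n r : ℕ) : ∃ C : ℝ, 0 ≤ C ∧ ∀ (v : AbsoluteValue K ℝ)
    (B : Matrix (Fin n) (Fin r) K) (e : Fin r → Fin n) (t : Fin r → K) (c : ℝ), 0 ≤ c →
    (∀ i j, v (B i j) ≤ Real.exp c) → Real.exp (-c) ≤ v (mn B e) → t ≠ 0 →
    B *ᵥ t ≠ 0 ∧ |Real.log (⨆ i, v ((B *ᵥ t) i)) - Real.log (⨆ j, v (t j))| ≤ C * (1 + c) := by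
  obtain ⟨C, hC0, hC⟩ := inv_le (K := K) (Fin r)
  refine ⟨C + r + 1, by positivity, fun v B e t c hc hB hm ht0 => ?_⟩
  have hM : Tame v c (B.submatrix e id) := ⟨fun i j => hB _ _, hm⟩
  have hdet : (B.submatrix e id).det ≠ 0 := fun h => by
    have h1 := hM.2
    rw [h, map_zero] at h1
    exact absurd (Real.exp_pos (-c)) (not_lt.2 h1)
  have hl : ∀ l, (B.submatrix e id *ᵥ t) l = (B *ᵥ t) (e l) := fun l => rfl
  have hne : B *ᵥ t ≠ 0 := fun h => ht0 (Matrix.eq_zero_of_mulVec_eq_zero hdet (funext fun l => by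
    rw [hl, h]
    rfl))
  refine ⟨hne, ?_⟩
  obtain ⟨i, hi⟩ := Function.ne_iff.1 hne
  obtain ⟨j, hj⟩ := Function.ne_iff.1 ht0
  have hA1 : ∀ i, v ((B *ᵥ t) i) ≤ ⨆ i, v ((B *ᵥ t) i) := fun i =>
    le_ciSup (f := fun i => v ((B *ᵥ t) i)) (Set.finite_range _).bddAbove i
  have hT1 : ∀ j, v (t j) ≤ ⨆ j, v (t j) := fun j =>
    le_ciSup (f := fun j => v (t j)) (Set.finite_range _).bddAbove j
  set A := ⨆ i, v ((B *ᵥ t) i) with hA
  set T := ⨆ j, v (t j) with hT
  have hA0 : 0 < A := (v.pos hi).trans_le (hA1 i)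
  have hT0 : 0 < T := (v.pos hj).trans_le (hT1 j)
  have h1 : Real.log T ≤ C * (1 + c) + Real.log A := by
    rw [Real.log_le_iff_le_exp hT0]
    refine Real.iSup_le (hC v c _ t _ hc hM fun l => ?_) (Real.exp_pos _).le
    rw [Real.exp_log hA0, hl]
    exact hA1 _
  have h2 : Real.log A ≤ r + c + Real.log T := by
    rw [Real.log_le_iff_le_exp hA0]
    refine Real.iSup_le (fun k => ?_) (Real.exp_pos _).le
    rw [Real.exp_add, Real.exp_add, Real.exp_log hT0]
    have h3 : v ((B *ᵥ t) k) ≤ r * (Real.exp c * T) := by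
      refine (v.sum_le (univ : Finset (Fin r)) fun l => B k l * t l).trans
        ((sum_le_card_nsmul _ _ (Real.exp c * T) fun l _ => ?_).trans_eq
          (by rw [nsmul_eq_mul, card_univ, Fintype.card_fin]))
      rw [map_mul]
      exact mul_le_mul (hB k l) (hT1 l) (v.nonneg _) (Real.exp_pos c).le
    have h4 : (r : ℝ) ≤ Real.exp r := by linarith [Real.add_one_le_exp (r : ℝ)]
    rw [mul_assoc]
    exact h3.trans (mul_le_mul_of_nonneg_right h4 (by positivity))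
  have h5 : (0 : ℝ) ≤ r * c := by positivity
  have h6 : (0 : ℝ) ≤ C * c := by positivity
  have h7 : (0 : ℝ) ≤ r := by positivity
  rw [abs_le]
  constructor <;> nlinarith

/- `exists_short_aff`; all polynomials `g` become `aeval φ g`; `short_mainU` for every `e : Fin r → Fin n`, product
of the `Θ e`, sum of the absolute values of the constants (`mn .. ≠ 0` gives `e` with `mn .. e ≠ 0`); `Θ` is
transported as in `vojtaX` (`Es/Fin`); `exists_hom`, `lx_smul` as in `vojtaH` (`Es/Hom`). -/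
theorem mainW (W : WeierstrassCurve ℚ) [W.IsElliptic] {n r : ℕ} (Ls : Finset (Fin r → PK K))
    (B : Matrix (Fin n) (Fin r) (PK K)) {ε : ℝ} (hε : 0 < ε) :
    ∃ (d : ℕ) (F : MvPolynomial (Fin r) (Polynomial K)), F ≠ 0 ∧ F.IsHomogeneous d ∧
      ∀ (S : Finset (FinitePlace K)) (G : Pl S → Matrix (Fin r) (Fin r) (PK K)),
        (∀ p l, G p l ∈ Ls) → ∃ C : ℝ, ∀ (x y : K) (t : Fin r → K),
          (W.map (algebraMap ℚ K)).toAffine.Equation x y →
          eval₂ (Polynomial.evalRingHom x) t F ≠ 0 → mn (B.map (eval ![x, y])) ≠ 0 →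
          (∀ p, ((G p).map (eval ![x, y])).det ≠ 0) →
          (∀ p l, ((G p).map (eval ![x, y]) *ᵥ t) l ≠ 0) →
          vol (fun p l => lx (av p) (B.map (eval ![x, y]) *ᵥ t)
            (((G p).map (eval ![x, y]) *ᵥ t) l)) + logHeight (mn (B.map (eval ![x, y]))) ≤
            r * logHeight (B.map (eval ![x, y]) *ᵥ t) +
              ε * (logHeight₁ x + logHeight (B.map (eval ![x, y]) *ᵥ t)) + C := by
  classical
  obtain ⟨a, b, C₀, φ, u, s, hD, hu, hφ⟩ := exists_short_aff (K := K) W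
  obtain ⟨Φ, hΦ⟩ : ∃ Φ : PK K → PK K, ∀ (P : Pt (a : K) (b : K)) (g : PK K),
      ev P (Φ g) = eval (fun i => ev P (φ i)) g :=
    ⟨aeval φ, fun P g => MP_8865d3_nt.Fa.fin_eval_aeval _ _ _⟩
  choose Θ hΘ H using fun e : Fin r → Fin n =>
    short_mainU hD (Ls.image fun L l => Φ (L l)) (B.map Φ) e hε
  let ψ : Option (Fin r) → MvPolynomial (Option (Fin r)) K :=
    fun o => o.elim (C u * X none + C s) fun l => X (some l)
  have h0 : aeval ψ (∏ e, Θ e) ≠ 0 := by
    intro h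
    refine prod_ne_zero_iff.2 (fun e (_ : e ∈ univ) => hΘ e) ?_
    let ψ' : Option (Fin r) → MvPolynomial (Option (Fin r)) K :=
      fun o => o.elim (C u⁻¹ * (X none - C s)) fun l => X (some l)
    have h1 : (aeval ψ').comp (aeval ψ) = AlgHom.id K (MvPolynomial (Option (Fin r)) K) := by
      refine algHom_ext fun o => ?_
      rcases o with _ | l
      · simp only [ψ, ψ', AlgHom.comp_apply, aeval_X, Option.elim_none, map_add, map_mul, aeval_C,
          algebraMap_eq, AlgHom.id_apply]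
        rw [← mul_assoc, ← C_mul, mul_inv_cancel₀ hu, C_1, one_mul, sub_add_cancel]
      · simp [ψ, ψ']
    have h2 := DFunLike.congr_fun h1 (∏ e, Θ e)
    rw [AlgHom.comp_apply, h, map_zero] at h2
    exact h2.symm
  obtain ⟨d, F, h1, h2, h3⟩ := exists_hom h0
  refine ⟨d, F, h1, h2, fun S G hG => ?_⟩
  choose C₁ hC₁ using fun e => H e S (fun p => (G p).map Φ)
    fun p l => mem_image_of_mem (fun L l => Φ (L l)) (hG p l)
  refine ⟨∑ e, |C₁ e| + ε * C₀, fun x y t he hF hB hd hl => ?_⟩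
  obtain ⟨P, hP, hht, hxc, hxy⟩ := hφ x y he
  obtain ⟨z, hz, h4⟩ := h3 x t hF
  have hV : ∀ {m : ℕ} (M : Matrix (Fin m) (Fin r) (PK K)),
      evM P (M.map Φ) = M.map (eval ![x, y]) := fun M => by
    ext i j
    exact (hΦ P _).trans (congrArg (fun z => eval z (M i j)) (funext hxy))
  obtain ⟨e, he⟩ := Function.ne_iff.1 hB
  have h5 : eval (fun o => o.elim (xc P) (z • t)) (Θ e) ≠ 0 := by
    rw [MP_8865d3_nt.Fa.fin_eval_aeval, map_prod, prod_ne_zero_iff] at h4
    convert h4 e (mem_univ e) using 3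
    funext o
    rcases o with _ | l <;> simp [ψ, hxc]
  have h6 := hC₁ e P (z • t) hP h5 (by rw [hV]; exact he) (fun p => by rw [hV]; exact hd p)
    fun p l => by rw [hV, Matrix.mulVec_smul]; exact mul_ne_zero hz (hl p l)
  simp only [hV, Matrix.mulVec_smul, Pi.smul_apply, smul_eq_mul, lx_smul _ hz,
    logHeight_smul_eq_logHeight _ hz] at h6
  have h7 : C₁ e ≤ ∑ e, |C₁ e| := (le_abs_self _).trans
    (single_le_sum (f := fun e => |C₁ e|) (fun _ _ => abs_nonneg _) (mem_univ e))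
  have h8 := mul_le_mul_of_nonneg_left hht hε.le
  linarith

end Pool.Agent.Lib.MP_651af7_nt.Es
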